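import Pool.Agent.Y648.TP.StmC

set_option autoImplicit false

/-!
# The basis of the row space found by the algorithm
-/

namespace Pool.Agent.Y648.TP

open Pool.Agent.NPC Pool.Agent.H558R2 Pool.Agent.H622R3.SM Pool.Agent.W920.FC Pool.Agent.Y648.CS

/-- The matrix whose columns are the rows of the list. -/
noncomputable def Mt (n m : ℕ) (a : ℕ → ℕ → ℝ) (l : List ℕ) : Matrix (Fin n) (Fin n) ℝ :=
  Matrix.of fun i k : Fin n => Mu m a (l.getD k 0) i

/-- The vector with the number `c`. -/
noncomputable def wv (n m : ℕ) (a : ℕ → ℕ → ℝ) (c : ℕ) : Fin n → ℝ := fun i => Mu m a c i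

theorem dt_Mt (n m : ℕ) (a : ℕ → ℕ → ℝ) (l : List ℕ) :
    dt n (Mu m a) l = (Mt n m a l).det := rfl

theorem getD_set (l : List ℕ) (k c j : ℕ) (hk : k < l.length) :
    (l.set k c).getD j 0 = if j = k then c else l.getD j 0 := by
  rw [List.getD_eq_getElem?_getD, List.getD_eq_getElem?_getD, List.getElem?_set]
  by_cases h : k = j
  · subst h
    simp [hk]
  · rw [if_neg h, if_neg (fun h' => h h'.symm)]

theorem Mt_set (n m : ℕ) (a : ℕ → ℕ → ℝ) (l : List ℕ) (hl : l.length = n) (k : Fin n) (c : ℕ) :
    Mt n m a (l.set k c) = (Mt n m a l).updateCol k (wv n m a c) := by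
  ext i j
  rw [Matrix.updateCol_apply]
  simp only [Mt, wv, Matrix.of_apply]
  rw [getD_set l k c j (by rw [hl]; exact k.2)]
  by_cases h : j = k
  · subst h
    simp
  · rw [if_neg h, if_neg (fun h' => h (Fin.ext h'))]

theorem dt_set (n m : ℕ) (a : ℕ → ℕ → ℝ) (l : List ℕ) (hl : l.length = n) (k : Fin n) (c : ℕ) :
    dt n (Mu m a) (l.set k c) = Matrix.cramer (Mt n m a l) (wv n m a c) k := by
  rw [dt_Mt, Mt_set n m a l hl k c, Matrix.cramer_apply]

theorem det_two {n : ℕ} (A : Matrix (Fin n) (Fin n) ℝ) (hA : A.det ≠ 0) (j k : Fin n)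
    (hjk : j ≠ k) (v w : Fin n → ℝ) (hv : (A.updateCol k v).det = 0)
    (hw : (A.updateCol k w).det = 0) : ((A.updateCol j v).updateCol k w).det = 0 := by
  rw [← Matrix.exists_vecMul_eq_zero_iff]
  have hcr : ∀ x : Fin n → ℝ, ∑ i, A.adjugate k i * x i = (A.updateCol k x).det := by
    intro x
    rw [← Matrix.cramer_apply, Matrix.cramer_eq_adjugate_mulVec]
    rfl
  refine ⟨A.adjugate k, ?_, ?_⟩
  · intro h0
    have h1 := hcr (fun i => A i k)
    rw [h0] at h1
    simp only [Pi.zero_apply, zero_mul, Finset.sum_const_zero] at h1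
    have h2 : A.updateCol k (fun i => A i k) = A := by
      ext i l
      rw [Matrix.updateCol_apply]
      split_ifs with h
      · rw [h]
      · rfl
    rw [h2] at h1
    exact hA h1.symm
  · funext l
    show ∑ i, A.adjugate k i * ((A.updateCol j v).updateCol k w) i l = 0
    by_cases hlk : l = k
    · subst hlk
      have h3 : ∀ i, ((A.updateCol j v).updateCol l w) i l = w i := fun i => by
        rw [Matrix.updateCol_apply, if_pos rfl]
      simp only [h3]
      rw [hcr, hw]
    · by_cases hlj : l = j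
      · subst hlj
        have h3 : ∀ i, ((A.updateCol l v).updateCol k w) i l = v i := fun i => by
          rw [Matrix.updateCol_apply, if_neg hlk, Matrix.updateCol_apply, if_pos rfl]
        simp only [h3]
        rw [hcr, hv]
      · have h3 : ∀ i, ((A.updateCol j v).updateCol k w) i l = A i l := fun i => by
          rw [Matrix.updateCol_apply, if_neg hlk, Matrix.updateCol_apply, if_neg hlj]
        simp only [h3]
        rw [hcr (fun i => A i l)]
        refine Matrix.det_zero_of_column_eq (i := k) (j := l) (fun h => hlk h.symm) fun i => ?_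
        rw [Matrix.updateCol_apply, if_pos rfl, Matrix.updateCol_apply, if_neg hlk]

theorem signOut_ne (x : ℝ) : signOut x ≠ none ↔ x ≠ 0 := by
  unfold signOut
  constructor
  · intro h h0
    rw [h0] at h
    simp at h
  · intro h
    rcases lt_or_gt_of_ne h with h1 | h1
    · rw [if_neg (not_lt.2 h1.le), if_pos h1]
      simp
    · rw [if_pos h1]
      simp

/-- The invariant. -/
def BInv (m n : ℕ) (a : ℕ → ℕ → ℝ) (j : ℕ) (s : ℕ × List ℕ) : Prop :=
  s.1 = j ∧ s.2.length = n ∧ (∀ k < n, s.2.getD k 0 < m ∨ s.2.getD k 0 = m + k) ∧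
    (∀ k, j ≤ k → k < n → s.2.getD k 0 = m + k) ∧ dt n (Mu m a) s.2 ≠ 0 ∧
    ∀ k < n, k < j → m ≤ s.2.getD k 0 → ∀ c < m, dt n (Mu m a) (s.2.set k c) = 0

theorem getD_map_range (m : ℕ) (g : ℕ → Outcome) (c : ℕ) (hc : c < m) :
    ((List.range m).map g).getD c none = g c := by
  rw [List.getD_eq_getElem _ _ (by simpa using hc), List.getElem_map, List.getElem_range]

theorem BInv_step (m n : ℕ) (a : ℕ → ℕ → ℝ) (j : ℕ) (hj : j < n) (s : ℕ × List ℕ)
    (h : BInv m n a j s) : BInv m n a (j + 1) (bsU m s ((List.range m).map fun c =>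
      signOut ((-1) ^ (n - 1) * dt n (Mu m a) (s.2.set s.1 c)))) := by
  obtain ⟨h1, hlen, hor, hhi, hdt, hzero⟩ := h
  obtain ⟨j', I⟩ := s
  simp only at h1 hlen hor hhi hdt hzero
  subst h1
  have hnz : ∀ c < m, (((List.range m).map fun c =>
      signOut ((-1) ^ (n - 1) * dt n (Mu m a) (I.set j' c))).getD c none ≠ none ↔
        dt n (Mu m a) (I.set j' c) ≠ 0) := by
    intro c hc
    rw [getD_map_range m _ c hc, signOut_ne]
    constructor
    · intro h h0
      rw [h0, mul_zero] at h
      exact h rfl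
    · intro h
      exact mul_ne_zero (pow_ne_zero _ (by norm_num)) h
  have hjl : j' < I.length := by rw [hlen]; exact hj
  simp only [bsU]
  cases hh : ((List.range m).filter fun c => decide (((List.range m).map fun c =>
      signOut ((-1) ^ (n - 1) * dt n (Mu m a) (I.set j' c))).getD c none ≠ none)).head? with
  | none =>
    rw [List.head?_eq_none_iff, List.filter_eq_nil_iff] at hh
    refine ⟨rfl, hlen, hor, fun k hk hkn => hhi k (by omega) hkn, hdt, ?_⟩
    intro k hkn hk hmk c hc
    rcases Nat.lt_succ_iff_lt_or_eq.1 hk with hk' | hk'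
    · exact hzero k hkn hk' hmk c hc
    · rw [hk']
      have h2 := hh c (List.mem_range.2 hc)
      rw [decide_eq_true_eq] at h2
      by_contra h3
      exact h2 ((hnz c hc).2 h3)
  | some c0 =>
    have hmem := List.mem_of_head? hh
    rw [List.mem_filter, List.mem_range, decide_eq_true_eq] at hmem
    obtain ⟨hc0, hc1⟩ := hmem
    have hd0 := (hnz c0 hc0).1 hc1
    simp only [Option.elim]
    refine ⟨rfl, by rw [List.length_set]; exact hlen, ?_, ?_, hd0, ?_⟩
    · intro k hk
      rw [getD_set I j' c0 k hjl]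
      split_ifs with h
      · exact Or.inl hc0
      · exact hor k hk
    · intro k hk hkn
      rw [getD_set I j' c0 k hjl, if_neg (by omega)]
      exact hhi k (by omega) hkn
    · intro k hkn hk hmk c hc
      rw [getD_set I j' c0 k hjl] at hmk
      split_ifs at hmk with h
      · omega
      · have hk' : k < j' := by omega
        have z1 := hzero k hkn hk' hmk c hc
        have z0 := hzero k hkn hk' hmk c0 hc0
        have e1 : dt n (Mu m a) (I.set k c) = ((Mt n m a I).updateCol ⟨k, hkn⟩
            (wv n m a c)).det := by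
          rw [dt_Mt, ← Mt_set n m a I hlen ⟨k, hkn⟩ c]
        have e0 : dt n (Mu m a) (I.set k c0) = ((Mt n m a I).updateCol ⟨k, hkn⟩
            (wv n m a c0)).det := by
          rw [dt_Mt, ← Mt_set n m a I hlen ⟨k, hkn⟩ c0]
        rw [e1] at z1
        rw [e0] at z0
        have e2 : dt n (Mu m a) ((I.set j' c0).set k c) =
            (((Mt n m a I).updateCol ⟨j', hj⟩ (wv n m a c0)).updateCol ⟨k, hkn⟩
              (wv n m a c)).det := by
          rw [dt_Mt, ← Mt_set n m a I hlen ⟨j', hj⟩ c0,
            ← Mt_set n m a (I.set j' c0) (by rw [List.length_set]; exact hlen) ⟨k, hkn⟩ c]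
        rw [e2]
        refine det_two (Mt n m a I) hdt ⟨j', hj⟩ ⟨k, hkn⟩ (fun h' => ?_) _ _ z0 z1
        rw [Fin.mk.injEq] at h'
        omega

theorem BInv_zero (m n : ℕ) (a : ℕ → ℕ → ℝ) :
    BInv m n a 0 (0, (List.range n).map fun k => m + k) := by
  have hget : ∀ k < n, ((List.range n).map fun k => m + k).getD k 0 = m + k := by
    intro k hk
    rw [List.getD_eq_getElem _ _ (by simpa using hk), List.getElem_map, List.getElem_range]
  refine ⟨rfl, by simp, fun k hk => Or.inr (hget k hk), fun k _ hk => hget k hk, ?_,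
    fun k _ hk => absurd hk (Nat.not_lt_zero _)⟩
  have h1 : Mt n m a ((List.range n).map fun k => m + k) = 1 := by
    ext i k
    simp only [Mt, Matrix.of_apply]
    rw [hget k k.2, Matrix.one_apply]
    unfold Mu
    rw [if_neg (by omega)]
    by_cases h : i = k
    · rw [if_pos h, if_pos (by rw [h])]
    · rw [if_neg h, if_neg (fun h' => h (Fin.ext (by omega)))]
  rw [dt_Mt, h1, Matrix.det_one]
  exact one_ne_zero

theorem t_BAS : S_BAS := by
  intro m n a _
  have key : ∀ j, j ≤ n → BInv m n a j ((fun s : ℕ × List ℕ => bsU m s ((List.range m).map fun c =>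
      signOut ((-1) ^ (n - 1) * dt n (Mu m a) (s.2.set s.1 c))))^[j]
      (0, (List.range n).map fun k => m + k)) := by
    intro j
    induction j with
    | zero => exact fun _ => BInv_zero m n a
    | succ j ih =>
      intro hj
      rw [Function.iterate_succ_apply']
      exact BInv_step m n a j (by omega) _ (ih (by omega))
  obtain ⟨_, h2, h3, _, h5, h6⟩ := key n le_rfl
  exact ⟨h2, h3, h5, fun k hk hm c hc => h6 k hk hk hm c hc⟩

end Pool.Agent.Y648.TP
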