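import Pool.Agent.Y648.TP.StmM
import Pool.Agent.Y648.CS.Ut
import Pool.Agent.W920.FC.T_PROJ

set_option autoImplicit false

/-!
# Totally nonnegative column spaces: basis and tableau queries (helper574)
-/

namespace Pool.Agent.Y648.TP

open Pool.Agent.NPC Pool.Agent.H558R2 Pool.Agent.H622R3.SM Pool.Agent.W920.FC Pool.Agent.Y648.CS

namespace TBST

lemma uE_base (m : ℕ) (l : List ℕ) (i k : ℕ) : uE m l i k ∈ baseReg := by
  show (uE m l i k).headD 0 < 4
  unfold uE
  split_ifs <;> simp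

lemma uE_val (m : ℕ) (l : List ℕ) {g : Reg → ℝ} (hg : Base g) (i k : ℕ) :
    g (uE m l i k) = Mu m (aR g) (l.getD k 0) i := by
  unfold uE Mu aR
  split_ifs with h1 h2
  · rfl
  · exact hg.1
  · exact hg.2

lemma dtE_uE {q : Polynomial ℕ}
    (hq : ∀ (S K : ℕ) (e : ℕ → ℕ → Reg) (g : Reg → ℝ), Base g →
      1 ≤ K → K ≤ S + 1 → (∀ i < K, ∀ k < K, e i k ∈ baseReg) →
      HasVal g (Gd q S g) (dtE K e)
        ((-1) ^ (K - 1) * (Matrix.of fun i k : Fin K => g (e i k)).det) ∧
      (dtE K e).1.length ≤ q.eval S)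
    {S m n : ℕ} {g : Reg → ℝ} (hg : Base g) (hn : 1 ≤ n) (hS : m + n ≤ S) (l : List ℕ) :
    HasVal g (Gd q S g) (dtE n (uE m l)) ((-1) ^ (n - 1) * dt n (Mu m (aR g)) l) ∧
      (dtE n (uE m l)).1.length ≤ q.eval S := by
  have h := hq S n (uE m l) g hg hn (by omega) (fun i _ k _ => uE_base m l i k)
  have e : (Matrix.of fun i k : Fin n => g (uE m l i k)) =
      Matrix.of fun i k : Fin n => Mu m (aR g) (l.getD k 0) i := by
    ext i k
    exact uE_val m l hg i k
  rw [e] at h
  exact h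

lemma sum_le {α : Type} (l : List α) (f : α → ℕ) (c : ℕ) (h : ∀ x ∈ l, f x ≤ c) :
    (l.map f).sum ≤ l.length * c := by
  have := List.sum_le_card_nsmul (l.map f) c (by
    intro y hy
    obtain ⟨x, hx, rfl⟩ := List.mem_map.1 hy
    exact h x hx)
  simpa using this

lemma QB_mul {β γ : ℕ} {x y : ℝ} (hx : QB β x) (hy : QB γ y) : QB (β + γ) (x * y) := by
  obtain ⟨E, z, h1, h2, h3, h4⟩ := hx
  obtain ⟨E', z', h1', h2', h3', h4'⟩ := hy
  refine ⟨E * E', z * z', Nat.mul_pos h1 h1', ?_, ?_, ?_⟩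
  · rw [pow_add]; exact Nat.mul_le_mul h2 h2'
  · rw [Int.natAbs_mul, pow_add]; exact Nat.mul_le_mul h3 h3'
  · push_cast
    linear_combination (y * E') * h4 + (z : ℝ) * h4'

lemma hv_val {g : Reg → ℝ} {p : Polynomial ℕ} {S : ℕ} {qr : Qry} {v : ℝ}
    (hq : HasVal g (Gd p S g) qr v) {lam : ℕ} (hl : RB lam g) :
    QB (p.eval (S + lam) + (S + lam)) v := by
  obtain ⟨_, V, h2, h3, h4, rfl⟩ := hq
  rcases h4 with h4 | ⟨I, hI, h4⟩
  · rw [h2 _ h4]
    obtain ⟨D, d1, d2, d3⟩ := hl
    obtain ⟨z, z1, z2⟩ := d3 _ h4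
    exact qb_mono (by omega) ⟨D, z, d1, d2, z1, z2⟩
  · rw [← h4]
    exact qb_mono (by omega) ((h3 I hI).2.2 lam hl)

end TBST

open TBST

/-- BST -/
theorem t_BST (hD : S_DTE) : S_BST := by
  obtain ⟨q, hq⟩ := hD
  refine ⟨q + Polynomial.X * (Polynomial.X * (q + 1)), fun S m n g hg hm hn hS => ?_⟩
  obtain ⟨F, hF⟩ : ∃ F : ℕ × List ℕ → ℕ × List ℕ, F = fun s => bsU m s ((List.range m).map fun c =>
    signOut ((-1) ^ (n - 1) * dt n (Mu m (aR g)) (s.2.set s.1 c))) := ⟨_, rfl⟩
  have h1 : ∀ s : ℕ × List ℕ, Runs g (Gd q S g)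
      (bnd (batch (bsQs m n s)) fun o => ret (bsU m s o)) (F s) (m * (q.eval S + 1)) := by
    intro s
    have h2 : List.Forall₂ (HasVal g (Gd q S g)) (bsQs m n s)
        ((List.range m).map fun c =>
          (-1) ^ (n - 1) * dt n (Mu m (aR g)) (s.2.set s.1 c)) := by
      unfold bsQs
      rw [List.forall₂_map_left_iff, List.forall₂_map_right_iff]
      exact List.forall₂_same.2 fun c _ => (dtE_uE hq hg hn hS _).1
    have h3 := runs_bnd (f := fun o => ret (bsU m s o)) (runs_batch h2) (runs_ret _)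
    have h4 : ((bsQs m n s).map fun q => q.1.length + 1).sum ≤ m * (q.eval S + 1) := by
      have h5 := sum_le (bsQs m n s) (fun q => q.1.length + 1) (q.eval S + 1) (by
        intro x hx
        unfold bsQs at hx
        obtain ⟨c, -, rfl⟩ := List.mem_map.1 hx
        exact Nat.succ_le_succ (dtE_uE hq hg hn hS _).2)
      have h6 : (bsQs m n s).length = m := by
        unfold bsQs
        simp
      rwa [h6] at h5
    have h7 : F s = bsU m s (((List.range m).map fun c =>
        (-1) ^ (n - 1) * dt n (Mu m (aR g)) (s.2.set s.1 c)).map signOut) := by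
      rw [hF, List.map_map]
      rfl
    rw [h7]
    exact t_TT.2.2.2 _ g _ _ _ _ _ _ (fun v h => h) (by omega) h3
  have h2 := t_TT.2.2.1 (ℕ × List ℕ) g (Gd q S g)
    (fun s => bnd (batch (bsQs m n s)) fun o => ret (bsU m s o))
    (fun i => F^[i] (0, (List.range n).map fun k => m + k)) n (m * (q.eval S + 1)) (by
      intro i _
      show Runs g (Gd q S g) _ (F^[i + 1] _) _
      rw [Function.iterate_succ_apply']
      exact h1 _)
  have h3 : bsP m n (aR g) = F^[n] (0, (List.range n).map fun k => m + k) := by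
    rw [hF]
    rfl
  rw [h3]
  refine runs_mono (ple_add_left _ _) ?_ h2
  rw [Polynomial.eval_add, Polynomial.eval_mul, Polynomial.eval_mul, Polynomial.eval_X,
    Polynomial.eval_add, Polynomial.eval_one]
  have h4 : n * (m * (q.eval S + 1)) ≤ S * (S * (q.eval S + 1)) :=
    Nat.mul_le_mul (by omega) (Nat.mul_le_mul_right _ (by omega))
  omega

/-- TBQ -/
theorem t_TBQ (hD : S_DTE) (hC : S_CMB) : S_TBQ := by
  obtain ⟨q, hq⟩ := hD
  obtain ⟨q', hq'⟩ : ∃ q' : Polynomial ℕ, q' = 2 * (q + Polynomial.X) +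
      Polynomial.X * (Polynomial.X * (2 * (q + 1))) := ⟨_, rfl⟩
  have hle : ∀ s, 2 * (q.eval s + s) ≤ q'.eval s := by
    intro s
    rw [hq']
    simp only [Polynomial.eval_add, Polynomial.eval_mul, Polynomial.eval_X,
      Polynomial.eval_ofNat, Polynomial.eval_one]
    omega
  have hple : PLe q q' := fun s => by
    have := hle s
    omega
  refine ⟨q', fun S m n g I hg hm hn hS => ?_⟩
  have hv : ∀ l, HasVal g (Gd q' S g) (dtE n (uE m l))
      ((-1) ^ (n - 1) * dt n (Mu m (aR g)) l) := fun l =>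
    TTT.hasVal_mono (fun v => gd_mono hple) (dtE_uE hq hg hn hS l).1
  have hprod : ∀ l l', HasVal g (Gd q' S g) (cmb Op.mul (dtE n (uE m l)) (dtE n (uE m l')))
      (dt n (Mu m (aR g)) l * dt n (Mu m (aR g)) l') ∧
      (cmb Op.mul (dtE n (uE m l)) (dtE n (uE m l'))).1.length =
        (dtE n (uE m l)).1.length + (dtE n (uE m l')).1.length + 1 := by
    intro l l'
    have e : Op.mul.eval ((-1) ^ (n - 1) * dt n (Mu m (aR g)) l)
        ((-1) ^ (n - 1) * dt n (Mu m (aR g)) l') =
        dt n (Mu m (aR g)) l * dt n (Mu m (aR g)) l' := by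
      show ((-1) ^ (n - 1) * dt n (Mu m (aR g)) l) *
        ((-1) ^ (n - 1) * dt n (Mu m (aR g)) l') = _
      have h1 : ((-1 : ℝ) ^ (n - 1)) * (-1) ^ (n - 1) = 1 := by
        rw [← mul_pow]
        norm_num
      linear_combination (dt n (Mu m (aR g)) l * dt n (Mu m (aR g)) l') * h1
    have h2 := hC g (Gd q' S g) Op.mul _ _ _ _ (hv l) (hv l') (fun h => by cases h) (by
      intro lam hl
      have h3 := QB_mul (hv_val (dtE_uE hq hg hn hS l).1 hl) (hv_val (dtE_uE hq hg hn hS l').1 hl)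
      refine qb_mono ?_ h3
      have := hle (S + lam)
      omega)
    rw [e] at h2
    exact h2
  refine ⟨(List.range n).flatMap fun k => (List.range m).map fun c =>
    dt n (Mu m (aR g)) I * dt n (Mu m (aR g)) (I.set k c), ?_, ?_, ?_⟩
  · unfold tbQs
    generalize List.range n = L
    induction L with
    | nil => exact List.Forall₂.nil
    | cons k L ih =>
      rw [List.flatMap_cons, List.flatMap_cons]
      refine List.rel_append ?_ ih
      rw [List.forall₂_map_left_iff, List.forall₂_map_right_iff]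
      exact List.forall₂_same.2 fun c _ => (hprod _ _).1
  · have h5 := sum_le (tbQs m n I) (fun q => q.1.length + 1) (2 * (q.eval S + 1)) (by
      intro x hx
      unfold tbQs at hx
      obtain ⟨k, -, hx⟩ := List.mem_flatMap.1 hx
      obtain ⟨c, -, rfl⟩ := List.mem_map.1 hx
      rw [(hprod _ _).2]
      have h6 := (dtE_uE hq hg hn hS I).2
      have h7 := (dtE_uE hq hg hn hS (I.set k c)).2
      omega)
    have h6 : (tbQs m n I).length = n * m := TPROJ.length_block _ m n
    rw [h6] at h5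
    refine h5.trans ?_
    rw [hq']
    simp only [Polynomial.eval_add, Polynomial.eval_mul, Polynomial.eval_X,
      Polynomial.eval_ofNat, Polynomial.eval_one]
    have h4 : n * m * (2 * (q.eval S + 1)) ≤ S * (S * (2 * (q.eval S + 1))) := by
      rw [mul_assoc]
      exact Nat.mul_le_mul (by omega) (Nat.mul_le_mul_right _ (by omega))
    omega
  · intro k hk c hc
    rw [List.map_flatMap]
    simp only [List.map_map]
    exact TPROJ.getD_block (fun k c => signOut (dt n (Mu m (aR g)) I *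
      dt n (Mu m (aR g)) (I.set k c))) none m n k hk c hc

end Pool.Agent.Y648.TP
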