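import Pool.Agent.Y648.TP.StmC

set_option autoImplicit false

/-!
# From the class of totally nonnegative column spaces to the columns `J`
-/

namespace Pool.Agent.Y648.TP

open Pool.Agent.NPC Pool.Agent.H558R2 Pool.Agent.H622R3.SM Pool.Agent.W920.FC Pool.Agent.Y648.CS

theorem cls_aux (m n : ℕ) (A : Matrix (Fin m) (Fin n) ℝ) (a : ℕ → ℕ → ℝ) (J : List ℕ)
    (hJ : ∀ j ∈ J, j < n) (hA : ∀ (i : Fin m) (j : Fin n), a i j = A i j) (r : ℕ)
    (hr : r = J.length) (ρ : Fin m → ℝ) (V : Matrix (Fin m) (Fin r) ℝ)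
    (G : Matrix (Fin r) (Fin n) ℝ) (hρ : ∀ i, ρ i ≠ 0)
    (hAV : ∀ i j, A i j = ρ i * (V * G) i j)
    (hV : ∀ f : Fin r → Fin m, StrictMono f → 0 ≤ (V.submatrix f id).det)
    (hne : ∃ f : Fin J.length → ℕ, StrictMono f ∧ (∀ k, f k < m) ∧
      (Matrix.of fun i k : Fin J.length => a (f k) (J.getD i 0)).det ≠ 0) :
    TNJ m a J := by
  subst hr
  have hJ' : ∀ i : Fin J.length, J.getD i 0 < n := by
    intro i
    rw [List.getD_eq_getElem _ _ i.2]
    exact hJ _ (List.getElem_mem _)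
  let GJ : Matrix (Fin J.length) (Fin J.length) ℝ :=
    Matrix.of fun i l => G l ⟨J.getD i 0, hJ' i⟩
  have key : ∀ (f : Fin J.length → ℕ) (hf : ∀ k, f k < m),
      (Matrix.of fun i k : Fin J.length => a (f k) (J.getD i 0)).det =
        (∏ k, ρ ⟨f k, hf k⟩) * (GJ.det * (V.submatrix (fun k => (⟨f k, hf k⟩ : Fin m)) id).det) := by
    intro f hf
    have h1 : (Matrix.of fun i k : Fin J.length => a (f k) (J.getD i 0)) =
        Matrix.of fun i k : Fin J.length => ρ ⟨f k, hf k⟩ *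
          (GJ * (V.submatrix (fun k => (⟨f k, hf k⟩ : Fin m)) id).transpose) i k := by
      ext i k
      have h2 := hA ⟨f k, hf k⟩ ⟨J.getD i 0, hJ' i⟩
      have h3 := hAV ⟨f k, hf k⟩ ⟨J.getD i 0, hJ' i⟩
      simp only [Matrix.of_apply]
      have h4 : a (f k) (J.getD i 0) = A ⟨f k, hf k⟩ ⟨J.getD i 0, hJ' i⟩ := h2
      rw [h4, h3, Matrix.mul_apply, Matrix.mul_apply]
      congr 1
      refine Finset.sum_congr rfl fun l _ => ?_
      simp only [GJ, Matrix.transpose_apply, Matrix.submatrix_apply, Matrix.of_apply, id]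
      ring
    rw [h1, Matrix.det_mul_row, Matrix.det_mul, Matrix.det_transpose]
  have hG : GJ.det ≠ 0 := by
    obtain ⟨f, _, hf, hd⟩ := hne
    rw [key f hf] at hd
    intro h
    rw [h] at hd
    simp at hd
  refine ⟨fun i => if h : i < m then ρ ⟨i, h⟩ else 1, GJ.det, ?_, hG, ?_⟩
  · intro i hi
    simp only [dif_pos hi]
    exact hρ _
  · intro f hmono hf
    rw [key f hf]
    have hp : (∏ k, (fun i => if h : i < m then ρ ⟨i, h⟩ else 1) (f k)) =
        ∏ k, ρ ⟨f k, hf k⟩ := by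
      refine Finset.prod_congr rfl fun k _ => ?_
      simp only [dif_pos (hf k)]
    rw [hp]
    have hm : StrictMono (fun k => (⟨f k, hf k⟩ : Fin m)) := fun x y hxy => hmono hxy
    have h0 := hV _ hm
    have e : GJ.det * ((∏ k, ρ ⟨f k, hf k⟩) * ((∏ k, ρ ⟨f k, hf k⟩) *
        (GJ.det * (V.submatrix (fun k => (⟨f k, hf k⟩ : Fin m)) id).det))) =
        (GJ.det * ∏ k, ρ ⟨f k, hf k⟩) ^ 2 *
          (V.submatrix (fun k => (⟨f k, hf k⟩ : Fin m)) id).det := by
      ring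
    rw [e]
    exact mul_nonneg (sq_nonneg _) h0

theorem t_CLS : S_COL → S_CLS := by
  intro hcol m n A a I hA hB hTN
  obtain ⟨_, _, hne, hrank, _⟩ := hcol m n a I hB
  obtain ⟨ρ, V, G, hρ, hAV, hV⟩ := hTN
  have hm : (Matrix.of fun (i : Fin m) (j : Fin n) => a i j) = A := by
    ext i j
    exact hA i j
  rw [hm] at hrank
  refine cls_aux m n A a (cols m n I) ?_ hA A.rank hrank ρ V G hρ hAV hV hne
  intro j hj
  unfold cols at hj
  rw [List.mem_filter, List.mem_range] at hj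
  exact hj.1

end Pool.Agent.Y648.TP
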