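import Pool.Agent.Y648.TP.StmC

set_option autoImplicit false

/-!
# Totally nonnegative column spaces: congruence
-/

namespace Pool.Agent.Y648.TP

namespace CNG

variable {m n : ℕ}

lemma vd_set {B : List ℕ} (hB : Vd m n B) (k : ℕ) {c : ℕ} (hc : c < 3 * m) :
    Vd m n (B.set k c) := by
  refine ⟨by rw [List.length_set]; exact hB.1, fun a ha => ?_⟩
  rcases List.mem_or_eq_of_mem_set ha with h | h
  · exact hB.2 a h
  · rw [h]; exact hc

lemma vd_drop (hn : 1 ≤ n) {B : List ℕ} (hB : Vd m n B) {c : ℕ} (hc : c < 3 * m) :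
    Vd m n (B.dropLast ++ [c]) := by
  refine ⟨?_, fun a ha => ?_⟩
  · rw [List.length_append, List.length_dropLast, hB.1, List.length_singleton]
    omega
  · rw [List.mem_append, List.mem_singleton] at ha
    rcases ha with h | h
    · exact hB.2 a (List.mem_of_mem_dropLast h)
    · rw [h]; exact hc

lemma vd_ini (hnm : n ≤ m) (b : Bool) : Vd m n (ini n b) := by
  refine ⟨by simp [ini], fun a ha => ?_⟩
  unfold ini at ha
  rw [List.mem_map] at ha
  obtain ⟨k, hk, rfl⟩ := ha
  rw [List.mem_range] at hk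
  split_ifs <;> omega

lemma vd_pupd {B : List ℕ} (hB : Vd m n B) (r : ℕ) (f₁ : ℕ → Bool) (f₂ : ℕ → ℕ → Bool) :
    Vd m n (pupd m n r B f₁ f₂) := by
  unfold pupd
  split_ifs with h
  · exact hB
  · generalize hl : (List.range (3 * m)).filter (fun c => con n r c && (!(f₁ c) &&
      (List.range (3 * m)).all fun c' => !(con n r c') || f₂ c c')) = l
    cases l with
    | nil => exact hB
    | cons c l =>
      have hc : c ∈ (List.range (3 * m)).filter (fun c => con n r c && (!(f₁ c) &&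
          (List.range (3 * m)).all fun c' => !(con n r c') || f₂ c c')) := by
        rw [hl]
        exact List.mem_cons_self
      have hc' := List.mem_range.1 (List.mem_of_mem_filter hc)
      exact vd_set hB _ hc'

lemma all_congr {l : List ℕ} {p q : ℕ → Bool} (h : ∀ a ∈ l, p a = q a) : l.all p = l.all q := by
  induction l with
  | nil => rfl
  | cons a l ih =>
    rw [List.all_cons, List.all_cons, h a (List.mem_cons_self),
      ih fun b hb => h b (List.mem_cons_of_mem _ hb)]

lemma pupd_congr {B : List ℕ} (r : ℕ) {f₁ g₁ : ℕ → Bool} {f₂ g₂ : ℕ → ℕ → Bool}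
    (h₁ : ∀ c < 3 * m, f₁ c = g₁ c) (h₂ : ∀ c < 3 * m, ∀ c' < 3 * m, f₂ c c' = g₂ c c') :
    pupd m n r B f₁ f₂ = pupd m n r B g₁ g₂ := by
  unfold pupd
  have e1 : ((List.range (3 * m)).all fun c => !(con n r c) || f₁ c) =
      (List.range (3 * m)).all fun c => !(con n r c) || g₁ c :=
    all_congr fun c hc => by rw [h₁ c (List.mem_range.1 hc)]
  have e2 : (List.range (3 * m)).filter (fun c => con n r c && (!(f₁ c) &&
      (List.range (3 * m)).all fun c' => !(con n r c') || f₂ c c')) =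
      (List.range (3 * m)).filter (fun c => con n r c && (!(g₁ c) &&
      (List.range (3 * m)).all fun c' => !(con n r c') || g₂ c c')) := by
    apply List.filter_congr
    intro c hc
    have hc' := List.mem_range.1 hc
    rw [h₁ c hc']
    have e3 : ((List.range (3 * m)).all fun c' => !(con n r c') || f₂ c c') =
        (List.range (3 * m)).all fun c' => !(con n r c') || g₂ c c' :=
      all_congr fun c' hc'' => by rw [h₂ c hc' c' (List.mem_range.1 hc'')]
    rw [e3]
  rw [e1, e2]

variable {S S' : List ℕ → ℕ → Bool}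

lemma piv_congr (hn : 1 ≤ n) (h : ∀ R c, Vd m n R → c < 3 * m → S R c = S' R c) (r : ℕ)
    {B : List ℕ} (hB : Vd m n B) : pivS m n S r B = pivS m n S' r B := by
  unfold pivS
  exact pupd_congr r (fun c hc => h B c hB hc)
    (fun c hc c' hc' => h _ c' (vd_drop hn hB hc) hc')

lemma vd_piv (r : ℕ) {B : List ℕ} (hB : Vd m n B) : Vd m n (pivS m n S r B) :=
  vd_pupd hB r _ _

lemma piv_iter (hn : 1 ≤ n) (h : ∀ R c, Vd m n R → c < 3 * m → S R c = S' R c) (r : ℕ)
    {B : List ℕ} (hB : Vd m n B) (k : ℕ) : (pivS m n S r)^[k] B = (pivS m n S' r)^[k] B ∧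
      Vd m n ((pivS m n S r)^[k] B) := by
  induction k with
  | zero => exact ⟨rfl, hB⟩
  | succ k ih =>
    rw [Function.iterate_succ_apply', Function.iterate_succ_apply', ← ih.1]
    exact ⟨piv_congr hn h r ih.2, vd_piv r ih.2⟩

lemma fix_congr (hn : 1 ≤ n) (h : ∀ R c, Vd m n R → c < 3 * m → S R c = S' R c) {r : ℕ}
    (hr : r < 3 * m) {B : List ℕ} (hB : Vd m n B) : fixS m n S r B = fixS m n S' r B ∧
      Vd m n (fixS m n S r B) := by
  unfold fixS
  split_ifs with h1
  · exact ⟨rfl, vd_set hB _ hr⟩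
  · exact piv_iter hn h r (vd_drop hn hB hr) _

lemma row_congr (hn : 1 ≤ n) (h : ∀ R c, Vd m n R → c < 3 * m → S R c = S' R c) {t : CS}
    (ht : t.1 < 3 * m) (h1 : Vd m n t.2.2.1) (h2 : Vd m n t.2.2.2) :
    rowS m n S t = rowS m n S' t ∧ (rowS m n S t).1 = t.1 + 1 ∧
      Vd m n (rowS m n S t).2.2.1 ∧ Vd m n (rowS m n S t).2.2.2 := by
  have e1 := h t.2.2.1 t.1 h1 ht
  have e2 := h t.2.2.2 t.1 h2 ht
  have f1 := fix_congr hn h ht h1
  have f2 := fix_congr hn h ht h2
  unfold rowS
  rw [← e1, ← e2, ← f1.1, ← f2.1]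
  split_ifs
  · exact ⟨rfl, rfl, h1, h2⟩
  · exact ⟨rfl, rfl, h1, h2⟩
  · exact ⟨rfl, rfl, f1.2, h2⟩
  · exact ⟨rfl, rfl, h1, f2.2⟩
  · exact ⟨rfl, rfl, h1, h2⟩

end CNG

open CNG in
theorem t_CNG : S_CNG := by
  intro m n S S' hn hnm h
  have key : ∀ i ≤ 3 * m, (rowS m n S)^[i] (0, (true, (ini n false, ini n true))) =
      (rowS m n S')^[i] (0, (true, (ini n false, ini n true))) ∧
      ((rowS m n S)^[i] (0, (true, (ini n false, ini n true)))).1 = i ∧
      Vd m n ((rowS m n S)^[i] (0, (true, (ini n false, ini n true)))).2.2.1 ∧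
      Vd m n ((rowS m n S)^[i] (0, (true, (ini n false, ini n true)))).2.2.2 := by
    intro i
    induction i with
    | zero => exact fun _ => ⟨rfl, rfl, vd_ini hnm _, vd_ini hnm _⟩
    | succ i ih =>
      intro hi
      obtain ⟨a1, a2, a3, a4⟩ := ih (by omega)
      obtain ⟨b1, b2, b3, b4⟩ := row_congr hn h (t := (rowS m n S)^[i] (0, (true, (ini n false,
        ini n true)))) (by rw [a2]; omega) a3 a4
      rw [Function.iterate_succ_apply', Function.iterate_succ_apply', ← a1]
      exact ⟨b1, by rw [b2, a2], b3, b4⟩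
  unfold runS
  rw [(key (3 * m) le_rfl).1]

end Pool.Agent.Y648.TP
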