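import Pool.Agent.Y648.TP.T_BAS

set_option autoImplicit false

/-!
# The row space: the basis and the columns
-/

namespace Pool.Agent.Y648.TP

open Pool.Agent.NPC Pool.Agent.H558R2 Pool.Agent.H622R3.SM Pool.Agent.W920.FC Pool.Agent.Y648.CS

theorem cols_mem (m n : ℕ) (I : List ℕ) (k : ℕ) : k ∈ cols m n I ↔ k < n ∧ I.getD k 0 < m := by
  unfold cols
  rw [List.mem_filter, List.mem_range, decide_eq_true_eq]

theorem cols_nodup (m n : ℕ) (I : List ℕ) : (cols m n I).Nodup :=
  List.Nodup.filter _ List.nodup_range

/-- The columns, as elements of `Fin n`. -/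
def ce (m n : ℕ) (I : List ℕ) (t : Fin (cols m n I).length) : Fin n :=
  ⟨(cols m n I)[t], ((cols_mem m n I _).1 (List.getElem_mem _)).1⟩

theorem ce_val (m n : ℕ) (I : List ℕ) (t : Fin (cols m n I).length) :
    ((ce m n I t : Fin n) : ℕ) = (cols m n I).getD t 0 := by
  rw [List.getD_eq_getElem _ _ t.2]
  rfl

theorem ce_lt (m n : ℕ) (I : List ℕ) (t : Fin (cols m n I).length) :
    I.getD (ce m n I t) 0 < m := ((cols_mem m n I _).1 (List.getElem_mem _)).2

theorem ce_inj (m n : ℕ) (I : List ℕ) : Function.Injective (ce m n I) := by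
  intro t t' h
  have h1 : (cols m n I)[t] = (cols m n I)[t'] := congrArg Fin.val h
  exact Fin.ext ((cols_nodup m n I).getElem_inj_iff.1 h1)

theorem ce_surj (m n : ℕ) (I : List ℕ) (l : Fin n) (hl : I.getD l 0 < m) :
    ∃ t, ce m n I t = l := by
  obtain ⟨i, hi, h⟩ := List.getElem_of_mem ((cols_mem m n I l).2 ⟨l.2, hl⟩)
  exact ⟨⟨i, hi⟩, Fin.ext h⟩

theorem sum_ce (m n : ℕ) (I : List ℕ) (g : Fin n → ℝ)
    (hg : ∀ l : Fin n, ¬ I.getD l 0 < m → g l = 0) :
    ∑ l, g l = ∑ t, g (ce m n I t) := by
  refine (Fintype.sum_of_injective (ce m n I) (ce_inj m n I) _ g ?_ fun t => rfl).symm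
  intro l hl
  refine hg l fun h => hl ?_
  obtain ⟨t, ht⟩ := ce_surj m n I l h
  exact ⟨t, ht⟩

section

variable {m n : ℕ} {a : ℕ → ℕ → ℝ} {I : List ℕ}

/-- The matrix of the rows of the basis, with the columns `J`. -/
noncomputable def MJ (m n : ℕ) (a : ℕ → ℕ → ℝ) (I : List ℕ) :
    Matrix (Fin (cols m n I).length) (Fin (cols m n I).length) ℝ :=
  Matrix.of fun i k => a (I.getD (ce m n I k) 0) (ce m n I i)

theorem Mu_lt {c : ℕ} (hc : c < m) (i : ℕ) : Mu m a c i = a c i := by
  unfold Mu
  rw [if_pos hc]

/-- The first claim. -/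
theorem col_one (hB : Bs m n a I) (i : ℕ) (hi : i < m) :
    ∃ y : Fin (cols m n I).length → ℝ, ∀ j < n,
      a i j = ∑ t, y t * a (I.getD (ce m n I t) 0) j := by
  obtain ⟨hlen, hor, hdt, hzero⟩ := hB
  have hA : (Mt n m a I).det ≠ 0 := hdt
  refine ⟨fun t => Matrix.cramer (Mt n m a I) (wv n m a i) (ce m n I t) / (Mt n m a I).det,
    fun j hj => ?_⟩
  have h1 := congrFun (Matrix.mulVec_cramer (Mt n m a I) (wv n m a i)) ⟨j, hj⟩
  have h2 : (Mt n m a I).mulVec (Matrix.cramer (Mt n m a I) (wv n m a i)) ⟨j, hj⟩ =
      ∑ l, Mt n m a I ⟨j, hj⟩ l * Matrix.cramer (Mt n m a I) (wv n m a i) l := rfl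
  have h3 : ((Mt n m a I).det • wv n m a i) ⟨j, hj⟩ = (Mt n m a I).det * a i j := by
    show (Mt n m a I).det * Mu m a i j = _
    rw [Mu_lt hi]
  rw [h2, h3, sum_ce m n I] at h1
  · have h4 : ∑ t, Matrix.cramer (Mt n m a I) (wv n m a i) (ce m n I t) / (Mt n m a I).det *
        a (I.getD (ce m n I t) 0) j =
        (∑ t, Mt n m a I ⟨j, hj⟩ (ce m n I t) *
          Matrix.cramer (Mt n m a I) (wv n m a i) (ce m n I t)) / (Mt n m a I).det := by
      rw [Finset.sum_div]
      refine Finset.sum_congr rfl fun t _ => ?_
      have h5 : Mt n m a I ⟨j, hj⟩ (ce m n I t) = a (I.getD (ce m n I t) 0) j := by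
        show Mu m a (I.getD (ce m n I t) 0) j = _
        rw [Mu_lt (ce_lt m n I t)]
      rw [h5]
      ring
    rw [h4, h1]
    field_simp
  · intro l hl
    have h6 := hzero l l.2 (not_lt.1 hl) i hi
    rw [dt_set n m a I hlen l i] at h6
    rw [h6, mul_zero]

/-- The second claim. -/
theorem col_two (hB : Bs m n a I) : (MJ m n a I).det ≠ 0 := by
  obtain ⟨hlen, hor, hdt, hzero⟩ := hB
  have hA : (Mt n m a I).det ≠ 0 := hdt
  intro h0
  obtain ⟨y, hy0, hy⟩ := Matrix.exists_mulVec_eq_zero_iff.2 h0
  refine hA (Matrix.exists_mulVec_eq_zero_iff.1 ?_)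
  classical
  -- the extension
  let Z : Fin n → ℝ := fun l => if h : I.getD l 0 < m then y (ce_surj m n I l h).choose else
    - ∑ t, a (I.getD (ce m n I t) 0) l * y t
  have hZ1 : ∀ t, Z (ce m n I t) = y t := by
    intro t
    simp only [Z]
    rw [dif_pos (ce_lt m n I t)]
    congr 1
    exact ce_inj m n I (ce_surj m n I (ce m n I t) (ce_lt m n I t)).choose_spec
  have hZ2 : ∀ l : Fin n, ¬ I.getD l 0 < m → Z l = - ∑ t, a (I.getD (ce m n I t) 0) l * y t := by
    intro l hl
    simp only [Z]
    rw [dif_neg hl]
  refine ⟨Z, ?_, ?_⟩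
  · intro hZ
    refine hy0 (funext fun t => ?_)
    rw [← hZ1 t, hZ]
    rfl
  · funext j
    show ∑ l, Mt n m a I j l * Z l = 0
    have hsplit : ∀ l : Fin n, Mt n m a I j l * Z l =
        (if I.getD l 0 < m then Mt n m a I j l * Z l else 0) +
          (if I.getD l 0 < m then 0 else Mt n m a I j l * Z l) := by
      intro l
      by_cases h : I.getD l 0 < m
      · rw [if_pos h, if_pos h, add_zero]
      · rw [if_neg h, if_neg h, zero_add]
    rw [Finset.sum_congr rfl (fun l _ => hsplit l), Finset.sum_add_distrib]
    have hs1 : ∑ l : Fin n, (if I.getD l 0 < m then Mt n m a I j l * Z l else 0) =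
        ∑ t, a (I.getD (ce m n I t) 0) j * y t := by
      rw [sum_ce m n I _ (fun l hl => if_neg hl)]
      refine Finset.sum_congr rfl fun t _ => ?_
      rw [if_pos (ce_lt m n I t), hZ1]
      congr 1
      show Mu m a (I.getD (ce m n I t) 0) j = _
      rw [Mu_lt (ce_lt m n I t)]
    have hs2 : ∑ l : Fin n, (if I.getD l 0 < m then 0 else Mt n m a I j l * Z l) =
        if I.getD j 0 < m then 0 else Z j := by
      rw [Finset.sum_eq_single j]
      · by_cases h : I.getD j 0 < m
        · rw [if_pos h, if_pos h]
        · rw [if_neg h, if_neg h]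
          have h7 : Mt n m a I j j = 1 := by
            show Mu m a (I.getD j 0) j = 1
            unfold Mu
            rw [if_neg h, if_pos ((hor j j.2).resolve_left h)]
          rw [h7, one_mul]
      · intro l _ hlj
        by_cases h : I.getD l 0 < m
        · rw [if_pos h]
        · rw [if_neg h]
          have h7 : Mt n m a I j l = 0 := by
            show Mu m a (I.getD l 0) j = 0
            unfold Mu
            rw [if_neg h, (hor l l.2).resolve_left h, if_neg]
            intro h8
            exact hlj (Fin.ext (by omega))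
          rw [h7, zero_mul]
      · intro h
        exact absurd (Finset.mem_univ _) h
    rw [hs1, hs2]
    by_cases h : I.getD j 0 < m
    · rw [if_pos h, add_zero]
      obtain ⟨i, hi⟩ := ce_surj m n I j h
      have h9 := congrFun hy i
      have h10 : (MJ m n a I).mulVec y i =
          ∑ t, a (I.getD (ce m n I t) 0) (ce m n I i) * y t := rfl
      rw [h10, hi] at h9
      exact h9
    · rw [if_neg h, hZ2 j h, add_neg_cancel]

end

theorem t_COL : S_COL := by
  intro m n a I hB
  have h1 := col_one hB
  have h2 := col_two hB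
  have hMJ : (Matrix.of fun i k : Fin (cols m n I).length =>
      a (I.getD ((cols m n I).getD k 0) 0) ((cols m n I).getD i 0)) = MJ m n a I := by
    ext i k
    simp only [MJ, Matrix.of_apply]
    rw [ce_val, ce_val]
  refine ⟨?_, ?_, ?_, ?_, ?_⟩
  · intro i hi
    obtain ⟨y, hy⟩ := h1 i hi
    refine ⟨y, fun j hj => ?_⟩
    rw [hy j hj]
    refine Finset.sum_congr rfl fun t _ => ?_
    rw [ce_val]
  · rw [hMJ]
    exact h2
  · -- sorting
    let R : Fin (cols m n I).length → ℕ := fun k => I.getD (ce m n I k) 0
    have hR : Function.Injective R := by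
      intro k k' h
      by_contra hkk
      refine h2 (Matrix.det_zero_of_column_eq (i := k) (j := k') hkk fun i => ?_)
      show a (R k) _ = a (R k') _
      rw [h]
    have hmono : Monotone (R ∘ Tuple.sort R) := Tuple.monotone_sort R
    have hinj : Function.Injective (R ∘ Tuple.sort R) := hR.comp (Tuple.sort R).injective
    refine ⟨R ∘ Tuple.sort R, hmono.strictMono_of_injective hinj, fun k => ce_lt m n I _, ?_⟩
    have e : (Matrix.of fun i k : Fin (cols m n I).length =>
        a ((R ∘ Tuple.sort R) k) ((cols m n I).getD i 0)) =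
        (MJ m n a I).submatrix id (Tuple.sort R) := by
      ext i k
      simp only [MJ, Matrix.of_apply, Matrix.submatrix_apply, id]
      rw [← ce_val]
      rfl
    rw [e, Matrix.det_permute']
    refine mul_ne_zero ?_ h2
    rcases Int.units_eq_one_or (Equiv.Perm.sign (Tuple.sort R)) with h | h <;> rw [h] <;> simp
  · -- the rank
    refine le_antisymm ?_ ?_
    · choose y hy using h1
      have e : (Matrix.of fun (i : Fin m) (j : Fin n) => a i j) =
          (Matrix.of fun (i : Fin m) (t : Fin (cols m n I).length) => y i i.2 t) *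
            (Matrix.of fun (t : Fin (cols m n I).length) (j : Fin n) =>
              a (I.getD (ce m n I t) 0) j) := by
        ext i j
        rw [Matrix.mul_apply]
        simp only [Matrix.of_apply]
        exact hy i i.2 j j.2
      rw [e]
      exact (Matrix.rank_mul_le_left _ _).trans (Matrix.rank_le_width _)
    · have hr : (MJ m n a I).transpose.rank = (cols m n I).length := by
        rw [Matrix.rank_of_isUnit]
        · exact Fintype.card_fin _
        · rw [Matrix.isUnit_iff_isUnit_det, Matrix.det_transpose]
          exact isUnit_iff_ne_zero.2 h2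
      have e : (MJ m n a I).transpose =
          (Matrix.of fun (t : Fin (cols m n I).length) (i : Fin m) =>
            if (i : ℕ) = I.getD (ce m n I t) 0 then (1 : ℝ) else 0) *
          ((Matrix.of fun (i : Fin m) (j : Fin n) => a i j) *
            (Matrix.of fun (j : Fin n) (t : Fin (cols m n I).length) =>
              if j = ce m n I t then (1 : ℝ) else 0)) := by
        ext t s
        rw [Matrix.mul_apply]
        simp only [Matrix.of_apply, Matrix.transpose_apply, MJ]
        rw [Finset.sum_eq_single (⟨I.getD (ce m n I t) 0, ce_lt m n I t⟩ : Fin m)]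
        · rw [if_pos rfl, one_mul, Matrix.mul_apply]
          simp only [Matrix.of_apply]
          rw [Finset.sum_eq_single (ce m n I s)]
          · rw [if_pos rfl, mul_one]
          · intro j _ hj
            rw [if_neg hj, mul_zero]
          · intro h
            exact absurd (Finset.mem_univ _) h
        · intro i _ hi
          rw [if_neg (fun h => hi (Fin.ext h)), zero_mul]
        · intro h
          exact absurd (Finset.mem_univ _) h
      rw [← hr, e]
      exact (Matrix.rank_mul_le_right _ _).trans (Matrix.rank_mul_le_left _ _)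
  · -- feasibility
    intro b
    constructor
    · rintro ⟨x, hx⟩
      -- the vector of the products
      let β : Fin (cols m n I).length → ℝ := fun t => ∑ j : Fin n, a (I.getD (ce m n I t) 0) j * x j
      have hU : IsUnit (MJ m n a I).transpose.det := by
        rw [Matrix.det_transpose]
        exact isUnit_iff_ne_zero.2 h2
      let x' : Fin (cols m n I).length → ℝ := (MJ m n a I).transpose⁻¹.mulVec β
      have hx' : ∀ t, ∑ k, a (I.getD (ce m n I t) 0) (ce m n I k) * x' k = β t := by
        intro t
        have h3 : (MJ m n a I).transpose.mulVec x' = β := by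
          simp only [x']
          rw [Matrix.mulVec_mulVec, Matrix.mul_nonsing_inv _ hU, Matrix.one_mulVec]
        have h4 := congrFun h3 t
        exact h4
      refine ⟨x', fun i hi => ?_⟩
      obtain ⟨y, hy⟩ := h1 i hi
      refine (hx i hi).trans (le_of_eq ?_)
      have e1 : ∑ j : Fin n, a i j * x j = ∑ t, y t * β t := by
        have h5 : ∀ j : Fin n, a i j * x j = ∑ t, y t * (a (I.getD (ce m n I t) 0) j * x j) := by
          intro j
          rw [hy j j.2, Finset.sum_mul]
          refine Finset.sum_congr rfl fun t _ => ?_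
          ring
        simp only [h5, β]
        rw [Finset.sum_comm]
        refine Finset.sum_congr rfl fun t _ => ?_
        rw [Finset.mul_sum]
      have e2 : ∑ k : Fin (cols m n I).length, a i ((cols m n I).getD k 0) * x' k =
          ∑ t, y t * β t := by
        have h5 : ∀ k : Fin (cols m n I).length, a i ((cols m n I).getD k 0) * x' k =
            ∑ t, y t * (a (I.getD (ce m n I t) 0) (ce m n I k) * x' k) := by
          intro k
          rw [← ce_val, hy _ (ce m n I k).2, Finset.sum_mul]
          refine Finset.sum_congr rfl fun t _ => ?_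
          ring
        simp only [h5]
        rw [Finset.sum_comm]
        refine Finset.sum_congr rfl fun t _ => ?_
        rw [← Finset.mul_sum, hx']
      rw [e1, e2]
    · rintro ⟨x, hx⟩
      classical
      let Z : Fin n → ℝ := fun l =>
        if h : I.getD l 0 < m then x (ce_surj m n I l h).choose else 0
      have hZ1 : ∀ t, Z (ce m n I t) = x t := by
        intro t
        simp only [Z]
        rw [dif_pos (ce_lt m n I t)]
        congr 1
        exact ce_inj m n I (ce_surj m n I (ce m n I t) (ce_lt m n I t)).choose_spec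
      refine ⟨Z, fun i hi => ?_⟩
      rw [sum_ce m n I]
      · refine (hx i hi).trans (le_of_eq ?_)
        refine Finset.sum_congr rfl fun t _ => ?_
        rw [hZ1, ce_val]
      · intro l hl
        simp only [Z]
        rw [dif_neg hl, mul_zero]

end Pool.Agent.Y648.TP
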