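import Pool.Agent.Y648.TP.StmM
import Pool.Agent.Y648.CS.T_TUP
import Pool.Agent.Y648.CS.Ut

set_option autoImplicit false

/-!
# Difference queries (job Y648-T6, helper484)
-/

namespace Pool.Agent.Y648.TP

open Pool.Agent.NPC Pool.Agent.H558R2 Pool.Agent.H622R3.SM Pool.Agent.W920.FC Pool.Agent.Y648.CS

namespace TDIFQ

open Pool.Agent.Y648.CS.TTUP Pool.Agent.W920.FC.TORD1

/-- The values. -/
def pA (qs : List Qry) (k : ℕ) : List Instr :=
  (List.range (k + 1)).map fun j => (⟨Op.add, [90, 0, j], tupR qs j, [3]⟩ : Instr)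

/-- The differences of order `a + 1`. -/
def pB1 (k a : ℕ) : List Instr := (List.range (k - a)).map fun j =>
  (⟨Op.sub, [90, a + 1, j], [90, a, j + 1], [90, a, j]⟩ : Instr)

/-- The differences. -/
def pB (k : ℕ) : List Instr := (List.range k).flatMap fun a => pB1 k a

theorem difQ_eq (qs : List Qry) (k : ℕ) :
    difQ qs k = (tupP qs ++ (pA qs k ++ pB k), [90, k, 0]) := rfl

theorem mem_pA {qs : List Qry} {k : ℕ} {I : Instr} (hI : I ∈ pA qs k) :
    ∃ j ≤ k, I = ⟨Op.add, [90, 0, j], tupR qs j, [3]⟩ := by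
  obtain ⟨j, hj, rfl⟩ := List.mem_map.1 hI
  have := List.mem_range.1 hj
  exact ⟨j, by omega, rfl⟩

theorem mem_pB1 {k a : ℕ} {I : Instr} (hI : I ∈ pB1 k a) :
    ∃ j < k - a, I = ⟨Op.sub, [90, a + 1, j], [90, a, j + 1], [90, a, j]⟩ := by
  obtain ⟨j, hj, rfl⟩ := List.mem_map.1 hI
  exact ⟨j, List.mem_range.1 hj, rfl⟩

theorem mem_pB {k : ℕ} {I : Instr} (hI : I ∈ pB k) :
    ∃ a j, a < k ∧ j < k - a ∧ I = ⟨Op.sub, [90, a + 1, j], [90, a, j + 1], [90, a, j]⟩ := by
  obtain ⟨a, ha, hI⟩ := List.mem_flatMap.1 hI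
  obtain ⟨j, hj, rfl⟩ := mem_pB1 hI
  exact ⟨a, j, List.mem_range.1 ha, hj, rfl⟩

theorem wr_pA {qs : List Qry} {k : ℕ} {r : Reg} :
    r ∈ wr (pA qs k) ↔ ∃ j ≤ k, r = [90, 0, j] := by
  constructor
  · rintro ⟨I, hI, rfl⟩
    obtain ⟨j, hj, rfl⟩ := mem_pA hI
    exact ⟨j, hj, rfl⟩
  · rintro ⟨j, hj, rfl⟩
    exact ⟨_, List.mem_map.2 ⟨j, List.mem_range.2 (by omega), rfl⟩, rfl⟩

theorem wr_pB1 {k a : ℕ} {r : Reg} :
    r ∈ wr (pB1 k a) ↔ ∃ j < k - a, r = [90, a + 1, j] := by
  constructor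
  · rintro ⟨I, hI, rfl⟩
    obtain ⟨j, hj, rfl⟩ := mem_pB1 hI
    exact ⟨j, hj, rfl⟩
  · rintro ⟨j, hj, rfl⟩
    exact ⟨_, List.mem_map.2 ⟨j, List.mem_range.2 hj, rfl⟩, rfl⟩

theorem wr_pB {k : ℕ} {r : Reg} :
    r ∈ wr (pB k) ↔ ∃ a < k, ∃ j < k - a, r = [90, a + 1, j] := by
  unfold pB
  rw [mem_wr_range]
  simp only [wr_pB1]

/-- A list of instructions without dependencies, with different targets. -/
theorem ord_indep (S : Set Reg) (f : ℕ → Instr) (N : ℕ) (h1 : ∀ i < N, (f i).fst ∈ S)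
    (h2 : ∀ i < N, (f i).snd ∈ S) (h3 : ∀ i < N, (f i).dst ∉ S)
    (h4 : ∀ i < N, ∀ j < i, (f j).dst ≠ (f i).dst) : Ord S ((List.range N).map f) := by
  rw [map_range_eq]
  refine ord_range S _ N fun i hi => ?_
  refine ⟨Or.inl (h1 i hi), Or.inl (h2 i hi), ?_, trivial⟩
  rintro (h | ⟨j, hj, I, hI, h⟩)
  · exact h3 i hi h
  · rw [List.mem_singleton] at hI
    subst hI
    exact h4 i hi j hj h

theorem ord_pA {qs : List Qry} {k : ℕ} {S : Set Reg} (h3 : ([3] : Reg) ∈ S)
    (hS : ∀ r ∈ S, r.headD 0 < 90) (hT : ∀ i ≤ k, tupR qs i ∈ S) : Ord S (pA qs k) := by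
  refine ord_indep S _ _ (fun i hi => hT i (by omega)) (fun i _ => h3) (fun i _ h => ?_)
    fun i _ j hj h => ?_
  · exact absurd (hS _ h) (by simp)
  · simp only [List.cons.injEq, true_and, and_true] at h
    omega

theorem ord_pB {qs : List Qry} {k : ℕ} {S : Set Reg} (hS : ∀ r ∈ S, r.headD 0 < 90) :
    Ord (S ∪ wr (pA qs k)) (pB k) := by
  refine ord_range _ _ k fun a ha => ?_
  -- the registers of order `a` are available
  have key : ∀ j ≤ k - a, ([90, a, j] : Reg) ∈
      (S ∪ wr (pA qs k)) ∪ {r | ∃ b < a, r ∈ wr (pB1 k b)} := by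
    intro j hj
    cases a with
    | zero => exact Or.inl (Or.inr (wr_pA.2 ⟨j, by omega, rfl⟩))
    | succ a => exact Or.inr ⟨a, by omega, wr_pB1.2 ⟨j, by omega, rfl⟩⟩
  refine ord_indep _ _ _ (fun j hj => key _ (by omega)) (fun j hj => key _ (by omega)) ?_
    fun i _ j hj h => ?_
  · intro j _ h
    rcases h with (h | h) | ⟨b, hb, h⟩
    · exact absurd (hS _ h) (by simp)
    · obtain ⟨j', _, h⟩ := wr_pA.1 h
      simp at h
    · obtain ⟨j', _, h⟩ := wr_pB1.1 h
      simp only [List.cons.injEq, true_and, and_true] at h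
      omega
  · simp only [List.cons.injEq, true_and, and_true] at h
    omega

theorem dif_congr {P Q : ℕ → ℝ} : ∀ (a j : ℕ), (∀ t, j ≤ t → t ≤ j + a → P t = Q t) →
    dif P a j = dif Q a j := by
  intro a
  induction a with
  | zero => intro j h; exact h j le_rfl le_rfl
  | succ a ih =>
    intro j h
    rw [dif, dif, ih (j + 1) fun t h1 h2 => h t (by omega) (by omega),
      ih j fun t h1 h2 => h t h1 (by omega)]

/-- Differences of integers. -/
theorem dif_int {P : ℕ → ℝ} {E B N : ℕ} (h : ∀ z ≤ N, ∃ y : ℤ, y.natAbs ≤ B ∧ P z * E = y) :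
    ∀ a j, a + j ≤ N → ∃ y : ℤ, y.natAbs ≤ 2 ^ a * B ∧ dif P a j * E = y := by
  intro a
  induction a with
  | zero =>
    intro j hj
    obtain ⟨y, h1, h2⟩ := h j (by omega)
    exact ⟨y, by simpa using h1, h2⟩
  | succ a ih =>
    intro j hj
    obtain ⟨y, h1, h2⟩ := ih (j + 1) (by omega)
    obtain ⟨y', h3, h4⟩ := ih j (by omega)
    refine ⟨y - y', ?_, ?_⟩
    · have h5 := Int.natAbs_sub_le y y'
      have h6 : 2 ^ (a + 1) * B = 2 ^ a * B + 2 ^ a * B := by ring
      rw [h6]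
      omega
    · rw [dif, sub_mul, h2, h4]
      push_cast
      ring

end TDIFQ

open TDIFQ Pool.Agent.Y648.CS.TTUP Pool.Agent.W920.FC.TORD1

theorem t_DIFQ : Pool.Agent.Y648.CS.S_TUP → S_DIFQ := by
  intro hT g G qs vs k hg hlen hF hG
  obtain ⟨a1, a2, a3, ⟨V, b1, b2, b3⟩, a5⟩ := hT g G qs vs hF
  rw [difQ_eq]
  set P : ℕ → ℝ := fun t => vs.getD t 0 with hP
  have hS : ∀ r ∈ baseReg ∪ wr (tupP qs), r.headD 0 < 90 := by
    rintro r (h | h)
    · have h' : r.headD 0 < 4 := h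
      omega
    · rw [a2 r h]
      norm_num
  have hT' : ∀ i ≤ k, tupR qs i ∈ baseReg ∪ wr (tupP qs) := fun i hi => a3 i (by omega)
  have h3 : ([3] : Reg) ∈ baseReg := Pool.Agent.W920.FC.TORD1.b3
  let W : Reg → ℝ := fun r => if r.headD 0 = 90 then dif P (r.getD 1 0) (r.getD 2 0) else V r
  have hW : ∀ r, r.headD 0 < 90 → W r = V r := fun r hr => if_neg (by omega)
  have hW9 : ∀ a j, W [90, a, j] = dif P a j := fun a j => if_pos rfl
  have hWb : ∀ r ∈ baseReg, W r = g r := fun r hr => by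
    rw [hW r (hS r (Or.inl hr)), b1 r hr]
  refine ⟨⟨?_, W, hWb, ?_, ?_, ?_⟩, ?_⟩
  · rw [ord_append, ord_append]
    exact ⟨a1, ord_pA (Or.inl h3) hS hT', ord_pB hS⟩
  · intro I hI
    rcases List.mem_append.1 hI with hI | hI
    · obtain ⟨f1, f2⟩ := ord_opr _ _ a1 I hI
      obtain ⟨⟨e1, e2⟩, e3⟩ := b2 I hI
      rw [hW _ (hS _ f1), hW _ (hS _ f2), hW _ (hS _ (Or.inr ⟨I, hI, rfl⟩))]
      exact ⟨e1, e2, e3⟩
    · rcases List.mem_append.1 hI with hI | hI
      · obtain ⟨j, hj, rfl⟩ := mem_pA hI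
        simp only [hW9]
        refine ⟨?_, fun h => by simp at h, hG 0 j (by omega)⟩
        rw [hW _ (hS _ (hT' j hj)), b3 j (by omega), hWb _ h3, hg.2]
        simp [Op.eval, dif, hP]
      · obtain ⟨a, j, ha, hj, rfl⟩ := mem_pB hI
        simp only [hW9]
        exact ⟨rfl, fun h => by simp at h, hG (a + 1) j (by omega)⟩
  · right
    cases k with
    | zero =>
      obtain ⟨I, hI, h⟩ := (wr_pA (qs := qs)).2 ⟨0, le_rfl, rfl⟩
      exact ⟨I, List.mem_append_right _ (List.mem_append_left _ hI), h⟩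
    | succ k =>
      obtain ⟨I, hI, h⟩ := wr_pB.2 ⟨k, Nat.lt_succ_self k, 0, by omega, rfl⟩
      exact ⟨I, List.mem_append_right _ (List.mem_append_right _ hI), h⟩
  · exact hW9 k 0
  · have l1 : (pA qs k).length = k + 1 := by simp [pA]
    have l2 : (pB k).length ≤ k * k := by
      unfold pB pB1
      rw [List.length_flatMap]
      simp only [List.length_map, List.length_range]
      refine (List.sum_le_card_nsmul _ k ?_).trans ?_
      · intro x hx
        obtain ⟨a, _, rfl⟩ := List.mem_map.1 hx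
        exact Nat.sub_le _ _
      · simp
    simp only [List.length_append, a5, l1]
    nlinarith

theorem t_DFZ : S_STZ → S_INT → S_DIFQ → S_DFZ := by
  rintro ⟨q1, h1⟩ ⟨q2, h2⟩ hD
  let D : Polynomial ℕ := (2 * Polynomial.X + 1) * (6 * Polynomial.X + 1)
  have hDG : ∀ m n S : ℕ, m + n ≤ S → DG m n ≤ D.eval S := by
    intro m n S h
    simp only [D, DG, Polynomial.eval_mul, Polynomial.eval_add, Polynomial.eval_one,
      Polynomial.eval_X, Polynomial.eval_ofNat]
    apply Nat.mul_le_mul <;> omega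
  refine ⟨q1 + q2 + D + (D + 1) * (q1 + D + 2), fun S m n J s g R c k hg hm hn hS hR hc hk => ?_⟩
  set q : Polynomial ℕ := q1 + q2 + D + (D + 1) * (q1 + D + 2) with hq
  have hq1 : PLe q1 q := fun x => by
    rw [hq]; simp only [Polynomial.eval_add]; omega
  have hk' : k ≤ D.eval S := hk.trans (hDG m n S hS)
  have key := hD g (Gd q S g) ((List.range (k + 1)).map fun z => stZ m n J s z R c)
    ((List.range (k + 1)).map fun z : ℕ => Nv n (PmR m n J s g z) R c) k hg (by simp) ?_ ?_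
  · have e : dif (fun t => ((List.range (k + 1)).map fun z : ℕ =>
        Nv n (PmR m n J s g z) R c).getD t 0) k 0 =
        dif (fun z : ℕ => Nv n (PmR m n J s g z) R c) k 0 := by
      apply dif_congr
      intro t _ ht
      have ht' : t < k + 1 := by omega
      simp [List.getD_eq_getElem?_getD, List.getElem?_range ht']
    rw [e] at key
    refine ⟨key.1, key.2.trans ?_⟩
    have hl : ((List.map (fun z => stZ m n J s z R c) (List.range (k + 1))).map
        fun q => q.1.length).sum ≤ (k + 1) * q1.eval S := by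
      refine (List.sum_le_card_nsmul _ (q1.eval S) ?_).trans ?_
      · intro x hx
        simp only [List.map_map, List.mem_map, List.mem_range, Function.comp] at hx
        obtain ⟨z, hz, rfl⟩ := hx
        exact (h1 S m n J s z g R c hg hm hn hS (by omega) hR hc).2
      · simp
    rw [hq]
    simp only [Polynomial.eval_add, Polynomial.eval_mul, Polynomial.eval_one,
      Polynomial.eval_ofNat]
    have h5 : (k + 1) * (q1.eval S + (k + 2)) ≤ (D.eval S + 1) * (q1.eval S + (D.eval S + 2)) :=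
      Nat.mul_le_mul (by omega) (by omega)
    calc _ ≤ (k + 1) * q1.eval S + (k + 1) * (k + 2) := Nat.add_le_add_right hl _
      _ = (k + 1) * (q1.eval S + (k + 2)) := by ring
      _ ≤ (D.eval S + 1) * (q1.eval S + (D.eval S + 2)) := h5
      _ ≤ _ := by rw [← add_assoc (q1.eval S)]; exact Nat.le_add_left _ _
  · rw [List.forall₂_map_left_iff, List.forall₂_map_right_iff, List.forall₂_same]
    intro z hz
    have hz' := List.mem_range.1 hz
    exact TTT.hasVal_mono (fun v hv => gd_mono hq1 hv)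
      (h1 S m n J s z g R c hg hm hn hS (by omega) hR hc).1
  · intro a j haj lam hlam
    obtain ⟨E, e1, e2, e3⟩ := h2 S m n J s g lam hm hS hlam
    have e : dif (fun t => ((List.range (k + 1)).map fun z : ℕ =>
        Nv n (PmR m n J s g z) R c).getD t 0) a j =
        dif (fun z : ℕ => Nv n (PmR m n J s g z) R c) a j := by
      apply dif_congr
      intro t _ ht
      have ht' : t < k + 1 := by omega
      simp [List.getD_eq_getElem?_getD, List.getElem?_range ht']
    rw [e]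
    obtain ⟨y, y1, y2⟩ := dif_int (P := fun z : ℕ => Nv n (PmR m n J s g z) R c) (E := E)
      (B := 2 ^ q2.eval (S + lam)) (N := DG m n) (fun z hz => e3 z hz R c) a j (by omega)
    have hD' : DG m n ≤ D.eval (S + lam) := hDG m n _ (by omega)
    refine ⟨E, y, e1, e2.trans (Nat.pow_le_pow_right (by norm_num) ?_), y1.trans ?_, y2⟩
    · rw [hq]; simp only [Polynomial.eval_add]; omega
    · rw [← pow_add]
      apply Nat.pow_le_pow_right (by norm_num)
      rw [hq]; simp only [Polynomial.eval_add]; omega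

end Pool.Agent.Y648.TP
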