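import Pool.Agent.Y648.TP.StmM
import Pool.Agent.Y648.CS.T_DET

set_option autoImplicit false

/-!
# The query for a determinant (helper319, adapting Y648/CS/T_DET)
-/

namespace Pool.Agent.Y648.TP

open Pool.Agent.NPC Pool.Agent.H558R2 Pool.Agent.H622R3.SM Pool.Agent.W920.FC Pool.Agent.Y648.CS

namespace TDTE

open Pool.Agent.Y648.CS.TDET

/-- The entries. -/
def entE (K : ℕ) (e : ℕ → ℕ → Reg) : List Instr :=
  (List.range K).flatMap fun i => (List.range K).map fun k =>
    (⟨Op.add, [4, i, k], e i k, [3]⟩ : Instr)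

theorem dtE_eq (K : ℕ) (e : ℕ → ℕ → Reg) : dtE K e = (entE K e ++ flProg K, [10, K - 1]) := rfl

theorem mem_entE {K : ℕ} {e : ℕ → ℕ → Reg} {I : Instr} (hI : I ∈ entE K e) :
    ∃ i k, i < K ∧ k < K ∧ I = ⟨Op.add, [4, i, k], e i k, [3]⟩ := by
  simp only [entE, List.mem_flatMap, List.mem_map, List.mem_range] at hI
  obtain ⟨i, hi, k, hk, rfl⟩ := hI
  exact ⟨i, k, hi, hk, rfl⟩

theorem ordE {K : ℕ} {e : ℕ → ℕ → Reg} (he : ∀ i < K, ∀ k < K, e i k ∈ baseReg) :
    Ord baseReg (entE K e) := by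
  refine TORD.ord_of_sorted _ _ ?_ ?_ ?_
  · refine TORD.pwF _ _ (fun i hi => TORD.pwM _ _ fun a b hab hb => ?_)
      fun i i' hii hi' x hx y hy => ?_
    · simp only [TORD.LT, TORD.key4]
      simp [List.cons_lt_cons_iff]
      omega
    · simp only [List.mem_map, List.mem_range] at hx hy
      obtain ⟨j, hj, rfl⟩ := hx
      obtain ⟨j', hj', rfl⟩ := hy
      simp only [TORD.LT, TORD.key4]
      simp [List.cons_lt_cons_iff]
      omega
  · intro I hI
    obtain ⟨i, k, hi, hk, rfl⟩ := mem_entE hI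
    simp [baseReg]
  · intro I hI r hr
    obtain ⟨i, k, hi, hk, rfl⟩ := mem_entE hI
    rcases hr with rfl | rfl
    · exact Or.inl (he i hi k hk)
    · exact Or.inl b3

theorem wrE {K : ℕ} {e : ℕ → ℕ → Reg} {i k : ℕ} (hi : i < K) (hk : k < K) :
    [4, i, k] ∈ wr (entE K e) := by
  refine ⟨⟨Op.add, [4, i, k], e i k, [3]⟩, ?_, rfl⟩
  simp only [entE, List.mem_flatMap, List.mem_map, List.mem_range]
  exact ⟨i, hi, k, hk, rfl⟩

theorem wrE_hd {K : ℕ} {e : ℕ → ℕ → Reg} {r : Reg} (hr : r ∈ wr (entE K e)) : r.headD 0 = 4 := by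
  obtain ⟨I, hI, rfl⟩ := hr
  obtain ⟨i, k, hi, hk, rfl⟩ := mem_entE hI
  rfl

end TDTE

open TDTE Pool.Agent.Y648.CS.TDET in
/-- The query for a determinant. -/
theorem t_DTE : S_DTE := by
  refine ⟨qD, fun S K e g hg hK hKS he => ?_⟩
  rw [dtE_eq]
  obtain ⟨K, rfl⟩ : ∃ K', K = K' + 1 := ⟨K - 1, by omega⟩
  rw [Nat.add_sub_cancel]
  set G : Matrix (Fin (K + 1)) (Fin (K + 1)) ℝ :=
    Matrix.of fun i k : Fin (K + 1) => g (e i k) with hG
  have hord1 : Ord baseReg (entE (K + 1) e) := ordE he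
  have hfl := t_ORD2B t_ORD1 (K + 1) (baseReg ∪ wr (entE (K + 1) e)) Set.subset_union_left
    (fun i hi j hj => Or.inr (TDTE.wrE hi hj)) (fun r hr => by
      rcases hr with hr | hr
      · have : r.headD 0 < 4 := hr
        omega
      · have := TDTE.wrE_hd hr
        omega)
  have hord : Ord baseReg (entE (K + 1) e ++ flProg (K + 1)) :=
    (t_ORD1.1 _ _ _).2 ⟨hord1, hfl.1⟩
  have hent : ∀ i k, i < K + 1 → k < K + 1 → vd g G [4, i, k] = g (e i k) := by
    intro i k hi hk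
    rw [v4, Pool.Agent.W920.FD.TEQM.ent_mk _ _ _ hi hk, hG]
    rfl
  refine ⟨⟨hord, vd g G, vd_base g G, ?_, ?_, ?_⟩, ?_⟩
  · intro I hI
    have hE : Eqn (vd g G) I := by
      rcases List.mem_append.1 hI with hI | hI
      · obtain ⟨i, k, hi, hk, rfl⟩ := mem_entE hI
        refine ⟨?_, by simp⟩
        simp only [Op.eval]
        rw [hent i k hi hk, v3 G hg, vd_base g G _ (he i hi k hk), add_zero]
      · exact good_fl G hg I hI
    refine ⟨hE.1, hE.2, ?_⟩
    intro lam hlam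
    obtain ⟨D, hD1, hD2, hD3⟩ := hlam
    have hIB : ∀ i j, IB (G i j) D (2 ^ lam) := by
      intro i j
      obtain ⟨z, h2, h3⟩ := hD3 (e i j) (he i i.2 j j.2)
      refine ⟨z, h3, ?_⟩
      rw [← Int.natCast_natAbs]
      exact_mod_cast h2
    have hs := sizes (K := K + 1) (by omega) (g := g) G hD1 hD2 hIB
      (qD_ge (K + 1) lam (S + lam) (by omega) (by omega))
    rcases List.mem_append.1 hI with hI | hI
    · obtain ⟨i, k, hi, hk, rfl⟩ := mem_entE hI
      exact hs.1 i k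
    · exact hs.2 I hI
  · right
    obtain ⟨I, hI, hI2⟩ := hfl.2.2.2 K (by omega)
    exact ⟨I, List.mem_append_right _ hI, hI2⟩
  · show cVal G K = _
    rw [cVal_det]
  · show (entE (K + 1) e ++ flProg (K + 1)).length ≤ _
    rw [List.length_append]
    have h1 : (entE (K + 1) e).length = (K + 1) * (K + 1) := by
      unfold entE
      rw [List.length_flatMap]
      simp
    have h2 := Pool.Agent.W920.FD.TLEN.l_fl (K + 1)
    rw [h1]
    refine le_trans (Nat.add_le_add_left h2 _) (len_ge (K + 1) S (by omega))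

end Pool.Agent.Y648.TP
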