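import Pool.Agent.Y648.TP.StmC

set_option autoImplicit false

/-!
# The first `3 n` constraints
-/

namespace Pool.Agent.Y648.TP

open Pool.Agent.NPC Pool.Agent.H558R2 Pool.Agent.H622R3.SM Pool.Agent.W920.FC Pool.Agent.Y648.CS

namespace INI

/-- The value of the vector number `k` of the data at `x`. -/
noncomputable def yy (n : ℕ) (v : ℕ → ℕ → ℝ) (k : ℕ) (x : Fin n → ℝ) : ℝ :=
  ∑ i : Fin n, v k i * x i

variable {m n : ℕ} {W v : ℕ → ℕ → ℝ} {κ : ℕ → ℝ} {ε Ω : ℝ}

lemma lv_eq (H : Sys m n W v κ ε Ω) {c : ℕ} (hc : c < 3 * m) (x : Fin n → ℝ) :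
    lv n W c x = κ c * yy n v (c / 3) x := by
  unfold lv yy
  rw [Finset.mul_sum]
  apply Finset.sum_congr rfl
  intro i _
  rw [H.eq c hc i i.2]
  ring

lemma orc_true {R : List ℕ} {c : ℕ} : orc n W R c = true ↔ 0 ≤ Nv n W R c := by
  unfold orc bl
  exact @decide_eq_true_iff _ (Classical.propDecidable _)

lemma orc_false {R : List ℕ} {c : ℕ} : orc n W R c = false ↔ ¬ 0 ≤ Nv n W R c := by
  rw [← orc_true]
  simp

lemma con_iff {r c : ℕ} : con n r c = true ↔ c < r ∨ (c / 3 < n ∧ c % 3 ≠ 0) := by
  unfold con
  simp

lemma con_mono {r c : ℕ} (h : con n r c = true) : con n (r + 1) c = true := by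
  rw [con_iff] at *
  omega

lemma con_succ {r c : ℕ} (h : con n (r + 1) c = true) (hc : c ≠ r) : con n r c = true := by
  rw [con_iff] at *
  omega

lemma alt_lt {B : List ℕ} (hB : Alt m n κ B) {k : ℕ} (hk : k < n) : B.getD k 0 < 3 * m := by
  have h1 : k < B.length := by rw [hB.1.1]; exact hk
  have h2 : B.getD k 0 ∈ B := by
    rw [List.getD_eq_getElem (hn := h1)]
    exact List.getElem_mem h1
  exact hB.1.2 _ h2

lemma mem_getD {B : List ℕ} (hB : Alt m n κ B) {k : ℕ} (hk : k < n) : B.getD k 0 ∈ B := by
  have h1 : k < B.length := by rw [hB.1.1]; exact hk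
  rw [List.getD_eq_getElem (hn := h1)]
  exact List.getElem_mem h1

/-- Elements of the new basis. -/
lemma getD_set {B : List ℕ} {k : ℕ} (hk : k < B.length) (r j : ℕ) :
    (B.set k r).getD j 0 = if j = k then r else B.getD j 0 := by
  simp only [List.getD_eq_getElem?_getD, List.getElem?_set]
  by_cases h : k = j
  · subst h
    simp [hk]
  · have h' : ¬ j = k := fun e => h e.symm
    simp [h, h']

/-- Swapping the bases. -/
lemma ini_symm {r : ℕ} {B B' : List ℕ} (h : Ini m n W κ r B B') : Ini m n W κ r B' B := by
  obtain ⟨h1, h2, h3, h4, h5, h6⟩ := h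
  refine ⟨h2, h1, ?_, ?_, h6, h5⟩
  · intro k hk
    obtain ⟨a, b, c⟩ := h3 k hk
    exact ⟨b, a, by rw [mul_comm]; exact c⟩
  · intro a ha
    apply h4
    rw [List.mem_append] at *
    tauto

/-- One of the two bases is changed. -/
lemma step (hV : S_VTX) (hN : S_NZR) (H : Sys m n W v κ ε Ω) {r : ℕ} (hr : r < 3 * n)
    {B B' : List ℕ} (h : Ini m n W κ r B B') (ho : orc n W B r = false)
    (ho' : orc n W B' r = true) :
    Ini m n W κ (r + 1) (fixS m n (orc n W) r B) B' := by
  obtain ⟨h1, h2, h3, h4, h5, h6⟩ := h
  have hrm : r < 3 * m := by have := H.hm; omega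
  have hk : r / 3 < n := by omega
  set k := r / 3 with hkdef
  have hfix : fixS m n (orc n W) r B = B.set k r := by
    unfold fixS
    rw [if_pos (by omega)]
  rw [hfix]
  have hkl : k < B.length := by rw [h1.1.1]; exact hk
  -- the vertices
  obtain ⟨⟨X, hX⟩, _, _, hXs⟩ := hV n W B h1.1.1 (hN m n W v κ ε Ω H B h1)
  obtain ⟨⟨X', hX'⟩, _, _, hXs'⟩ := hV n W B' h2.1.1 (hN m n W v κ ε Ω H B' h2)
  have hF := h5 X hX
  have hF' := h6 X' hX'
  have hr1 : ¬ W r n ≤ lv n W r X := by
    rw [← hXs X hX r]
    exact orc_false.1 ho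
  have hr2 : W r n ≤ lv n W r X' := by
    rw [← hXs' X' hX' r]
    exact orc_true.1 ho'
  rw [lv_eq H hrm, ← hkdef] at hr1 hr2
  have hBk := h3 k hk
  have hBm : B.getD k 0 < 3 * m := alt_lt h1 hk
  have hc1 : con n r (B.getD k 0) = true := h4 _ (List.mem_append.2 (Or.inl (mem_getD h1 hk)))
  have e1 : W (B.getD k 0) n = κ (B.getD k 0) * yy n v k X := by
    have := hX k hk
    rw [lv_eq H hBm, hBk.1] at this
    exact this.symm
  have e2 : W (B.getD k 0) n ≤ κ (B.getD k 0) * yy n v k X' := by
    have := hF' _ hBm hc1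
    rw [lv_eq H hBm, hBk.1] at this
    exact this
  have hκr : κ r ≠ 0 := H.nz r hrm
  have hκB : κ (B.getD k 0) ≠ 0 := H.nz _ hBm
  push Not at hr1
  set Y := yy n v k X with hY
  set Y' := yy n v k X' with hY'
  have hsg : 0 < κ r * κ (B.getD k 0) := by
    have a1 : 0 < κ r * (Y' - Y) := by nlinarith
    have a2 : 0 ≤ κ (B.getD k 0) * (Y' - Y) := by nlinarith
    rcases lt_or_gt_of_ne hκr with hneg | hpos
    · have a3 : Y' - Y < 0 := by
        by_contra hcon
        push Not at hcon
        nlinarith
      have a4 : κ (B.getD k 0) ≤ 0 := by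
        by_contra hcon
        push Not at hcon
        nlinarith
      have a5 : κ (B.getD k 0) < 0 := lt_of_le_of_ne a4 hκB
      exact mul_pos_of_neg_of_neg hneg a5
    · have a3 : 0 < Y' - Y := by
        by_contra hcon
        push Not at hcon
        nlinarith
      have a4 : 0 ≤ κ (B.getD k 0) := by
        by_contra hcon
        push Not at hcon
        nlinarith
      have a5 : 0 < κ (B.getD k 0) := lt_of_le_of_ne a4 (Ne.symm hκB)
      exact mul_pos hpos a5
  -- replacing the sign
  have hrep : ∀ t : ℝ, κ (B.getD k 0) * t < 0 → κ r * t < 0 := by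
    intro t ht
    by_contra hcon
    push Not at hcon
    have b1 : 0 < κ (B.getD k 0) ^ 2 := by positivity
    have b2 : (κ r * t) * (κ (B.getD k 0)) ^ 2 = (κ r * κ (B.getD k 0)) * (κ (B.getD k 0) * t) := by
      ring
    have b3 : 0 ≤ (κ r * t) * (κ (B.getD k 0)) ^ 2 := mul_nonneg hcon b1.le
    have b4 : (κ r * κ (B.getD k 0)) * (κ (B.getD k 0) * t) < 0 := mul_neg_of_pos_of_neg hsg ht
    linarith
  have hget : ∀ j, (B.set k r).getD j 0 = if j = k then r else B.getD j 0 := getD_set hkl r
  have hpos : ∀ j < n, (B.set k r).getD j 0 / 3 = j := by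
    intro j hj
    rw [hget]
    split_ifs with hjk
    · rw [hjk]
    · exact (h3 j hj).1
  refine ⟨⟨⟨?_, ?_⟩, ?_⟩, h2, ?_, ?_, ?_, ?_⟩
  · rw [List.length_set]; exact h1.1.1
  · intro a ha
    rcases List.mem_or_eq_of_mem_set ha with ha' | ha'
    · exact h1.1.2 a ha'
    · rw [ha']; exact hrm
  · intro j hj
    refine ⟨?_, ?_⟩
    · rw [hpos j (by omega), hpos (j + 1) hj]; omega
    · have hold := (h1.2 j hj).2
      rw [hget, hget]
      by_cases hj1 : j = k
      · have hj2 : ¬ (j + 1 = k) := by omega
        rw [if_pos hj1, if_neg hj2]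
        rw [hj1] at hold ⊢
        exact hrep _ hold
      · rw [if_neg hj1]
        by_cases hj2 : j + 1 = k
        · rw [if_pos hj2]
          rw [hj2] at hold
          rw [mul_comm] at hold ⊢
          exact hrep _ hold
        · rw [if_neg hj2]
          exact hold
  · intro j hj
    refine ⟨hpos j hj, (h3 j hj).2.1, ?_⟩
    rw [hget]
    have hold := (h3 j hj).2.2
    by_cases hj1 : j = k
    · rw [if_pos hj1]
      rw [hj1] at hold ⊢
      exact hrep _ hold
    · rw [if_neg hj1]
      exact hold
  · intro a ha
    rcases List.mem_append.1 ha with ha1 | ha1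
    · rcases List.mem_or_eq_of_mem_set ha1 with ha' | ha'
      · exact con_mono (h4 a (List.mem_append.2 (Or.inl ha')))
      · rw [ha', con_iff]; omega
    · exact con_mono (h4 a (List.mem_append.2 (Or.inr ha1)))
  · intro x hx c hc hcon
    -- the coordinates of the new vertex
    have hxk : W r n = κ r * yy n v k x := by
      have := hx k hk
      rw [hget, if_pos rfl, lv_eq H hrm, ← hkdef] at this
      exact this.symm
    by_cases hcr : c = r
    · rw [hcr, lv_eq H hrm, ← hkdef, hxk]
    · have hcon' := con_succ hcon hcr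
      have f1 := hF c hc hcon'
      have f2 := hF' c hc hcon'
      rw [lv_eq H hc] at f1 f2 ⊢
      have hg : c / 3 < n := by
        rw [con_iff] at hcon
        omega
      by_cases hgk : c / 3 = k
      · rw [hgk] at f1 f2 ⊢
        rw [← hY] at f1
        rw [← hY'] at f2
        set t := yy n v k x with ht
        have g1 : 0 < κ r * (t - Y) := by nlinarith
        have g2 : 0 ≤ κ r * (Y' - t) := by nlinarith
        have hκc : κ c ≠ 0 := H.nz c hc
        have q : 0 < κ r ^ 2 := by positivity
        rcases lt_or_gt_of_ne (mul_ne_zero hκc hκr) with hneg | hpos'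
        · -- opposite signs
          have : κ c * (Y' - t) ≤ 0 := by
            by_contra hcc
            push Not at hcc
            have s1 : (κ c * κ r) * (κ r * (Y' - t)) ≤ 0 :=
              mul_nonpos_of_nonpos_of_nonneg hneg.le g2
            have s2 : (κ c * κ r) * (κ r * (Y' - t)) = (κ c * (Y' - t)) * κ r ^ 2 := by ring
            have s3 : 0 < (κ c * (Y' - t)) * κ r ^ 2 := mul_pos hcc q
            linarith
          nlinarith
        · have : 0 ≤ κ c * (t - Y) := by
            by_contra hcc
            push Not at hcc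
            have s1 : 0 < (κ c * κ r) * (κ r * (t - Y)) := mul_pos hpos' g1
            have s2 : (κ c * κ r) * (κ r * (t - Y)) = (κ c * (t - Y)) * κ r ^ 2 := by ring
            have s3 : (κ c * (t - Y)) * κ r ^ 2 < 0 := mul_neg_of_neg_of_pos hcc q
            linarith
          nlinarith
      · -- another coordinate
        have hBg : B.getD (c / 3) 0 < 3 * m := alt_lt h1 hg
        have p1 := hx (c / 3) hg
        rw [hget, if_neg hgk, lv_eq H hBg, (h3 _ hg).1] at p1
        have p2 := hX (c / 3) hg
        rw [lv_eq H hBg, (h3 _ hg).1] at p2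
        have p3 : yy n v (c / 3) x = yy n v (c / 3) X := by
          apply mul_left_cancel₀ (H.nz _ hBg)
          rw [p1, p2]
        rw [p3]
        exact f1
  · intro x hx c hc hcon
    by_cases hcr : c = r
    · rw [hcr, ← hXs' x hx r]
      exact orc_true.1 ho'
    · exact h6 x hx c hc (con_succ hcon hcr)

end INI

open INI in
theorem t_INI : S_VTX → S_NZR → S_INI := by
  intro hV hN m n W v κ ε Ω H
  refine ⟨?_, ?_, ?_⟩
  · -- the bases at the beginning
    have hget : ∀ (b : Bool) (k : ℕ), k < n →
        (ini n b).getD k 0 = 3 * k + if xor b (decide (k % 2 = 0)) then 1 else 2 := by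
      intro b k hk
      unfold ini
      rw [List.getD_eq_getElem (hn := by simpa using hk)]
      simp
    have hmem : ∀ (b : Bool) (a : ℕ), a ∈ ini n b →
        ∃ k < n, a = 3 * k + if xor b (decide (k % 2 = 0)) then 1 else 2 := by
      intro b a ha
      unfold ini at ha
      rw [List.mem_map] at ha
      obtain ⟨k, hk, rfl⟩ := ha
      exact ⟨k, List.mem_range.1 hk, rfl⟩
    have hκ : ∀ (k : ℕ), k < n → ∀ b : Bool,
        κ (3 * k + if b then 1 else 2) = if b then 1 else -1 := by
      intro k hk b
      have hkm : k < m := lt_of_lt_of_le hk H.hm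
      cases b
      · simpa using (H.b2 k hkm).1
      · simpa using (H.b1 k hkm).1
    have hdiv : ∀ (k : ℕ) (b : Bool), (3 * k + if b then 1 else 2) / 3 = k := by
      intro k b
      cases b
      · simp; omega
      · simp; omega
    have hmod : ∀ (k : ℕ) (b : Bool), (3 * k + if b then 1 else 2) % 3 ≠ 0 := by
      intro k b
      cases b
      · simp; try omega
      · simp; try omega
    have hlt : ∀ (k : ℕ) (b : Bool), k < n → (3 * k + if b then 1 else 2) < 3 * m := by
      intro k b hk
      have := H.hm
      cases b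
      · simp; omega
      · simp; omega
    have halt : ∀ b : Bool, Alt m n κ (ini n b) := by
      intro b
      refine ⟨⟨by simp [ini], ?_⟩, ?_⟩
      · intro a ha
        obtain ⟨k, hk, rfl⟩ := hmem b a ha
        exact hlt k _ hk
      · intro k hk
        rw [hget b k (by omega), hget b (k + 1) hk, hdiv, hdiv, hκ k (by omega), hκ (k + 1) hk]
        refine ⟨by omega, ?_⟩
        have hpar : decide ((k + 1) % 2 = 0) = !(decide (k % 2 = 0)) := by
          by_cases h : k % 2 = 0
          · have : ¬ (k + 1) % 2 = 0 := by omega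
            simp [h, this]
          · have : (k + 1) % 2 = 0 := by omega
            simp [h, this]
        rw [hpar]
        cases b <;> cases (decide (k % 2 = 0)) <;> simp
    have hfea : ∀ (b : Bool) (x : Fin n → ℝ), Vx n W (ini n b) x → Fea m n W 0 x := by
      intro b x hx c hc hcon
      rw [con_iff] at hcon
      have hcon' : c / 3 < n ∧ c % 3 ≠ 0 := by
        rcases hcon with h | h
        · omega
        · exact h
      obtain ⟨hg, hmo⟩ := hcon'
      have hgm : c / 3 < m := lt_of_lt_of_le hg H.hm
      have hΩ := H.hΩ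
      rw [lv_eq H hc]
      have p := hx (c / 3) hg
      rw [hget b _ hg] at p
      have hbase : ∀ b' : Bool, W (3 * (c / 3) + if b' then 1 else 2) n = -Ω := by
        intro b'
        cases b'
        · simpa using (H.b2 _ hgm).2
        · simpa using (H.b1 _ hgm).2
      rw [lv_eq H (hlt _ _ hg), hdiv, hκ _ hg, hbase] at p
      have hc' : c = 3 * (c / 3) + (if (decide (c % 3 = 1)) then 1 else 2) := by
        by_cases h : c % 3 = 1
        · simp [h]; omega
        · simp [h]; omega
      have hWc : W c n = -Ω := by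
        rw [hc']
        have := hbase (decide (c % 3 = 1))
        exact this
      have hκc : κ c = if (decide (c % 3 = 1)) then 1 else -1 := by
        have := hκ _ hg (decide (c % 3 = 1))
        rw [← hc'] at this
        exact this
      rw [hWc, hκc]
      set y := yy n v (c / 3) x with hy
      revert p
      cases (b ^^ decide (c / 3 % 2 = 0)) <;> cases (decide (c % 3 = 1)) <;> simp <;> intro p <;>
        linarith
    refine ⟨halt false, halt true, ?_, ?_, hfea false, hfea true⟩
    · intro k hk
      rw [hget false k hk, hget true k hk, hdiv, hdiv, hκ k hk, hκ k hk]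
      refine ⟨rfl, rfl, ?_⟩
      cases (decide (k % 2 = 0)) <;> simp
    · intro a ha
      rcases List.mem_append.1 ha with h | h
      · obtain ⟨k, hk, rfl⟩ := hmem _ _ h
        rw [con_iff]
        exact Or.inr ⟨by rw [hdiv]; exact hk, hmod _ _⟩
      · obtain ⟨k, hk, rfl⟩ := hmem _ _ h
        rw [con_iff]
        exact Or.inr ⟨by rw [hdiv]; exact hk, hmod _ _⟩
  · rintro B B' ⟨h1, h2, h3, h4, h5, h6⟩
    have := H.hn
    exact ⟨h1, h2, (h3 (n - 1) (by omega)).2.2, h4, h5, h6⟩
  · intro r hr B B' h
    refine ⟨?_, ?_, ?_, ?_⟩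
    · -- infeasible
      intro ho ho'
      obtain ⟨h1, h2, h3, h4, h5, h6⟩ := h
      have hrm : r < 3 * m := by have := H.hm; omega
      have hk : r / 3 < n := by omega
      obtain ⟨⟨X, hX⟩, _, _, hXs⟩ := hV n W B h1.1.1 (hN m n W v κ ε Ω H B h1)
      obtain ⟨⟨X', hX'⟩, _, _, hXs'⟩ := hV n W B' h2.1.1 (hN m n W v κ ε Ω H B' h2)
      have hr1 : ¬ W r n ≤ lv n W r X := by
        rw [← hXs X hX r]
        exact orc_false.1 ho
      have hr2 : ¬ W r n ≤ lv n W r X' := by
        rw [← hXs' X' hX' r]
        exact orc_false.1 ho'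
      rw [lv_eq H hrm] at hr1 hr2
      rintro ⟨x, hx⟩
      have hxr : W r n ≤ κ r * yy n v (r / 3) x := by
        have := hx r hrm (by rw [con_iff]; omega)
        rwa [lv_eq H hrm] at this
      have key : ∀ (C : List ℕ) (Z : Fin n → ℝ), Alt m n κ C → (∀ a ∈ C, con n r a = true) →
          C.getD (r / 3) 0 / 3 = r / 3 → Vx n W C Z →
          0 ≤ κ (C.getD (r / 3) 0) * (yy n v (r / 3) x - yy n v (r / 3) Z) := by
        intro C Z hC hcon hpos hZ
        have hm' := alt_lt hC hk
        have a1 := hZ (r / 3) hk
        rw [lv_eq H hm', hpos] at a1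
        have a2 := hx _ hm' (con_mono (hcon _ (mem_getD hC hk)))
        rw [lv_eq H hm', hpos] at a2
        nlinarith
      have k1 := key B X h1 (fun a ha => h4 a (List.mem_append.2 (Or.inl ha))) (h3 _ hk).1 hX
      have k2 := key B' X' h2 (fun a ha => h4 a (List.mem_append.2 (Or.inr ha))) (h3 _ hk).2.1 hX'
      have k3 := (h3 _ hk).2.2
      push Not at hr1 hr2
      set Y := yy n v (r / 3) X
      set Y' := yy n v (r / 3) X'
      set y := yy n v (r / 3) x
      set p := κ (B.getD (r / 3) 0)
      set p' := κ (B'.getD (r / 3) 0)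
      have g1 : 0 < κ r * (y - Y) := by nlinarith
      have g2 : 0 < κ r * (y - Y') := by nlinarith
      -- p and p' have opposite signs
      rcases lt_or_ge p 0 with hp | hp
      · have hp' : 0 < p' := by
          by_contra hcon
          push Not at hcon
          nlinarith
        have i1 : y - Y ≤ 0 := by
          by_contra hcon
          push Not at hcon
          nlinarith
        have i2 : 0 ≤ y - Y' := by
          by_contra hcon
          push Not at hcon
          nlinarith
        have i3 : κ r < 0 := by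
          by_contra hcon
          push Not at hcon
          nlinarith
        nlinarith
      · have hp0 : 0 < p := by
          rcases eq_or_lt_of_le hp with h0 | h0
          · rw [← h0] at k3; simp at k3
          · exact h0
        have hp' : p' < 0 := by
          by_contra hcon
          push Not at hcon
          nlinarith
        have i1 : 0 ≤ y - Y := by
          by_contra hcon
          push Not at hcon
          nlinarith
        have i2 : y - Y' ≤ 0 := by
          by_contra hcon
          push Not at hcon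
          nlinarith
        have i3 : 0 < κ r := by
          by_contra hcon
          push Not at hcon
          nlinarith
        nlinarith
    · intro ho ho'
      exact step hV hN H hr h ho ho'
    · intro ho ho'
      exact ini_symm (step hV hN H hr (ini_symm h) ho' ho)
    · intro ho ho'
      obtain ⟨h1, h2, h3, h4, h5, h6⟩ := h
      have key : ∀ (C : List ℕ), Alt m n κ C → orc n W C r = true →
          (∀ x, Vx n W C x → Fea m n W r x) → ∀ x, Vx n W C x → Fea m n W (r + 1) x := by
        intro C hC hoC hF x hx c hc hcon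
        by_cases hcr : c = r
        · obtain ⟨_, _, _, hXs⟩ := hV n W C hC.1.1 (hN m n W v κ ε Ω H C hC)
          rw [hcr, ← hXs x hx r]
          exact orc_true.1 hoC
        · exact hF x hx c hc (con_succ hcon hcr)
      exact ⟨h1, h2, h3, fun a ha => con_mono (h4 a ha), key B h1 ho h5, key B' h2 ho' h6⟩

end Pool.Agent.Y648.TP
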