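import Pool.Agent.Y648.TP.T_PIV

set_option autoImplicit false

/-!
# Iterated pivots
-/

namespace Pool.Agent.Y648.TP

theorem psm_lt {m n : ℕ} {κ : ℕ → ℝ} {B : List ℕ} (hn : 1 ≤ n) (hm : n ≤ m)
    (hB : Alt m n κ B) : psm B < n * m := by
  have h1 : psm B ≤ B.length * (m - 1) := by
    unfold psm
    have h2 := List.sum_le_card_nsmul (B.map fun a => a / 3) (m - 1) (fun a ha => by
      obtain ⟨b, hb, rfl⟩ := List.mem_map.1 ha
      have := hB.1.2 b hb
      omega)
    rwa [List.length_map, smul_eq_mul] at h2
  rw [hB.1.1] at h1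
  refine lt_of_le_of_lt h1 ?_
  exact Nat.mul_lt_mul_of_pos_left (by omega) (by omega)

theorem t_INN (hP : S_PIV) : S_INN := by
  intro m n W v κ ε Ω hs r B h3 hr hz hI
  set f := pivS m n (orc n W) r with hf
  have hinv : ∀ i, Inn m n W κ r (f^[i] B) := by
    intro i
    induction i with
    | zero => exact hI
    | succ i ih =>
      rw [Function.iterate_succ_apply']
      exact (hP m n W v κ ε Ω hs r _ h3 hr hz ih).1
  refine ⟨hinv _, ?_⟩
  have key : ∀ i, (f (f^[i] B) = f^[i] B ∧ ∀ x, Vx n W (f^[i] B) x → Fea m n W r x) ∨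
      i ≤ psm (f^[i] B) := by
    intro i
    induction i with
    | zero => exact Or.inr (Nat.zero_le _)
    | succ i ih =>
      rw [Function.iterate_succ_apply']
      rcases ih with h1 | h1
      · left
        rw [h1.1]
        exact h1
      · rcases (hP m n W v κ ε Ω hs r _ h3 hr hz (hinv i)).2 with h2 | h2
        · left
          rw [← hf] at h2
          rw [h2.1]
          exact h2
        · right
          rw [← hf] at h2
          omega
  rcases key (n * m) with h1 | h1
  · exact h1.2
  · have h2 := psm_lt hs.hn hs.hm (hinv (n * m)).1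
    omega

end Pool.Agent.Y648.TP
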