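import Pool.Agent.Y648.TP.StmC
import Pool.Agent.H575R2.Farkas

set_option autoImplicit false

/-!
# Totally nonnegative column spaces: feasibility of the perturbed system
-/

namespace Pool.Agent.Y648.TP

namespace LIM

/-- The values of a linear form on the rows after `j` steps. -/
noncomputable def lY (m : ℕ) (y : ℕ → ℝ) (z : ℝ) : ℕ → ℕ → ℝ
  | 0, i => if i < m then y i else 0
  | j + 1, i => if i < m then z ^ 3 * lY m y z j i + (if j < m then lY m y z j (i + 1)
      else if i = 0 then 0 else lY m y z j (i - 1)) else 0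

lemma lY_eq (m n : ℕ) (V : ℕ → ℕ → ℝ) (z : ℝ) (x : Fin n → ℝ) : ∀ j i,
    ∑ k : Fin n, Wp m V z j i k * x k = lY m (fun i => ∑ k : Fin n, V i k * x k) z j i := by
  intro j
  induction j with
  | zero =>
    intro i
    unfold Wp lY
    by_cases h : i < m
    · simp only [if_pos h]
    · simp only [if_neg h, zero_mul, Finset.sum_const_zero]
  | succ j ih =>
    intro i
    unfold Wp lY
    by_cases h : i < m
    · simp only [if_pos h]
      rw [← ih i]
      by_cases h1 : j < m
      · simp only [if_pos h1]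
        rw [← ih (i + 1), Finset.mul_sum, ← Finset.sum_add_distrib]
        exact Finset.sum_congr rfl fun k _ => by ring
      · simp only [if_neg h1]
        by_cases h2 : i = 0
        · simp only [if_pos h2]
          rw [add_zero, Finset.mul_sum]
          exact Finset.sum_congr rfl fun k _ => by ring
        · simp only [if_neg h2]
          rw [← ih (i - 1), Finset.mul_sum, ← Finset.sum_add_distrib]
          exact Finset.sum_congr rfl fun k _ => by ring
    · simp only [if_neg h, zero_mul, Finset.sum_const_zero]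

section bd

variable {m : ℕ} {y : ℕ → ℝ} {z M : ℝ}

/-- The error term. -/
noncomputable def er (m : ℕ) (y : ℕ → ℝ) (z : ℝ) (j i : ℕ) : ℝ :=
  if j < m then lY m y z j (i + 1) else if i = 0 then 0 else lY m y z j (i - 1)

lemma lY_succ (j i : ℕ) (h : i < m) : lY m y z (j + 1) i = z ^ 3 * lY m y z j i + er m y z j i := by
  rw [lY, if_pos h]
  rfl

lemma lY_bd (hz : 1 ≤ z) (hM : 0 ≤ M) (hy : ∀ i < m, |y i| ≤ M) : ∀ j i,
    |lY m y z j i| ≤ 2 ^ j * z ^ (3 * j) * M := by
  intro j
  induction j with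
  | zero =>
    intro i
    rw [lY]
    by_cases h : i < m
    · rw [if_pos h]
      simpa using hy i h
    · rw [if_neg h, abs_zero]
      positivity
  | succ j ih =>
    intro i
    have hz0 : (0 : ℝ) ≤ z := by linarith
    have hB : (0 : ℝ) ≤ 2 ^ j * z ^ (3 * j) * M := by positivity
    by_cases h : i < m
    · rw [lY_succ j i h]
      have h1 : |er m y z j i| ≤ 2 ^ j * z ^ (3 * j) * M := by
        unfold er
        split_ifs
        · exact ih _
        · rw [abs_zero]; exact hB
        · exact ih _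
      have h3 : (1 : ℝ) ≤ z ^ 3 := one_le_pow₀ hz
      calc |z ^ 3 * lY m y z j i + er m y z j i| ≤ |z ^ 3 * lY m y z j i| + |er m y z j i| :=
            abs_add_le _ _
        _ = z ^ 3 * |lY m y z j i| + |er m y z j i| := by
            rw [abs_mul, abs_of_nonneg (by positivity : (0 : ℝ) ≤ z ^ 3)]
        _ ≤ z ^ 3 * (2 ^ j * z ^ (3 * j) * M) + 2 ^ j * z ^ (3 * j) * M :=
            add_le_add (mul_le_mul_of_nonneg_left (ih i) (by positivity)) h1
        _ ≤ z ^ 3 * (2 ^ j * z ^ (3 * j) * M) + z ^ 3 * (2 ^ j * z ^ (3 * j) * M) := by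
            nlinarith
        _ = 2 ^ (j + 1) * z ^ (3 * (j + 1)) * M := by ring
    · rw [lY, if_neg h, abs_zero]
      positivity

lemma lY_ap (hz : 1 ≤ z) (hM : 0 ≤ M) (hy : ∀ i < m, |y i| ≤ M) : ∀ j, ∀ i < m,
    |lY m y z j i - z ^ (3 * j) * y i| * z ^ 3 ≤ 2 ^ j * z ^ (3 * j) * M := by
  intro j
  induction j with
  | zero =>
    intro i h
    rw [lY, if_pos h]
    simpa using hM
  | succ j ih =>
    intro i h
    have hz0 : (0 : ℝ) ≤ z := by linarith
    have hB : (0 : ℝ) ≤ 2 ^ j * z ^ (3 * j) * M := by positivity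
    have h1 : |er m y z j i| ≤ 2 ^ j * z ^ (3 * j) * M := by
      unfold er
      split_ifs
      · exact lY_bd hz hM hy _ _
      · rw [abs_zero]; exact hB
      · exact lY_bd hz hM hy _ _
    have h2 : lY m y z (j + 1) i - z ^ (3 * (j + 1)) * y i =
        z ^ 3 * (lY m y z j i - z ^ (3 * j) * y i) + er m y z j i := by
      rw [lY_succ j i h]
      ring
    have h3 : |lY m y z (j + 1) i - z ^ (3 * (j + 1)) * y i| ≤
        z ^ 3 * |lY m y z j i - z ^ (3 * j) * y i| + |er m y z j i| := by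
      rw [h2]
      refine (abs_add_le _ _).trans ?_
      rw [abs_mul, abs_of_nonneg (by positivity : (0 : ℝ) ≤ z ^ 3)]
    have hz3 : (0 : ℝ) ≤ z ^ 3 := by positivity
    calc |lY m y z (j + 1) i - z ^ (3 * (j + 1)) * y i| * z ^ 3 ≤
          (z ^ 3 * |lY m y z j i - z ^ (3 * j) * y i| + |er m y z j i|) * z ^ 3 :=
          mul_le_mul_of_nonneg_right h3 hz3
      _ = z ^ 3 * (|lY m y z j i - z ^ (3 * j) * y i| * z ^ 3) + |er m y z j i| * z ^ 3 := by ring
      _ ≤ z ^ 3 * (2 ^ j * z ^ (3 * j) * M) + (2 ^ j * z ^ (3 * j) * M) * z ^ 3 :=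
          add_le_add (mul_le_mul_of_nonneg_left (ih i h) hz3)
            (mul_le_mul_of_nonneg_right h1 hz3)
      _ = 2 ^ (j + 1) * z ^ (3 * (j + 1)) * M := by ring

end bd

/-- The sign of a row. -/
noncomputable def sg (s : List Bool) (g : ℕ) : ℝ := if s.getD g true then 1 else -1

lemma sg_abs (s : List Bool) (g : ℕ) : |sg s g| = 1 := by
  unfold sg
  split_ifs <;> simp

lemma pm_sum (m n : ℕ) (V : ℕ → ℕ → ℝ) (s : List Bool) (b : ℕ → ℝ) (z : ℝ) (x : Fin n → ℝ)
    (c : ℕ) : ∑ i : Fin n, Pm m n V s b z c i * x i =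
    (if c % 3 = 2 ∨ (c % 3 = 0 ∧ s.getD (c / 3) true = false) then -1 else 1) *
      lY m (fun i => ∑ k : Fin n, V i k * x k) z (2 * m) (c / 3) := by
  rw [← lY_eq, Finset.mul_sum]
  refine Finset.sum_congr rfl fun i _ => ?_
  unfold Pm
  rw [if_pos i.2]
  split_ifs <;> ring

/-- The perturbed system. -/
lemma pm_iff (m n : ℕ) (V : ℕ → ℕ → ℝ) (s : List Bool) (b : ℕ → ℝ) (z : ℝ) (x : Fin n → ℝ) :
    (∀ c < 3 * m, Pm m n V s b z c n ≤ ∑ i : Fin n, Pm m n V s b z c i * x i) ↔
    ∀ g < m, b g * z ^ (6 * m) - z ^ (6 * m - 1) ≤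
        sg s g * lY m (fun i => ∑ k : Fin n, V i k * x k) z (2 * m) g ∧
      |lY m (fun i => ∑ k : Fin n, V i k * x k) z (2 * m) g| ≤ z ^ (6 * m + 1) := by
  constructor
  · intro h g hg
    have h0 := h (3 * g) (by omega)
    have h1 := h (3 * g + 1) (by omega)
    have h2 := h (3 * g + 2) (by omega)
    rw [pm_sum] at h0 h1 h2
    unfold Pm at h0 h1 h2
    rw [if_neg (lt_irrefl n)] at h0 h1 h2
    rw [show 3 * g / 3 = g by omega, if_pos (by omega)] at h0
    rw [show (3 * g + 1) / 3 = g by omega, if_neg (by omega), if_neg (by omega)] at h1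
    rw [show (3 * g + 2) / 3 = g by omega, if_neg (by omega), if_pos (by omega)] at h2
    refine ⟨?_, ?_⟩
    · unfold sg
      rcases Bool.eq_false_or_eq_true (s.getD g true) with h3 | h3
      · rw [h3, if_pos rfl]
        rw [if_neg (by rw [h3]; simp)] at h0
        exact h0
      · rw [h3]
        rw [if_pos (Or.inr ⟨by omega, h3⟩)] at h0
        simpa using h0
    · rw [abs_le]
      constructor <;> linarith
  · intro h c hc
    obtain ⟨h1, h2⟩ := h (c / 3) (by omega)
    rw [abs_le] at h2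
    rw [pm_sum]
    unfold Pm
    rw [if_neg (lt_irrefl n)]
    have h3 : c % 3 = 0 ∨ c % 3 = 1 ∨ c % 3 = 2 := by omega
    rcases h3 with h3 | h3 | h3
    · rw [if_pos h3]
      unfold sg at h1
      rcases Bool.eq_false_or_eq_true (s.getD (c / 3) true) with h4 | h4
      · rw [h4, if_pos rfl] at h1
        rw [if_neg (by rw [h4, h3]; simp)]
        exact h1
      · rw [h4] at h1
        rw [if_pos (Or.inr ⟨h3, h4⟩)]
        simpa using h1
    · rw [if_neg (by omega), if_neg (by omega)]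
      linarith
    · rw [if_neg (by omega), if_pos (by omega)]
      linarith

lemma or_iff (n : ℕ) (V : ℕ → ℕ → ℝ) (s : List Bool) (x : Fin n → ℝ) (i : ℕ) :
    ∑ k : Fin n, (if s.getD i true then V i k else - V i k) * x k =
      sg s i * ∑ k : Fin n, V i k * x k := by
  rw [Finset.mul_sum]
  refine Finset.sum_congr rfl fun k _ => ?_
  unfold sg
  split_ifs <;> ring

/-- Farkas' lemma. -/
lemma fark (m n : ℕ) (V : ℕ → ℕ → ℝ) (s : List Bool) (b : ℕ → ℝ)
    (h : ¬ ∃ x : Fin n → ℝ, ∀ i < m, b i ≤ sg s i * ∑ k : Fin n, V i k * x k) :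
    ∃ w : Fin m → ℝ, (∀ i, 0 ≤ w i) ∧ ∀ x : Fin n → ℝ,
      ∑ i : Fin m, w i * (b i - sg s i * ∑ k : Fin n, V i k * x k) = 1 := by
  let l : Fin m → (((Fin n → ℝ) × ℝ) →ₗ[ℝ] ℝ) := fun i =>
    b i • LinearMap.snd ℝ (Fin n → ℝ) ℝ - sg s i • ∑ k : Fin n, V i k •
      (LinearMap.proj k).comp (LinearMap.fst ℝ (Fin n → ℝ) ℝ)
  have hl : ∀ (i : Fin m) (x : Fin n → ℝ) (t : ℝ),
      l i (x, t) = b i * t - sg s i * ∑ k : Fin n, V i k * x k := by
    intro i x t
    simp [l]
  obtain ⟨w, hw, hf⟩ := H575R2.farkas_lin m l (LinearMap.snd ℝ (Fin n → ℝ) ℝ) (by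
    rintro ⟨x, t⟩ hx
    by_contra ht
    rw [LinearMap.snd_apply, not_le] at ht
    apply h
    refine ⟨fun k => x k / t, fun i hi => ?_⟩
    have h1 := hx ⟨i, hi⟩
    rw [hl] at h1
    have h2 : ∑ k : Fin n, V i k * (x k / t) = (∑ k : Fin n, V i k * x k) / t := by
      rw [Finset.sum_div]
      exact Finset.sum_congr rfl fun k _ => by ring
    rw [h2, mul_div_assoc', le_div_iff₀ ht]
    simp only at h1
    linarith)
  refine ⟨w, hw, fun x => ?_⟩
  have h1 := hf (x, 1)
  rw [LinearMap.snd_apply] at h1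
  rw [Finset.sum_congr rfl fun i _ => by rw [hl i x 1]] at h1
  refine Eq.trans ?_ h1.symm
  exact Finset.sum_congr rfl fun i _ => by ring

end LIM

open LIM in
/-- Feasibility of the perturbed system. -/
theorem t_LIM : S_LIM := by
  intro m n V s b hm
  have h0 : ∀ z : ℕ, ((∃ x : Fin n → ℝ, ∀ c < 3 * m,
        Pm m n V s b z c n ≤ ∑ i : Fin n, Pm m n V s b z c i * x i) ↔
      ∃ x : Fin n → ℝ, ∀ g < m, b g * (z : ℝ) ^ (6 * m) - (z : ℝ) ^ (6 * m - 1) ≤
        sg s g * lY m (fun i => ∑ k : Fin n, V i k * x k) z (2 * m) g ∧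
      |lY m (fun i => ∑ k : Fin n, V i k * x k) z (2 * m) g| ≤ (z : ℝ) ^ (6 * m + 1)) := by
    intro z
    exact exists_congr fun x => pm_iff m n V s b z x
  have h0' : (∃ x : Fin n → ℝ, ∀ i < m,
        b i ≤ ∑ k : Fin n, (if s.getD i true then V i k else - V i k) * x k) ↔
      ∃ x : Fin n → ℝ, ∀ i < m, b i ≤ sg s i * ∑ k : Fin n, V i k * x k := by
    refine exists_congr fun x => ?_
    simp only [or_iff]
  simp only [h0, h0']
  set C : ℝ := 2 ^ (2 * m) with hC
  have hC0 : 0 < C := by positivity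
  -- the powers
  have hpow : ∀ z : ℝ, z ^ (6 * m) = z * z ^ (6 * m - 1) := by
    intro z
    rw [← pow_succ']
    congr 1
    omega
  have hpow' : ∀ z : ℝ, z ^ (6 * m + 1) = z * z ^ (6 * m) := fun z => pow_succ' _ _
  have hpow2 : ∀ z : ℝ, z ^ (3 * (2 * m)) = z ^ (6 * m) := fun z => by
    congr 1
    omega
  by_cases hf : ∃ x : Fin n → ℝ, ∀ i < m, b i ≤ sg s i * ∑ k : Fin n, V i k * x k
  · obtain ⟨x, hx⟩ := hf
    set y : ℕ → ℝ := fun i => ∑ k : Fin n, V i k * x k with hy
    set M : ℝ := ∑ i ∈ Finset.range m, |y i| with hM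
    have hM0 : 0 ≤ M := Finset.sum_nonneg fun i _ => abs_nonneg _
    have hyM : ∀ i < m, |y i| ≤ M := fun i hi =>
      Finset.single_le_sum (f := fun i => |y i|) (fun j _ => abs_nonneg _)
        (Finset.mem_range.2 hi)
    filter_upwards [Filter.eventually_ge_atTop ⌈C * M + M + 1⌉₊] with z hz
    have hz1 : C * M + M + 1 ≤ (z : ℝ) := (Nat.le_ceil _).trans (by exact_mod_cast hz)
    have hCM : 0 ≤ C * M := by positivity
    have hz2 : (1 : ℝ) ≤ z := by linarith
    refine ⟨fun _ => ⟨x, hx⟩, fun _ => ⟨x, fun g hg => ?_⟩⟩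
    have h1 := lY_ap (z := z) hz2 hM0 hyM (2 * m) g hg
    rw [hpow2] at h1
    set T' : ℝ := (z : ℝ) ^ (6 * m - 1) with hT'
    have hT0 : 0 < T' := by positivity
    rw [hpow'] 
    rw [hpow] at h1 ⊢
    rw [← hT'] at h1 ⊢
    set Y : ℝ := lY m y z (2 * m) g with hY
    -- the error
    have h2 : |Y - z * T' * y g| ≤ T' := by
      have h3 : C * M ≤ (z : ℝ) * z := by nlinarith
      have h4 : |Y - z * T' * y g| * (z : ℝ) ^ 3 ≤ T' * (z : ℝ) ^ 3 := by
        calc |Y - z * T' * y g| * (z : ℝ) ^ 3 ≤ C * (z * T') * M := h1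
          _ = (C * M) * (z * T') := by ring
          _ ≤ ((z : ℝ) * z) * (z * T') := mul_le_mul_of_nonneg_right h3 (by positivity)
          _ = T' * (z : ℝ) ^ 3 := by ring
      exact le_of_mul_le_mul_right h4 (by positivity)
    have h5 := hx g hg
    have h6 := hyM g hg
    rw [abs_le] at h2
    constructor
    · unfold sg at h5 ⊢
      have h7 : 0 ≤ (z : ℝ) * T' := by positivity
      have h8 := mul_le_mul_of_nonneg_right h5 h7
      split_ifs at h8 ⊢
      · nlinarith
      · nlinarith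
    · have h7 : |z * T' * y g| ≤ z * T' * M := by
        rw [abs_mul, abs_of_nonneg (by positivity : (0 : ℝ) ≤ z * T')]
        exact mul_le_mul_of_nonneg_left h6 (by positivity)
      rw [abs_le] at h7 ⊢
      have h8 : z * T' * M + T' ≤ z * (z * T') := by
        have h9 : (z : ℝ) * M + 1 ≤ z * z := by nlinarith
        have h10 := mul_le_mul_of_nonneg_right h9 hT0.le
        nlinarith
      constructor <;> linarith [h2.1, h2.2, h7.1, h7.2]
  · obtain ⟨w, hw, hw1⟩ := fark m n V s b hf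
    set Λ : ℝ := ∑ i, w i with hΛ
    have hΛ0 : 0 ≤ Λ := Finset.sum_nonneg fun i _ => hw i
    filter_upwards [Filter.eventually_ge_atTop ⌈Λ * (1 + 2 * C) + 2 * C + 1⌉₊] with z hz
    have hz1 : Λ * (1 + 2 * C) + 2 * C + 1 ≤ (z : ℝ) :=
      (Nat.le_ceil _).trans (by exact_mod_cast hz)
    have hLC : 0 ≤ Λ * (1 + 2 * C) := by positivity
    have hz2 : (1 : ℝ) ≤ z := by linarith
    refine ⟨?_, fun h => absurd h hf⟩
    rintro ⟨x, hx⟩
    exfalso
    set y : ℕ → ℝ := fun i => ∑ k : Fin n, V i k * x k with hy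
    obtain ⟨g₀, hg₀, hmax⟩ := Finset.exists_max_image (Finset.range m) (fun i => |y i|)
      ⟨0, Finset.mem_range.2 hm⟩
    rw [Finset.mem_range] at hg₀
    have hyM : ∀ i < m, |y i| ≤ |y g₀| := fun i hi => hmax i (Finset.mem_range.2 hi)
    have h1 := fun g hg => lY_ap (z := z) hz2 (abs_nonneg (y g₀)) hyM (2 * m) g hg
    set M : ℝ := |y g₀| with hM
    have hM0 : 0 ≤ M := abs_nonneg _
    set T' : ℝ := (z : ℝ) ^ (6 * m - 1) with hT'
    have hT0 : 0 < T' := by positivity
    rw [hpow2, hpow, ← hT'] at h1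
    rw [hpow', hpow, ← hT'] at hx
    have hz0 : (0 : ℝ) < z := by linarith
    have hzT : 0 < (z : ℝ) * T' := by positivity
    -- the maximum
    have h2 : M ≤ 2 * z := by
      have h3 := h1 g₀ hg₀
      have h4 := (hx g₀ hg₀).2
      have h5 : z * T' * M ≤ |lY m y z (2 * m) g₀| + |lY m y z (2 * m) g₀ - z * T' * y g₀| := by
        have h6 : z * T' * M = |z * T' * y g₀| := by
          rw [abs_mul, abs_of_nonneg hzT.le]
        rw [h6]
        have h7 := abs_sub_abs_le_abs_sub (z * T' * y g₀) (lY m y z (2 * m) g₀)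
        rw [abs_sub_comm] at h7
        linarith
      have h8 : 2 * C ≤ (z : ℝ) ^ 3 := by
        have h9 : (z : ℝ) ≤ z ^ 3 := by
          calc (z : ℝ) = z * 1 := (mul_one _).symm
            _ ≤ z * z ^ 2 := mul_le_mul_of_nonneg_left (one_le_pow₀ hz2) hz0.le
            _ = z ^ 3 := by ring
        linarith
      have h10 : z * T' * M * z ^ 3 ≤ z * (z * T') * z ^ 3 + C * (z * T') * M := by
        calc z * T' * M * z ^ 3 ≤
            (|lY m y z (2 * m) g₀| + |lY m y z (2 * m) g₀ - z * T' * y g₀|) * z ^ 3 :=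
              mul_le_mul_of_nonneg_right h5 (by positivity)
          _ = |lY m y z (2 * m) g₀| * z ^ 3 +
              |lY m y z (2 * m) g₀ - z * T' * y g₀| * z ^ 3 := by ring
          _ ≤ _ := add_le_add (mul_le_mul_of_nonneg_right h4 (by positivity)) h3
      have h11 : (z * T') * (M * z ^ 3) ≤ (z * T') * (z * z ^ 3 + C * M) := by
        linarith
      have h12 := le_of_mul_le_mul_left h11 hzT
      have h13 : M * (2 * C) ≤ M * z ^ 3 := mul_le_mul_of_nonneg_left h8 hM0
      have h14 : M * z ^ 3 ≤ (2 * z) * z ^ 3 := by linarith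
      exact le_of_mul_le_mul_right h14 (by positivity)
    -- the rows
    have h3 : ∀ g < m, (b g - sg s g * y g) * z ≤ 1 + 2 * C := by
      intro g hg
      have h4 := h1 g hg
      have h5 := (hx g hg).1
      set Y : ℝ := lY m y z (2 * m) g with hY
      have h6 : |Y - z * T' * y g| * z ≤ 2 * C * T' := by
        have h7 : |Y - z * T' * y g| * z * z ^ 2 ≤ 2 * C * T' * z ^ 2 := by
          calc |Y - z * T' * y g| * z * z ^ 2 = |Y - z * T' * y g| * z ^ 3 := by ring
            _ ≤ C * (z * T') * M := h4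
            _ ≤ C * (z * T') * (2 * z) := mul_le_mul_of_nonneg_left h2 (by positivity)
            _ = 2 * C * T' * z ^ 2 := by ring
        exact le_of_mul_le_mul_right h7 (by positivity)
      have h8 : sg s g * Y ≤ sg s g * (z * T' * y g) + |Y - z * T' * y g| := by
        have h9 : sg s g * Y - sg s g * (z * T' * y g) ≤ |Y - z * T' * y g| := by
          rw [← mul_sub]
          calc sg s g * (Y - z * T' * y g) ≤ |sg s g * (Y - z * T' * y g)| := le_abs_self _
            _ = _ := by rw [abs_mul, sg_abs, one_mul]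
        linarith
      have h10 : (b g - sg s g * y g) * (z * T') ≤ T' + |Y - z * T' * y g| := by
        have h11 : (b g - sg s g * y g) * (z * T') =
            b g * (z * T') - sg s g * (z * T' * y g) := by ring
        rw [h11]
        linarith
      have h12 : T' * ((b g - sg s g * y g) * z * z) ≤ T' * ((1 + 2 * C) * z) := by
        have h13 := mul_le_mul_of_nonneg_right h10 hz0.le
        have h14 : (T' + |Y - z * T' * y g|) * z ≤ T' * z + 2 * C * T' := by linarith
        have h15 : 2 * C * T' ≤ 2 * C * T' * z := by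
          have : 0 ≤ 2 * C * T' := by positivity
          nlinarith
        nlinarith
      have h16 := le_of_mul_le_mul_left h12 hT0
      exact le_of_mul_le_mul_right h16 hz0
    have h4 := hw1 x
    have h5 : (∑ i : Fin m, w i * (b i - sg s i * ∑ k : Fin n, V i k * x k)) * z ≤
        Λ * (1 + 2 * C) := by
      rw [Finset.sum_mul, hΛ, Finset.sum_mul]
      refine Finset.sum_le_sum fun i _ => ?_
      rw [mul_assoc]
      exact mul_le_mul_of_nonneg_left (h3 i i.2) (hw i)
    rw [h4, one_mul] at h5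
    linarith

end Pool.Agent.Y648.TP
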