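import Pool.Agent.Y648.TP.StmM
import Pool.Agent.Y648.CS.Ut

set_option autoImplicit false

/-!
# Totally nonnegative column spaces: the run of the last part of the computation
-/

namespace Pool.Agent.Y648.TP

open Pool.Agent.NPC Pool.Agent.H558R2 Pool.Agent.H622R3.SM Pool.Agent.W920.FC Pool.Agent.Y648.CS

namespace TLST

theorem vd_drop {m n : ℕ} {B : List ℕ} (hn : 1 ≤ n) (hB : Vd m n B) {c : ℕ} (hc : c < 3 * m) :
    Vd m n (B.dropLast ++ [c]) := by
  refine ⟨?_, ?_⟩
  · rw [List.length_append, List.length_dropLast, hB.1, List.length_singleton]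
    omega
  · intro a ha
    rcases List.mem_append.1 ha with h | h
    · exact hB.2 a (List.mem_of_mem_dropLast h)
    · rw [List.mem_singleton] at h
      rw [h]
      exact hc

theorem vd_set {m n : ℕ} {B : List ℕ} (hB : Vd m n B) (i : ℕ) {c : ℕ} (hc : c < 3 * m) :
    Vd m n (B.set i c) := by
  refine ⟨by rw [List.length_set, hB.1], ?_⟩
  intro a ha
  rcases List.mem_or_eq_of_mem_set ha with h | h
  · exact hB.2 a h
  · rw [h]
    exact hc

theorem vd_ini {m n : ℕ} (hnm : n ≤ m) (b : Bool) : Vd m n (ini n b) := by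
  refine ⟨by simp [ini], ?_⟩
  intro a ha
  unfold ini at ha
  obtain ⟨k, hk, rfl⟩ := List.mem_map.1 ha
  rw [List.mem_range] at hk
  split_ifs <;> omega

theorem pupd_congr (m n r : ℕ) (B : List ℕ) {f₁ g₁ : ℕ → Bool} {f₂ g₂ : ℕ → ℕ → Bool}
    (h1 : ∀ c < 3 * m, f₁ c = g₁ c) (h2 : ∀ c < 3 * m, ∀ c' < 3 * m, f₂ c c' = g₂ c c') :
    pupd m n r B f₁ f₂ = pupd m n r B g₁ g₂ := by
  have e1 : ((List.range (3 * m)).all fun c => !(con n r c) || f₁ c) =
      (List.range (3 * m)).all fun c => !(con n r c) || g₁ c := by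
    rw [Bool.eq_iff_iff, List.all_eq_true, List.all_eq_true]
    refine forall_congr' fun c => forall_congr' fun hc => ?_
    rw [h1 c (List.mem_range.1 hc)]
  have e2 : ((List.range (3 * m)).filter fun c => con n r c && (!(f₁ c) &&
      (List.range (3 * m)).all fun c' => !(con n r c') || f₂ c c')) =
      (List.range (3 * m)).filter fun c => con n r c && (!(g₁ c) &&
      (List.range (3 * m)).all fun c' => !(con n r c') || g₂ c c') := by
    apply List.filter_congr
    intro c hc
    have hc' := List.mem_range.1 hc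
    have e3 : ((List.range (3 * m)).all fun c' => !(con n r c') || f₂ c c') =
        (List.range (3 * m)).all fun c' => !(con n r c') || g₂ c c' := by
      rw [Bool.eq_iff_iff, List.all_eq_true, List.all_eq_true]
      refine forall_congr' fun c' => forall_congr' fun hc'' => ?_
      rw [h2 c hc' c' (List.mem_range.1 hc'')]
    rw [h1 c hc', e3]
  unfold pupd
  rw [e1, e2]

theorem vd_pupd {m n : ℕ} (r : ℕ) {B : List ℕ} (hB : Vd m n B) (f₁ : ℕ → Bool)
    (f₂ : ℕ → ℕ → Bool) : Vd m n (pupd m n r B f₁ f₂) := by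
  unfold pupd
  split_ifs
  · exact hB
  · rcases h : (((List.range (3 * m)).filter fun c => con n r c && (!(f₁ c) &&
      (List.range (3 * m)).all fun c' => !(con n r c') || f₂ c c')).head?) with _ | c
    · exact hB
    · simp only [Option.elim_some]
      have h1 : c ∈ (List.range (3 * m)).filter fun c => con n r c && (!(f₁ c) &&
          (List.range (3 * m)).all fun c' => !(con n r c') || f₂ c c') := List.mem_of_mem_head? h
      exact vd_set hB _ (List.mem_range.1 (List.mem_filter.1 h1).1)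

theorem vd_piv {m n : ℕ} (O : List ℕ → ℕ → Bool) (r : ℕ) {B : List ℕ} (hB : Vd m n B) :
    Vd m n (pivS m n O r B) := vd_pupd r hB _ _

theorem vd_iter {m n : ℕ} (O : List ℕ → ℕ → Bool) (r : ℕ) {B : List ℕ} (hB : Vd m n B) (k : ℕ) :
    Vd m n ((pivS m n O r)^[k] B) := by
  induction k with
  | zero => exact hB
  | succ k ih =>
    rw [Function.iterate_succ_apply']
    exact vd_piv O r ih

theorem vd_fix {m n : ℕ} (hn : 1 ≤ n) (O : List ℕ → ℕ → Bool) {r : ℕ} (hr : r < 3 * m)
    {B : List ℕ} (hB : Vd m n B) : Vd m n (fixS m n O r B) := by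
  unfold fixS
  split_ifs
  · exact vd_set hB _ hr
  · exact vd_iter O r (vd_drop hn hB hr) _

theorem prs_len (m : ℕ) (B : List ℕ) : (prs m B).length = 3 * m + 3 * m * (3 * m) := by
  unfold prs
  rw [List.length_append, List.length_map, List.length_range, List.length_flatMap]
  simp

theorem prs_vd {m n : ℕ} (hn : 1 ≤ n) {B : List ℕ} (hB : Vd m n B) :
    ∀ x ∈ prs m B, Vd m n x.1 ∧ x.2 < 3 * m := by
  intro x hx
  unfold prs at hx
  rcases List.mem_append.1 hx with h | h
  · obtain ⟨c, hc, rfl⟩ := List.mem_map.1 h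
    exact ⟨hB, List.mem_range.1 hc⟩
  · obtain ⟨c, hc, h⟩ := List.mem_flatMap.1 h
    obtain ⟨c', hc', rfl⟩ := List.mem_map.1 h
    exact ⟨vd_drop hn hB (List.mem_range.1 hc), List.mem_range.1 hc'⟩

theorem getD_prs1 {m : ℕ} {B : List ℕ} {c : ℕ} (hc : c < 3 * m) :
    (prs m B).getD c ([], 0) = (B, c) := by
  unfold prs
  rw [List.getD_eq_getElem?_getD, List.getElem?_append_left (by simpa using hc)]
  rw [List.getElem?_map, List.getElem?_range hc]
  rfl

theorem getElem_flat (N : ℕ) {α : Type} (f : ℕ → ℕ → α) (K : ℕ) : ∀ (c c' : ℕ), c < K → c' < N →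
    ((List.range K).flatMap fun a => (List.range N).map fun b => f a b)[c * N + c']? =
      some (f c c') := by
  induction K with
  | zero => intro c c' hc; omega
  | succ K ih =>
    intro c c' hc hc'
    have hlen : ((List.range K).flatMap fun a => (List.range N).map fun b => f a b).length =
        K * N := by
      rw [List.length_flatMap]
      simp
    rw [List.range_succ, List.flatMap_append]
    rcases Nat.lt_or_ge c K with h | h
    · rw [List.getElem?_append_left, ih c c' h hc']
      rw [hlen]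
      calc c * N + c' < c * N + N := by omega
        _ = (c + 1) * N := by ring
        _ ≤ K * N := Nat.mul_le_mul_right _ h
    · have hcK : c = K := by omega
      subst hcK
      rw [List.getElem?_append_right (by rw [hlen]; omega), hlen, Nat.add_sub_cancel_left]
      simp [hc']

theorem getD_prs2 {m : ℕ} {B : List ℕ} {c c' : ℕ} (hc : c < 3 * m) (hc' : c' < 3 * m) :
    (prs m B).getD (3 * m + (c * (3 * m) + c')) ([], 0) = (B.dropLast ++ [c], c') := by
  unfold prs
  rw [List.getD_eq_getElem?_getD, List.getElem?_append_right (by simp), List.length_map,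
    List.length_range, Nat.add_sub_cancel_left,
    getElem_flat (3 * m) (fun c c' => (B.dropLast ++ [c], c')) (3 * m) c c' hc hc']
  rfl

section run
variable {q : Polynomial ℕ} {S m n : ℕ} {J : List ℕ} {s : List Bool} {g : Reg → ℝ}
  {G : ℝ → Prop} {O : List ℕ → ℕ → Bool} {K : ℕ}

/-- the batches -/
def Orc (m n : ℕ) (J : List ℕ) (s : List Bool) (g : Reg → ℝ) (G : ℝ → Prop)
    (O : List ℕ → ℕ → Bool) (K : ℕ) : Prop :=
  ∀ ps : List (List ℕ × ℕ), (∀ x ∈ ps, Vd m n x.1 ∧ x.2 < 3 * m) → ∃ o : List Outcome,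
    Runs g G (batch (prQs m n J s ps)) o (ps.length * K) ∧
    ∀ i < ps.length, satO (DG m n) o i = O (ps.getD i ([], 0)).1 (ps.getD i ([], 0)).2

theorem run_pst (hn : 1 ≤ n) (h : Orc m n J s g G O K) (r : ℕ) {B : List ℕ} (hB : Vd m n B) :
    Runs g G (pst m n J s r B) (pivS m n O r B) ((3 * m + 3 * m * (3 * m)) * K) := by
  obtain ⟨o, h1, h2⟩ := h (prs m B) (prs_vd hn hB)
  rw [prs_len] at h1 h2
  have h3 : pivS m n O r B = pupd m n r B (fun c => satO (DG m n) o c)
      (fun c c' => satO (DG m n) o (3 * m + (c * (3 * m) + c'))) := by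
    unfold pivS
    refine pupd_congr m n r B ?_ ?_
    · intro c hc
      rw [h2 c (by omega), getD_prs1 hc]
    · intro c hc c' hc'
      have h4 : 3 * m + (c * (3 * m) + c') < 3 * m + 3 * m * (3 * m) := by
        have : c * (3 * m) + c' < 3 * m * (3 * m) := by
          calc c * (3 * m) + c' < c * (3 * m) + 3 * m := by omega
            _ = (c + 1) * (3 * m) := by ring
            _ ≤ 3 * m * (3 * m) := Nat.mul_le_mul_right _ hc
        omega
      rw [h2 _ h4, getD_prs2 hc hc']
  rw [h3]
  have h4 := runs_bnd h1 (f := fun o => ret (pupd m n r B (fun c => satO (DG m n) o c)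
      fun c c' => satO (DG m n) o (3 * m + (c * (3 * m) + c'))))
    (runs_ret (g := g) (G := G) _)
  rw [add_zero] at h4
  exact h4

theorem run_fix (hn : 1 ≤ n) (h : Orc m n J s g G O K) {r : ℕ} (hr : r < 3 * m) {B : List ℕ}
    (hB : Vd m n B) :
    Runs g G (fixB m n J s r B) (fixS m n O r B)
      (n * m * ((3 * m + 3 * m * (3 * m)) * K)) := by
  unfold fixB fixS
  split_ifs
  · exact t_TT.2.2.2 _ _ _ _ _ _ _ _ (fun _ h => h) (Nat.zero_le _) (runs_ret _)
  · have h1 := t_TT.2.2.1 (List ℕ) g G (pst m n J s r)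
      (fun i => (pivS m n O r)^[i] (B.dropLast ++ [r])) (n * m)
      ((3 * m + 3 * m * (3 * m)) * K) (by
        intro i _
        simp only [Function.iterate_succ_apply']
        exact run_pst hn h r (vd_iter O r (vd_drop hn hB hr) i))
    exact h1

theorem run_rst (hn : 1 ≤ n) (h : Orc m n J s g G O K) {t : TP.CS} (ht : t.1 < 3 * m)
    (h1 : Vd m n t.2.2.1) (h2 : Vd m n t.2.2.2) :
    Runs g G (rst m n J s t) (rowS m n O t)
      (2 * K + n * m * ((3 * m + 3 * m * (3 * m)) * K)) := by
  unfold rst rowS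
  split_ifs with h3 h4 h5 h6
  · exact t_TT.2.2.2 _ _ _ _ _ _ _ _ (fun _ h => h) (Nat.zero_le _) (runs_ret _)
  all_goals
    obtain ⟨o, ho1, ho2⟩ := h [(t.2.2.1, t.1), (t.2.2.2, t.1)] (by
      intro x hx
      simp only [List.mem_cons, List.not_mem_nil, or_false] at hx
      rcases hx with rfl | rfl
      · exact ⟨h1, ht⟩
      · exact ⟨h2, ht⟩)
    have e0 : satO (DG m n) o 0 = O t.2.2.1 t.1 := ho2 0 (by simp)
    have e1 : satO (DG m n) o 1 = O t.2.2.2 t.1 := ho2 1 (by simp)
    refine runs_bnd ho1 ?_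
    rw [e0, e1]
  · rw [if_pos h4]
    exact t_TT.2.2.2 _ _ _ _ _ _ _ _ (fun _ h => h) (Nat.zero_le _) (runs_ret _)
  · rw [if_neg h4, if_pos h5]
    have h7 := runs_bnd (run_fix hn h ht h1) (f := fun B => ret (t.1 + 1, (true, (B, t.2.2.2))))
      (runs_ret (g := g) (G := G) _)
    rw [add_zero] at h7
    exact h7
  · rw [if_neg h4, if_neg h5, if_pos h6]
    have h7 := runs_bnd (run_fix hn h ht h2) (f := fun B => ret (t.1 + 1, (true, (t.2.2.1, B))))
      (runs_ret (g := g) (G := G) _)
    rw [add_zero] at h7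
    exact h7
  · rw [if_neg h4, if_neg h5, if_neg h6]
    exact t_TT.2.2.2 _ _ _ _ _ _ _ _ (fun _ h => h) (Nat.zero_le _) (runs_ret _)

theorem row_inv (hn : 1 ≤ n) (O : List ℕ → ℕ → Bool) {t : TP.CS} (ht : t.1 < 3 * m)
    (h1 : Vd m n t.2.2.1) (h2 : Vd m n t.2.2.2) :
    (rowS m n O t).1 = t.1 + 1 ∧ Vd m n (rowS m n O t).2.2.1 ∧ Vd m n (rowS m n O t).2.2.2 := by
  unfold rowS
  split_ifs
  · exact ⟨rfl, h1, h2⟩
  · exact ⟨rfl, h1, h2⟩
  · exact ⟨rfl, vd_fix hn O ht h1, h2⟩
  · exact ⟨rfl, h1, vd_fix hn O ht h2⟩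
  · exact ⟨rfl, h1, h2⟩

theorem iter_inv (hn : 1 ≤ n) (hnm : n ≤ m) (O : List ℕ → ℕ → Bool) : ∀ i ≤ 3 * m,
    ((rowS m n O)^[i] (0, (true, (ini n false, ini n true)))).1 = i ∧
    Vd m n ((rowS m n O)^[i] (0, (true, (ini n false, ini n true)))).2.2.1 ∧
    Vd m n ((rowS m n O)^[i] (0, (true, (ini n false, ini n true)))).2.2.2 := by
  intro i
  induction i with
  | zero => exact fun _ => ⟨rfl, vd_ini hnm _, vd_ini hnm _⟩
  | succ i ih =>
    intro hi
    obtain ⟨h1, h2, h3⟩ := ih (by omega)
    rw [Function.iterate_succ_apply']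
    obtain ⟨a1, a2, a3⟩ := row_inv hn O (by rw [h1]; omega) h2 h3
    exact ⟨by rw [a1, h1], a2, a3⟩

end run

end TLST

open TLST

theorem t_LST : S_PRQ → S_LST := by
  rintro ⟨q, hq⟩
  refine ⟨3 * Polynomial.X * (2 * q + Polynomial.X * Polynomial.X *
    ((3 * Polynomial.X + 3 * Polynomial.X * (3 * Polynomial.X)) * q)) + Polynomial.X + q, ?_⟩
  intro S m J s g hg hm hJm hS
  obtain ⟨Q, hQ⟩ : ∃ Q, Q = 3 * Polynomial.X * (2 * q + Polynomial.X * Polynomial.X *
    ((3 * Polynomial.X + 3 * Polynomial.X * (3 * Polynomial.X)) * q)) + Polynomial.X + q := ⟨_, rfl⟩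
  rw [← hQ]
  have hQe : Q.eval S = 3 * S * (2 * q.eval S + S * S * ((3 * S + 3 * S * (3 * S)) * q.eval S)) +
      S + q.eval S := by
    rw [hQ]
    simp only [Polynomial.eval_add, Polynomial.eval_mul, Polynomial.eval_X, Polynomial.eval_ofNat]
  have hqQ : PLe q Q := by
    intro t
    rw [hQ, Polynomial.eval_add]
    exact Nat.le_add_left _ _
  by_cases hJ : J.length = 0
  · rw [if_pos hJ]
    unfold lastT
    rw [if_pos hJ]
    have hb : List.Forall₂ (HasVal g (Gd Q S g)) ((List.range m).map fun c => (([], [1, c]) : Qry))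
        ((List.range m).map fun c => g [1, c]) := by
      rw [List.forall₂_map_left_iff, List.forall₂_map_right_iff, List.forall₂_same]
      intro j _
      refine ⟨trivial, g, fun _ _ => rfl, fun I hI => absurd hI (by simp), Or.inl ?_, rfl⟩
      show ([1, j] : Reg).headD 0 < 4
      simp
    have h1 := runs_batch hb
    have h2 := runs_bnd h1 (f := fun o => ret ((List.range m).all fun c =>
      decide (o.getD c none ≠ some true))) (runs_ret (g := g) (G := Gd Q S g) _)
    have h3 : ((List.range m).all fun c => decide ((((List.range m).map fun c => g [1, c]).map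
        signOut).getD c none ≠ some true)) = (List.range m).all fun c => bl (g [1, c] ≤ 0) := by
      rw [Bool.eq_iff_iff, List.all_eq_true, List.all_eq_true]
      refine forall_congr' fun c => forall_congr' fun hc => ?_
      have hc' := List.mem_range.1 hc
      have h4 : (((List.range m).map fun c => g [1, c]).map signOut).getD c none =
          signOut (g [1, c]) := by
        rw [List.getD_eq_getElem?_getD, List.getElem?_map, List.getElem?_map,
          List.getElem?_range hc']
        rfl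
      rw [h4]
      unfold bl
      rw [decide_eq_true_eq, decide_eq_true_eq]
      unfold signOut
      split_ifs with h5 h6
      · simp [h5]
      · simp [h6.le]
      · simp [not_lt.1 h5]
    rw [h3] at h2
    refine t_TT.2.2.2 _ _ _ _ _ _ _ _ (fun _ h => h) ?_ h2
    have h4 : (((List.range m).map fun c => (([], [1, c]) : Qry)).map
        fun q => q.1.length + 1).sum = m := by
      simp [Function.comp_def]
    rw [h4, hQe]
    omega
  · rw [if_neg hJ]
    unfold lastT
    rw [if_neg hJ]
    obtain ⟨n, hn⟩ : ∃ n, n = J.length := ⟨_, rfl⟩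
    rw [← hn] at hJ hJm hS ⊢
    have hn1 : 1 ≤ n := by omega
    obtain ⟨O, hO⟩ : ∃ O, O = Sym m n (PmR m n J s g) := ⟨_, rfl⟩
    rw [← hO]
    have horc : Orc m n J s g (Gd q S g) O (q.eval S) := by
      intro ps hps
      obtain ⟨vs, h1, h2, h3⟩ := hq S m n J s g ps hg hm hn1 hS hps
      refine ⟨vs.map signOut, ?_, ?_⟩
      · exact t_TT.2.2.2 _ _ _ _ _ _ _ _ (fun _ h => h) h2 (runs_batch h1)
      · rw [hO]
        exact h3
    have hinv := iter_inv hn1 hJm O
    have h1 := t_TT.2.2.1 TP.CS g (Gd q S g) (rst m n J s)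
      (fun i => (rowS m n O)^[i] (0, (true, (ini n false, ini n true)))) (3 * m)
      (2 * q.eval S + n * m * ((3 * m + 3 * m * (3 * m)) * q.eval S)) (by
        intro i hi
        obtain ⟨a1, a2, a3⟩ := hinv i hi.le
        simp only [Function.iterate_succ_apply']
        exact run_rst hn1 horc (by rw [a1]; exact hi) a2 a3)
    have h2 := runs_bnd h1 (f := fun t => ret t.2.1) (runs_ret (g := g) (G := Gd q S g) _)
    refine runs_mono hqQ ?_ h2
    rw [hQe, add_zero]
    have hmS : m ≤ S := by omega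
    have hnS : n ≤ S := by omega
    have h3 : 3 * m * (2 * q.eval S + n * m * ((3 * m + 3 * m * (3 * m)) * q.eval S)) ≤
        3 * S * (2 * q.eval S + S * S * ((3 * S + 3 * S * (3 * S)) * q.eval S)) := by
      gcongr
    omega

end Pool.Agent.Y648.TP
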