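import Pool.Agent.Y648.TP.T_ALG
import Pool.Agent.Y648.CS.T_FINAL

set_option autoImplicit false

/-!
# Totally nonnegative column spaces: the final assembly
-/

namespace Pool.Agent.Y648.TP

open Pool.Agent.NPC Pool.Agent.H558R2 Pool.Agent.H622R3.SM Pool.Agent.W920.FC Pool.Agent.Y648.CS

open FN FL in
/-- The correctness of the whole computation. -/
theorem t_RUNS : S_BST → S_TBQ → S_LST → S_BAS → S_COL → S_CLS → S_SGN → S_PERT → S_LIM →
    S_SYM → S_CORE → S_CNG →
    ∃ q : Polynomial ℕ, ∀ m n : ℕ, 1 ≤ m → 1 ≤ n → ∀ (A : Matrix (Fin m) (Fin n) ℝ)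
      (b : Fin m → ℝ), TN A → ∃ ans : Bool,
      Runs (start A b) (Gd q (m + n) (start A b)) (TC m n) ans (q.eval (m + n)) ∧
      (ans = true ↔ ∃ x : Fin n → ℝ, b ≤ A.mulVec x) := by
  intro hBST hTBQ hLST hBAS hCOL hCLS hSGN hPERT hLIM hSYM hCORE hCNG
  obtain ⟨q1, h1⟩ := hBST
  obtain ⟨q2, h2⟩ := hTBQ
  obtain ⟨q3, h3⟩ := hLST
  obtain ⟨q, hq⟩ : ∃ q : Polynomial ℕ, q = q1 + (q2 + q3) := ⟨_, rfl⟩
  have l1 : PLe q1 q := by rw [hq]; exact ple_add_left _ _
  have l2 : PLe q2 q := by rw [hq]; exact (ple_add_left _ _).trans (ple_add_right _ _)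
  have l3 : PLe q3 q := by rw [hq]; exact (ple_add_right _ _).trans (ple_add_right _ _)
  refine ⟨q, fun m n hm hn A b hA => ?_⟩
  obtain ⟨g, hg⟩ : ∃ g, g = start A b := ⟨_, rfl⟩
  have hbase : Base g := by rw [hg]; exact base_start A b
  rw [← hg]
  have hga : ∀ (i : Fin m) (j : Fin n), aR g i j = A i j := by
    intro i j
    rw [hg]
    show (if h : (i : ℕ) < m ∧ (j : ℕ) < n then A ⟨i, h.1⟩ ⟨j, h.2⟩ else 0) = A i j
    rw [dif_pos ⟨i.2, j.2⟩]
  have hgb : ∀ j : Fin m, g [1, (j : ℕ)] = b j := by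
    intro j
    rw [hg]
    show (if h : (j : ℕ) < m then b ⟨j, h⟩ else 0) = b j
    rw [dif_pos j.2]
  have r1 := h1 (m + n) m n g hbase hm hn le_rfl
  obtain ⟨I, hI⟩ : ∃ I, I = (bsP m n (aR g)).2 := ⟨_, rfl⟩
  obtain ⟨vs, v1, v2, v3⟩ := h2 (m + n) m n g I hbase hm hn le_rfl
  have r2 := runs_batch v1
  obtain ⟨o, ho⟩ : ∃ o, o = vs.map signOut := ⟨_, rfl⟩
  rw [← ho] at v3 r2
  have hB : Bs m n (aR g) I := by rw [hI]; exact hBAS m n (aR g) hn
  obtain ⟨c1, c2, c3, c4, c5⟩ := hCOL m n (aR g) I hB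
  have hTNJ := hCLS m n A (aR g) I hga hB hA
  have hsg := hSGN m n (aR g) I o hn hB v3 hTNJ
  obtain ⟨J, hJ⟩ : ∃ J, J = cols m n I := ⟨_, rfl⟩
  rw [← hJ] at c1 c2 c3 c4 c5 hTNJ hsg
  have hJn : J.length ≤ n := by
    rw [hJ]
    unfold cols
    exact (List.length_filter_le _ _).trans (by simp)
  have hJm : J.length ≤ m := by
    obtain ⟨f, f1, f2, -⟩ := c3
    have h4 : ∀ (k : ℕ) (hk : k < J.length), k ≤ f ⟨k, hk⟩ := by
      intro k
      induction k with
      | zero => intro _; exact Nat.zero_le _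
      | succ k ih =>
        intro hk
        have h5 := ih (by omega)
        have h6 : f ⟨k, by omega⟩ < f ⟨k + 1, hk⟩ := f1 (by
          rw [Fin.mk_lt_mk]
          omega)
        omega
    by_contra h5
    have h6 : m < J.length := by omega
    have h7 := h4 m h6
    have h8 := f2 ⟨m, h6⟩
    omega
  have r3 := h3 (m + n) m J (sgn m n I o) g hbase hm hJm (by omega)
  refine ⟨if J.length = 0 then (List.range m).all fun c => bl (g [1, c] ≤ 0)
      else runS m J.length (Sym m J.length (PmR m J.length J (sgn m n I o) g)), ?_, ?_⟩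
  · have r : Runs g (Gd q (m + n) g) (TC m n)
        (if J.length = 0 then (List.range m).all fun c => bl (g [1, c] ≤ 0)
          else runS m J.length (Sym m J.length (PmR m J.length J (sgn m n I o) g))) (q1.eval (m + n) +
        (((tbQs m n I).map fun q => q.1.length + 1).sum + q3.eval (m + n))) := by
      unfold TC
      refine runs_bnd (runs_mono l1 le_rfl r1) ?_
      rw [← hI]
      refine runs_bnd (runs_mono l2 le_rfl r2) ?_
      rw [← hJ]
      exact runs_mono l3 le_rfl r3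
    refine t_TT.2.2.2 _ _ _ _ _ _ _ _ (fun _ h => h) ?_ r
    rw [hq]
    simp only [Polynomial.eval_add]
    omega
  · -- correctness
    have hfe : (∃ x : Fin n → ℝ, b ≤ A.mulVec x) ↔
        ∃ x : Fin n → ℝ, ∀ i < m, g [1, i] ≤ ∑ j : Fin n, aR g i j * x j := by
      constructor
      · rintro ⟨x, hx⟩
        refine ⟨x, fun i hi => ?_⟩
        have h4 := hx ⟨i, hi⟩
        have h5 := hgb ⟨i, hi⟩
        simp only at h5
        rw [h5]
        refine h4.trans_eq ?_
        show ∑ j : Fin n, A ⟨i, hi⟩ j * x j = _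
        exact Finset.sum_congr rfl fun j _ => by rw [← hga ⟨i, hi⟩ j]
      · rintro ⟨x, hx⟩
        refine ⟨x, fun i => ?_⟩
        rw [← hgb i]
        refine (hx i i.2).trans_eq ?_
        show _ = ∑ j : Fin n, A i j * x j
        exact Finset.sum_congr rfl fun j _ => by rw [← hga i j]
    rw [hfe, c5 fun i => g [1, i]]
    split_ifs with h0
    · rw [List.all_eq_true]
      constructor
      · intro h4
        refine ⟨fun _ => 0, fun i hi => ?_⟩
        have h5 := h4 i (List.mem_range.2 hi)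
        rw [bl_iff] at h5
        simpa using h5
      · rintro ⟨x, hx⟩ i hi
        rw [bl_iff]
        refine (hx i (List.mem_range.1 hi)).trans_eq ?_
        refine Finset.sum_eq_zero fun k _ => ?_
        exact absurd k.2 (by omega)
    · exact t_ALG hPERT hLIM hSYM hCORE hCNG m J.length J (sgn m n I o) (aR g)
        (fun i => g [1, i]) rfl (by omega) hJm hsg c3

open FN FL in
theorem t_MAIN : Pool.Agent.W920.FC.S_RUN → S_CTRL → S_BITS → S_PTC → S_BST → S_TBQ → S_LST →
    S_BAS → S_COL → S_CLS → S_SGN → S_PERT → S_LIM → S_SYM → S_CORE → S_CNG → S_MAIN := by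
  intro hRUN hCTRL hBITS hPTC hBST hTBQ hLST hBAS hCOL hCLS hSGN hPERT hLIM hSYM hCORE hCNG
  refine ⟨hCTRL TC hPTC, ?_, ?_⟩
  · intro m n h w
    unfold algC algOf
    cases TC m n h <;> simp
  · obtain ⟨qs, hqs⟩ := t_RUNS hBST hTBQ hLST hBAS hCOL hCLS hSGN hPERT hLIM hSYM hCORE hCNG
    refine ⟨qs + 1 + (2 * qs.comp (3 * Polynomial.X) + 3), ?_⟩
    intro m n hm hn A b hC
    obtain ⟨ans, rr, hans⟩ := hqs m n hm hn A b hC
    have hfuel : qs.eval (m + n) + 1 ≤
        (qs + 1 + (2 * qs.comp (3 * Polynomial.X) + 3)).eval (m + n) := by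
      simp only [Polynomial.eval_add, Polynomial.eval_one]
      omega
    obtain ⟨nums, steps, hrun, hsteps, hG⟩ := hRUN TC m n _ _ ans _ rr ∅ _ hfuel
    refine ⟨ans, nums, steps, hrun, hans, by omega, ?_⟩
    intro A' b' hA hb' v hv'
    have hA2 : (fun i j => ((A' i j : ℚ) : ℝ)) = (A : Fin m → Fin n → ℝ) := by
      funext i j
      exact hA i j
    have hb2 : (fun i => ((b' i : ℚ) : ℝ)) = b := by
      funext i
      exact hb' i
    have hRB := hBITS.2 m n A' b'
    rw [hA2, hb2] at hRB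
    have hQ := hG v hv' _ hRB
    obtain ⟨q, hq, hq2⟩ := hBITS.1 _ _ hQ
    refine ⟨q, hq, hq2.trans ?_⟩
    have hL := le_inputLength hm A' b'
    have hmono := pe_mono qs (show m + n + 2 * inputLength A' b' ≤
      3 * inputLength A' b' by omega)
    simp only [Polynomial.eval_add, Polynomial.eval_mul, Polynomial.eval_comp,
      Polynomial.eval_X, Polynomial.eval_ofNat]
    omega

end Pool.Agent.Y648.TP
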