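import Pool.Agent.Y648.TP.T_ORD

set_option autoImplicit false

/-!
# Totally nonnegative column spaces: optimality of the vertices
-/

namespace Pool.Agent.Y648.TP

open Pool.Agent.NPC Pool.Agent.H558R2 Pool.Agent.H622R3.SM Pool.Agent.W920.FC Pool.Agent.Y648.CS

/-- Alternating signs. -/
theorem opt_alt {m n : ℕ} {W v : ℕ → ℕ → ℝ} {κ : ℕ → ℝ} {ε Ω : ℝ} (h : Sys m n W v κ ε Ω)
    {B : List ℕ} (hB : Alt m n κ B) (k : ℕ) (hk : k < n) :
    0 < κ (B.getD k 0) * κ (B.getD (n - 1) 0) * (-1) ^ (n - 1 - k) := by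
  obtain ⟨d, hd⟩ : ∃ d, d = n - 1 - k := ⟨_, rfl⟩
  rw [← hd]
  induction d generalizing k with
  | zero =>
    have h1 : k = n - 1 := by omega
    subst h1
    have h2 : κ (B.getD (n - 1) 0) ≠ 0 := h.nz _ (ord_mem hB hk)
    have h3 : 0 < κ (B.getD (n - 1) 0) ^ 2 := by positivity
    calc 0 < _ := h3
      _ = _ := by ring
  | succ d ih =>
    have h1 := ih (k + 1) (by omega) (by omega)
    have h2 := (hB.2 k (by omega)).2
    have h3 : κ (B.getD (k + 1) 0) ≠ 0 := h.nz _ (ord_mem hB (by omega))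
    have h4 : 0 < κ (B.getD (k + 1) 0) ^ 2 := by positivity
    have h5 := mul_pos (neg_pos.2 h2) h1
    by_contra hneg
    push Not at hneg
    have h6 := mul_nonpos_of_nonneg_of_nonpos h4.le hneg
    have h7 : -(κ (B.getD k 0) * κ (B.getD (k + 1) 0)) *
        (κ (B.getD (k + 1) 0) * κ (B.getD (n - 1) 0) * (-1) ^ d) =
        κ (B.getD (k + 1) 0) ^ 2 *
          (κ (B.getD k 0) * κ (B.getD (n - 1) 0) * (-1) ^ (d + 1)) := by ring
    rw [h7] at h5
    exact lt_irrefl _ (h5.trans_le h6)

/-- The row `c` in terms of the basis. -/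
theorem opt_cramer {n : ℕ} (W : ℕ → ℕ → ℝ) (B : List ℕ) (hB : B.length = n) (c : ℕ)
    (w : Fin n → ℝ) :
    dt n W B * lv n W c w =
      ∑ k : Fin n, dt n W (B.set (k : ℕ) c) * lv n W (B.getD (k : ℕ) 0) w := by
  set A : Matrix (Fin n) (Fin n) ℝ := Matrix.of fun i k : Fin n => W (B.getD (k : ℕ) 0) i with hA
  have h1 : ∀ k : Fin n, Matrix.cramer A (fun i => W c i) k = dt n W (B.set (k : ℕ) c) := by
    intro k
    rw [Matrix.cramer_apply, dt]
    congr 1
    ext i j
    rw [Matrix.updateCol_apply]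
    simp only [Matrix.of_apply, hA]
    by_cases hjk : j = k
    · rw [if_pos hjk, hjk]
      have hk : (k : ℕ) < B.length := by rw [hB]; exact k.2
      simp [List.getD_eq_getElem?_getD, hk]
    · rw [if_neg hjk]
      have hjk' : (k : ℕ) ≠ (j : ℕ) := fun h => hjk (Fin.ext h.symm)
      simp [List.getD_eq_getElem?_getD, List.getElem?_set_ne hjk']
  have h2 := Matrix.mulVec_cramer A (fun i => W c i)
  have h3 : ∀ i : Fin n, dt n W B * W c i =
      ∑ k : Fin n, W (B.getD (k : ℕ) 0) i * dt n W (B.set (k : ℕ) c) := by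
    intro i
    have h4 := congrFun h2 i
    rw [Matrix.mulVec, dotProduct] at h4
    simp only [Pi.smul_apply, smul_eq_mul, h1] at h4
    rw [dt, ← hA, ← h4]
    rfl
  simp only [lv, Finset.mul_sum]
  rw [Finset.sum_comm]
  refine Finset.sum_congr rfl fun i _ => ?_
  rw [← mul_assoc, h3 i, Finset.sum_mul]
  refine Finset.sum_congr rfl fun k _ => ?_
  ring

/-- The sign of the coefficients. -/
theorem opt_sign {m l : ℕ} {W v : ℕ → ℕ → ℝ} {κ : ℕ → ℝ} {ε Ω : ℝ}
    (h : Sys m (l + 1) W v κ ε Ω) {B : List ℕ} (hB : Alt m (l + 1) κ B) (c : ℕ) (hc : c < 3 * m)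
    (hlt : B.getD l 0 / 3 < c / 3) (k : Fin (l + 1)) :
    0 < κ (B.getD l 0) * κ c * (dt (l + 1) W B * dt (l + 1) W (B.set (k : ℕ) c)) := by
  have hBn : B.length = l + 1 := hB.1.1
  set p : Fin (l + 1) → ℕ := fun j => B.getD (j : ℕ) 0 with hp
  have hpm : ∀ j, p j < 3 * m := fun j => ord_mem hB j.2
  have hmono : StrictMono (fun j => p j / 3) := by
    intro i j hij
    exact ord_alt_lt hB hij j.2
  -- the determinant of the basis
  have ha := ord_core h p hpm hmono
  have hdB : (Matrix.of fun i k : Fin (l + 1) => W (p k) i).det = dt (l + 1) W B := rfl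
  rw [hdB, Fin.prod_univ_succAbove _ k] at ha
  -- the basis without the element `k`, and `c`
  set q : Fin l → ℕ := fun j => p (k.succAbove j) with hq
  have hqm : StrictMono (fun j => q j / 3) := by
    intro i j hij
    exact hmono (Fin.succAbove_lt_succAbove_iff.2 hij)
  have hins : ∀ j, Fin.insertNth (α := fun _ => ℕ) (Fin.last l) c q j < 3 * m := by
    intro j
    rcases Fin.eq_self_or_eq_succAbove (Fin.last l) j with hj | ⟨j', hj⟩
    · rw [hj, Fin.insertNth_apply_same]; exact hc
    · rw [hj, Fin.insertNth_apply_succAbove]; exact hpm _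
  have hins2 : (fun j => Fin.insertNth (α := fun _ => ℕ) (Fin.last l) c q j / 3) =
      Fin.insertNth (α := fun _ => ℕ) (Fin.last l) (c / 3) (fun j => q j / 3) := by
    funext j
    rcases Fin.eq_self_or_eq_succAbove (Fin.last l) j with hj | ⟨j', hj⟩
    · rw [hj, Fin.insertNth_apply_same, Fin.insertNth_apply_same]
    · rw [hj, Fin.insertNth_apply_succAbove, Fin.insertNth_apply_succAbove]
  have hle : ∀ j : Fin (l + 1), p j / 3 ≤ B.getD l 0 / 3 := by
    intro j
    have h1 : p (Fin.last l) = B.getD l 0 := rfl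
    rw [← h1]
    exact hmono.monotone (Fin.le_last j)
  have hmono2 :
      StrictMono (fun j => Fin.insertNth (α := fun _ => ℕ) (Fin.last l) c q j / 3) := by
    rw [hins2]
    apply ord_mono _ hqm
    · intro j _
      exact (hle _).trans_lt hlt
    · intro j hj
      exfalso
      rw [Fin.val_last] at hj
      have := j.2
      omega
  have hb := ord_core h _ hins hmono2
  rw [ord_expand, Fin.val_last, Fin.prod_univ_succAbove _ (Fin.last l)] at hb
  simp only [Fin.insertNth_apply_same, Fin.insertNth_apply_succAbove] at hb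
  -- the determinant after the replacement
  have hset : dt (l + 1) W (B.set (k : ℕ) c) = (-1) ^ (k : ℕ) * ordQ l W c q := by
    rw [← ord_expand l W c q k, dt]
    congr 1
    ext i j
    simp only [Matrix.of_apply]
    congr 1
    rcases Fin.eq_self_or_eq_succAbove k j with hj | ⟨j', hj⟩
    · subst hj
      rw [Fin.insertNth_apply_same]
      have hk : (j : ℕ) < B.length := by rw [hBn]; exact j.2
      simp [List.getD_eq_getElem?_getD, hk]
    · subst hj
      rw [Fin.insertNth_apply_succAbove]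
      have hjk' : (k : ℕ) ≠ (k.succAbove j' : ℕ) := fun h =>
        Fin.succAbove_ne k j' (Fin.ext h.symm)
      simp [List.getD_eq_getElem?_getD, List.getElem?_set_ne hjk', hq, hp]
  have hg := opt_alt h hB (k : ℕ) k.2
  have hn1 : l + 1 - 1 = l := rfl
  rw [hn1, ord_pow (show (k : ℕ) ≤ l by have := k.2; omega)] at hg
  have hpk : p k = B.getD (k : ℕ) 0 := rfl
  rw [hset]
  rw [hpk] at ha
  have h6 := mul_pos (mul_pos ha hb) hg
  by_contra hneg
  push Not at hneg
  have h7 : 0 ≤ (ε * κ (B.getD (k : ℕ) 0) * ∏ j : Fin l, κ (q j)) ^ 2 := sq_nonneg _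
  have h8 := mul_nonpos_of_nonneg_of_nonpos h7 hneg
  have h10 : ((-1 : ℝ) ^ l) * (-1) ^ l = 1 := by rw [← mul_pow]; norm_num
  have h9 : ε * (κ (B.getD (k : ℕ) 0) * ∏ i : Fin l, κ (p (k.succAbove i))) * dt (l + 1) W B *
        (ε * (κ c * ∏ i : Fin l, κ (q i)) * ((-1) ^ l * ordQ l W c q)) *
      (κ (B.getD (k : ℕ) 0) * κ (B.getD l 0) * ((-1) ^ l * (-1) ^ (k : ℕ))) =
      (ε * κ (B.getD (k : ℕ) 0) * ∏ j : Fin l, κ (q j)) ^ 2 *
        (κ (B.getD l 0) * κ c * (dt (l + 1) W B * ((-1) ^ (k : ℕ) * ordQ l W c q))) *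
        ((-1) ^ l * (-1) ^ l) := by
    have h11 : ∏ i : Fin l, κ (p (k.succAbove i)) = ∏ i : Fin l, κ (q i) := rfl
    rw [h11]
    ring
  rw [h9, h10, mul_one] at h6
  exact lt_irrefl _ (h6.trans_le h8)

/-- The vertex of an increasing alternating basis is optimal for all linear forms given by rows to
the right. -/
theorem t_OPT : S_VTX → S_ORD → S_NZR → S_OPT := by
  intro _ _ hN m n W v κ ε Ω h B x z c hB hx hz hc hle
  obtain ⟨l, rfl⟩ : ∃ l, n = l + 1 := ⟨n - 1, by have := h.hn; omega⟩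
  have hn1 : l + 1 - 1 = l := rfl
  rw [hn1] at hle ⊢
  have key : 0 ≤ κ (B.getD l 0) * κ c * (lv (l + 1) W c z - lv (l + 1) W c x) := by
    rcases lt_or_eq_of_le hle with hlt | heq
    · have h0 : dt (l + 1) W B ≠ 0 := hN m (l + 1) W v κ ε Ω h B hB
      have hsub : lv (l + 1) W c z - lv (l + 1) W c x = lv (l + 1) W c (z - x) := by
        simp only [lv, Pi.sub_apply, mul_sub, Finset.sum_sub_distrib]
      have h1 := opt_cramer W B hB.1.1 c (z - x)
      have h2 : 0 ≤ ∑ k : Fin (l + 1), (κ (B.getD l 0) * κ c *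
          (dt (l + 1) W B * dt (l + 1) W (B.set (k : ℕ) c))) *
          lv (l + 1) W (B.getD (k : ℕ) 0) (z - x) := by
        refine Finset.sum_nonneg fun k _ => ?_
        refine mul_nonneg (opt_sign h hB c hc hlt k).le ?_
        have h3 : lv (l + 1) W (B.getD (k : ℕ) 0) (z - x) =
            lv (l + 1) W (B.getD (k : ℕ) 0) z - lv (l + 1) W (B.getD (k : ℕ) 0) x := by
          simp only [lv, Pi.sub_apply, mul_sub, Finset.sum_sub_distrib]
        rw [h3, hx k k.2]
        exact sub_nonneg.2 (hz k k.2)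
      have h4 : 0 < dt (l + 1) W B ^ 2 := by positivity
      rw [hsub]
      by_contra hneg
      push Not at hneg
      have h5 := mul_neg_of_pos_of_neg h4 hneg
      have h6 : dt (l + 1) W B ^ 2 * (κ (B.getD l 0) * κ c * lv (l + 1) W c (z - x)) =
          ∑ k : Fin (l + 1), (κ (B.getD l 0) * κ c *
          (dt (l + 1) W B * dt (l + 1) W (B.set (k : ℕ) c))) *
          lv (l + 1) W (B.getD (k : ℕ) 0) (z - x) := by
        calc dt (l + 1) W B ^ 2 * (κ (B.getD l 0) * κ c * lv (l + 1) W c (z - x)) =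
            (κ (B.getD l 0) * κ c * dt (l + 1) W B) *
              (dt (l + 1) W B * lv (l + 1) W c (z - x)) := by ring
          _ = _ := by
            rw [h1, Finset.mul_sum]
            refine Finset.sum_congr rfl fun k _ => ?_
            ring
      rw [h6] at h5
      exact lt_irrefl _ (h5.trans_le h2)
    · -- the same position
      have hlm : B.getD l 0 < 3 * m := ord_mem hB (Nat.lt_succ_self l)
      have h1 : ∀ w : Fin (l + 1) → ℝ,
          κ (B.getD l 0) * lv (l + 1) W c w = κ c * lv (l + 1) W (B.getD l 0) w := by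
        intro w
        simp only [lv, Finset.mul_sum]
        refine Finset.sum_congr rfl fun i _ => ?_
        rw [h.eq c hc i i.2, h.eq _ hlm i i.2, heq]
        ring
      have h2 : κ (B.getD l 0) * κ c * (lv (l + 1) W c z - lv (l + 1) W c x) =
          κ c ^ 2 * (lv (l + 1) W (B.getD l 0) z - lv (l + 1) W (B.getD l 0) x) := by
        calc κ (B.getD l 0) * κ c * (lv (l + 1) W c z - lv (l + 1) W c x) =
            κ c * (κ (B.getD l 0) * lv (l + 1) W c z) -
              κ c * (κ (B.getD l 0) * lv (l + 1) W c x) := by ring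
          _ = _ := by rw [h1, h1]; ring
      rw [h2, hx l (Nat.lt_succ_self l)]
      exact mul_nonneg (sq_nonneg _) (sub_nonneg.2 (hz l (Nat.lt_succ_self l)))
  constructor
  · intro hpos
    have := nonneg_of_mul_nonneg_right key hpos
    linarith
  · intro hneg
    by_contra hcon
    push Not at hcon
    have := mul_neg_of_neg_of_pos hneg (sub_pos.2 hcon)
    linarith

end Pool.Agent.Y648.TP
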