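import Pool.Agent.Y648.TP.StmC

set_option autoImplicit false

/-!
# Totally nonnegative column spaces: signs of determinants
-/

namespace Pool.Agent.Y648.TP

open Pool.Agent.NPC Pool.Agent.H558R2 Pool.Agent.H622R3.SM Pool.Agent.W920.FC Pool.Agent.Y648.CS

/-- The determinant with increasing positions. -/
theorem ord_core {m n : ℕ} {W v : ℕ → ℕ → ℝ} {κ : ℕ → ℝ} {ε Ω : ℝ} (h : Sys m n W v κ ε Ω)
    (p : Fin n → ℕ) (hp : ∀ k, p k < 3 * m) (hm : StrictMono fun k => p k / 3) :
    0 < ε * (∏ k, κ (p k)) * (Matrix.of fun i k : Fin n => W (p k) i).det := by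
  have h1 : (Matrix.of fun i k : Fin n => W (p k) i).det =
      (∏ k, κ (p k)) * (Matrix.of fun i k : Fin n => v (p k / 3) i).det := by
    rw [← Matrix.det_mul_row]
    congr 1
    ext i k
    simp only [Matrix.of_apply]
    exact h.eq (p k) (hp k) i i.2
  have h2 := h.ch (fun k => p k / 3) hm (fun k => by have := hp k; omega)
  have h3 : (∏ k, κ (p k)) ≠ 0 := Finset.prod_ne_zero_iff.2 fun k _ => h.nz _ (hp k)
  rw [h1]
  have h4 : 0 < (∏ k, κ (p k)) ^ 2 := by positivity
  have h5 := mul_pos h4 h2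
  calc 0 < _ := h5
    _ = _ := by ring

/-- The expansion. -/
noncomputable def ordQ (l : ℕ) (W : ℕ → ℕ → ℝ) (c : ℕ) (p : Fin l → ℕ) : ℝ :=
  ∑ i : Fin (l + 1), (-1) ^ (i : ℕ) * W c i *
    (Matrix.of fun a b : Fin l => W (p b) (i.succAbove a)).det

/-- The expansion along the column of `c`. -/
theorem ord_expand (l : ℕ) (W : ℕ → ℕ → ℝ) (c : ℕ) (p : Fin l → ℕ) (k : Fin (l + 1)) :
    (Matrix.of fun i j : Fin (l + 1) => W (Fin.insertNth (α := fun _ => ℕ) k c p j) i).det =
      (-1) ^ (k : ℕ) * ordQ l W c p := by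
  rw [Matrix.det_succ_column _ k, ordQ, Finset.mul_sum]
  refine Finset.sum_congr rfl fun i _ => ?_
  have h1 : ((Matrix.of fun i j : Fin (l + 1) =>
      W (Fin.insertNth (α := fun _ => ℕ) k c p j) i).submatrix i.succAbove k.succAbove) =
      Matrix.of fun a b : Fin l => W (p b) (i.succAbove a) := by
    ext a b
    simp [Matrix.submatrix_apply]
  rw [h1]
  simp only [Matrix.of_apply, Fin.insertNth_apply_same]
  rw [pow_add]
  ring

/-- Increasing positions. -/
theorem ord_mono {l : ℕ} (q : Fin l → ℕ) (hq : StrictMono q) (x : ℕ) (k : Fin (l + 1))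
    (h1 : ∀ j : Fin l, (j : ℕ) < k → q j < x) (h2 : ∀ j : Fin l, (k : ℕ) ≤ j → x < q j) :
    StrictMono (Fin.insertNth (α := fun _ => ℕ) k x q) := by
  intro a b hab
  rcases Fin.eq_self_or_eq_succAbove k a with ha | ⟨a', ha⟩
  · rcases Fin.eq_self_or_eq_succAbove k b with hb | ⟨b', hb⟩
    · exact absurd hab (by rw [ha, hb]; exact lt_irrefl _)
    · subst ha
      subst hb
      rw [Fin.insertNth_apply_same, Fin.insertNth_apply_succAbove]
      apply h2
      rw [Fin.lt_succAbove_iff_le_castSucc] at hab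
      simpa [Fin.le_def] using hab
  · rcases Fin.eq_self_or_eq_succAbove k b with hb | ⟨b', hb⟩
    · subst hb
      subst ha
      rw [Fin.insertNth_apply_same, Fin.insertNth_apply_succAbove]
      apply h1
      rw [Fin.succAbove_lt_iff_castSucc_lt] at hab
      simpa [Fin.lt_def] using hab
    · subst ha
      subst hb
      rw [Fin.insertNth_apply_succAbove, Fin.insertNth_apply_succAbove]
      exact hq (Fin.succAbove_lt_succAbove_iff.1 hab)

/-- Consecutive elements suffice. -/
theorem ord_lt {L : List ℕ} (h : ∀ j, j + 1 < L.length → L.getD j 0 / 3 < L.getD (j + 1) 0 / 3) :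
    ∀ i j, i < j → j < L.length → L.getD i 0 / 3 < L.getD j 0 / 3 := by
  intro i j hij
  induction j, hij using Nat.le_induction with
  | base => intro hj; exact h i hj
  | succ j hj ih => intro hj'; exact (ih (by omega)).trans (h j hj')

theorem ord_getD_snoc {l : ℕ} (L : List ℕ) (hL : L.length = l) (c : ℕ) (j : Fin (l + 1)) :
    (L ++ [c]).getD (j : ℕ) 0 =
      Fin.insertNth (α := fun _ => ℕ) (Fin.last l) c (fun j : Fin l => L.getD (j : ℕ) 0) j := by
  rcases Fin.eq_self_or_eq_succAbove (Fin.last l) j with hj | ⟨j', hj⟩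
  · subst hj
    rw [Fin.insertNth_apply_same]
    subst hL
    simp [List.getD_eq_getElem?_getD]
  · subst hj
    rw [Fin.insertNth_apply_succAbove, Fin.succAbove_last]
    have hlt : (j' : ℕ) < L.length := by rw [hL]; exact j'.2
    simp only [Fin.val_castSucc, List.getD_eq_getElem?_getD]
    rw [List.getElem?_append_left hlt]

theorem ord_prod {l : ℕ} (L : List ℕ) (hL : L.length = l) (κ : ℕ → ℝ) :
    (L.map κ).prod = ∏ j : Fin l, κ (L.getD (j : ℕ) 0) := by
  subst hL
  rw [← List.prod_ofFn]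
  congr 1
  apply List.ext_getElem
  · simp
  · intro i h1 h2
    simp at h1 h2
    simp

theorem ord_pow {k l : ℕ} (hk : k ≤ l) : ((-1 : ℝ) ^ (l - k)) = (-1) ^ l * (-1) ^ k := by
  have h1 : ((-1 : ℝ) ^ l) = (-1) ^ (l - k) * (-1) ^ k := by
    rw [← pow_add, Nat.sub_add_cancel hk]
  rw [h1, mul_assoc, ← mul_pow]
  norm_num

/-- The sign of a determinant. -/
theorem t_ORD : S_ORD := by
  intro m n W v κ ε Ω h L c k hL hLm hc hinc hk h1 h2
  obtain ⟨l, hl⟩ : ∃ l, l = L.length := ⟨_, rfl⟩
  rw [← hl] at hL hk hinc h2 ⊢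
  subst hL
  set p : Fin l → ℕ := fun j => L.getD (j : ℕ) 0 with hp
  set kk : Fin (l + 1) := ⟨k, by omega⟩ with hkk
  have hpm : ∀ j, p j < 3 * m := by
    intro j
    have hj : (j : ℕ) < L.length := by rw [← hl]; exact j.2
    have : p j = L[(j : ℕ)] := by simp [hp, hj]
    rw [this]
    exact hLm _ (List.getElem_mem hj)
  have hmono : StrictMono (fun j => p j / 3) := by
    intro i j hij
    exact ord_lt (L := L) (by rw [← hl]; exact hinc) i j hij (by rw [← hl]; exact j.2)
  have hins : ∀ j, Fin.insertNth (α := fun _ => ℕ) kk c p j < 3 * m := by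
    intro j
    rcases Fin.eq_self_or_eq_succAbove kk j with hj | ⟨j', hj⟩
    · rw [hj, Fin.insertNth_apply_same]; exact hc
    · rw [hj, Fin.insertNth_apply_succAbove]; exact hpm j'
  have hins2 : (fun j => Fin.insertNth (α := fun _ => ℕ) kk c p j / 3) =
      Fin.insertNth (α := fun _ => ℕ) kk (c / 3) (fun j => p j / 3) := by
    funext j
    rcases Fin.eq_self_or_eq_succAbove kk j with hj | ⟨j', hj⟩
    · rw [hj, Fin.insertNth_apply_same, Fin.insertNth_apply_same]
    · rw [hj, Fin.insertNth_apply_succAbove, Fin.insertNth_apply_succAbove]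
  have hmono2 : StrictMono (fun j => Fin.insertNth (α := fun _ => ℕ) kk c p j / 3) := by
    rw [hins2]
    apply ord_mono _ hmono
    · intro j hj
      exact h1 j hj
    · intro j hj
      exact h2 j hj j.2
  have hcore := ord_core h _ hins hmono2
  rw [ord_expand] at hcore
  have hprod : ∏ j, κ (Fin.insertNth (α := fun _ => ℕ) kk c p j) = κ c * ∏ j, κ (p j) := by
    rw [Fin.prod_univ_succAbove _ kk]
    simp
  rw [hprod] at hcore
  have hdt : dt (l + 1) W (L ++ [c]) = (-1) ^ l * ordQ l W c p := by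
    have h3 := ord_expand l W c p (Fin.last l)
    rw [Fin.val_last] at h3
    rw [← h3, dt]
    congr 1
    ext i j
    simp only [Matrix.of_apply]
    rw [ord_getD_snoc L hl.symm c j]
  rw [hdt, ord_prod L hl.symm κ, ord_pow hk]
  have h4 : ((-1 : ℝ) ^ l) * (-1) ^ l = 1 := by rw [← mul_pow]; norm_num
  have h5 : (kk : ℕ) = k := rfl
  rw [h5] at hcore
  calc 0 < _ := hcore
    _ = ε * (((-1) ^ l * (-1) ^ l) * (-1) ^ k) * ((∏ j, κ (p j)) * κ c) * ordQ l W c p := by
        rw [h4]; ring
    _ = _ := by ring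

theorem ord_dropLast {B : List ℕ} {n : ℕ} (hB : B.length = n) (hn : 1 ≤ n) :
    B = B.dropLast ++ [B.getD (n - 1) 0] := by
  have hne : B ≠ [] := by
    intro h
    rw [h] at hB
    simp at hB
    omega
  conv_lhs => rw [← List.dropLast_append_getLast hne]
  congr 2
  rw [List.getLast_eq_getElem]
  subst hB
  simp [List.getD_eq_getElem?_getD, List.getElem?_eq_getElem (show B.length - 1 < B.length by omega)]

theorem ord_getD_dropLast {B : List ℕ} {j : ℕ} (hj : j < B.dropLast.length) :
    B.dropLast.getD j 0 = B.getD j 0 := by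
  have h1 : j < B.length := by
    rw [List.length_dropLast] at hj; omega
  simp [List.getD_eq_getElem?_getD, List.getElem?_eq_getElem hj, List.getElem?_eq_getElem h1,
    List.getElem_dropLast]

/-- The determinant of a basis without its last element, and another element. -/
theorem ord_basis {m n : ℕ} {W v : ℕ → ℕ → ℝ} {κ : ℕ → ℝ} {ε Ω : ℝ} (hO : S_ORD)
    (h : Sys m n W v κ ε Ω) {B : List ℕ} (hB : Alt m n κ B) (c k : ℕ) (hc : c < 3 * m)
    (hk : k + 1 ≤ n) (h1 : ∀ j < k, B.getD j 0 / 3 < c / 3)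
    (h2 : ∀ j, k ≤ j → j + 1 < n → c / 3 < B.getD j 0 / 3) :
    0 < ε * (-1) ^ (n - 1 - k) * ((B.dropLast.map κ).prod * κ c) * dt n W (B.dropLast ++ [c]) := by
  obtain ⟨⟨hBn, hBm⟩, hinc⟩ := hB
  have hl : B.dropLast.length = n - 1 := by rw [List.length_dropLast, hBn]
  have h3 := hO m n W v κ ε Ω h B.dropLast c k (by rw [hl]; have := h.hn; omega)
    (fun a ha => hBm a (List.dropLast_subset _ ha)) hc
    (fun j hj => by
      rw [ord_getD_dropLast (by omega), ord_getD_dropLast hj]
      exact (hinc j (by omega)).1)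
    (by rw [hl]; omega)
    (fun j hj => by
      rw [ord_getD_dropLast (by rw [hl]; omega)]
      exact h1 j hj)
    (fun j hj hj' => by
      rw [ord_getD_dropLast hj']
      exact h2 j hj (by omega))
  rw [hl] at h3
  exact h3

theorem ord_mem {m n : ℕ} {κ : ℕ → ℝ} {B : List ℕ} (hB : Alt m n κ B) {j : ℕ} (hj : j < n) :
    B.getD j 0 < 3 * m := by
  obtain ⟨⟨hBn, hBm⟩, _⟩ := hB
  have h1 : j < B.length := by omega
  have h2 : B.getD j 0 = B[j] := by simp [h1]
  rw [h2]
  exact hBm _ (List.getElem_mem h1)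

theorem ord_alt_lt {m n : ℕ} {κ : ℕ → ℝ} {B : List ℕ} (hB : Alt m n κ B) {i j : ℕ} (hij : i < j)
    (hj : j < n) : B.getD i 0 / 3 < B.getD j 0 / 3 := by
  obtain ⟨⟨hBn, hBm⟩, hinc⟩ := hB
  exact ord_lt (L := B) (fun j hj => (hinc j (by omega)).1) i j hij (by omega)

/-- The sign of the determinant of an increasing basis. -/
theorem ord_self {m n : ℕ} {W v : ℕ → ℕ → ℝ} {κ : ℕ → ℝ} {ε Ω : ℝ} (hO : S_ORD)
    (h : Sys m n W v κ ε Ω) {B : List ℕ} (hB : Alt m n κ B) :
    0 < ε * ((B.dropLast.map κ).prod * κ (B.getD (n - 1) 0)) * dt n W B := by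
  have hn := h.hn
  have h1 := ord_basis hO h hB (B.getD (n - 1) 0) (n - 1) (ord_mem hB (by omega)) (by omega)
    (fun j hj => ord_alt_lt hB hj (by omega)) (fun j hj hj' => by omega)
  rw [← ord_dropLast hB.1.1 hn] at h1
  simpa using h1

/-- The determinant of an increasing basis does not vanish. -/
theorem t_NZR' (hO : S_ORD) : S_NZR := by
  intro m n W v κ ε Ω h B hB h0
  have h1 := ord_self hO h hB
  rw [h0, mul_zero] at h1
  exact lt_irrefl _ h1

/-- The determinant of an increasing basis does not vanish. -/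
theorem t_NZR : S_NZR := t_NZR' t_ORD

/-- The signs of the linear forms on the line given by all elements of a basis but the last
one. -/
theorem t_GAP : S_CRM → S_ORD → S_NZR → S_GAP := by
  intro hC hO _ m n W v κ ε Ω h B u c k hB hu0 hu1 hc hk h1 h2
  have h3 := hC n W B c u h.hn hB.1.1 hu0 hu1
  have h4 := ord_basis hO h hB c k hc hk h1 h2
  have h5 := ord_self hO h hB
  rw [h3] at h4
  have h6 := mul_pos h4 h5
  by_contra hneg
  push Not at hneg
  have h7 : 0 ≤ (ε * (B.dropLast.map κ).prod * dt n W B) ^ 2 := sq_nonneg _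
  have h8 := mul_nonpos_of_nonneg_of_nonpos h7 hneg
  have h9 : ε * (-1) ^ (n - 1 - k) * ((B.dropLast.map κ).prod * κ c) *
      (lv n W c u * dt n W B) *
      (ε * ((B.dropLast.map κ).prod * κ (B.getD (n - 1) 0)) * dt n W B) =
      (ε * (B.dropLast.map κ).prod * dt n W B) ^ 2 *
        ((-1) ^ (n - 1 - k) * (κ c * κ (B.getD (n - 1) 0)) * lv n W c u) := by ring
  rw [h9] at h6
  exact lt_irrefl _ (h6.trans_le h8)

end Pool.Agent.Y648.TP
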