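import Pool.Agent.Y648.TP.StmC

set_option autoImplicit false

/-!
# Adding one of the constraints after the first `3 n`
-/

namespace Pool.Agent.Y648.TP

theorem con_succ {n r c : ℕ} : con n (r + 1) c = true ↔ con n r c = true ∨ c = r := by
  unfold con
  simp only [Bool.or_eq_true, decide_eq_true_eq, Bool.and_eq_true, Bool.not_eq_true',
    decide_eq_false_iff_not]
  omega

theorem con_pos {n r c : ℕ} (hr : 3 * n ≤ r) (h : con n r c = true) : c / 3 ≤ r / 3 := by
  unfold con at h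
  simp only [Bool.or_eq_true, decide_eq_true_eq, Bool.and_eq_true, Bool.not_eq_true',
    decide_eq_false_iff_not] at h
  omega

theorem getD_mem_of_lt {B : List ℕ} {k : ℕ} (h : k < B.length) : B.getD k 0 ∈ B := by
  rw [List.getD_eq_getElem _ _ h]
  exact List.getElem_mem h

theorem fea_succ {m n : ℕ} {W : ℕ → ℕ → ℝ} {r : ℕ} {x : Fin n → ℝ} (h : Fea m n W r x)
    (hr : W r n ≤ lv n W r x) : Fea m n W (r + 1) x := by
  intro c hc h1
  rcases con_succ.1 h1 with h2 | h2
  · exact h c hc h2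
  · rw [h2]; exact hr

theorem fea_pred {m n : ℕ} {W : ℕ → ℕ → ℝ} {r : ℕ} (hrm : r < 3 * m) {x : Fin n → ℝ}
    (h : Fea m n W (r + 1) x) : Fea m n W r x ∧ W r n ≤ lv n W r x :=
  ⟨fun c hc h1 => h c hc (con_succ.2 (Or.inl h1)), h r hrm (con_succ.2 (Or.inr rfl))⟩

theorem Out.symm {m n : ℕ} {W : ℕ → ℕ → ℝ} {κ : ℕ → ℝ} {r : ℕ} {B B' : List ℕ}
    (h : Out m n W κ r B B') : Out m n W κ r B' B := by
  obtain ⟨h1, h2, h3, h4, h5, h6⟩ := h
  refine ⟨h2, h1, by rw [mul_comm]; exact h3, ?_, h6, h5⟩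
  intro a ha
  apply h4
  rw [List.mem_append] at ha ⊢
  exact ha.symm

theorem orc_true {n : ℕ} {W : ℕ → ℕ → ℝ} {R : List ℕ} {c : ℕ} :
    orc n W R c = true ↔ 0 ≤ Nv n W R c := by
  unfold orc bl
  exact @decide_eq_true_iff _ (Classical.propDecidable _)

theorem orc_false {n : ℕ} {W : ℕ → ℕ → ℝ} {R : List ℕ} {c : ℕ} :
    orc n W R c = false ↔ ¬ 0 ≤ Nv n W R c := by
  rw [← orc_true, Bool.not_eq_true]

/-- signs -/
theorem sgn_trans {a b c : ℝ} (h1 : a * b < 0) (h2 : 0 < b * c) : a * c < 0 := by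
  have hb : b ≠ 0 := by
    rintro rfl
    simp at h1
  have h3 : a * b * (b * c) < 0 := mul_neg_of_neg_of_pos h1 h2
  have h4 : 0 < b * b := mul_self_pos.2 hb
  by_contra h5
  push Not at h5
  have h6 : 0 ≤ (b * b) * (a * c) := mul_nonneg h4.le h5
  have h7 : (b * b) * (a * c) = a * b * (b * c) := by ring
  rw [h7] at h6
  linarith

section main

variable {m n : ℕ} {W v : ℕ → ℕ → ℝ} {κ : ℕ → ℝ} {ε Ω : ℝ}

/-- optimality of a vertex -/
theorem opt (hO : S_OPT) (hS : Sys m n W v κ ε Ω) {r : ℕ} (hr : 3 * n ≤ r) (hrm : r < 3 * m)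
    {B : List ℕ} (hA : Alt m n κ B) (hc : ∀ a ∈ B, con n r a = true) {x : Fin n → ℝ}
    (hx : Vx n W B x) {z : Fin n → ℝ} (hz : Fea m n W r z) :
    (0 < κ (B.getD (n - 1) 0) * κ r → lv n W r x ≤ lv n W r z) ∧
    (κ (B.getD (n - 1) 0) * κ r < 0 → lv n W r z ≤ lv n W r x) := by
  have hn := hS.hn
  have hlen : B.length = n := hA.1.1
  refine hO m n W v κ ε Ω hS B x z r hA hx ?_ hrm ?_
  · intro k hk
    have hm : B.getD k 0 ∈ B := getD_mem_of_lt (by omega)
    exact hz _ (hA.1.2 _ hm) (hc _ hm)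
  · exact con_pos hr (hc _ (getD_mem_of_lt (by omega)))

/-- the new basis -/
theorem new_basis (hV : S_VTX) (hN : S_NZR) (hO : S_OPT) (hI : S_INN)
    (hS : Sys m n W v κ ε Ω) {r : ℕ} (hr : 3 * n ≤ r) (hrm : r < 3 * m)
    {B B' : List ℕ} (h : Out m n W κ r B B') (h1 : orc n W B r = false)
    (h2 : orc n W B' r = true) : Out m n W κ (r + 1) (fixS m n (orc n W) r B) B' := by
  have hn := hS.hn
  obtain ⟨hA, hA', hs, hc, hF, hF'⟩ := h
  have hcB : ∀ a ∈ B, con n r a = true := fun a ha => hc a (List.mem_append_left _ ha)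
  have hcB' : ∀ a ∈ B', con n r a = true := fun a ha => hc a (List.mem_append_right _ ha)
  have hlen : B.length = n := hA.1.1
  have hlen' : B'.length = n := hA'.1.1
  obtain ⟨⟨x, hx⟩, -, -, hxN⟩ := hV n W B hlen (hN m n W v κ ε Ω hS B hA)
  obtain ⟨⟨x', hx'⟩, -, -, hxN'⟩ := hV n W B' hlen' (hN m n W v κ ε Ω hS B' hA')
  have v1 : lv n W r x < W r n := by
    have := orc_false.1 h1
    rw [hxN x hx r] at this
    exact not_le.1 this
  have v2 : W r n ≤ lv n W r x' := (hxN' x' hx' r).1 (orc_true.1 h2)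
  have hp : B.getD (n - 1) 0 ∈ B := getD_mem_of_lt (by omega)
  have hκp : κ (B.getD (n - 1) 0) ≠ 0 := hS.nz _ (hA.1.2 _ hp)
  have hκr : κ r ≠ 0 := hS.nz _ hrm
  have hpos : 0 < κ (B.getD (n - 1) 0) * κ r := by
    rcases lt_or_gt_of_ne (mul_ne_zero hκp hκr) with h3 | h3
    · have := (opt hO hS hr hrm hA hcB hx (hF' x' hx')).2 h3
      linarith
    · exact h3
  have hr3 : n ≤ r / 3 := by omega
  have hfix : fixS m n (orc n W) r B = (pivS m n (orc n W) r)^[n * m] (B.dropLast ++ [r]) := by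
    unfold fixS
    rw [if_neg (by omega)]
  have g0 : ∀ k, k + 1 < n → (B.dropLast ++ [r]).getD k 0 = B.getD k 0 := by
    intro k hk
    have hk1 : k < B.dropLast.length := by rw [List.length_dropLast]; omega
    rw [List.getD_eq_getElem _ _ (by rw [List.length_append]; simp; omega),
      List.getElem_append_left hk1, List.getElem_dropLast, List.getD_eq_getElem _ _ (by omega)]
  have g1 : (B.dropLast ++ [r]).getD (n - 1) 0 = r := by
    have e : (B.dropLast).length = n - 1 := by rw [List.length_dropLast, hlen]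
    rw [List.getD_append_right _ _ _ _ (by omega), e, Nat.sub_self]
    rfl
  have hlen1 : (B.dropLast ++ [r]).length = n := by
    rw [List.length_append, List.length_dropLast, hlen]
    simp
    omega
  have hInn : Inn m n W κ r (B.dropLast ++ [r]) := by
    refine ⟨⟨⟨hlen1, ?_⟩, ?_⟩, g1, ?_, x, hF x hx, ?_, v1.le⟩
    · intro a ha
      rcases List.mem_append.1 ha with h3 | h3
      · exact hA.1.2 a (List.mem_of_mem_dropLast h3)
      · rw [List.mem_singleton] at h3
        rw [h3]; exact hrm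
    · intro k hk
      rw [g0 k hk]
      obtain ⟨j1, j2⟩ := hA.2 k hk
      by_cases hk2 : k + 1 + 1 < n
      · rw [g0 (k + 1) hk2]
        exact ⟨j1, j2⟩
      · have e : k + 1 = n - 1 := by omega
        rw [e, g1]
        rw [e] at j1 j2
        refine ⟨lt_of_lt_of_le j1 (con_pos hr (hcB _ hp)), sgn_trans j2 hpos⟩
    · intro k hk
      rw [g0 k hk]
      exact hcB _ (getD_mem_of_lt (by omega))
    · intro k hk
      rw [g0 k hk]
      exact hx k (by omega)
  obtain ⟨hInn2, hF2⟩ := hI m n W v κ ε Ω hS r (B.dropLast ++ [r]) hr hrm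
    ⟨x', hF' x' hx', v2⟩ hInn
  rw [hfix]
  obtain ⟨B2, hB2⟩ : ∃ B2, B2 = (pivS m n (orc n W) r)^[n * m] (B.dropLast ++ [r]) := ⟨_, rfl⟩
  rw [← hB2] at hInn2 hF2 ⊢
  obtain ⟨hA2, hl2, hc2, -⟩ := hInn2
  refine ⟨hA2, hA', ?_, ?_, ?_, ?_⟩
  · rw [hl2, mul_comm]
    refine sgn_trans (b := κ (B.getD (n - 1) 0)) ?_ hpos
    rw [mul_comm]
    exact hs
  · intro a ha
    rw [con_succ]
    rcases List.mem_append.1 ha with h3 | h3
    · obtain ⟨k, hk, rfl⟩ := List.getElem_of_mem h3
      have hlen2 : B2.length = n := hA2.1.1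
      by_cases hk2 : k + 1 < n
      · left
        have := hc2 k hk2
        rwa [List.getD_eq_getElem _ _ hk] at this
      · right
        have e : k = n - 1 := by omega
        subst e
        rwa [List.getD_eq_getElem _ _ hk] at hl2
    · exact Or.inl (hcB' a h3)
  · intro y hy
    refine fea_succ (hF2 y hy) ?_
    have := hy (n - 1) (by omega)
    rw [hl2] at this
    exact this.ge
  · intro y hy
    exact fea_succ (hF' y hy) ((hxN' y hy r).1 (orc_true.1 h2))

end main

/-- Adding one of the constraints after the first `3 n`. -/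
theorem t_OUT2 : S_VTX → S_NZR → S_OPT → S_INN → S_OUT2 := by
  intro hV hN hO hI m n W v κ ε Ω hS r hr hrm B B' h
  have hn := hS.hn
  have h' := h
  obtain ⟨hA, hA', hs, hc, hF, hF'⟩ := h'
  have hcB : ∀ a ∈ B, con n r a = true := fun a ha => hc a (List.mem_append_left _ ha)
  have hcB' : ∀ a ∈ B', con n r a = true := fun a ha => hc a (List.mem_append_right _ ha)
  have hlen : B.length = n := hA.1.1
  have hlen' : B'.length = n := hA'.1.1
  obtain ⟨⟨x, hx⟩, -, -, hxN⟩ := hV n W B hlen (hN m n W v κ ε Ω hS B hA)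
  obtain ⟨⟨x', hx'⟩, -, -, hxN'⟩ := hV n W B' hlen' (hN m n W v κ ε Ω hS B' hA')
  have hp : B.getD (n - 1) 0 ∈ B := getD_mem_of_lt (by omega)
  have hκp : κ (B.getD (n - 1) 0) ≠ 0 := hS.nz _ (hA.1.2 _ hp)
  have hκr : κ r ≠ 0 := hS.nz _ hrm
  refine ⟨?_, fun h1 h2 => new_basis hV hN hO hI hS hr hrm h h1 h2,
    fun h1 h2 => (new_basis hV hN hO hI hS hr hrm h.symm h2 h1).symm, ?_⟩
  · rintro h1 h2 ⟨z, hz⟩
    obtain ⟨z1, z2⟩ := fea_pred hrm hz
    have v1 : lv n W r x < W r n := by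
      have := orc_false.1 h1
      rw [hxN x hx r] at this
      exact not_le.1 this
    have v2 : lv n W r x' < W r n := by
      have := orc_false.1 h2
      rw [hxN' x' hx' r] at this
      exact not_le.1 this
    rcases lt_or_gt_of_ne (mul_ne_zero hκp hκr) with h3 | h3
    · have := (opt hO hS hr hrm hA hcB hx z1).2 h3
      linarith
    · have h4 : κ (B'.getD (n - 1) 0) * κ r < 0 := by
        refine sgn_trans (b := κ (B.getD (n - 1) 0)) ?_ h3
        rw [mul_comm]
        exact hs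
      have := (opt hO hS hr hrm hA' hcB' hx' z1).2 h4
      linarith
  · intro h1 h2
    refine ⟨hA, hA', hs, fun a ha => con_succ.2 (Or.inl (hc a ha)), ?_, ?_⟩
    · intro y hy
      exact fea_succ (hF y hy) ((hxN y hy r).1 (orc_true.1 h1))
    · intro y hy
      exact fea_succ (hF' y hy) ((hxN' y hy r).1 (orc_true.1 h2))

end Pool.Agent.Y648.TP
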