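import Pool.Agent.Y648.TP.StmC

set_option autoImplicit false

/-!
# Totally nonnegative column spaces: the perturbation makes all maximal minors positive
-/

namespace Pool.Agent.Y648.TP

namespace PERT

variable {n : ℕ}

/-- The determinant with the columns `X k`. -/
noncomputable def D (X : Fin n → Fin n → ℝ) : ℝ := (Matrix.of fun i k : Fin n => X k i).det

lemma D_eq (X : Fin n → Fin n → ℝ) :
    D X = (Matrix.detRowAlternating (n := Fin n) (R := ℝ)).toMultilinearMap X := by
  unfold D
  rw [← Matrix.det_transpose]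
  rfl

lemma D_expand (τ : ℝ) (a w : Fin n → Fin n → ℝ) :
    D (fun k => τ • a k + w k) = ∑ s : Finset (Fin n), τ ^ s.card * D (s.piecewise a w) := by
  classical
  have h1 : (fun k => τ • a k + w k) = (fun k => τ • a k) + w := rfl
  rw [D_eq, h1, MultilinearMap.map_add_univ]
  apply Finset.sum_congr rfl
  intro s _
  have h2 : s.piecewise (fun k => τ • a k) w =
      s.piecewise (fun k => τ • (s.piecewise a w) k) (s.piecewise a w) := by
    funext k
    by_cases hk : k ∈ s
    · simp [hk]
    · simp [hk]
  rw [h2, MultilinearMap.map_piecewise_smul, Finset.prod_const, smul_eq_mul, D_eq]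

lemma D_zero {X : Fin n → Fin n → ℝ} {k : Fin n} (h : X k = 0) : D X = 0 := by
  rw [D_eq]
  exact MultilinearMap.map_coord_zero _ k h

lemma D_eq_zero {X : Fin n → Fin n → ℝ} {k l : Fin n} (h : X k = X l) (hkl : k ≠ l) :
    D X = 0 := by
  rw [D_eq]
  exact (Matrix.detRowAlternating (n := Fin n) (R := ℝ)).map_eq_zero_of_eq X h hkl

/-- all minors with increasing rows are nonnegative -/
def NN (m : ℕ) (ε : ℝ) (U : ℕ → Fin n → ℝ) : Prop :=
  (∀ i, m ≤ i → U i = 0) ∧
    ∀ f : Fin n → ℕ, StrictMono f → (∀ k, f k < m) → 0 ≤ ε * D (fun k => U (f k))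

lemma NN.mono {m : ℕ} {ε : ℝ} {U : ℕ → Fin n → ℝ} (h : NN m ε U) {g : Fin n → ℕ}
    (hg : Monotone g) : 0 ≤ ε * D (fun k => U (g k)) := by
  by_cases h1 : StrictMono g
  · by_cases h2 : ∀ k, g k < m
    · exact h.2 g h1 h2
    · push Not at h2
      obtain ⟨k, hk⟩ := h2
      rw [D_zero (X := fun k => U (g k)) (h.1 _ hk), mul_zero]
  · have h2 : ¬ Function.Injective g := fun h3 => h1 (hg.strictMono_of_injective h3)
    unfold Function.Injective at h2
    push Not at h2
    obtain ⟨k, l, hkl, hne⟩ := h2
    rw [D_eq_zero (X := fun k => U (g k)) (k := k) (l := l) (by rw [hkl]) hne, mul_zero]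

/-- the sum is nonnegative, and positive if one of the terms is positive -/
lemma expand_nonneg {τ ε : ℝ} (hτ : 0 < τ) {a w : Fin n → Fin n → ℝ}
    (h : ∀ s : Finset (Fin n), 0 ≤ ε * D (s.piecewise a w)) :
    0 ≤ ε * D (fun k => τ • a k + w k) ∧
      ((∃ s : Finset (Fin n), 0 < ε * D (s.piecewise a w)) →
        0 < ε * D (fun k => τ • a k + w k)) := by
  classical
  rw [D_expand, Finset.mul_sum]
  have h1 : ∀ s : Finset (Fin n), ε * (τ ^ s.card * D (s.piecewise a w)) =
      τ ^ s.card * (ε * D (s.piecewise a w)) := fun s => by ring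
  refine ⟨Finset.sum_nonneg fun s _ => ?_, fun ⟨s, hs⟩ => ?_⟩
  · rw [h1]
    exact mul_nonneg (pow_nonneg hτ.le _) (h s)
  · have g1 : ∀ t ∈ (Finset.univ : Finset (Finset (Fin n))),
        0 ≤ ε * (τ ^ t.card * D (t.piecewise a w)) := fun t _ => by
      rw [h1]
      exact mul_nonneg (pow_nonneg hτ.le _) (h t)
    have g2 : 0 < ε * (τ ^ s.card * D (s.piecewise a w)) := by
      rw [h1]
      exact mul_pos (pow_pos hτ _) hs
    exact Finset.sum_pos' g1 ⟨s, Finset.mem_univ _, g2⟩

/-- the first kind of steps: shifts to the right -/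
lemma step1 {m : ℕ} {τ ε : ℝ} (hτ : 0 < τ) {U : ℕ → Fin n → ℝ} (h : NN m ε U) {f : Fin n → ℕ}
    (hf : StrictMono f) :
    0 ≤ ε * D (fun k => τ • U (f k) + U (f k + 1)) ∧
      ∀ g : Fin n → ℕ, (∀ k, g k = f k ∨ g k = f k + 1) → 0 < ε * D (fun k => U (g k)) →
        0 < ε * D (fun k => τ • U (f k) + U (f k + 1)) := by
  classical
  obtain ⟨e1, e2⟩ := expand_nonneg hτ (a := fun k => U (f k)) (w := fun k => U (f k + 1))
    (ε := ε) (fun s => by
      have e : s.piecewise (fun k => U (f k)) (fun k => U (f k + 1)) =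
          fun k => U (if k ∈ s then f k else f k + 1) := by
        funext k
        by_cases hk : k ∈ s <;> simp [hk]
      rw [e]
      apply h.mono
      intro k l hkl
      rcases hkl.eq_or_lt with rfl | hkl
      · exact le_rfl
      · have h3 := hf hkl
        dsimp only
        split_ifs <;> omega)
  refine ⟨e1, fun g hg hpos => e2 ⟨Finset.univ.filter fun k => g k = f k, ?_⟩⟩
  have e : (Finset.univ.filter fun k => g k = f k).piecewise (fun k => U (f k))
      (fun k => U (f k + 1)) = fun k => U (g k) := by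
    funext k
    by_cases hk : g k = f k
    · simp [hk]
    · have h3 := (hg k).resolve_left hk
      simp [h3]
  rw [e]
  exact hpos

/-- the second kind of steps: shifts to the left -/
lemma step2 {m : ℕ} {τ ε : ℝ} (hτ : 0 < τ) {U : ℕ → Fin n → ℝ} (h : NN m ε U) {f : Fin n → ℕ}
    (hf : StrictMono f) :
    0 ≤ ε * D (fun k => τ • U (f k) + if f k = 0 then 0 else U (f k - 1)) ∧
      ∀ g : Fin n → ℕ, (∀ k, g k = f k ∨ g k + 1 = f k) → 0 < ε * D (fun k => U (g k)) →
        0 < ε * D (fun k => τ • U (f k) + if f k = 0 then 0 else U (f k - 1)) := by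
  classical
  obtain ⟨e1, e2⟩ := expand_nonneg hτ (a := fun k => U (f k))
    (w := fun k => if f k = 0 then 0 else U (f k - 1)) (ε := ε) (fun s => by
      by_cases h0 : ∃ k, k ∉ s ∧ f k = 0
      · obtain ⟨k, hk, hk0⟩ := h0
        rw [D_zero (k := k) (by simp [hk, hk0]), mul_zero]
      · push Not at h0
        have e : s.piecewise (fun k => U (f k)) (fun k => if f k = 0 then 0 else U (f k - 1)) =
            fun k => U (if k ∈ s then f k else f k - 1) := by
          funext k
          by_cases hk : k ∈ s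
          · simp [hk]
          · simp [hk, h0 k hk]
        rw [e]
        apply h.mono
        intro k l hkl
        rcases hkl.eq_or_lt with rfl | hkl
        · exact le_rfl
        · have h3 := hf hkl
          dsimp only
          split_ifs <;> omega)
  refine ⟨e1, fun g hg hpos => e2 ⟨Finset.univ.filter fun k => g k = f k, ?_⟩⟩
  have e : (Finset.univ.filter fun k => g k = f k).piecewise (fun k => U (f k))
      (fun k => if f k = 0 then 0 else U (f k - 1)) = fun k => U (g k) := by
    funext k
    by_cases hk : g k = f k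
    · simp [hk]
    · have h3 := (hg k).resolve_left hk
      have h4 : f k ≠ 0 := by omega
      have h5 : f k - 1 = g k := by omega
      simp [hk, h4, h5]
  rw [e]
  exact hpos

/-- the rows -/
noncomputable def Uw (m : ℕ) (V : ℕ → ℕ → ℝ) (z : ℝ) (j i : ℕ) (k : Fin n) : ℝ := Wp m V z j i k

lemma Uw_zero {m : ℕ} (V : ℕ → ℕ → ℝ) (z : ℝ) (j : ℕ) {i : ℕ} (hi : m ≤ i) :
    Uw (n := n) m V z j i = 0 := by
  funext k
  unfold Uw
  cases j with
  | zero => rw [Wp, if_neg (by omega)]; rfl
  | succ j => rw [Wp, if_neg (by omega)]; rfl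

lemma Uw_step1 {m : ℕ} (V : ℕ → ℕ → ℝ) (z : ℝ) {j : ℕ} (hj : j < m) {i : ℕ} (hi : i < m) :
    Uw (n := n) m V z (j + 1) i = z ^ 3 • Uw m V z j i + Uw m V z j (i + 1) := by
  funext k
  change Wp m V z (j + 1) i k = z ^ 3 * Wp m V z j i k + Wp m V z j (i + 1) k
  rw [Wp, if_pos hi, if_pos hj]

lemma Uw_step2 {m : ℕ} (V : ℕ → ℕ → ℝ) (z : ℝ) {j : ℕ} (hj : m ≤ j) {i : ℕ} (hi : i < m) :
    Uw (n := n) m V z (j + 1) i = z ^ 3 • Uw m V z j i +
      if i = 0 then 0 else Uw m V z j (i - 1) := by
  funext k
  change Wp m V z (j + 1) i k = _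
  rw [Wp, if_pos hi, if_neg (by omega)]
  by_cases h : i = 0
  · rw [if_pos h, if_pos h]
    rfl
  · rw [if_neg h, if_neg h]
    rfl

end PERT

open PERT in
theorem t_PERT : S_PERT := by
  intro m n V ε z hn hnm hz hnn ⟨J, hJ, hJm, hJp⟩
  have hτ : 0 < z ^ 3 := pow_pos hz 3
  have h0 : NN m ε (Uw (n := n) m V z 0) := by
    refine ⟨fun i hi => Uw_zero V z 0 hi, fun f hf hfm => ?_⟩
    have e : (fun k => Uw (n := n) m V z 0 (f k)) = fun (k : Fin n) (i : Fin n) => V (f k) i := by
      funext k i
      change Wp m V z 0 (f k) i = _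
      rw [Wp, if_pos (hfm k)]
    rw [e]
    exact hnn f hf hfm
  have hJ0 : 0 < ε * D (fun k => Uw (n := n) m V z 0 (J k)) := by
    have e : (fun k => Uw (n := n) m V z 0 (J k)) = fun (k : Fin n) (i : Fin n) => V (J k) i := by
      funext k i
      change Wp m V z 0 (J k) i = _
      rw [Wp, if_pos (hJm k)]
    rw [e]
    exact hJp
  have hlow : ∀ f : Fin n → ℕ, StrictMono f → ∀ k : Fin n, (k : ℕ) ≤ f k := by
    intro f hf k
    obtain ⟨k, hk⟩ := k
    induction k with
    | zero => exact Nat.zero_le _
    | succ k ih =>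
      have h1 := ih (by omega)
      have h2 : f ⟨k, by omega⟩ < f ⟨k + 1, hk⟩ := hf (by simp [Fin.lt_def])
      change k ≤ f ⟨k, by omega⟩ at h1
      change k + 1 ≤ f ⟨k + 1, hk⟩
      omega
  -- the first kind of steps
  have c1 : ∀ j ≤ m, NN m ε (Uw (n := n) m V z j) ∧ ∀ f : Fin n → ℕ, StrictMono f →
      (∀ k, f k ≤ J k ∧ J k ≤ f k + j) → 0 < ε * D (fun k => Uw (n := n) m V z j (f k)) := by
    intro j
    induction j with
    | zero =>
      refine fun _ => ⟨h0, fun f _ h => ?_⟩
      have e : f = J := funext fun k => le_antisymm (h k).1 (h k).2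
      rw [e]
      exact hJ0
    | succ j ih =>
      intro hj
      obtain ⟨h1, h2⟩ := ih (by omega)
      refine ⟨⟨fun i hi => Uw_zero V z _ hi, fun f hf hfm => ?_⟩, fun f hf h => ?_⟩
      · have e : (fun k => Uw (n := n) m V z (j + 1) (f k)) = fun k =>
            z ^ 3 • Uw m V z j (f k) + Uw m V z j (f k + 1) :=
          funext fun k => Uw_step1 V z (by omega) (hfm k)
        rw [e]
        exact (step1 hτ h1 hf).1
      · have e : (fun k => Uw (n := n) m V z (j + 1) (f k)) = fun k =>
            z ^ 3 • Uw m V z j (f k) + Uw m V z j (f k + 1) :=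
          funext fun k => Uw_step1 V z (by omega) ((h k).1.trans_lt (hJm k))
        rw [e]
        refine (step1 hτ h1 hf).2 (fun k => min (f k + 1) (J k)) (fun k => ?_) (h2 _ ?_ ?_)
        · have := (h k).1
          try dsimp only
          omega
        · intro k l hkl
          have a1 := hf hkl
          have a2 := hJ hkl
          try dsimp only
          omega
        · intro k
          have := h k
          try dsimp only
          omega
  obtain ⟨hm1, hm2⟩ := c1 m le_rfl
  have hm3 : 0 < ε * D (fun k : Fin n => Uw (n := n) m V z m k) := by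
    refine hm2 (fun k => (k : ℕ)) (fun k l hkl => hkl) fun k => ⟨hlow J hJ k, ?_⟩
    have := hJm k
    omega
  -- the second kind of steps
  have c2 : ∀ j ≤ m, NN m ε (Uw (n := n) m V z (m + j)) ∧ ∀ f : Fin n → ℕ, StrictMono f →
      (∀ k, f k < m) → (∀ k, f k ≤ k + j) →
        0 < ε * D (fun k => Uw (n := n) m V z (m + j) (f k)) := by
    intro j
    induction j with
    | zero =>
      refine fun _ => ⟨hm1, fun f hf _ h => ?_⟩
      have e : f = fun k : Fin n => (k : ℕ) := funext fun k => le_antisymm (h k) (hlow f hf k)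
      rw [e]
      exact hm3
    | succ j ih =>
      intro hj
      obtain ⟨h1, h2⟩ := ih (by omega)
      refine ⟨⟨fun i hi => Uw_zero V z _ hi, fun f hf hfm => ?_⟩, fun f hf hfm h => ?_⟩
      · have e : (fun k => Uw (n := n) m V z (m + (j + 1)) (f k)) = fun k =>
            z ^ 3 • Uw m V z (m + j) (f k) +
              if f k = 0 then 0 else Uw m V z (m + j) (f k - 1) :=
          funext fun k => Uw_step2 V z (Nat.le_add_right m j) (hfm k)
        rw [e]
        exact (step2 hτ h1 hf).1
      · have e : (fun k => Uw (n := n) m V z (m + (j + 1)) (f k)) = fun k =>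
            z ^ 3 • Uw m V z (m + j) (f k) +
              if f k = 0 then 0 else Uw m V z (m + j) (f k - 1) :=
          funext fun k => Uw_step2 V z (Nat.le_add_right m j) (hfm k)
        rw [e]
        refine (step2 hτ h1 hf).2 (fun k => max (f k - 1) k) (fun k => ?_) (h2 _ ?_ ?_ ?_)
        · have := hlow f hf k
          try dsimp only
          omega
        · intro k l hkl
          have a1 := hf hkl
          have a2 := hlow f hf k
          have a3 : (k : ℕ) < l := hkl
          try dsimp only
          omega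
        · intro k
          have := hfm k
          have := hlow f hf k
          try dsimp only
          omega
        · intro k
          have := h k
          try dsimp only
          omega
  intro f hf hfm
  have h3 := (c2 m le_rfl).2 f hf hfm (fun k => by have := hfm k; omega)
  rw [← two_mul] at h3
  exact h3

end Pool.Agent.Y648.TP
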