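import Pool.Agent.Y648.TP.StmC

set_option autoImplicit false

/-!
# Pivots
-/

namespace Pool.Agent.Y648.TP

open Pool.Agent.NPC Pool.Agent.H558R2 Pool.Agent.H622R3.SM Pool.Agent.W920.FC Pool.Agent.Y648.CS

/-! ### Lists -/

theorem pv_getD_dropLast (B : List ℕ) (j : ℕ) (h : j + 1 < B.length) :
    B.dropLast.getD j 0 = B.getD j 0 := by
  rw [List.getD_eq_getElem?_getD, List.getD_eq_getElem?_getD, List.getElem?_dropLast,
    if_pos (by omega)]

theorem pv_getD_app (B : List ℕ) (c j : ℕ) (h : j + 1 < B.length) :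
    (B.dropLast ++ [c]).getD j 0 = B.getD j 0 := by
  rw [← pv_getD_dropLast B j h, List.getD_eq_getElem?_getD, List.getD_eq_getElem?_getD,
    List.getElem?_append_left (by rw [List.length_dropLast]; omega)]

theorem pv_getD_last (B : List ℕ) (c : ℕ) (h : 1 ≤ B.length) :
    (B.dropLast ++ [c]).getD (B.length - 1) 0 = c := by
  rw [List.getD_eq_getElem?_getD, List.getElem?_append_right (by rw [List.length_dropLast]),
    List.length_dropLast, Nat.sub_self]
  rfl

theorem pv_len_app (B : List ℕ) (c : ℕ) (h : 1 ≤ B.length) :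
    (B.dropLast ++ [c]).length = B.length := by
  rw [List.length_append, List.length_dropLast]
  simp
  omega

theorem pv_getD_set (B : List ℕ) (i c j : ℕ) (h : i < B.length) :
    (B.set i c).getD j 0 = if j = i then c else B.getD j 0 := by
  rw [List.getD_eq_getElem?_getD, List.getD_eq_getElem?_getD, List.getElem?_set]
  by_cases hj : j = i
  · rw [hj]
    simp [h]
  · rw [if_neg (Ne.symm hj), if_neg hj]

theorem pv_psm_set (B : List ℕ) (i c : ℕ) (h : i < B.length) :
    psm (B.set i c) + B.getD i 0 / 3 = psm B + c / 3 := by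
  unfold psm
  induction B generalizing i with
  | nil => exact absurd h (Nat.not_lt_zero i)
  | cons a t ih =>
    cases i with
    | zero => simp [add_comm, add_left_comm]
    | succ i =>
      have h1 := ih i (by simpa using h)
      simp only [List.set_cons_succ, List.map_cons, List.sum_cons, List.getD_cons_succ]
      omega

theorem pv_count (L : List ℕ) (p : ℕ) (h : ∀ i j, i < j → j < L.length →
      L.getD j 0 / 3 < p → L.getD i 0 / 3 < p) (j : ℕ) (hj : j < L.length) :
    L.getD j 0 / 3 < p ↔ j < (L.filter fun a => decide (a / 3 < p)).length := by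
  induction L generalizing j with
  | nil => exact absurd hj (Nat.not_lt_zero j)
  | cons a t ih =>
    by_cases ha : a / 3 < p
    · rw [List.filter_cons_of_pos (by simpa using ha), List.length_cons]
      cases j with
      | zero => simp [ha]
      | succ j =>
        rw [List.getD_cons_succ, ih (fun i j hij hj hp => ?_) j (by simpa using hj)]
        · omega
        · have := h (i + 1) (j + 1) (by omega) (by simpa using hj) (by simpa using hp)
          simpa using this
    · have h1 : ∀ j, j < (a :: t).length → ¬ (a :: t).getD j 0 / 3 < p := by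
        intro j hj
        cases j with
        | zero => simpa using ha
        | succ j =>
          intro h2
          exact ha (by simpa using h 0 (j + 1) (by omega) hj h2)
      have h2 : ((a :: t).filter fun a => decide (a / 3 < p)) = [] := by
        rw [List.filter_eq_nil_iff]
        intro b hb
        obtain ⟨i, hi, rfl⟩ := List.getElem_of_mem hb
        have h3 := h1 i hi
        rw [List.getD_eq_getElem _ _ hi] at h3
        simpa using h3
      rw [h2]
      constructor
      · intro h3
        exact absurd h3 (h1 j hj)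
      · intro h3
        exact absurd h3 (Nat.not_lt_zero j)

theorem pv_count_le (L : List ℕ) (p : ℕ) :
    (L.filter fun a => decide (a / 3 < p)).length ≤ L.length := List.length_filter_le _ _

/-! ### Linear forms -/

theorem lv_line (n : ℕ) (W : ℕ → ℕ → ℝ) (c : ℕ) (x u : Fin n → ℝ) (θ : ℝ) :
    lv n W c (fun i => x i + θ * u i) = lv n W c x + θ * lv n W c u := by
  unfold lv
  rw [Finset.mul_sum, ← Finset.sum_add_distrib]
  exact Finset.sum_congr rfl fun i _ => by ring

theorem lv_prop {m n : ℕ} {W v : ℕ → ℕ → ℝ} {κ : ℕ → ℝ} {ε Ω : ℝ} (h : Sys m n W v κ ε Ω)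
    {c c' : ℕ} (hc : c < 3 * m) (hc' : c' < 3 * m) (e : c / 3 = c' / 3) (x : Fin n → ℝ) :
    κ c' * lv n W c x = κ c * lv n W c' x := by
  unfold lv
  rw [Finset.mul_sum, Finset.mul_sum]
  refine Finset.sum_congr rfl fun i _ => ?_
  rw [h.eq c hc i i.2, h.eq c' hc' i i.2, e]
  ring

theorem bl_iff (p : Prop) : bl p = true ↔ p := by
  unfold bl
  exact @decide_eq_true_iff p (Classical.propDecidable p)

theorem getD_mem' {B : List ℕ} {k : ℕ} (h : k < B.length) : B.getD k 0 ∈ B := by
  rw [List.getD_eq_getElem _ _ h]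
  exact List.getElem_mem h

/-- the signs of the elements of an alternating basis -/
theorem alt_sign {m n : ℕ} {W v : ℕ → ℕ → ℝ} {κ : ℕ → ℝ} {ε Ω : ℝ} (h : Sys m n W v κ ε Ω)
    {B : List ℕ} (hB : Alt m n κ B) (d : ℕ) (hd : d ≤ n - 1) :
    0 < (-1) ^ d * (κ (B.getD (n - 1 - d) 0) * κ (B.getD (n - 1) 0)) := by
  have hn := h.hn
  induction d with
  | zero =>
    have h1 : κ (B.getD (n - 1) 0) ≠ 0 :=
      h.nz _ (hB.1.2 _ (getD_mem' (by rw [hB.1.1]; omega)))
    simp only [pow_zero, one_mul, Nat.sub_zero]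
    exact mul_self_pos.2 h1
  | succ d ih =>
    have h1 := ih (by omega)
    have h2 := (hB.2 (n - 1 - (d + 1)) (by omega)).2
    have h3 : n - 1 - (d + 1) + 1 = n - 1 - d := by omega
    rw [h3] at h2
    rw [pow_succ]
    set a := κ (B.getD (n - 1 - (d + 1)) 0)
    set b := κ (B.getD (n - 1 - d) 0)
    set c := κ (B.getD (n - 1) 0)
    have h4 : (a * b) * ((-1) ^ d * (b * c)) < 0 := mul_neg_of_neg_of_pos h2 h1
    have h5 : (a * b) * ((-1) ^ d * (b * c)) = -((b * b) * ((-1) ^ d * -1 * (a * c))) := by ring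
    rw [h5] at h4
    have h6 : 0 < (b * b) * ((-1) ^ d * -1 * (a * c)) := by linarith
    have h7 : 0 < b * b := by
      apply mul_self_pos.2
      rintro h8
      rw [h8] at h2
      simp at h2
    exact (mul_pos_iff_of_pos_left h7).1 h6

theorem pv_neg_iff {a b : ℝ} (hb : 0 < b) : a * b < 0 ↔ a < 0 := by
  constructor
  · intro h
    by_contra h1
    push Not at h1
    exact absurd (mul_nonneg h1 hb.le) (not_le.2 h)
  · intro h
    exact mul_neg_of_neg_of_pos h hb

/-- positions are increasing -/
theorem alt_mono {m n : ℕ} {κ : ℕ → ℝ} {B : List ℕ} (hB : Alt m n κ B) {i j : ℕ} (hij : i < j)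
    (hj : j < n) : B.getD i 0 / 3 < B.getD j 0 / 3 := by
  induction j with
  | zero => exact absurd hij (Nat.not_lt_zero i)
  | succ j ih =>
    rcases Nat.lt_succ_iff_lt_or_eq.1 hij with h1 | rfl
    · exact (ih h1 (by omega)).trans (hB.2 j hj).1
    · exact (hB.2 i hj).1

theorem t_PIV (hV : S_VTX) (hC : S_CRM) (hZ : S_NZR) (hO : S_OPT) (hG : S_GAP) : S_PIV := by
  intro m n W v κ ε Ω hs r B h3 hr ⟨z, hz, hzr⟩ ⟨hA, hl, hcon, x₀, hx₀, hxe, hxr⟩
  classical
  have hn := hs.hn
  have hlen : B.length = n := hA.1.1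
  have hd := hZ m n W v κ ε Ω hs B hA
  obtain ⟨⟨xB, hxB⟩, huniq, ⟨u, hu, hu1⟩, horc⟩ := hV n W B hlen hd
  have hu1 := hu1 hn
  have hu1' := hu1
  rw [hl] at hu1
  set lam := W r n - lv n W r x₀ with hlam
  have hlam0 : 0 ≤ lam := by linarith
  have hxB' : xB = fun i => x₀ i + lam * u i := by
    refine huniq _ _ hxB fun k hk => ?_
    rw [lv_line]
    by_cases hk1 : k + 1 < n
    · rw [hxe k hk1, hu k hk1]
      ring
    · have h1 : k = n - 1 := by omega
      rw [h1, hl, hu1, hlam]
      ring
  have hlB : ∀ c, lv n W c xB = lv n W c x₀ + lam * lv n W c u := by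
    intro c
    rw [hxB', lv_line]
  have horB : ∀ c, orc n W B c = true ↔ W c n ≤ lv n W c xB := by
    intro c
    unfold orc
    rw [bl_iff, horc xB hxB c]
  have hBm : ∀ k < n, B.getD k 0 < 3 * m := fun k hk => hA.1.2 _ (getD_mem' (by omega))
  -- the violated constraints
  let θ : ℕ → ℝ := fun c => (lv n W c x₀ - W c n) / (-(lv n W c u))
  have hvio : ∀ c < 3 * m, con n r c = true → lv n W c xB < W c n →
      lv n W c u < 0 ∧ 0 ≤ θ c ∧ θ c < lam ∧ lv n W c x₀ + θ c * lv n W c u = W c n := by
    intro c hc hcc hv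
    have h1 := hx₀ c hc hcc
    rw [hlB] at hv
    have h2 : lam * lv n W c u < 0 := by linarith
    have h3 : lv n W c u < 0 := by
      by_contra h4
      push Not at h4
      have := mul_nonneg hlam0 h4
      linarith
    refine ⟨h3, div_nonneg (by linarith) (by linarith), ?_, ?_⟩
    · rw [div_lt_iff₀ (by linarith)]
      linarith
    · simp only [θ]
      rw [div_neg, neg_mul, div_mul_cancel₀ _ h3.ne]
      ring
  have hver : ∀ c < 3 * m, con n r c = true → lv n W c xB < W c n → ∀ c', 
      (orc n W (B.dropLast ++ [c]) c' = true ↔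
        W c' n ≤ lv n W c' (fun i => x₀ i + θ c * u i)) := by
    intro c hc hcc hv c'
    obtain ⟨h1, h2, h3, h4⟩ := hvio c hc hcc hv
    have hdt : dt n W (B.dropLast ++ [c]) ≠ 0 := by
      rw [hC n W B c u hn hlen hu hu1']
      exact mul_ne_zero h1.ne hd
    obtain ⟨-, -, -, h5⟩ := hV n W (B.dropLast ++ [c])
      (by rw [pv_len_app B c (by omega), hlen]) hdt
    unfold orc
    rw [bl_iff]
    apply h5
    intro k hk
    by_cases hk1 : k + 1 < n
    · rw [pv_getD_app B c k (by omega), lv_line, hxe k hk1, hu k hk1]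
      ring
    · have h6 : k = B.length - 1 := by omega
      rw [h6, pv_getD_last B c (by omega), lv_line, h4]
  unfold pivS pupd
  by_cases hall : ((List.range (3 * m)).all fun c => !(con n r c) || orc n W B c) = true
  · rw [if_pos hall]
    refine ⟨⟨hA, hl, hcon, x₀, hx₀, hxe, hxr⟩, Or.inl ⟨rfl, fun x hx c hc hcn => ?_⟩⟩
    rw [huniq x xB hx hxB]
    have h1 := List.all_eq_true.1 hall c (List.mem_range.2 hc)
    rw [hcn] at h1
    exact (horB c).1 (by simpa using h1)
  rw [if_neg hall]
  -- a violated constraint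
  obtain ⟨c1, hc1, hcc1, hv1⟩ : ∃ c < 3 * m, con n r c = true ∧ lv n W c xB < W c n := by
    by_contra hcon2
    push Not at hcon2
    apply hall
    rw [List.all_eq_true]
    intro c hc
    by_cases hcc : con n r c = true
    · rw [(horB c).2 (hcon2 c (List.mem_range.1 hc) hcc)]
      simp
    · simp [hcc]
  -- existence of a good constraint
  let VV : Finset ℕ := (Finset.range (3 * m)).filter fun c =>
    con n r c = true ∧ lv n W c xB < W c n
  have hVV : ∀ c, c ∈ VV ↔ c < 3 * m ∧ con n r c = true ∧ lv n W c xB < W c n := by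
    intro c
    simp only [VV, Finset.mem_filter, Finset.mem_range]
  obtain ⟨cs, hcs, hmin⟩ := Finset.exists_min_image VV θ ⟨c1, (hVV c1).2 ⟨hc1, hcc1, hv1⟩⟩
  obtain ⟨hcs1, hcs2, hcs3⟩ := (hVV cs).1 hcs
  obtain ⟨g1, g2, g3, g4⟩ := hvio cs hcs1 hcs2 hcs3
  set F := (List.range (3 * m)).filter fun c => con n r c && (!(orc n W B c) &&
      (List.range (3 * m)).all fun c' => !(con n r c') || orc n W (B.dropLast ++ [c]) c') with hF
  have hmemF : ∀ c, c ∈ F ↔ c < 3 * m ∧ con n r c = true ∧ lv n W c xB < W c n ∧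
      ∀ c' < 3 * m, con n r c' = true → orc n W (B.dropLast ++ [c]) c' = true := by
    intro c
    rw [hF, List.mem_filter, List.mem_range]
    simp only [Bool.and_eq_true, Bool.not_eq_true', List.all_eq_true, List.mem_range,
      Bool.or_eq_true]
    constructor
    · rintro ⟨h1, h2, h3, h4⟩
      refine ⟨h1, h2, ?_, fun c' h5 h6 => ?_⟩
      · rw [← not_le, ← horB, h3]
        simp
      · rcases h4 c' h5 with h7 | h7
        · rw [h6] at h7
          exact absurd h7 (by simp)
        · exact h7
    · rintro ⟨h1, h2, h3, h4⟩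
      refine ⟨h1, h2, ?_, fun c' h5 => ?_⟩
      · rw [← not_le, ← horB] at h3
        simpa using h3
      · by_cases h6 : con n r c' = true
        · exact Or.inr (h4 c' h5 h6)
        · exact Or.inl (by simpa using h6)
  have hcsF : cs ∈ F := by
    rw [hmemF]
    refine ⟨hcs1, hcs2, hcs3, fun c' h5 h6 => ?_⟩
    rw [hver cs hcs1 hcs2 hcs3, lv_line]
    have h7 := hx₀ c' h5 h6
    by_cases h8 : 0 ≤ lv n W c' u
    · have := mul_nonneg g2 h8
      linarith
    · push Not at h8
      by_cases h9 : lv n W c' xB < W c' n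
      · have h10 := hmin c' ((hVV c').2 ⟨h5, h6, h9⟩)
        obtain ⟨-, -, -, h11⟩ := hvio c' h5 h6 h9
        have h12 := mul_le_mul_of_nonpos_right h10 h8.le
        linarith
      · push Not at h9
        rw [hlB] at h9
        have h12 := mul_le_mul_of_nonpos_right g3.le h8.le
        linarith
  obtain ⟨c, t, hct⟩ : ∃ c t, F = c :: t := by
    cases hF' : F with
    | nil => rw [hF'] at hcsF; simp at hcsF
    | cons c t => exact ⟨c, t, rfl⟩
  rw [hct, List.head?_cons, Option.elim_some]
  obtain ⟨hc, hcc, hcv, hco⟩ := (hmemF c).1 (by rw [hct]; exact List.mem_cons_self)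
  obtain ⟨k1, k2, k3, k4⟩ := hvio c hc hcc hcv
  set x1 : Fin n → ℝ := fun i => x₀ i + θ c * u i with hx1
  have hx1F : Fea m n W r x1 := fun c' h5 h6 => (hver c hc hcc hcv c').1 (hco c' h5 h6)
  have hx1c : lv n W c x1 = W c n := by rw [hx1, lv_line, k4]
  have hx1B : ∀ k, k + 1 < n → lv n W (B.getD k 0) x1 = W (B.getD k 0) n := by
    intro k hk
    rw [hx1, lv_line, hxe k hk, hu k hk]
    ring
  have hx1r : lv n W r x1 < W r n := by
    rw [hx1, lv_line, hu1]
    linarith
  -- the position of `c`
  have hpos1 : ∀ k, k + 1 < n → c / 3 ≠ B.getD k 0 / 3 := by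
    intro k hk he
    have h1 := lv_prop hs hc (hBm k (by omega)) he u
    rw [hu k hk, mul_zero] at h1
    rcases mul_eq_zero.1 h1 with h2 | h2
    · exact hs.nz _ (hBm k (by omega)) h2
    · exact k1.ne h2
  have hpos2 : c / 3 ≠ r / 3 := by
    intro he
    have h1 := lv_prop hs hc hr he u
    rw [hu1, mul_one] at h1
    have h2 := lv_prop hs hc hr he z
    have h4 := lv_prop hs hc hr he xB
    have h5 : lv n W r xB = W r n := by
      have := hxB (n - 1) (by omega)
      rwa [hl] at this
    have h6 := hz c hc hcc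
    -- κ c = κ r * lv c u
    rw [← h1] at h2 h4
    have h7 : κ r ≠ 0 := hs.nz r hr
    have h8 : lv n W c z = lv n W c u * lv n W r z := by
      have : κ r * lv n W c z = κ r * (lv n W c u * lv n W r z) := by rw [h2]; ring
      exact mul_left_cancel₀ h7 this
    have h9 : lv n W c xB = lv n W c u * lv n W r xB := by
      have : κ r * lv n W c xB = κ r * (lv n W c u * lv n W r xB) := by rw [h4]; ring
      exact mul_left_cancel₀ h7 this
    rw [h5] at h9
    have h10 := mul_le_mul_of_nonpos_left hzr k1.le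
    linarith
  have hposr : c / 3 < r / 3 := by
    have h1 : c / 3 ≤ r / 3 := by
      unfold con at hcc
      rw [Bool.or_eq_true] at hcc
      rcases hcc with h1 | h1
      · have := of_decide_eq_true h1
        omega
      · rw [Bool.and_eq_true] at h1
        have := of_decide_eq_true h1.1
        omega
    omega
  set k := (B.dropLast.filter fun a => decide (a / 3 < c / 3)).length with hk
  have hkn : k ≤ n - 1 := by
    rw [hk]
    refine (pv_count_le _ _).trans ?_
    rw [List.length_dropLast, hlen]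
  have hcount : ∀ j, j + 1 < n → (B.getD j 0 / 3 < c / 3 ↔ j < k) := by
    intro j hj
    have h1 := pv_count B.dropLast (c / 3) (fun i j hij hj hp => by
      rw [List.length_dropLast] at hj
      rw [pv_getD_dropLast B i (by omega)]
      rw [pv_getD_dropLast B j (by omega)] at hp
      exact (alt_mono hA hij (by omega)).trans hp) j (by rw [List.length_dropLast]; omega)
    rwa [pv_getD_dropLast B j (by omega)] at h1
  have hgap := hG m n W v κ ε Ω hs B u c k hA hu hu1' hc (by omega)
    (fun j hj => (hcount j (by omega)).2 hj) (fun j hj hj2 => by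
      have h1 : ¬ B.getD j 0 / 3 < c / 3 := fun h2 => by
        have := (hcount j hj2).1 h2
        omega
      have h2 := hpos1 j hj2
      omega)
  rw [hl] at hgap
  have hsgn : (-1) ^ (n - 1 - k) * (κ c * κ r) < 0 := by
    by_contra h1
    push Not at h1
    have := mul_nonpos_of_nonneg_of_nonpos h1 k1.le
    linarith
  have hκr : κ r ≠ 0 := hs.nz r hr
  -- the sign of `κ c`
  have hsg : ∀ j d : ℕ, j + d = n - 1 → (0 < κ c * κ (B.getD j 0) ↔
      0 < (-1) ^ d * (κ c * κ r)) ∧ (κ c * κ (B.getD j 0) < 0 ↔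
      (-1) ^ d * (κ c * κ r) < 0) := by
    intro j d hjd
    have h1 := alt_sign hs hA d (by omega)
    have h2 : n - 1 - d = j := by omega
    rw [h2, hl] at h1
    have h5 : (κ c * κ (B.getD j 0)) * ((-1) ^ d * (κ (B.getD j 0) * κ r)) =
        ((-1) ^ d * (κ c * κ r)) * (κ (B.getD j 0) * κ (B.getD j 0)) := by ring
    have h6 : 0 < κ (B.getD j 0) * κ (B.getD j 0) :=
      mul_self_pos.2 (hs.nz _ (hBm j (by omega)))
    constructor
    · rw [← mul_pos_iff_of_pos_right h1, h5, mul_pos_iff_of_pos_right h6]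
    · rw [← pv_neg_iff h1, h5, pv_neg_iff h6]
  -- `k ≥ 1`
  have hk1 : 1 ≤ k := by
    by_contra hk0
    have hk0' : k = 0 := by omega
    rw [hk0', Nat.sub_zero] at hsgn
    have hjpos : ∀ j, j + 1 < n → c / 3 < B.getD j 0 / 3 := by
      intro j hj
      have h1 : ¬ B.getD j 0 / 3 < c / 3 := fun h2 => by
        have := (hcount j hj).1 h2
        omega
      have := hpos1 j hj
      omega
    set C : List ℕ := c :: B.dropLast with hC'
    have hCd : ∀ j, j + 1 < n → C.getD (j + 1) 0 = B.getD j 0 := by
      intro j hj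
      rw [hC', List.getD_cons_succ, pv_getD_dropLast B j (by omega)]
    have hC0 : C.getD 0 0 = c := rfl
    have hCA : Alt m n κ C := by
      refine ⟨⟨?_, ?_⟩, ?_⟩
      · rw [hC', List.length_cons, List.length_dropLast]
        omega
      · intro a ha
        rw [hC', List.mem_cons] at ha
        rcases ha with rfl | ha
        · exact hc
        · exact hA.1.2 a (List.mem_of_mem_dropLast ha)
      · intro j hj
        rw [hCd j hj]
        cases j with
        | zero =>
          rw [hC0]
          exact ⟨hjpos 0 hj, ((hsg 0 (n - 1) (by omega)).2).2 hsgn⟩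
        | succ j =>
          rw [hCd j (by omega)]
          exact hA.2 j (by omega)
    have hCx : Vx n W C x1 := by
      intro j hj
      cases j with
      | zero => rw [hC0]; exact hx1c
      | succ j => rw [hCd j hj]; exact hx1B j hj
    have hCz : ∀ j < n, W (C.getD j 0) n ≤ lv n W (C.getD j 0) z := by
      intro j hj
      cases j with
      | zero => rw [hC0]; exact hz c hc hcc
      | succ j =>
        rw [hCd j hj]
        exact hz _ (hBm j (by omega)) (hcon j hj)
    have hlast : C.getD (n - 1) 0 / 3 ≤ r / 3 ∧ κ (C.getD (n - 1) 0) * κ r < 0 := by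
      by_cases hn1 : n = 1
      · have h1 : n - 1 = 0 := by omega
        rw [h1, hC0]
        rw [h1, pow_zero, one_mul] at hsgn
        exact ⟨hposr.le, hsgn⟩
      · obtain ⟨q, rfl⟩ : ∃ q, n = q + 2 := ⟨n - 2, by omega⟩
        have h1 : q + 2 - 1 = q + 1 := by omega
        rw [h1, hCd q (by omega)]
        have h2 := hA.2 q (by omega)
        have h4 : B.getD (q + 1) 0 = r := hl
        rw [h4] at h2
        exact ⟨h2.1.le, h2.2⟩
    have h1 := (hO m n W v κ ε Ω hs C x1 z r hCA hCx hCz hr hlast.1).2 hlast.2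
    linarith
  -- the new basis
  have hk2 : k - 1 < B.length := by omega
  have hget : ∀ j, (B.set (k - 1) c).getD j 0 = if j = k - 1 then c else B.getD j 0 :=
    fun j => pv_getD_set B (k - 1) c j hk2
  have hcp : 0 < κ c * κ (B.getD (k - 1) 0) := by
    rw [(hsg (k - 1) (n - 1 - k + 1) (by omega)).1, pow_succ]
    linarith
  refine ⟨⟨⟨⟨?_, ?_⟩, ?_⟩, ?_, ?_, x1, hx1F, ?_, hx1r.le⟩, Or.inr ?_⟩
  · rw [List.length_set, hlen]
  · intro a ha
    rcases List.mem_or_eq_of_mem_set ha with h1 | h1
    · exact hA.1.2 a h1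
    · rw [h1]; exact hc
  · intro j hj
    rw [hget, hget]
    have hold := hA.2 j hj
    by_cases h1 : j = k - 1
    · have h2 : j + 1 ≠ k - 1 := by omega
      rw [if_pos h1, if_neg h2]
      rw [← h1] at hcp
      refine ⟨?_, ?_⟩
      · by_cases h4 : j + 2 < n
        · have h5 : ¬ B.getD (j + 1) 0 / 3 < c / 3 := fun h6 => by
            have := (hcount (j + 1) (by omega)).1 h6
            omega
          have := hpos1 (j + 1) (by omega)
          omega
        · have h5 : j + 1 = n - 1 := by omega
          rw [h5, hl]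
          exact hposr
      · have h5 : (κ c * κ (B.getD j 0)) * (κ (B.getD j 0) * κ (B.getD (j + 1) 0)) < 0 :=
          mul_neg_of_pos_of_neg hcp hold.2
        have h6 : (κ c * κ (B.getD j 0)) * (κ (B.getD j 0) * κ (B.getD (j + 1) 0)) =
            (κ c * κ (B.getD (j + 1) 0)) * (κ (B.getD j 0) * κ (B.getD j 0)) := by ring
        rw [h6] at h5
        exact (pv_neg_iff (mul_self_pos.2 (hs.nz _ (hBm j (by omega))))).1 h5
    · by_cases h2 : j + 1 = k - 1
      · rw [if_neg h1, if_pos h2]
        rw [← h2] at hcp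
        refine ⟨?_, ?_⟩
        · exact (hcount j (by omega)).2 (by omega)
        · have h5 : (κ (B.getD j 0) * κ (B.getD (j + 1) 0)) * (κ c * κ (B.getD (j + 1) 0)) < 0 :=
            mul_neg_of_neg_of_pos hold.2 hcp
          have h6 : (κ (B.getD j 0) * κ (B.getD (j + 1) 0)) * (κ c * κ (B.getD (j + 1) 0)) =
              (κ (B.getD j 0) * κ c) * (κ (B.getD (j + 1) 0) * κ (B.getD (j + 1) 0)) := by ring
          rw [h6] at h5
          exact (pv_neg_iff (mul_self_pos.2 (hs.nz _ (hBm (j + 1) (by omega))))).1 h5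
      · rw [if_neg h1, if_neg h2]
        exact hold
  · rw [hget, if_neg (by omega), hl]
  · intro j hj
    rw [hget]
    split_ifs with h1
    · exact hcc
    · exact hcon j hj
  · intro j hj
    rw [hget]
    split_ifs with h1
    · exact hx1c
    · exact hx1B j hj
  · have h1 := pv_psm_set B (k - 1) c hk2
    have h2 : B.getD (k - 1) 0 / 3 < c / 3 := (hcount (k - 1) (by omega)).2 (by omega)
    omega

end Pool.Agent.Y648.TP
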