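import Pool.Agent.Y648.TP.StmM

set_option autoImplicit false

/-!
# Lists of bases and constraints: the queries
-/

namespace Pool.Agent.Y648.TP

open Pool.Agent.NPC Pool.Agent.H558R2 Pool.Agent.H622R3.SM Pool.Agent.W920.FC Pool.Agent.Y648.CS

namespace TPRQ

theorem QB_mono {a b : ℕ} (h : a ≤ b) {v : ℝ} (hv : QB a v) : QB b v := by
  obtain ⟨E, z, h1, h2, h3, h4⟩ := hv
  have := Nat.pow_le_pow_right (show 0 < 2 by norm_num) h
  exact ⟨E, z, h1, h2.trans this, h3.trans this, h4⟩

theorem hv_mono {g : Reg → ℝ} {G G' : ℝ → Prop} (h : ∀ v, G v → G' v) {q : Qry} {v : ℝ}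
    (hv : HasVal g G q v) : HasVal g G' q v := by
  obtain ⟨h1, V, h2, h3, h4, h5⟩ := hv
  exact ⟨h1, V, h2, fun I hI => ⟨(h3 I hI).1, (h3 I hI).2.1, h _ (h3 I hI).2.2⟩, h4, h5⟩

/-- The elements of a concatenation of blocks of constant length. -/
theorem getD_flatMap {α β : Type} (ps : List α) (f : α → List β) (N : ℕ)
    (hN : ∀ x ∈ ps, (f x).length = N) (d : β) (a : α) :
    ∀ i < ps.length, ∀ k < N, (ps.flatMap f).getD (i * N + k) d = (f (ps.getD i a)).getD k d := by
  induction ps with
  | nil => intro i hi; simp at hi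
  | cons x xs ih =>
    intro i hi k hk
    have hx : (f x).length = N := hN x (by simp)
    rw [List.flatMap_cons]
    cases i with
    | zero =>
      rw [Nat.zero_mul, Nat.zero_add, List.getD_append _ _ _ _ (by omega), List.getD_cons_zero]
    | succ i =>
      have e : (i + 1) * N + k = N + (i * N + k) := by ring
      rw [e, List.getD_append_right _ _ _ _ (by rw [hx]; omega), List.getD_cons_succ, hx,
        Nat.add_sub_cancel_left]
      exact ih (fun y hy => hN y (by simp [hy])) i (by simpa using hi) k hk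

theorem forall2_flatMap {α β γ : Type} {R : β → γ → Prop} (ps : List α) (f : α → List β)
    (g : α → List γ) (h : ∀ x ∈ ps, List.Forall₂ R (f x) (g x)) :
    List.Forall₂ R (ps.flatMap f) (ps.flatMap g) := by
  induction ps with
  | nil => exact List.Forall₂.nil
  | cons x xs ih =>
    rw [List.flatMap_cons, List.flatMap_cons]
    exact List.rel_append (h x (by simp)) (ih fun y hy => h y (by simp [hy]))

theorem sum_flatMap_le {α β : Type} (ps : List α) (f : α → List β) (w : β → ℕ) (N c : ℕ)
    (hN : ∀ x ∈ ps, (f x).length = N) (hc : ∀ x ∈ ps, ∀ y ∈ f x, w y ≤ c) :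
    ((ps.flatMap f).map w).sum ≤ ps.length * (N * c) := by
  induction ps with
  | nil => simp
  | cons x xs ih =>
    rw [List.flatMap_cons, List.map_append, List.sum_append, List.length_cons, Nat.succ_mul]
    have h1 : ((f x).map w).sum ≤ N * c := by
      have h := List.sum_le_card_nsmul ((f x).map w) c (by
        intro y hy
        obtain ⟨z, hz, rfl⟩ := List.mem_map.1 hy
        exact hc x (by simp) z hz)
      rw [List.length_map, hN x (by simp), smul_eq_mul] at h
      exact h
    have h2 := ih (fun y hy => hN y (by simp [hy])) fun y hy => hc y (by simp [hy])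
    omega

theorem signOut_false {v : ℝ} : signOut v = some false ↔ v < 0 := by
  unfold signOut
  split_ifs with h1 h2
  · simp; linarith
  · simp [h2]
  · simp; linarith

theorem signOut_none {v : ℝ} : signOut v = none ↔ v = 0 := by
  unfold signOut
  split_ifs with h1 h2
  · simp; linarith
  · simp; linarith
  · simp; linarith

theorem bl_iff {p : Prop} : bl p = true ↔ p := by
  unfold bl
  exact @decide_eq_true_iff p (Classical.propDecidable p)

/-- The meaning of the outcomes. -/
theorem satO_eq (D : ℕ) (o : List Outcome) (i : ℕ) (f : ℕ → ℝ)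
    (h : ∀ k ≤ D, o.getD (i * (D + 1) + k) none = signOut (dif f k 0)) :
    satO D o i = bl (Sy D f) := by
  rw [Bool.eq_iff_iff, bl_iff]
  unfold satO Sy
  simp only [List.all_eq_true, List.any_eq_true, List.mem_range, Bool.or_eq_true,
    Bool.not_eq_true', decide_eq_false_iff_not, Bool.and_eq_true, decide_eq_true_eq]
  constructor
  · intro h1 k hk hneg
    rcases h1 k (by omega) with h2 | ⟨k', hk', h3, h4⟩
    · rw [h k hk, signOut_false] at h2
      exact absurd hneg h2
    · rw [h k' (by omega), signOut_none] at h4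
      exact ⟨k', h3, by omega, h4⟩
  · intro h1 k hk
    by_cases hneg : dif f k 0 < 0
    · obtain ⟨k', h2, h3, h4⟩ := h1 k (by omega) hneg
      refine Or.inr ⟨k', by omega, h2, ?_⟩
      rw [h k' h3, signOut_none]
      exact h4
    · refine Or.inl ?_
      rw [h k (by omega), signOut_false]
      exact hneg

end TPRQ

open TPRQ in
/-- The queries for a list of bases and constraints. -/
theorem t_PRQ : S_DFZ → S_PRQ := by
  rintro ⟨q0, h0⟩
  refine ⟨q0 + ((2 * Polynomial.X + 1) * (6 * Polynomial.X + 1) + 1) * (q0 + 1), ?_⟩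
  intro S m n J s g ps hg hm hn hS hps
  have hev : ∀ t : ℕ, (q0 + ((2 * Polynomial.X + 1) * (6 * Polynomial.X + 1) + 1) * (q0 + 1) :
      Polynomial ℕ).eval t = q0.eval t + ((2 * t + 1) * (6 * t + 1) + 1) * (q0.eval t + 1) := by
    intro t
    simp
  have hDG : DG m n + 1 ≤ (2 * S + 1) * (6 * S + 1) + 1 := by
    unfold DG
    have h1 : 2 * n + 1 ≤ 2 * S + 1 := by omega
    have h2 : 6 * m + 1 ≤ 6 * S + 1 := by omega
    have := Nat.mul_le_mul h1 h2
    omega
  have hGd : ∀ v, Gd q0 S g v → Gd (q0 + ((2 * Polynomial.X + 1) * (6 * Polynomial.X + 1) + 1) *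
      (q0 + 1)) S g v := by
    intro v hv lam hlam
    refine QB_mono ?_ (hv lam hlam)
    rw [hev]
    omega
  have key : ∀ x ∈ ps, ∀ k ∈ List.range (DG m n + 1),
      HasVal g (Gd q0 S g) (dfZ m n J s x.1 x.2 k)
        (dif (fun z => Nv n (PmR m n J s g z) x.1 x.2) k 0) ∧
      (dfZ m n J s x.1 x.2 k).1.length ≤ q0.eval S := by
    intro x hx k hk
    rw [List.mem_range] at hk
    exact h0 S m n J s g x.1 x.2 k hg hm hn hS (hps x hx).1 (hps x hx).2 (by omega)
  refine ⟨ps.flatMap fun x => (List.range (DG m n + 1)).map fun k =>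
    dif (fun z => Nv n (PmR m n J s g z) x.1 x.2) k 0, ?_, ?_, ?_⟩
  · refine forall2_flatMap ps _ _ fun x hx => ?_
    rw [List.forall₂_map_left_iff, List.forall₂_map_right_iff, List.forall₂_same]
    intro k hk
    exact hv_mono hGd (key x hx k hk).1
  · have h1 := sum_flatMap_le ps (fun x => (List.range (DG m n + 1)).map fun k =>
      dfZ m n J s x.1 x.2 k) (fun q => q.1.length + 1) (DG m n + 1) (q0.eval S + 1)
      (fun x _ => by simp) (by
        intro x hx y hy
        obtain ⟨k, hk, rfl⟩ := List.mem_map.1 hy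
        exact Nat.succ_le_succ (key x hx k hk).2)
    refine h1.trans (Nat.mul_le_mul_left _ ?_)
    rw [hev]
    have := Nat.mul_le_mul_right (q0.eval S + 1) hDG
    omega
  · intro i hi
    unfold Sym
    refine satO_eq _ _ _ _ ?_
    intro k hk
    rw [List.map_flatMap, getD_flatMap ps _ (DG m n + 1) (fun x _ => by simp) none ([], 0) i hi k
      (by omega)]
    rw [List.map_map, List.getD_eq_getElem _ _ (by simpa using (by omega : k < DG m n + 1))]
    simp

end Pool.Agent.Y648.TP
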