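import Pool.Agent.Y648.TP.T_PTF
import Pool.Agent.W920.FC.T_OUT
import Pool.Agent.W920.FC.T_PT
import Pool.Agent.W920.FC.T_PTITER

set_option autoImplicit false

/-!
# Totally nonnegative column spaces: the computation in polynomial time
-/

namespace Pool.Agent.Y648.TP

open Pool.Agent.NPC Pool.Agent.H558R2 Pool.Agent.H622R3.SM Pool.Agent.W920.FC Pool.Agent.Y648.CS

namespace TPTC

open TQQ TQD TPTA TPTQ TPTF Pool.Agent.W920.FD.TQ4

variable {α β : Type} [TEnc α] [TEnc β]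

theorem sz_num {x N : ℕ} (h : x ≤ N) : sz x ≤ 4 * N + 1 := by
  have h2 := sz_nat_le x
  have h3 := NPC.Poly.size_le_self x
  omega

/-! ### The basis -/

/-- A step for the basis. -/
def bsF (m n : ℕ) (s : ℕ × List ℕ) : TT (ℕ × List ℕ) :=
  bnd (batch (bsQs m n s)) fun o => ret (bsU m s o)

theorem bsT_eq (m n : ℕ) : bsT m n = iter (bsF m n) n (0, (List.range n).map fun k => m + k) := rfl

theorem out_bs (hO : S_OUT) {m n : ℕ} : ∀ (i : ℕ) (s : ℕ × List ℕ),
    Out (iter (bsF m n) i (0, (List.range n).map fun k => m + k)) s →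
      s.1 = i ∧ s.2.length = n ∧ ∀ x ∈ s.2, x ≤ m + n := by
  intro i
  induction i with
  | zero =>
    intro s h
    have := hO.1 _ _ _ h
    subst this
    refine ⟨rfl, by simp, fun x hx => ?_⟩
    simp only [List.mem_map, List.mem_range] at hx
    obtain ⟨k, hk, rfl⟩ := hx
    omega
  | succ i ih =>
    intro s h
    obtain ⟨b, hb, hc⟩ := hO.2.2.1 _ _ _ _ _ h
    obtain ⟨h1, h2, h3⟩ := ih b hb
    unfold bsF at hc
    obtain ⟨o, -, hc⟩ := hO.2.1 _ _ _ _ _ hc
    have := hO.1 _ _ _ hc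
    subst this
    unfold bsU
    cases hh : ((List.range m).filter fun c => decide (o.getD c none ≠ none)).head? with
    | none => exact ⟨by simp [h1], h2, h3⟩
    | some c =>
      have h5 := List.mem_of_mem_head? (Option.mem_def.2 hh)
      have h6 := List.mem_range.1 (List.mem_filter.1 h5).1
      refine ⟨by simp [h1], by simp [h2], fun x hx => ?_⟩
      simp only [Option.elim_some] at hx
      rcases List.mem_or_eq_of_mem_set hx with hx | hx
      · exact h3 x hx
      · omega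

theorem shr_bsF (hO : S_OUT) (m n : ℕ) (s : ℕ × List ℕ) : Shr (bsF m n s) :=
  hO.2.2.2.2.1 _ _ _ _ (hO.2.2.2.2.2.1 _) fun _ => hO.2.2.2.1 _ _

theorem pt_bsT (hO : S_OUT) (hP : S_PT) (hI : S_PTITER) {m n : α → ℕ} (hm : UPoly m)
    (hn : UPoly n) : PT (fun a => bsT (m a) (n a)) := by
  simp only [bsT_eq]
  have hs : Poly (fun a => ((0, (List.range (n a)).map fun k => m a + k) : ℕ × List ℕ)) := by
    refine NPC.Poly.pair (NPC.Poly.const 0) (NPC.Poly.map (F := fun a k => m a + k) hn.range ?_)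
    exact NPC.Poly.add (hm.toPoly.comp (NPC.Poly.fst NPC.Poly.id)) (NPC.Poly.snd NPC.Poly.id)
  refine hI α (ℕ × List ℕ) (fun a s => bsF (m a) (n a) s) n
    (fun a => (0, (List.range (n a)).map fun k => m a + k)) ?_ hn hs
    (fun a s => shr_bsF hO _ _ _) ?_
  · unfold bsF
    refine hP.2.1 (α × (ℕ × List ℕ)) (List Outcome) (ℕ × List ℕ)
      (fun q => batch (bsQs (m q.1) (n q.1) q.2)) (fun q o => ret (bsU (m q.1) q.2 o)) ?_ ?_
    · have b : Poly (fun q : α × (ℕ × List ℕ) => q.1) := NPC.Poly.fst NPC.Poly.id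
      exact hP.2.2 _ _ (pbsQs (UPoly.comp (n := m) hm b) (UPoly.comp (n := n) hn b)
        (NPC.Poly.snd NPC.Poly.id))
    · have b : Poly (fun q : (α × (ℕ × List ℕ)) × List Outcome => q.1.1) :=
        NPC.Poly.fst (NPC.Poly.fst NPC.Poly.id)
      exact hP.1 _ _ _ (pbsU (UPoly.comp (n := m) hm b) (NPC.Poly.snd (NPC.Poly.fst NPC.Poly.id))
        (NPC.Poly.snd NPC.Poly.id))
  · obtain ⟨q, hq⟩ := upoly_bound (n := fun a =>
      (4 * n a + 1) + (n a * (4 * (m a + n a) + 2) + 1) + 1)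
      (UPoly.add (UPoly.add (UPoly.add (UPoly.mul (UPoly.const 4) hn) (UPoly.const 1))
        (UPoly.add (UPoly.mul hn (UPoly.add (UPoly.mul (UPoly.const 4) (UPoly.add hm hn))
          (UPoly.const 2))) (UPoly.const 1))) (UPoly.const 1))
    refine ⟨q, fun a i s hi hs => le_trans ?_ (hq a)⟩
    obtain ⟨h1, h2, h3⟩ := out_bs hO i s hs
    have h4 := sz_le_length_mul s.2 (4 * (m a + n a) + 1) (fun x hx => sz_num (h3 x hx))
    have h5 : sz s.1 ≤ 4 * n a + 1 := sz_num (by omega)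
    rw [h2] at h4
    have e : sz s = sz s.1 + sz s.2 + 1 := sz_pair s.1 s.2
    rw [e]
    have e2 : 4 * (m a + n a) + 1 + 1 = 4 * (m a + n a) + 2 := rfl
    rw [e2] at h4
    omega

/-! ### Pivots -/

/-- Bounds for a list. -/
def LB (K Z : ℕ) (B : List ℕ) : Prop := B.length ≤ K ∧ ∀ x ∈ B, sz x ≤ Z

theorem lb_sz {K Z : ℕ} {B : List ℕ} (h : LB K Z B) : sz B ≤ K * (Z + 1) + 1 :=
  (sz_le_length_mul B Z h.2).trans (Nat.add_le_add_right (Nat.mul_le_mul_right _ h.1) 1)

theorem lb_mono {K Z K' Z' : ℕ} {B : List ℕ} (h : LB K Z B) (h1 : K ≤ K') (h2 : Z ≤ Z') :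
    LB K' Z' B := ⟨h.1.trans h1, fun x hx => (h.2 x hx).trans h2⟩

theorem lb_any (B : List ℕ) : LB (sz B) (sz B) B :=
  ⟨(length_lt_sz B).le, fun _ hx => (sz_le_of_mem hx).le⟩

theorem lb_set {K Z : ℕ} {B : List ℕ} (h : LB K Z B) (k c : ℕ) (hc : sz c ≤ Z) :
    LB K Z (B.set k c) := by
  refine ⟨by rw [List.length_set]; exact h.1, fun x hx => ?_⟩
  rcases List.mem_or_eq_of_mem_set hx with hx | hx
  · exact h.2 x hx
  · rw [hx]; exact hc

theorem lb_last {K Z : ℕ} {B : List ℕ} (h : LB K Z B) (hK : 1 ≤ K) (c : ℕ) (hc : sz c ≤ Z) :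
    LB K Z (B.dropLast ++ [c]) := by
  refine ⟨?_, fun x hx => ?_⟩
  · have := h.1
    simp only [List.length_append, List.length_dropLast, List.length_singleton]
    omega
  · rcases List.mem_append.1 hx with hx | hx
    · exact h.2 x (List.mem_of_mem_dropLast hx)
    · rw [List.mem_singleton.1 hx]; exact hc

theorem lb_pupd {m n r K Z : ℕ} {B : List ℕ} {f₁ : ℕ → Bool} {f₂ : ℕ → ℕ → Bool}
    (h : LB K Z B) (hZ : 4 * (3 * m) + 1 ≤ Z) : LB K Z (pupd m n r B f₁ f₂) := by
  unfold pupd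
  split_ifs
  · exact h
  · cases hh : ((List.range (3 * m)).filter fun c => con n r c && (!(f₁ c) &&
      (List.range (3 * m)).all fun c' => !(con n r c') || f₂ c c')).head? with
    | none => exact h
    | some c =>
      have h5 := List.mem_of_mem_head? (Option.mem_def.2 hh)
      have h6 := List.mem_range.1 (List.mem_filter.1 h5).1
      exact lb_set h _ _ ((sz_num h6.le).trans hZ)

theorem out_pst (hO : S_OUT) {m n r K Z : ℕ} {J : List ℕ} {s : List Bool} {B c : List ℕ}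
    (h : LB K Z B) (hZ : 4 * (3 * m) + 1 ≤ Z) (hc : Out (pst m n J s r B) c) : LB K Z c := by
  unfold pst at hc
  obtain ⟨o, -, hc⟩ := hO.2.1 _ _ _ _ _ hc
  rw [hO.1 _ _ _ hc]
  exact lb_pupd h hZ

theorem out_psts (hO : S_OUT) {m n r K Z : ℕ} {J : List ℕ} {s : List Bool} {B : List ℕ}
    (h : LB K Z B) (hZ : 4 * (3 * m) + 1 ≤ Z) : ∀ (i : ℕ) (c : List ℕ),
    Out (iter (pst m n J s r) i B) c → LB K Z c := by
  intro i
  induction i with
  | zero =>
    intro c hc
    rw [hO.1 _ _ _ hc]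
    exact h
  | succ i ih =>
    intro c hc
    obtain ⟨b, hb, hc⟩ := hO.2.2.1 _ _ _ _ _ hc
    exact out_pst hO (ih b hb) hZ hc

theorem out_fixB (hO : S_OUT) {m n r K Z : ℕ} {J : List ℕ} {s : List Bool} {B c : List ℕ}
    (h : LB K Z B) (hK : 1 ≤ K) (hZ : 4 * (3 * m) + 1 ≤ Z) (hr : sz r ≤ Z)
    (hc : Out (fixB m n J s r B) c) : LB K Z c := by
  unfold fixB at hc
  split_ifs at hc with h1
  · rw [hO.1 _ _ _ hc]
    exact lb_set h _ _ hr
  · exact out_psts hO (lb_last h hK r hr) hZ _ _ hc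

theorem shr_pst (hO : S_OUT) (m n r : ℕ) (J : List ℕ) (s : List Bool) (B : List ℕ) :
    Shr (pst m n J s r B) :=
  hO.2.2.2.2.1 _ _ _ _ (hO.2.2.2.2.2.1 _) fun _ => hO.2.2.2.1 _ _

theorem shr_fixB (hO : S_OUT) (m n r : ℕ) (J : List ℕ) (s : List Bool) (B : List ℕ) :
    Shr (fixB m n J s r B) := by
  unfold fixB
  split_ifs
  · exact hO.2.2.2.1 _ _
  · exact hO.2.2.2.2.2.2 _ _ _ _ fun t => shr_pst hO _ _ _ _ _ _

theorem pt_pst (hP : S_PT) {m n r : α → ℕ} {J B : α → List ℕ} {s : α → List Bool}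
    (hm : UPoly m) (hn : UPoly n) (hJ : Poly J) (hs : Poly s) (hr : Poly r) (hB : Poly B) :
    PT (fun a => pst (m a) (n a) (J a) (s a) (r a) (B a)) := by
  unfold pst
  refine hP.2.1 α (List Outcome) (List ℕ)
    (fun a => batch (prQs (m a) (n a) (J a) (s a) (prs (m a) (B a))))
    (fun a o => ret (pupd (m a) (n a) (r a) (B a) (fun c => satO (DG (m a) (n a)) o c)
      fun c c' => satO (DG (m a) (n a)) o (3 * m a + (c * (3 * m a) + c'))))
    (hP.2.2 _ _ (pprQs hm hn hJ hs (pprs hm hB))) (hP.1 _ _ _ ?_)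
  have b : Poly (fun q : α × List Outcome => q.1) := NPC.Poly.fst NPC.Poly.id
  have b2 : Poly (fun q : α × List Outcome => q.2) := NPC.Poly.snd NPC.Poly.id
  have hD := uDG hm hn
  refine ppupd (α := α × List Outcome) (m := fun q => m q.1) (n := fun q => n q.1)
    (r := fun q => r q.1) (B := fun q => B q.1) (f₁ := fun q c => satO (DG (m q.1) (n q.1)) q.2 c)
    (f₂ := fun q c c' => satO (DG (m q.1) (n q.1)) q.2 (3 * m q.1 + (c * (3 * m q.1) + c')))
    (UPoly.comp (n := m) hm b) (hn.toPoly.comp b) (hr.comp b) (hB.comp b) ?_ ?_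
  · have c : Poly (fun q : (α × List Outcome) × ℕ => q.1.1) :=
      NPC.Poly.fst (NPC.Poly.fst NPC.Poly.id)
    exact psatO (D := fun q : (α × List Outcome) × ℕ => DG (m q.1.1) (n q.1.1))
      (UPoly.comp (n := fun a => DG (m a) (n a)) hD c) (NPC.Poly.snd (NPC.Poly.fst NPC.Poly.id))
      (NPC.Poly.snd NPC.Poly.id)
  · have c : Poly (fun q : ((α × List Outcome) × ℕ) × ℕ => q.1.1.1) :=
      NPC.Poly.fst (NPC.Poly.fst (NPC.Poly.fst NPC.Poly.id))
    have c2 : Poly (fun q : ((α × List Outcome) × ℕ) × ℕ => q.1.1.2) :=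
      NPC.Poly.snd (NPC.Poly.fst (NPC.Poly.fst NPC.Poly.id))
    have c3 : Poly (fun q : ((α × List Outcome) × ℕ) × ℕ => q.1.2) :=
      NPC.Poly.snd (NPC.Poly.fst NPC.Poly.id)
    have c4 : Poly (fun q : ((α × List Outcome) × ℕ) × ℕ => q.2) := NPC.Poly.snd NPC.Poly.id
    have h3 : Poly (fun q : ((α × List Outcome) × ℕ) × ℕ => 3 * m q.1.1.1) :=
      NPC.Poly.mul (NPC.Poly.const 3) (hm.toPoly.comp c)
    exact psatO (D := fun q : ((α × List Outcome) × ℕ) × ℕ => DG (m q.1.1.1) (n q.1.1.1))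
      (UPoly.comp (n := fun a => DG (m a) (n a)) hD c) c2
      (NPC.Poly.add h3 (NPC.Poly.add (NPC.Poly.mul c3 h3) c4))

theorem pt_fixB (hO : S_OUT) (hP : S_PT) (hI : S_PTITER) {m n r : α → ℕ}
    {J B : α → List ℕ} {s : α → List Bool} (hm : UPoly m) (hn : UPoly n) (hJ : Poly J)
    (hs : Poly s) (hr : Poly r) (hB : Poly B) :
    PT (fun a => fixB (m a) (n a) (J a) (s a) (r a) (B a)) := by
  unfold fixB
  have h0 : Poly (fun a => (B a).dropLast ++ [r a]) :=
    NPC.Poly.append (pdropLast hB) (NPC.Poly.cons hr (NPC.Poly.const []))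
  refine pt_ite (c := fun a => r a / 3 < n a) (NPC.Poly.decide_lt
    (NPC.Poly.div hr (NPC.Poly.const 3)) hn.toPoly) (hP.1 _ _ _
      (pset hB (NPC.Poly.div hr (NPC.Poly.const 3)) hr)) ?_
  refine hI α (List ℕ) (fun a x => pst (m a) (n a) (J a) (s a) (r a) x) (fun a => n a * m a)
    (fun a => (B a).dropLast ++ [r a]) ?_ (UPoly.mul hn hm) h0
    (fun a x => shr_pst hO _ _ _ _ _ _) ?_
  · have b : Poly (fun q : α × List ℕ => q.1) := NPC.Poly.fst NPC.Poly.id
    exact pt_pst hP (UPoly.comp (n := m) hm b) (UPoly.comp (n := n) hn b) (hJ.comp b)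
      (hs.comp b) (hr.comp b) (NPC.Poly.snd NPC.Poly.id)
  · obtain ⟨p, hp⟩ := h0.sz_le
    obtain ⟨p3, hp3⟩ := upoly_bound (n := fun a => 4 * (3 * m a) + 1)
      (UPoly.add (UPoly.mul (UPoly.const 4) (UPoly.mul (UPoly.const 3) hm)) (UPoly.const 1))
    refine ⟨p * (p + p3 + 1) + 1, fun a i x hi hx => ?_⟩
    have h1 := lb_mono (lb_any ((B a).dropLast ++ [r a])) (hp a)
      ((hp a).trans (Nat.le_add_right _ (p3.eval (sz a))))
    have h2 := out_psts hO h1 ((hp3 a).trans (Nat.le_add_left _ _)) i x hx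
    have h3 := lb_sz h2
    simpa only [Polynomial.eval_add, Polynomial.eval_mul, Polynomial.eval_one] using h3

/-! ### Adding a constraint -/

theorem shr_rst (hO : S_OUT) (m n : ℕ) (J : List ℕ) (s : List Bool) (t : Pool.Agent.Y648.TP.CS) :
    Shr (rst m n J s t) := by
  unfold rst
  split_ifs
  · exact hO.2.2.2.1 _ _
  · refine hO.2.2.2.2.1 _ _ _ _ (hO.2.2.2.2.2.1 _) fun o => ?_
    split_ifs
    · exact hO.2.2.2.1 _ _
    · exact hO.2.2.2.2.1 _ _ _ _ (shr_fixB hO _ _ _ _ _ _) fun _ => hO.2.2.2.1 _ _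
    · exact hO.2.2.2.2.1 _ _ _ _ (shr_fixB hO _ _ _ _ _ _) fun _ => hO.2.2.2.1 _ _
    · exact hO.2.2.2.1 _ _

/-- Bounds for a state. -/
def SB (i K Z : ℕ) (t : Pool.Agent.Y648.TP.CS) : Prop :=
  t.1 = i ∧ LB K Z t.2.2.1 ∧ LB K Z t.2.2.2

theorem out_rst (hO : S_OUT) {m n i K Z : ℕ} {J : List ℕ} {s : List Bool}
    {t c : Pool.Agent.Y648.TP.CS} (h : SB i K Z t) (hK : 1 ≤ K) (hZ : 4 * (3 * m) + 1 ≤ Z)
    (hi : i ≤ 3 * m) (hc : Out (rst m n J s t) c) : SB (i + 1) K Z c := by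
  obtain ⟨h1, h2, h3⟩ := h
  have hr : sz t.1 ≤ Z := (sz_num (by omega)).trans hZ
  unfold rst at hc
  split_ifs at hc with h0
  · rw [hO.1 _ _ _ hc]
    exact ⟨by simp [h1], h2, h3⟩
  · obtain ⟨o, -, hc⟩ := hO.2.1 _ _ _ _ _ hc
    split_ifs at hc with h4 h5 h6
    · rw [hO.1 _ _ _ hc]
      exact ⟨by simp [h1], h2, h3⟩
    · obtain ⟨B, hB, hc⟩ := hO.2.1 _ _ _ _ _ hc
      rw [hO.1 _ _ _ hc]
      exact ⟨by simp [h1], out_fixB hO h2 hK hZ hr hB, h3⟩
    · obtain ⟨B, hB, hc⟩ := hO.2.1 _ _ _ _ _ hc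
      rw [hO.1 _ _ _ hc]
      exact ⟨by simp [h1], h2, out_fixB hO h3 hK hZ hr hB⟩
    · rw [hO.1 _ _ _ hc]
      exact ⟨by simp [h1], h2, h3⟩

theorem out_rsts (hO : S_OUT) {m n K Z : ℕ} {J : List ℕ} {s : List Bool}
    {t : Pool.Agent.Y648.TP.CS} (h : SB 0 K Z t) (hK : 1 ≤ K) (hZ : 4 * (3 * m) + 1 ≤ Z) :
    ∀ (i : ℕ) (c : Pool.Agent.Y648.TP.CS), i ≤ 3 * m → Out (iter (rst m n J s) i t) c →
      SB i K Z c := by
  intro i
  induction i with
  | zero =>
    intro c _ hc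
    rw [hO.1 _ _ _ hc]
    exact h
  | succ i ih =>
    intro c hi hc
    obtain ⟨b, hb, hc⟩ := hO.2.2.1 _ _ _ _ _ hc
    exact out_rst hO (ih b (by omega) hb) hK hZ (by omega) hc

theorem pt_rst (hO : S_OUT) (hP : S_PT) (hI : S_PTITER) {m n : α → ℕ} {J : α → List ℕ}
    {s : α → List Bool} {t : α → Pool.Agent.Y648.TP.CS} (hm : UPoly m) (hn : UPoly n)
    (hJ : Poly J) (hs : Poly s) (ht : Poly t) :
    PT (fun a => rst (m a) (n a) (J a) (s a) (t a)) := by
  have t1 : Poly (fun a => (t a).1) := NPC.Poly.fst ht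
  have t2 : Poly (fun a => (t a).2) := NPC.Poly.snd ht
  have t21 : Poly (fun a => (t a).2.1) := NPC.Poly.fst t2
  have t22 : Poly (fun a => (t a).2.2) := NPC.Poly.snd t2
  have t221 : Poly (fun a => (t a).2.2.1) := NPC.Poly.fst t22
  have t222 : Poly (fun a => (t a).2.2.2) := NPC.Poly.snd t22
  have b : Poly (fun q : α × List Outcome => q.1) := NPC.Poly.fst NPC.Poly.id
  have b2 : Poly (fun q : α × List Outcome => q.2) := NPC.Poly.snd NPC.Poly.id
  have hD' : UPoly (fun q : α × List Outcome => DG (m q.1) (n q.1)) :=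
    UPoly.comp (n := fun a => DG (m a) (n a)) (uDG hm hn) b
  have g0 : Poly (fun q : α × List Outcome => satO (DG (m q.1) (n q.1)) q.2 0) :=
    psatO hD' b2 (NPC.Poly.const 0)
  have g1 : Poly (fun q : α × List Outcome => satO (DG (m q.1) (n q.1)) q.2 1) :=
    psatO hD' b2 (NPC.Poly.const 1)
  have f0 : Poly (fun q : α × List Outcome => decide (satO (DG (m q.1) (n q.1)) q.2 0 = false)) :=
    NPC.Poly.dec_eq g0 (NPC.Poly.const false)
  have f1 : Poly (fun q : α × List Outcome => decide (satO (DG (m q.1) (n q.1)) q.2 1 = false)) :=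
    NPC.Poly.dec_eq g1 (NPC.Poly.const false)
  have r0 : Poly (fun a => ((t a).1 + 1, (t a).2)) := NPC.Poly.pair (NPC.Poly.succ t1) t2
  have hm' := UPoly.comp (n := m) hm b
  have hn' := UPoly.comp (n := n) hn b
  have u1 := t1.comp b
  have u221 := t221.comp b
  have u222 := t222.comp b
  have v1 : PT (fun q : α × List Outcome => fixB (m q.1) (n q.1) (J q.1) (s q.1) (t q.1).1
      (t q.1).2.2.1) := pt_fixB hO hP hI hm' hn' (hJ.comp b) (hs.comp b) u1 u221
  have v2 : PT (fun q : α × List Outcome => fixB (m q.1) (n q.1) (J q.1) (s q.1) (t q.1).1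
      (t q.1).2.2.2) := pt_fixB hO hP hI hm' hn' (hJ.comp b) (hs.comp b) u1 u222
  have c : Poly (fun q : (α × List Outcome) × List ℕ => q.1.1) :=
    NPC.Poly.fst (NPC.Poly.fst NPC.Poly.id)
  have c2 : Poly (fun q : (α × List Outcome) × List ℕ => q.2) := NPC.Poly.snd NPC.Poly.id
  have w1 : PT (fun q : α × List Outcome => bnd (fixB (m q.1) (n q.1) (J q.1) (s q.1) (t q.1).1
      (t q.1).2.2.1) fun B => ret ((t q.1).1 + 1, (true, (B, (t q.1).2.2.2)))) :=
    hP.2.1 (α × List Outcome) (List ℕ) Pool.Agent.Y648.TP.CS _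
      (fun q B => ret ((t q.1).1 + 1, (true, (B, (t q.1).2.2.2)))) v1
      (hP.1 _ _ _ (NPC.Poly.pair (NPC.Poly.succ (t1.comp c)) (NPC.Poly.pair (NPC.Poly.const true)
        (NPC.Poly.pair c2 (t222.comp c)))))
  have w2 : PT (fun q : α × List Outcome => bnd (fixB (m q.1) (n q.1) (J q.1) (s q.1) (t q.1).1
      (t q.1).2.2.2) fun B => ret ((t q.1).1 + 1, (true, ((t q.1).2.2.1, B)))) :=
    hP.2.1 (α × List Outcome) (List ℕ) Pool.Agent.Y648.TP.CS _
      (fun q B => ret ((t q.1).1 + 1, (true, ((t q.1).2.2.1, B)))) v2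
      (hP.1 _ _ _ (NPC.Poly.pair (NPC.Poly.succ (t1.comp c)) (NPC.Poly.pair (NPC.Poly.const true)
        (NPC.Poly.pair (t221.comp c) c2))))
  unfold rst
  refine pt_ite (c := fun a => (t a).2.1 = false) (NPC.Poly.dec_eq t21 (NPC.Poly.const false))
    (hP.1 _ _ _ r0) ?_
  refine hP.2.1 α (List Outcome) Pool.Agent.Y648.TP.CS
    (fun a => batch (prQs (m a) (n a) (J a) (s a)
      [((t a).2.2.1, (t a).1), ((t a).2.2.2, (t a).1)]))
    (fun a o => if satO (DG (m a) (n a)) o 0 = false ∧ satO (DG (m a) (n a)) o 1 = false then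
        ret ((t a).1 + 1, (false, (t a).2.2))
      else if satO (DG (m a) (n a)) o 0 = false then
        bnd (fixB (m a) (n a) (J a) (s a) (t a).1 (t a).2.2.1) fun B =>
          ret ((t a).1 + 1, (true, (B, (t a).2.2.2)))
      else if satO (DG (m a) (n a)) o 1 = false then
        bnd (fixB (m a) (n a) (J a) (s a) (t a).1 (t a).2.2.2) fun B =>
          ret ((t a).1 + 1, (true, ((t a).2.2.1, B)))
      else ret ((t a).1 + 1, (t a).2)) (hP.2.2 _ _ (pprQs hm hn hJ hs ?_)) ?_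
  · exact NPC.Poly.cons (NPC.Poly.pair t221 t1) (NPC.Poly.cons (NPC.Poly.pair t222 t1)
      (NPC.Poly.const []))
  · refine pt_ite (c := fun q : α × List Outcome => satO (DG (m q.1) (n q.1)) q.2 0 = false ∧
      satO (DG (m q.1) (n q.1)) q.2 1 = false) (NPC.Poly.decide_and f0 f1)
      (hP.1 _ _ _ (NPC.Poly.pair (NPC.Poly.succ u1) (NPC.Poly.pair (NPC.Poly.const false)
        (t22.comp b)))) ?_
    refine pt_ite (c := fun q : α × List Outcome => satO (DG (m q.1) (n q.1)) q.2 0 = false)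
      f0 w1 ?_
    exact pt_ite (c := fun q : α × List Outcome => satO (DG (m q.1) (n q.1)) q.2 1 = false)
      f1 w2 (hP.1 _ _ _ (r0.comp b))

/-! ### The last part -/

theorem lb_ini (n : ℕ) (b : Bool) : LB (n + 1) (4 * (3 * n + 2) + 1) (ini n b) := by
  refine ⟨by simp [ini], fun x hx => sz_num ?_⟩
  unfold ini at hx
  simp only [List.mem_map, List.mem_range] at hx
  obtain ⟨k, hk, rfl⟩ := hx
  split_ifs <;> omega

/-- The second case of the last part. -/
def lastB (m : ℕ) (J : List ℕ) (s : List Bool) : TT Bool :=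
  bnd (iter (rst m J.length J s) (3 * m) (0, (true, (ini J.length false, ini J.length true))))
      fun t => ret t.2.1

theorem pt_lastB (hO : S_OUT) (hP : S_PT) (hI : S_PTITER) {m : α → ℕ} {J : α → List ℕ}
    {s : α → List Bool} (hm : UPoly m) (hJ : Poly J) (hs : Poly s) :
    PT (fun a => lastB (m a) (J a) (s a)) := by
  have hn : UPoly (fun a => (J a).length) := UPoly.length hJ
  have h3 : UPoly (fun a => 3 * m a) := UPoly.mul (UPoly.const 3) hm
  have h0 : Poly (fun a => ((0, (true, (ini (J a).length false, ini (J a).length true))) :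
      Pool.Agent.Y648.TP.CS)) :=
    NPC.Poly.pair (NPC.Poly.const 0) (NPC.Poly.pair (NPC.Poly.const true)
      (NPC.Poly.pair (pini false hn) (pini true hn)))
  unfold lastB
  refine hP.2.1 α Pool.Agent.Y648.TP.CS Bool (fun a => iter (rst (m a) (J a).length (J a) (s a))
    (3 * m a) (0, (true, (ini (J a).length false, ini (J a).length true))))
    (fun _ t => ret t.2.1) ?_ (hP.1 _ _ _
      (NPC.Poly.fst (NPC.Poly.snd (NPC.Poly.snd NPC.Poly.id))))
  refine hI α Pool.Agent.Y648.TP.CS (fun a t => rst (m a) (J a).length (J a) (s a) t)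
    (fun a => 3 * m a) (fun a => (0, (true, (ini (J a).length false, ini (J a).length true))))
    ?_ h3 h0 (fun a t => shr_rst hO _ _ _ _ _) ?_
  · have b : Poly (fun q : α × Pool.Agent.Y648.TP.CS => q.1) := NPC.Poly.fst NPC.Poly.id
    exact pt_rst hO hP hI (UPoly.comp (n := m) hm b)
      (UPoly.comp (n := fun a => (J a).length) hn b) (hJ.comp b) (hs.comp b)
      (NPC.Poly.snd NPC.Poly.id)
  · obtain ⟨p1, hp1⟩ := upoly_bound (n := fun a => (J a).length + 1)
      (UPoly.add hn (UPoly.const 1))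
    obtain ⟨p2, hp2⟩ := upoly_bound (n := fun a => 4 * (3 * (J a).length + 2) + 1)
      (UPoly.add (UPoly.mul (UPoly.const 4) (UPoly.add (UPoly.mul (UPoly.const 3) hn)
        (UPoly.const 2))) (UPoly.const 1))
    obtain ⟨p3, hp3⟩ := upoly_bound (n := fun a => 4 * (3 * m a) + 1)
      (UPoly.add (UPoly.mul (UPoly.const 4) h3) (UPoly.const 1))
    refine ⟨p3 + (3 + (p1 * (p2 + p3 + 1) + 1 + (p1 * (p2 + p3 + 1) + 1) + 1) + 1) + 1,
      fun a i x hi hx => ?_⟩
    have hpa := hp1 a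
    have hpb := hp2 a
    have hpc := hp3 a
    have hb : ∀ b : Bool, LB (p1.eval (sz a)) (p2.eval (sz a) + p3.eval (sz a))
        (ini (J a).length b) := fun b =>
      lb_mono (lb_ini (J a).length b) hpa (hpb.trans (Nat.le_add_right _ _))
    have h1 := out_rsts (m := m a) (n := (J a).length) (J := J a) (s := s a) (t := (0, (true,
      (ini (J a).length false, ini (J a).length true)))) hO ⟨rfl, hb false, hb true⟩
      (le_trans (Nat.le_add_left 1 _) hpa) (hpc.trans (Nat.le_add_left _ _)) i x hi hx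
    obtain ⟨x1, x2, x3, x4⟩ := x
    obtain ⟨e1, e2, e3⟩ := h1
    simp only at e1 e2 e3
    have f1 := lb_sz e2
    have f2 := lb_sz e3
    have f3 : sz x1 ≤ 4 * (3 * m a) + 1 := sz_num (by omega)
    have f4 := sz_bool_le x2
    have e : sz ((x1, (x2, (x3, x4))) : Pool.Agent.Y648.TP.CS) =
        sz x1 + (sz x2 + (sz x3 + sz x4 + 1) + 1) + 1 := by
      rw [sz_pair, sz_pair x2, sz_pair x3]
    rw [e]
    simp only [Polynomial.eval_add, Polynomial.eval_mul, Polynomial.eval_one,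
      Polynomial.eval_ofNat]
    omega

theorem pt_last (hO : S_OUT) (hP : S_PT) (hI : S_PTITER) {m : α → ℕ} {J : α → List ℕ}
    {s : α → List Bool} (hm : UPoly m) (hJ : Poly J) (hs : Poly s) :
    PT (fun a => lastT (m a) (J a) (s a)) := by
  unfold lastT
  refine pt_ite (c := fun a => (J a).length = 0) (NPC.Poly.dec_eq (NPC.Poly.length hJ)
    (NPC.Poly.const 0)) ?_ (pt_lastB hO hP hI hm hJ hs)
  refine hP.2.1 α (List Outcome) Bool
    (fun a => batch ((List.range (m a)).map fun c => (([], [1, c]) : Qry)))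
    (fun a o => ret ((List.range (m a)).all fun c => decide (o.getD c none ≠ some true)))
    (hP.2.2 _ _ (NPC.Poly.map (F := fun _ c => (([], [1, c]) : Qry)) hm.range ?_))
    (hP.1 _ _ _ ?_)
  · exact NPC.Poly.pair (NPC.Poly.const []) (NPC.Poly.cons (NPC.Poly.const 1)
      (NPC.Poly.cons (NPC.Poly.snd NPC.Poly.id) (NPC.Poly.const [])))
  · refine NPC.Poly.all (l := fun q : α × List Outcome => List.range (m q.1))
      (p := fun q c => decide (q.2.getD c none ≠ some true))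
      (hm.range.comp (NPC.Poly.fst NPC.Poly.id)) ?_
    exact pne (NPC.Poly.getD (NPC.Poly.snd (NPC.Poly.fst NPC.Poly.id)) (NPC.Poly.snd NPC.Poly.id)
      (NPC.Poly.const none)) (NPC.Poly.const _)

end TPTC

open TPTC TPTF TPTQ in
/-- The computation in polynomial time. -/
theorem t_PTC' : S_OUT → S_PT → S_PTITER → S_PTC := by
  intro hO hP hI
  have hm : UPoly (fun a : List Unit × List Unit => a.1.length) :=
    UPoly.length (NPC.Poly.fst NPC.Poly.id)
  have hn : UPoly (fun a : List Unit × List Unit => a.2.length) :=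
    UPoly.length (NPC.Poly.snd NPC.Poly.id)
  unfold S_PTC TC
  refine hP.2.1 (List Unit × List Unit) (ℕ × List ℕ) Bool
    (fun a => bsT a.1.length a.2.length)
    (fun a t => bnd (batch (tbQs a.1.length a.2.length t.2)) fun o =>
      lastT a.1.length (cols a.1.length a.2.length t.2) (sgn a.1.length a.2.length t.2 o))
    (pt_bsT hO hP hI hm hn) ?_
  have b : Poly (fun q : (List Unit × List Unit) × (ℕ × List ℕ) => q.1) :=
    NPC.Poly.fst NPC.Poly.id
  have hmb := UPoly.comp (n := fun a : List Unit × List Unit => a.1.length) hm b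
  have hnb := UPoly.comp (n := fun a : List Unit × List Unit => a.2.length) hn b
  refine hP.2.1 ((List Unit × List Unit) × (ℕ × List ℕ)) (List Outcome) Bool
    (fun q => batch (tbQs q.1.1.length q.1.2.length q.2.2))
    (fun q o => lastT q.1.1.length (cols q.1.1.length q.1.2.length q.2.2)
      (sgn q.1.1.length q.1.2.length q.2.2 o))
    (hP.2.2 _ _ (ptbQs hmb hnb (NPC.Poly.snd (NPC.Poly.snd NPC.Poly.id)))) ?_
  have c : Poly (fun q : ((List Unit × List Unit) × (ℕ × List ℕ)) × List Outcome => q.1.1) :=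
    NPC.Poly.fst (NPC.Poly.fst NPC.Poly.id)
  have c2 : Poly (fun q : ((List Unit × List Unit) × (ℕ × List ℕ)) × List Outcome => q.1.2.2) :=
    NPC.Poly.snd (NPC.Poly.snd (NPC.Poly.fst NPC.Poly.id))
  have hmc := UPoly.comp (n := fun a : List Unit × List Unit => a.1.length) hm c
  have hnc := UPoly.comp (n := fun a : List Unit × List Unit => a.2.length) hn c
  exact pt_last hO hP hI hmc (pcols hmc.toPoly hnc c2) (psgn hmc hnc c2
    (NPC.Poly.snd NPC.Poly.id))

/-- The computation in polynomial time. -/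
theorem t_PTC : S_PTC := t_PTC' t_OUT.1 t_PT t_PTITER

end Pool.Agent.Y648.TP
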