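import Pool.Agent.Y648.TP.StmM
import Pool.Agent.Y648.CS.T_PRE
import Pool.Agent.W920.FC.T_ORD2A

set_option autoImplicit false
set_option linter.unusedSimpArgs false
set_option linter.unreachableTactic false
set_option linter.unnecessarySeqFocus false
set_option linter.unusedTactic false

/-!
# The program for the perturbed system
-/

namespace Pool.Agent.Y648.TP

open Pool.Agent.NPC Pool.Agent.H558R2 Pool.Agent.H622R3.SM Pool.Agent.W920.FC Pool.Agent.Y648.CS

namespace TPZP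

open Pool.Agent.W920.FC.TORD1 Pool.Agent.W920.FC.TORD2A

/-! ### The instructions -/

/-- The second part of `stP`. -/
def stB (m n : ℕ) : List Instr :=
  (List.range (2 * m)).flatMap fun j => (List.range m).flatMap fun i =>
    (List.range n).flatMap fun k =>
      [(⟨Op.mul, [73, j, i, k], [71, 3], [72, j, i, k]⟩ : Instr),
        ⟨Op.add, [72, j + 1, i, k], [73, j, i, k],
          if j < m then (if i + 1 < m then [72, j, i + 1, k] else [3])
          else if i = 0 then [3] else [72, j, i - 1, k]⟩]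

/-- The first part of `stP`. -/
def stA (m n : ℕ) (J : List ℕ) (s : List Bool) : List Instr :=
  (List.range m).flatMap fun i => (List.range n).map fun k =>
    if s.getD i true then (⟨Op.add, [72, 0, i, k], [0, i, J.getD k 0], [3]⟩ : Instr)
    else ⟨Op.sub, [72, 0, i, k], [3], [0, i, J.getD k 0]⟩

theorem stP_eq (m n : ℕ) (J : List ℕ) (s : List Bool) : stP m n J s = stA m n J s ++ stB m n := rfl

/-- The kinds of instructions. -/
inductive Kind (m n : ℕ) (J : List ℕ) (s : List Bool) (z : ℕ) (I : Instr) : Prop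
  | k1 (h : I = ⟨Op.add, [70, 0], [3], [3]⟩) : Kind m n J s z I
  | k2 (k : ℕ) (hk : k < z) (h : I = ⟨Op.add, [70, k + 1], [70, k], [2]⟩) : Kind m n J s z I
  | k3 (h : I = ⟨Op.add, [71, 0], [2], [3]⟩) : Kind m n J s z I
  | k4 (e : ℕ) (he : e < 6 * m + 1) (h : I = ⟨Op.mul, [71, e + 1], [71, e], [70, z]⟩) :
      Kind m n J s z I
  | k5 (i k : ℕ) (hi : i < m) (hk : k < n) (hs : s.getD i true = true)
      (h : I = ⟨Op.add, [72, 0, i, k], [0, i, J.getD k 0], [3]⟩) : Kind m n J s z I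
  | k5' (i k : ℕ) (hi : i < m) (hk : k < n) (hs : s.getD i true = false)
      (h : I = ⟨Op.sub, [72, 0, i, k], [3], [0, i, J.getD k 0]⟩) : Kind m n J s z I
  | k6 (j i k : ℕ) (hj : j < 2 * m) (hi : i < m) (hk : k < n)
      (h : I = ⟨Op.mul, [73, j, i, k], [71, 3], [72, j, i, k]⟩) : Kind m n J s z I
  | k7 (j i k : ℕ) (hj : j < 2 * m) (hi : i < m) (hk : k < n)
      (h : I = ⟨Op.add, [72, j + 1, i, k], [73, j, i, k],
          if j < m then (if i + 1 < m then [72, j, i + 1, k] else [3])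
          else if i = 0 then [3] else [72, j, i - 1, k]⟩) : Kind m n J s z I
  | k8 (c i : ℕ) (hc : c < 3 * m) (hi : i < n)
      (hs : c % 3 = 2 ∨ (c % 3 = 0 ∧ s.getD (c / 3) true = false))
      (h : I = ⟨Op.sub, [80, c, i], [3], [72, 2 * m, c / 3, i]⟩) : Kind m n J s z I
  | k8' (c i : ℕ) (hc : c < 3 * m) (hi : i < n)
      (hs : ¬ (c % 3 = 2 ∨ (c % 3 = 0 ∧ s.getD (c / 3) true = false)))
      (h : I = ⟨Op.add, [80, c, i], [72, 2 * m, c / 3, i], [3]⟩) : Kind m n J s z I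
  | k9 (c : ℕ) (hc : c < 3 * m) (h3 : c % 3 = 0)
      (h : I = ⟨Op.mul, [74, c], [1, c / 3], [71, 6 * m]⟩) : Kind m n J s z I
  | k10 (c : ℕ) (hc : c < 3 * m) (h3 : c % 3 = 0)
      (h : I = ⟨Op.sub, [80, c, n], [74, c], [71, 6 * m - 1]⟩) : Kind m n J s z I
  | k11 (c : ℕ) (hc : c < 3 * m) (h3 : ¬ c % 3 = 0)
      (h : I = ⟨Op.sub, [80, c, n], [3], [71, 6 * m + 1]⟩) : Kind m n J s z I

theorem mem_pw {m z : ℕ} {I : Instr} : I ∈ pwP m z ↔
    I = ⟨Op.add, [70, 0], [3], [3]⟩ ∨ (∃ k < z, I = ⟨Op.add, [70, k + 1], [70, k], [2]⟩) ∨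
    I = ⟨Op.add, [71, 0], [2], [3]⟩ ∨
    ∃ e < 6 * m + 1, I = ⟨Op.mul, [71, e + 1], [71, e], [70, z]⟩ := by
  simp only [pwP, List.mem_append, List.mem_cons, List.mem_map, List.mem_range, eq_comm (b := I)]
  rw [or_assoc]

theorem mem_sa {m n : ℕ} {J : List ℕ} {s : List Bool} {I : Instr} : I ∈ stA m n J s ↔
    ∃ i < m, ∃ k < n, I = if s.getD i true then
      (⟨Op.add, [72, 0, i, k], [0, i, J.getD k 0], [3]⟩ : Instr)
      else ⟨Op.sub, [72, 0, i, k], [3], [0, i, J.getD k 0]⟩ := by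
  simp only [stA, List.mem_flatMap, List.mem_map, List.mem_range, eq_comm (b := I)]

theorem mem_sb {m n : ℕ} {I : Instr} : I ∈ stB m n ↔
    ∃ j < 2 * m, ∃ i < m, ∃ k < n, I = ⟨Op.mul, [73, j, i, k], [71, 3], [72, j, i, k]⟩ ∨
      I = ⟨Op.add, [72, j + 1, i, k], [73, j, i, k],
          if j < m then (if i + 1 < m then [72, j, i + 1, k] else [3])
          else if i = 0 then [3] else [72, j, i - 1, k]⟩ := by
  simp only [stB, List.mem_flatMap, List.mem_range, List.mem_cons, List.not_mem_nil, or_false]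

theorem mem_co {m n c : ℕ} {s : List Bool} {I : Instr} : I ∈ coP m n s c ↔
    (∃ i < n, I = if c % 3 = 2 ∨ (c % 3 = 0 ∧ s.getD (c / 3) true = false) then
      (⟨Op.sub, [80, c, i], [3], [72, 2 * m, c / 3, i]⟩ : Instr)
      else ⟨Op.add, [80, c, i], [72, 2 * m, c / 3, i], [3]⟩) ∨
    (c % 3 = 0 ∧ (I = ⟨Op.mul, [74, c], [1, c / 3], [71, 6 * m]⟩ ∨
      I = ⟨Op.sub, [80, c, n], [74, c], [71, 6 * m - 1]⟩)) ∨
    (¬ c % 3 = 0 ∧ I = ⟨Op.sub, [80, c, n], [3], [71, 6 * m + 1]⟩) := by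
  unfold coP
  rw [List.mem_append, List.mem_map]
  simp only [List.mem_range, eq_comm (b := I)]
  by_cases h : c % 3 = 0
  · simp [h]
  · simp [h]

theorem mem_pz {m n : ℕ} {J : List ℕ} {s : List Bool} {z : ℕ} {I : Instr} :
    I ∈ pzP m n J s z ↔ Kind m n J s z I := by
  unfold pzP
  rw [stP_eq, List.mem_append, List.mem_append, List.mem_append, mem_pw, mem_sa, mem_sb]
  simp only [List.mem_flatMap, List.mem_range, mem_co]
  constructor
  · rintro ((h | ⟨k, hk, h⟩ | h | ⟨e, he, h⟩) | (⟨i, hi, k, hk, h⟩ | ⟨j, hj, i, hi, k, hk, h | h⟩) |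
      ⟨c, hc, ⟨i, hi, h⟩ | ⟨h3, h | h⟩ | ⟨h3, h⟩⟩)
    · exact .k1 h
    · exact .k2 k hk h
    · exact .k3 h
    · exact .k4 e he h
    · by_cases hs : s.getD i true = true
      · rw [if_pos hs] at h
        exact .k5 i k hi hk hs h
      · rw [if_neg hs] at h
        exact .k5' i k hi hk (by simpa using hs) h
    · exact .k6 j i k hj hi hk h
    · exact .k7 j i k hj hi hk h
    · split_ifs at h with hs
      · exact .k8 c i hc hi hs h
      · exact .k8' c i hc hi hs h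
    · exact .k9 c hc h3 h
    · exact .k10 c hc h3 h
    · exact .k11 c hc h3 h
  · rintro (h | ⟨k, hk, h⟩ | h | ⟨e, he, h⟩ | ⟨i, k, hi, hk, hs, h⟩ | ⟨i, k, hi, hk, hs, h⟩ |
      ⟨j, i, k, hj, hi, hk, h⟩ | ⟨j, i, k, hj, hi, hk, h⟩ | ⟨c, i, hc, hi, hs, h⟩ |
      ⟨c, i, hc, hi, hs, h⟩ | ⟨c, hc, h3, h⟩ | ⟨c, hc, h3, h⟩ | ⟨c, hc, h3, h⟩)
    · exact Or.inl (Or.inl h)
    · exact Or.inl (Or.inr (Or.inl ⟨k, hk, h⟩))
    · exact Or.inl (Or.inr (Or.inr (Or.inl h)))
    · exact Or.inl (Or.inr (Or.inr (Or.inr ⟨e, he, h⟩)))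
    · exact Or.inr (Or.inl (Or.inl ⟨i, hi, k, hk, by rw [if_pos hs]; exact h⟩))
    · exact Or.inr (Or.inl (Or.inl ⟨i, hi, k, hk, by rw [if_neg (by rw [hs]; simp)]; exact h⟩))
    · exact Or.inr (Or.inl (Or.inr ⟨j, hj, i, hi, k, hk, Or.inl h⟩))
    · exact Or.inr (Or.inl (Or.inr ⟨j, hj, i, hi, k, hk, Or.inr h⟩))
    · exact Or.inr (Or.inr ⟨c, hc, Or.inl ⟨i, hi, by rw [if_pos hs]; exact h⟩⟩)
    · exact Or.inr (Or.inr ⟨c, hc, Or.inl ⟨i, hi, by rw [if_neg hs]; exact h⟩⟩)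
    · exact Or.inr (Or.inr ⟨c, hc, Or.inr (Or.inl ⟨h3, Or.inl h⟩)⟩)
    · exact Or.inr (Or.inr ⟨c, hc, Or.inr (Or.inl ⟨h3, Or.inr h⟩)⟩)
    · exact Or.inr (Or.inr ⟨c, hc, Or.inr (Or.inr ⟨h3, h⟩)⟩)

/-! ### The registers written -/

section
variable {m n : ℕ} {J : List ℕ} {s : List Bool} {z : ℕ}

theorem w70 {k : ℕ} (hk : k ≤ z) : ∃ K ∈ pzP m n J s z, K.dst = [70, k] := by
  rcases k with _ | k
  · exact ⟨_, mem_pz.2 (.k1 rfl), rfl⟩
  · exact ⟨_, mem_pz.2 (.k2 k (by omega) rfl), rfl⟩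

theorem w71 {e : ℕ} (he : e ≤ 6 * m + 1) : ∃ K ∈ pzP m n J s z, K.dst = [71, e] := by
  rcases e with _ | e
  · exact ⟨_, mem_pz.2 (.k3 rfl), rfl⟩
  · exact ⟨_, mem_pz.2 (.k4 e (by omega) rfl), rfl⟩

theorem w72 {j i k : ℕ} (hj : j ≤ 2 * m) (hi : i < m) (hk : k < n) :
    ∃ K ∈ pzP m n J s z, K.dst = [72, j, i, k] := by
  rcases j with _ | j
  · by_cases hs : s.getD i true = true
    · exact ⟨_, mem_pz.2 (.k5 i k hi hk hs rfl), rfl⟩
    · exact ⟨_, mem_pz.2 (.k5' i k hi hk (by simpa using hs) rfl), rfl⟩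
  · exact ⟨_, mem_pz.2 (.k7 j i k (by omega) hi hk rfl), rfl⟩

theorem w73 {j i k : ℕ} (hj : j < 2 * m) (hi : i < m) (hk : k < n) :
    ∃ K ∈ pzP m n J s z, K.dst = [73, j, i, k] :=
  ⟨_, mem_pz.2 (.k6 j i k hj hi hk rfl), rfl⟩

theorem w74 {c : ℕ} (hc : c < 3 * m) (h3 : c % 3 = 0) :
    ∃ K ∈ pzP m n J s z, K.dst = [74, c] :=
  ⟨_, mem_pz.2 (.k9 c hc h3 rfl), rfl⟩

theorem w80 {c i : ℕ} (hc : c < 3 * m) (hi : i < n + 1) :
    ∃ K ∈ pzP m n J s z, K.dst = [80, c, i] := by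
  by_cases h : i < n
  · by_cases hs : c % 3 = 2 ∨ (c % 3 = 0 ∧ s.getD (c / 3) true = false)
    · exact ⟨_, mem_pz.2 (.k8 c i hc h hs rfl), rfl⟩
    · exact ⟨_, mem_pz.2 (.k8' c i hc h hs rfl), rfl⟩
  · obtain rfl : i = n := by omega
    by_cases h3 : c % 3 = 0
    · exact ⟨_, mem_pz.2 (.k10 c hc h3 rfl), rfl⟩
    · exact ⟨_, mem_pz.2 (.k11 c hc h3 rfl), rfl⟩

theorem heads {I : Instr} (hI : I ∈ pzP m n J s z) :
    70 ≤ I.dst.headD 0 ∧ I.dst.headD 0 ≤ 80 := by
  rcases mem_pz.1 hI with (rfl | ⟨k, hk, rfl⟩ | rfl | ⟨e, he, rfl⟩ | ⟨i, k, hi, hk, hs, rfl⟩ |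
      ⟨i, k, hi, hk, hs, rfl⟩ | ⟨j, i, k, hj, hi, hk, rfl⟩ | ⟨j, i, k, hj, hi, hk, rfl⟩ |
      ⟨c, i, hc, hi, hs, rfl⟩ | ⟨c, i, hc, hi, hs, rfl⟩ | ⟨c, hc, h3, rfl⟩ | ⟨c, hc, h3, rfl⟩ |
      ⟨c, hc, h3, rfl⟩) <;> simp

end

/-! ### The order -/

/-- The position of a register. -/
def key (n : ℕ) : Reg → List ℕ
  | [70, k] => [0, k]
  | [71, e] => [1, e]
  | [72, j, i, k] => [2, j, i, k, 1]
  | [73, j, i, k] => [2, j + 1, i, k, 0]
  | [74, c] => [3, c, n, 0]
  | [80, c, i] => [3, c, i, 1]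
  | _ => []

theorem key70 (n k : ℕ) : key n [70, k] = [0, k] := rfl
theorem key71 (n k : ℕ) : key n [71, k] = [1, k] := rfl
theorem key72 (n j i k : ℕ) : key n [72, j, i, k] = [2, j, i, k, 1] := rfl
theorem key73 (n j i k : ℕ) : key n [73, j, i, k] = [2, j + 1, i, k, 0] := rfl
theorem key74 (n c : ℕ) : key n [74, c] = [3, c, n, 0] := rfl
theorem key80 (n c i : ℕ) : key n [80, c, i] = [3, c, i, 1] := rfl

/-- Comparison of the positions. -/
def LT (n : ℕ) (I J : Instr) : Prop := key n I.dst < key n J.dst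

theorem pw_pw (m n z : ℕ) : (pwP m z).Pairwise (LT n) := by
  unfold pwP
  rw [List.pairwise_append, List.pairwise_cons, List.pairwise_cons]
  refine ⟨⟨fun x hx => ?_, pwM (LT n) _ _ fun a b hab hb => ?_⟩,
    ⟨fun x hx => ?_, pwM (LT n) _ _ fun a b hab hb => ?_⟩, fun x hx y hy => ?_⟩
  · simp only [List.mem_map, List.mem_range] at hx
    obtain ⟨t, ht, rfl⟩ := hx
    (simp only [LT, key70, key71]; simp [List.cons_lt_cons_iff] <;> omega)
  · (simp only [LT, key70, key71]; simp [List.cons_lt_cons_iff] <;> omega)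
  · simp only [List.mem_map, List.mem_range] at hx
    obtain ⟨t, ht, rfl⟩ := hx
    (simp only [LT, key70, key71]; simp [List.cons_lt_cons_iff] <;> omega)
  · (simp only [LT, key70, key71]; simp [List.cons_lt_cons_iff] <;> omega)
  · simp only [List.mem_cons, List.mem_map, List.mem_range] at hx hy
    rcases hx with rfl | ⟨t, ht, rfl⟩ <;> rcases hy with rfl | ⟨t', ht', rfl⟩ <;>
      (simp only [LT, key70, key71]; simp [List.cons_lt_cons_iff] <;> omega)

theorem dstA (s : List Bool) (J : List ℕ) (i k : ℕ) : (if s.getD i true then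
    (⟨Op.add, [72, 0, i, k], [0, i, J.getD k 0], [3]⟩ : Instr)
      else ⟨Op.sub, [72, 0, i, k], [3], [0, i, J.getD k 0]⟩).dst = [72, 0, i, k] := by
  split_ifs <;> rfl

theorem dstC (m : ℕ) (s : List Bool) (c i : ℕ) :
    (if c % 3 = 2 ∨ (c % 3 = 0 ∧ s.getD (c / 3) true = false) then
      (⟨Op.sub, [80, c, i], [3], [72, 2 * m, c / 3, i]⟩ : Instr)
      else ⟨Op.add, [80, c, i], [72, 2 * m, c / 3, i], [3]⟩).dst = [80, c, i] := by
  split_ifs <;> rfl

theorem pw_sa (m n : ℕ) (J : List ℕ) (s : List Bool) : (stA m n J s).Pairwise (LT n) := by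
  unfold stA
  refine pwF (LT n) m _ (fun i hi => pwM (LT n) _ _ fun a b hab hb => ?_)
    fun i i' hii hi' x hx y hy => ?_
  · unfold LT
    rw [dstA, dstA, key72, key72]
    simp [List.cons_lt_cons_iff]
    omega
  · simp only [List.mem_map, List.mem_range] at hx hy
    obtain ⟨k, hk, rfl⟩ := hx
    obtain ⟨k', hk', rfl⟩ := hy
    unfold LT
    rw [dstA, dstA, key72, key72]
    simp [List.cons_lt_cons_iff]
    omega

theorem pw_sb (m n : ℕ) : (stB m n).Pairwise (LT n) := by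
  unfold stB
  refine pwF (LT n) _ _ (fun j hj => pwF (LT n) _ _ (fun i hi => pwF (LT n) _ _ (fun k hk => ?_)
    fun k k' hkk hk' x hx y hy => ?_) fun i i' hii hi' x hx y hy => ?_)
    fun j j' hjj hj' x hx y hy => ?_
  · simp only [List.pairwise_cons, List.mem_cons, List.not_mem_nil, or_false, forall_eq,
      List.Pairwise.nil, and_true, implies_true, IsEmpty.forall_iff]
    (simp only [LT, key72, key73]; simp [List.cons_lt_cons_iff] <;> omega)
  · simp only [List.mem_cons, List.not_mem_nil, or_false] at hx hy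
    rcases hx with rfl | rfl <;> rcases hy with rfl | rfl <;>
      (simp only [LT, key72, key73]; simp [List.cons_lt_cons_iff] <;> omega)
  · simp only [List.mem_flatMap, List.mem_range, List.mem_cons, List.not_mem_nil,
      or_false] at hx hy
    obtain ⟨k, hk, rfl | rfl⟩ := hx <;> obtain ⟨k', hk', rfl | rfl⟩ := hy <;>
      (simp only [LT, key72, key73]; simp [List.cons_lt_cons_iff] <;> omega)
  · simp only [List.mem_flatMap, List.mem_range, List.mem_cons, List.not_mem_nil,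
      or_false] at hx hy
    obtain ⟨i, hi, k, hk, rfl | rfl⟩ := hx <;> obtain ⟨i', hi', k', hk', rfl | rfl⟩ := hy <;>
      (simp only [LT, key72, key73]; simp [List.cons_lt_cons_iff] <;> omega)

theorem pw_co (m n : ℕ) (s : List Bool) (c : ℕ) : (coP m n s c).Pairwise (LT n) := by
  unfold coP
  rw [List.pairwise_append]
  refine ⟨pwM (LT n) _ _ fun a b hab hb => ?_, ?_, fun x hx y hy => ?_⟩
  · unfold LT
    rw [dstC, dstC, key80, key80]
    simp [List.cons_lt_cons_iff]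
    omega
  · split_ifs with h
    · simp only [List.pairwise_cons, List.mem_cons, List.not_mem_nil, or_false, forall_eq,
        List.Pairwise.nil, and_true, implies_true, IsEmpty.forall_iff]
      (simp only [LT, key74, key80]; simp [List.cons_lt_cons_iff] <;> omega)
    · exact List.pairwise_singleton _ _
  · simp only [List.mem_map, List.mem_range] at hx
    obtain ⟨i, hi, rfl⟩ := hx
    unfold LT
    rw [dstC, key80]
    split_ifs at hy with h
    · simp only [List.mem_cons, List.not_mem_nil, or_false] at hy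
      rcases hy with rfl | rfl <;>
        (simp only [key74, key80]; simp [List.cons_lt_cons_iff] <;> omega)
    · simp only [List.mem_cons, List.not_mem_nil, or_false] at hy
      rcases hy with rfl
      (simp only [key74, key80]; simp [List.cons_lt_cons_iff] <;> omega)

theorem key_co {m n : ℕ} {s : List Bool} {c : ℕ} {I : Instr} (hI : I ∈ coP m n s c) :
    ∃ t : List ℕ, key n I.dst = 3 :: c :: t := by
  rcases mem_co.1 hI with ⟨i, hi, rfl⟩ | ⟨h3, rfl | rfl⟩ | ⟨h3, rfl⟩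
  · rw [dstC]
    exact ⟨_, key80 _ _ _⟩
  · exact ⟨_, key74 _ _⟩
  · exact ⟨_, key80 _ _ _⟩
  · exact ⟨_, key80 _ _ _⟩

theorem key_sa {m n : ℕ} {J : List ℕ} {s : List Bool} {I : Instr} (hI : I ∈ stA m n J s) :
    ∃ t : List ℕ, key n I.dst = 2 :: 0 :: t := by
  obtain ⟨i, hi, k, hk, rfl⟩ := mem_sa.1 hI
  rw [dstA]
  exact ⟨_, key72 _ _ _ _⟩

theorem key_sb {m n : ℕ} {I : Instr} (hI : I ∈ stB m n) :
    ∃ (j : ℕ) (t : List ℕ), key n I.dst = 2 :: (j + 1) :: t := by
  obtain ⟨j, hj, i, hi, k, hk, rfl | rfl⟩ := mem_sb.1 hI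
  · exact ⟨_, _, key73 _ _ _ _⟩
  · exact ⟨_, _, key72 _ _ _ _⟩

theorem key_pw {m n z : ℕ} {I : Instr} (hI : I ∈ pwP m z) :
    ∃ (a : ℕ) (t : List ℕ), a < 2 ∧ key n I.dst = a :: t := by
  rcases mem_pw.1 hI with rfl | ⟨k, hk, rfl⟩ | rfl | ⟨e, he, rfl⟩
  · exact ⟨0, _, by norm_num, key70 _ _⟩
  · exact ⟨0, _, by norm_num, key70 _ _⟩
  · exact ⟨1, _, by norm_num, key71 _ _⟩
  · exact ⟨1, _, by norm_num, key71 _ _⟩

theorem pw_pz (m n : ℕ) (J : List ℕ) (s : List Bool) (z : ℕ) :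
    (pzP m n J s z).Pairwise (LT n) := by
  unfold pzP
  rw [stP_eq, List.pairwise_append, List.pairwise_append, List.pairwise_append]
  refine ⟨pw_pw m n z, ⟨⟨pw_sa m n J s, pw_sb m n, fun x hx y hy => ?_⟩,
    pwF (LT n) _ _ (fun c hc => pw_co m n s c) fun c c' hcc hc' x hx y hy => ?_,
    fun x hx y hy => ?_⟩, fun x hx y hy => ?_⟩
  · obtain ⟨t, ht⟩ := key_sa hx
    obtain ⟨j, t', ht'⟩ := key_sb hy
    unfold LT
    rw [ht, ht']
    simp [List.cons_lt_cons_iff]
  · obtain ⟨t, ht⟩ := key_co hx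
    obtain ⟨t', ht'⟩ := key_co hy
    unfold LT
    rw [ht, ht']
    simp [List.cons_lt_cons_iff]
    omega
  · simp only [List.mem_flatMap, List.mem_range] at hy
    obtain ⟨c, hc, hy⟩ := hy
    obtain ⟨t', ht'⟩ := key_co hy
    unfold LT
    rw [ht']
    rcases List.mem_append.1 hx with hx | hx
    · obtain ⟨t, ht⟩ := key_sa hx
      rw [ht]
      simp [List.cons_lt_cons_iff]
    · obtain ⟨j, t, ht⟩ := key_sb hx
      rw [ht]
      simp [List.cons_lt_cons_iff]
  · obtain ⟨a, t, ha, ht⟩ := key_pw (n := n) hx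
    unfold LT
    rw [ht]
    rcases List.mem_append.1 hy with hy | hy
    · rcases List.mem_append.1 hy with hy | hy
      · obtain ⟨t', ht'⟩ := key_sa hy
        rw [ht']
        simp [List.cons_lt_cons_iff]
        omega
      · obtain ⟨j, t', ht'⟩ := key_sb hy
        rw [ht']
        simp [List.cons_lt_cons_iff]
        omega
    · simp only [List.mem_flatMap, List.mem_range] at hy
      obtain ⟨c, hc, hy⟩ := hy
      obtain ⟨t', ht'⟩ := key_co hy
      rw [ht']
      simp [List.cons_lt_cons_iff]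
      omega

theorem ord_pz (m n : ℕ) (hm : 1 ≤ m) (J : List ℕ) (s : List Bool) (z : ℕ) :
    Ord baseReg (pzP m n J s z) := by
  refine ord_of_sorted (key n) _ _ (pw_pz m n J s z) (fun I hI hIS => ?_) fun I hI r hr => ?_
  · have h1 := heads hI
    have h2 : I.dst.headD 0 < 4 := hIS
    omega
  · rcases mem_pz.1 hI with (rfl | ⟨k, hk, rfl⟩ | rfl | ⟨e, he, rfl⟩ | ⟨i, k, hi, hk, hs, rfl⟩ |
      ⟨i, k, hi, hk, hs, rfl⟩ | ⟨j, i, k, hj, hi, hk, rfl⟩ | ⟨j, i, k, hj, hi, hk, rfl⟩ |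
      ⟨c, i, hc, hi, hs, rfl⟩ | ⟨c, i, hc, hi, hs, rfl⟩ | ⟨c, hc, h3, rfl⟩ | ⟨c, hc, h3, rfl⟩ |
      ⟨c, hc, h3, rfl⟩)
    · rcases hr with rfl | rfl
      · exact Or.inl base3
      · exact Or.inl base3
    · rcases hr with rfl | rfl
      · obtain ⟨K, hK, hKr⟩ := w70 (m := m) (n := n) (J := J) (s := s) hk.le
        exact Or.inr ⟨K, hK, hKr, by simp only [key70]; simp [List.cons_lt_cons_iff]⟩
      · exact Or.inl base2
    · rcases hr with rfl | rfl
      · exact Or.inl base2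
      · exact Or.inl base3
    · rcases hr with rfl | rfl
      · obtain ⟨K, hK, hKr⟩ := w71 (m := m) (n := n) (J := J) (s := s) (z := z) he.le
        exact Or.inr ⟨K, hK, hKr, by simp only [key71]; simp [List.cons_lt_cons_iff]⟩
      · obtain ⟨K, hK, hKr⟩ := w70 (m := m) (n := n) (J := J) (s := s) (le_refl z)
        exact Or.inr ⟨K, hK, hKr, by simp only [key70, key71]; simp [List.cons_lt_cons_iff]⟩
    · rcases hr with rfl | rfl
      · exact Or.inl (base0 _ _)
      · exact Or.inl base3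
    · rcases hr with rfl | rfl
      · exact Or.inl base3
      · exact Or.inl (base0 _ _)
    · rcases hr with rfl | rfl
      · obtain ⟨K, hK, hKr⟩ := w71 (m := m) (n := n) (J := J) (s := s) (z := z) (e := 3)
          (by omega)
        exact Or.inr ⟨K, hK, hKr, by simp only [key71, key73]; simp [List.cons_lt_cons_iff]⟩
      · obtain ⟨K, hK, hKr⟩ := w72 (m := m) (n := n) (J := J) (s := s) (z := z) hj.le hi hk
        exact Or.inr ⟨K, hK, hKr, by simp only [key72, key73]; simp [List.cons_lt_cons_iff]⟩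
    · rcases hr with rfl | rfl
      · obtain ⟨K, hK, hKr⟩ := w73 (m := m) (n := n) (J := J) (s := s) (z := z) hj hi hk
        exact Or.inr ⟨K, hK, hKr, by simp only [key72, key73]; simp [List.cons_lt_cons_iff]⟩
      · dsimp only
        split_ifs with h1 h2 h3
        · obtain ⟨K, hK, hKr⟩ := w72 (m := m) (n := n) (J := J) (s := s) (z := z) hj.le h2 hk
          exact Or.inr ⟨K, hK, hKr, by simp only [key72]; simp [List.cons_lt_cons_iff]⟩
        · exact Or.inl base3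
        · exact Or.inl base3
        · obtain ⟨K, hK, hKr⟩ := w72 (m := m) (n := n) (J := J) (s := s) (z := z) (i := i - 1)
            hj.le (by omega) hk
          exact Or.inr ⟨K, hK, hKr, by simp only [key72]; simp [List.cons_lt_cons_iff]⟩
    · rcases hr with rfl | rfl
      · exact Or.inl base3
      · obtain ⟨K, hK, hKr⟩ := w72 (m := m) (n := n) (J := J) (s := s) (z := z) (i := c / 3)
          le_rfl (by omega) hi
        exact Or.inr ⟨K, hK, hKr, by simp only [key72, key80]; simp [List.cons_lt_cons_iff]⟩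
    · rcases hr with rfl | rfl
      · obtain ⟨K, hK, hKr⟩ := w72 (m := m) (n := n) (J := J) (s := s) (z := z) (i := c / 3)
          le_rfl (by omega) hi
        exact Or.inr ⟨K, hK, hKr, by simp only [key72, key80]; simp [List.cons_lt_cons_iff]⟩
      · exact Or.inl base3
    · rcases hr with rfl | rfl
      · exact Or.inl (base1 _)
      · obtain ⟨K, hK, hKr⟩ := w71 (m := m) (n := n) (J := J) (s := s) (z := z) (e := 6 * m)
          (by omega)
        exact Or.inr ⟨K, hK, hKr, by simp only [key71, key74]; simp [List.cons_lt_cons_iff]⟩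
    · rcases hr with rfl | rfl
      · obtain ⟨K, hK, hKr⟩ := w74 (m := m) (n := n) (J := J) (s := s) (z := z) hc h3
        exact Or.inr ⟨K, hK, hKr, by simp only [key74, key80]; simp [List.cons_lt_cons_iff]⟩
      · obtain ⟨K, hK, hKr⟩ := w71 (m := m) (n := n) (J := J) (s := s) (z := z) (e := 6 * m - 1)
          (by omega)
        exact Or.inr ⟨K, hK, hKr, by simp only [key71, key80]; simp [List.cons_lt_cons_iff]⟩
    · rcases hr with rfl | rfl
      · exact Or.inl base3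
      · obtain ⟨K, hK, hKr⟩ := w71 (m := m) (n := n) (J := J) (s := s) (z := z) (e := 6 * m + 1)
          le_rfl
        exact Or.inr ⟨K, hK, hKr, by simp only [key71, key80]; simp [List.cons_lt_cons_iff]⟩

/-! ### The valuation -/

/-- The valuation. -/
noncomputable def val (m n : ℕ) (J : List ℕ) (s : List Bool) (z : ℕ) (g : Reg → ℝ) : Reg → ℝ
  | [70, k] => (k : ℝ)
  | [71, e] => (z : ℝ) ^ e
  | [72, j, i, k] => Wp m (sV s (aR g) J) z j i k
  | [73, j, i, k] => (z : ℝ) ^ 3 * Wp m (sV s (aR g) J) z j i k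
  | [74, c] => g [1, c / 3] * (z : ℝ) ^ (6 * m)
  | [80, c, i] => PmR m n J s g z c i
  | r => g r

section
variable {m n : ℕ} {J : List ℕ} {s : List Bool} {z : ℕ} {g : Reg → ℝ}

theorem val_base {r : Reg} (hr : r ∈ baseReg) : val m n J s z g r = g r := by
  have hr : r.headD 0 < 4 := hr
  unfold val
  split
  · rename_i k
    change (70 : ℕ) < 4 at hr
    omega
  · rename_i k
    change (71 : ℕ) < 4 at hr
    omega
  · rename_i j i k
    change (72 : ℕ) < 4 at hr
    omega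
  · rename_i j i k
    change (73 : ℕ) < 4 at hr
    omega
  · rename_i c
    change (74 : ℕ) < 4 at hr
    omega
  · rename_i c i
    change (80 : ℕ) < 4 at hr
    omega
  · rfl

theorem v70 (k : ℕ) : val m n J s z g [70, k] = (k : ℝ) := rfl
theorem v71 (k : ℕ) : val m n J s z g [71, k] = (z : ℝ) ^ k := rfl
theorem v72 (j i k : ℕ) : val m n J s z g [72, j, i, k] = Wp m (sV s (aR g) J) z j i k := rfl
theorem v73 (j i k : ℕ) : val m n J s z g [73, j, i, k] =
    (z : ℝ) ^ 3 * Wp m (sV s (aR g) J) z j i k := rfl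
theorem v74 (c : ℕ) : val m n J s z g [74, c] = g [1, c / 3] * (z : ℝ) ^ (6 * m) := rfl
theorem v80 (c i : ℕ) : val m n J s z g [80, c, i] = PmR m n J s g z c i := rfl
theorem vb2 (hg : Base g) : val m n J s z g [2] = 1 := (val_base base2).trans hg.1
theorem vb3 (hg : Base g) : val m n J s z g [3] = 0 := (val_base base3).trans hg.2

theorem Wp_out (V : ℕ → ℕ → ℝ) (x : ℝ) (j i k : ℕ) (h : ¬ i < m) : Wp m V x j i k = 0 := by
  cases j with
  | zero => rw [Wp, if_neg h]
  | succ j => rw [Wp, if_neg h]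

theorem eqn (hg : Base g) (I : Instr) (hI : I ∈ pzP m n J s z) : Eqn (val m n J s z g) I := by
  rcases mem_pz.1 hI with (rfl | ⟨k, hk, rfl⟩ | rfl | ⟨e, he, rfl⟩ | ⟨i, k, hi, hk, hs, rfl⟩ |
      ⟨i, k, hi, hk, hs, rfl⟩ | ⟨j, i, k, hj, hi, hk, rfl⟩ | ⟨j, i, k, hj, hi, hk, rfl⟩ |
      ⟨c, i, hc, hi, hs, rfl⟩ | ⟨c, i, hc, hi, hs, rfl⟩ | ⟨c, hc, h3, rfl⟩ | ⟨c, hc, h3, rfl⟩ |
      ⟨c, hc, h3, rfl⟩)
  · refine ⟨?_, fun h => by simp at h⟩
    simp only [Op.eval, v70, vb3 hg]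
    simp
  · refine ⟨?_, fun h => by simp at h⟩
    simp only [Op.eval, v70, vb2 hg]
    push_cast
    ring
  · refine ⟨?_, fun h => by simp at h⟩
    simp only [Op.eval, v71, vb2 hg, vb3 hg]
    simp
  · refine ⟨?_, fun h => by simp at h⟩
    simp only [Op.eval, v70, v71]
    rw [pow_succ]
  · refine ⟨?_, fun h => by simp at h⟩
    simp only [Op.eval, v72, vb3 hg]
    rw [val_base (base0 _ _), Wp, if_pos hi, sV, if_pos hs, add_zero]
    rfl
  · refine ⟨?_, fun h => by simp at h⟩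
    simp only [Op.eval, v72, vb3 hg]
    rw [val_base (base0 _ _), Wp, if_pos hi, sV, if_neg (by rw [hs]; simp), zero_sub]
    rfl
  · refine ⟨?_, fun h => by simp at h⟩
    simp only [Op.eval, v71, v72, v73]
  · refine ⟨?_, fun h => by simp at h⟩
    simp only [Op.eval, v72, v73]
    rw [Wp, if_pos hi]
    congr 1
    split_ifs with h1 h2 h3
    · rw [v72]
    · rw [vb3 hg, Wp_out _ _ _ _ _ h2]
    · rw [vb3 hg]
    · rw [v72]
  · refine ⟨?_, fun h => by simp at h⟩
    simp only [Op.eval, v72, v80, vb3 hg]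
    rw [PmR, Pm, if_pos hi, if_pos hs, zero_sub]
  · refine ⟨?_, fun h => by simp at h⟩
    simp only [Op.eval, v72, v80, vb3 hg]
    rw [PmR, Pm, if_pos hi, if_neg hs, add_zero]
  · refine ⟨?_, fun h => by simp at h⟩
    simp only [Op.eval, v71, v74]
    rw [val_base (base1 _)]
  · refine ⟨?_, fun h => by simp at h⟩
    simp only [Op.eval, v71, v74, v80]
    rw [PmR, Pm, if_neg (lt_irrefl _), if_pos h3]
  · refine ⟨?_, fun h => by simp at h⟩
    simp only [Op.eval, v71, v80, vb3 hg]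
    rw [PmR, Pm, if_neg (lt_irrefl _), if_neg h3, zero_sub]

end

/-! ### Sizes -/

/-- The number `v` is small, with the denominator `D`. -/
def Sm (D β : ℕ) (v : ℝ) : Prop := ∃ y : ℤ, y.natAbs ≤ 2 ^ β ∧ v * D = y

theorem Sm_mono {D β γ : ℕ} (h : β ≤ γ) {v : ℝ} (hv : Sm D β v) : Sm D γ v := by
  obtain ⟨y, h1, h2⟩ := hv
  exact ⟨y, h1.trans (Nat.pow_le_pow_right (by norm_num) h), h2⟩

theorem Sm_neg {D β : ℕ} {v : ℝ} (hv : Sm D β v) : Sm D β (-v) := by
  obtain ⟨y, h1, h2⟩ := hv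
  exact ⟨-y, by rwa [Int.natAbs_neg], by push_cast; rw [← h2]; ring⟩

theorem Sm_zero (D β : ℕ) : Sm D β 0 := ⟨0, by simp, by simp⟩

theorem Sm_add {D β : ℕ} {v w : ℝ} (hv : Sm D β v) (hw : Sm D β w) : Sm D (β + 1) (v + w) := by
  obtain ⟨y, h1, h2⟩ := hv
  obtain ⟨y', h1', h2'⟩ := hw
  refine ⟨y + y', ?_, by push_cast; rw [← h2, ← h2']; ring⟩
  have := Int.natAbs_add_le y y'
  rw [pow_succ]
  omega

theorem Sm_mul {D β γ t : ℕ} (ht : t ≤ 2 ^ γ) {v : ℝ} (hv : Sm D β v) :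
    Sm D (γ + β) ((t : ℝ) * v) := by
  obtain ⟨y, h1, h2⟩ := hv
  refine ⟨t * y, ?_, by push_cast; rw [← h2]; ring⟩
  rw [Int.natAbs_mul, Int.natAbs_natCast, pow_add]
  exact Nat.mul_le_mul ht h1

theorem QB_Sm {D β γ : ℕ} (h1 : 1 ≤ D) (h2 : D ≤ 2 ^ γ) (h3 : β ≤ γ) {v : ℝ} (hv : Sm D β v) :
    QB γ v := by
  obtain ⟨y, h4, h5⟩ := hv
  exact ⟨D, y, h1, h2, h4.trans (Nat.pow_le_pow_right (by norm_num) h3), h5⟩

theorem Sm_base {D lam : ℕ} {g : Reg → ℝ}
    (h : ∀ r ∈ baseReg, ∃ z : ℤ, z.natAbs ≤ 2 ^ lam ∧ g r * D = z) {r : Reg} (hr : r ∈ baseReg) :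
    Sm D lam (g r) := h r hr

theorem Sm_nat {D lam : ℕ} (hD : D ≤ 2 ^ lam) {γ t : ℕ} (ht : t ≤ 2 ^ γ) :
    Sm D (γ + lam) (t : ℝ) := by
  have := Sm_mul (D := D) (β := lam) ht (v := 1) ⟨D, by simpa using hD, by simp⟩
  rwa [mul_one] at this

theorem pow_le_two {z d : ℕ} (hz : z ≤ d) (e : ℕ) : z ^ e ≤ 2 ^ (e * d) := by
  rw [mul_comm, pow_mul]
  exact Nat.pow_le_pow_left (hz.trans Nat.lt_two_pow_self.le) e

theorem Sm_W {D lam : ℕ} {g : Reg → ℝ}
    (h : ∀ r ∈ baseReg, ∃ z : ℤ, z.natAbs ≤ 2 ^ lam ∧ g r * D = z) (m : ℕ) (J : List ℕ)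
    (s : List Bool) {z d : ℕ} (hz : z ≤ d) (j : ℕ) : ∀ i k,
    Sm D (lam + (3 * d + 1) * j) (Wp m (sV s (aR g) J) z j i k) := by
  induction j with
  | zero =>
    intro i k
    rw [mul_zero, add_zero, Wp]
    split_ifs with hi
    · unfold sV
      split_ifs
      · exact h _ (base0 _ _)
      · exact Sm_neg (h _ (base0 _ _))
    · exact Sm_zero _ _
  | succ j ih =>
    intro i k
    rw [Wp]
    split_ifs with hi
    all_goals first
      | exact Sm_zero _ _
      | skip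
    all_goals
      rw [show lam + (3 * d + 1) * (j + 1) = 3 * d + (lam + (3 * d + 1) * j) + 1 by ring]
      refine Sm_add ?_ ?_
    all_goals first
      | (have := Sm_mul (pow_le_two hz 3) (ih i k); push_cast at this; exact this)
      | exact Sm_mono (by omega) (ih _ _)
      | exact Sm_zero _ _

end TPZP

open TPZP

theorem t_PZP : S_PZP := by
  set δ : Polynomial ℕ := (2 * Polynomial.X + 1) * (6 * Polynomial.X + 1) with hδ
  set q : Polynomial ℕ := δ + (6 * Polynomial.X + 3) + Polynomial.X * Polynomial.X +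
    4 * Polynomial.X * Polynomial.X * Polynomial.X + 3 * Polynomial.X * (Polynomial.X + 2) +
    (Polynomial.X + (3 * δ + 1) * (2 * Polynomial.X) + (6 * Polynomial.X + 1) * δ + 1) with hq
  have hqe : ∀ x, q.eval x = (2 * x + 1) * (6 * x + 1) + (6 * x + 3) + x * x + 4 * x * x * x +
      3 * x * (x + 2) + (x + (3 * ((2 * x + 1) * (6 * x + 1)) + 1) * (2 * x) +
      (6 * x + 1) * ((2 * x + 1) * (6 * x + 1)) + 1) := fun x => by
    rw [hq, hδ]
    simp only [Polynomial.eval_add, Polynomial.eval_mul, Polynomial.eval_X, Polynomial.eval_ofNat,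
      Polynomial.eval_one]
  refine ⟨q, fun S m n J s z g hg hm hS hz => ⟨ord_pz m n hm J s z, ?_, ?_,
    ⟨val m n J s z g, fun r hr => val_base hr, fun I hI => ⟨eqn hg I hI, ?_⟩,
      fun c _ i _ => rfl⟩, ?_⟩⟩
  · rintro r ⟨I, hI, rfl⟩
    exact heads hI
  · intro c hc i hi
    exact w80 hc hi
  · intro lam hlam
    obtain ⟨D, h1, h2, h3⟩ := hlam
    set d := (2 * S + 1) * (6 * S + 1) with hd
    have hzd : z ≤ d := hz.trans (Nat.mul_le_mul (by omega) (by omega))
    have e1 : (3 * d + 1) * (2 * m) ≤ (3 * ((2 * (S + lam) + 1) * (6 * (S + lam) + 1)) + 1) *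
        (2 * (S + lam)) := Nat.mul_le_mul (by
          have : d ≤ (2 * (S + lam) + 1) * (6 * (S + lam) + 1) :=
            Nat.mul_le_mul (by omega) (by omega)
          omega) (by omega)
    have e2 : (6 * m + 1) * d ≤ (6 * (S + lam) + 1) * ((2 * (S + lam) + 1) * (6 * (S + lam) + 1)) :=
      Nat.mul_le_mul (by omega) (Nat.mul_le_mul (by omega) (by omega))
    have hB : lam + (3 * d + 1) * (2 * m) + (6 * m + 1) * d + 1 ≤ q.eval (S + lam) := by
      rw [hqe]
      omega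
    have hlB : lam ≤ q.eval (S + lam) := by omega
    have hDB : D ≤ 2 ^ q.eval (S + lam) := h2.trans (Nat.pow_le_pow_right (by norm_num) hlB)
    have hW : ∀ j ≤ 2 * m, ∀ i k, Sm D (lam + (3 * d + 1) * (2 * m))
        (Wp m (sV s (aR g) J) z j i k) := fun j hj i k =>
      Sm_mono (Nat.add_le_add_left (Nat.mul_le_mul_left _ hj) _) (Sm_W h3 m J s hzd j i k)
    have hpz : ∀ e ≤ 6 * m + 1, Sm D ((6 * m + 1) * d + lam) ((z : ℝ) ^ e) := by
      intro e he
      have := Sm_nat h2 (γ := (6 * m + 1) * d) ((pow_le_two hzd e).trans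
        (Nat.pow_le_pow_right (by norm_num) (Nat.mul_le_mul_right _ he)))
      push_cast at this
      exact this
    have hb : ∀ c, Sm D ((6 * m + 1) * d + lam) (g [1, c / 3] * (z : ℝ) ^ (6 * m)) := by
      intro c
      have := Sm_mul (γ := (6 * m + 1) * d) ((pow_le_two hzd (6 * m)).trans
        (Nat.pow_le_pow_right (by norm_num) (Nat.mul_le_mul_right _ (by omega))))
        (h3 _ (Pool.Agent.W920.FC.TORD2A.base1 (c / 3)))
      push_cast at this
      rwa [mul_comm (g [1, c / 3])]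
    have hP : ∀ c i, Sm D (lam + (3 * d + 1) * (2 * m) + (6 * m + 1) * d + 1)
        (PmR m n J s g z c i) := by
      intro c i
      rw [PmR, Pm]
      split_ifs
      · exact Sm_mono (by omega) (Sm_neg (hW _ le_rfl _ _))
      · exact Sm_mono (by omega) (hW _ le_rfl _ _)
      · rw [sub_eq_add_neg]
        exact Sm_mono (by omega) (Sm_add (hb c) (Sm_neg (hpz _ (by omega))))
      · exact Sm_mono (by omega) (Sm_neg (hpz _ le_rfl))
    have fin : ∀ {β : ℕ} {v : ℝ}, β ≤ lam + (3 * d + 1) * (2 * m) + (6 * m + 1) * d + 1 →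
        Sm D β v → QB (q.eval (S + lam)) v := fun hβ hv =>
      QB_Sm h1 hDB (hβ.trans hB) hv
    rcases mem_pz.1 hI with (rfl | ⟨k, hk, rfl⟩ | rfl | ⟨e, he, rfl⟩ | ⟨i, k, hi, hk, hs, rfl⟩ |
      ⟨i, k, hi, hk, hs, rfl⟩ | ⟨j, i, k, hj, hi, hk, rfl⟩ | ⟨j, i, k, hj, hi, hk, rfl⟩ |
      ⟨c, i, hc, hi, hs, rfl⟩ | ⟨c, i, hc, hi, hs, rfl⟩ | ⟨c, hc, h3, rfl⟩ | ⟨c, hc, h3, rfl⟩ |
      ⟨c, hc, h3, rfl⟩)
    · dsimp only
      rw [v70]
      exact fin (Nat.zero_le _) (by simpa using Sm_zero D 0)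
    · dsimp only
      rw [v70]
      refine fin (β := d + lam) (by nlinarith) (Sm_nat h2 ?_)
      exact (show k + 1 ≤ d by omega).trans Nat.lt_two_pow_self.le
    · dsimp only
      rw [v71]
      exact fin (by omega) (hpz 0 (by omega))
    · dsimp only
      rw [v71]
      exact fin (by omega) (hpz _ (by omega))
    · dsimp only
      rw [v72]
      exact fin (by omega) (hW _ (by omega) _ _)
    · dsimp only
      rw [v72]
      exact fin (by omega) (hW _ (by omega) _ _)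
    · dsimp only
      rw [v73]
      have := Sm_mul (pow_le_two hzd 3) (Sm_W h3 m J s hzd j i k)
      push_cast at this
      refine fin ?_ this
      have : (3 * d + 1) * (j + 1) ≤ (3 * d + 1) * (2 * m) := Nat.mul_le_mul_left _ (by omega)
      have e : (3 * d + 1) * (j + 1) = (3 * d + 1) * j + (3 * d + 1) := by ring
      omega
    · dsimp only
      rw [v72]
      exact fin (by omega) (hW _ (by omega) _ _)
    · dsimp only
      rw [v80]
      exact fin le_rfl (hP _ _)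
    · dsimp only
      rw [v80]
      exact fin le_rfl (hP _ _)
    · dsimp only
      rw [v74]
      exact fin (by omega) (hb _)
    · dsimp only
      rw [v80]
      exact fin le_rfl (hP _ _)
    · dsimp only
      rw [v80]
      exact fin le_rfl (hP _ _)
  · have l1 : (pwP m z).length = z + 6 * m + 3 := by
      simp [pwP]
      omega
    have l2 : (stA m n J s).length = m * n := by simp [stA, List.length_flatMap]
    have l3 : (stB m n).length = 2 * m * (m * (n * 2)) := by simp [stB, List.length_flatMap]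
    have l4 : ((List.range (3 * m)).flatMap fun c => coP m n s c).length ≤ 3 * m * (n + 2) := by
      rw [List.length_flatMap]
      refine (List.sum_le_card_nsmul _ (n + 2) ?_).trans ?_
      · intro x hx
        obtain ⟨c, -, rfl⟩ := List.mem_map.1 hx
        unfold coP
        split_ifs <;> simp
      · simp
    have l5 : (pzP m n J s z).length ≤ z + 6 * m + 3 + (m * n + 2 * m * (m * (n * 2)) +
        3 * m * (n + 2)) := by
      unfold pzP
      rw [stP_eq, List.length_append, List.length_append, List.length_append, l1, l2, l3]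
      omega
    have hzd : z ≤ (2 * S + 1) * (6 * S + 1) := hz.trans (Nat.mul_le_mul (by omega) (by omega))
    have m1 : m * n ≤ S * S := Nat.mul_le_mul (by omega) (by omega)
    have m2 : 2 * m * (m * (n * 2)) ≤ 4 * S * S * S := by
      calc 2 * m * (m * (n * 2)) = 4 * m * m * n := by ring
        _ ≤ _ := Nat.mul_le_mul (Nat.mul_le_mul (by omega) (by omega)) (by omega)
    have m3 : 3 * m * (n + 2) ≤ 3 * S * (S + 2) := Nat.mul_le_mul (by omega) (by omega)
    rw [hqe]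
    omega

end Pool.Agent.Y648.TP
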