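import Pool.Agent.Y648.TP.StmM
import Pool.Agent.Y648.CS.T_REL

set_option autoImplicit false

/-!
# Renaming of registers (helper319, adapting Y648/CS/T_REL)
-/

namespace Pool.Agent.Y648.TP

open Pool.Agent.NPC Pool.Agent.H558R2 Pool.Agent.H622R3.SM Pool.Agent.W920.FC Pool.Agent.Y648.CS

namespace TREZ

open Pool.Agent.Y648.CS.TTUP Pool.Agent.W920.FC.TORD1 Pool.Agent.Y648.CS.TREL

theorem rz_not {a b : ℕ} {r : Reg} (h : r ∉ baseReg) : rz a b r = 81 :: r := by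
  have h' : ¬ r.headD 0 < 4 := h
  have h1 : ¬ (r.length = 3 ∧ r.headD 0 = 0 ∧ r.getD 1 0 < a ∧ r.getD 2 0 < b) := by
    rintro ⟨-, h2, -⟩
    omega
  have h2 : r ≠ [2] := by
    rintro rfl
    exact h' (by norm_num)
  simp only [rz, if_neg h1, if_neg h2, if_neg h']

theorem rz_base {a b : ℕ} {r : Reg} (h : r ∈ baseReg) :
    (∃ c < a, ∃ i < b, r = [0, c, i] ∧ rz a b r = [80, c, i]) ∨
    (r = [2] ∧ rz a b r = [2]) ∨
    (r ≠ [2] ∧ (∀ c < a, ∀ i < b, r ≠ [0, c, i]) ∧ rz a b r = [3]) := by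
  have h' : r.headD 0 < 4 := h
  by_cases h1 : r.length = 3 ∧ r.headD 0 = 0 ∧ r.getD 1 0 < a ∧ r.getD 2 0 < b
  · left
    have e := reg3 h1.1 h1.2.1
    refine ⟨r.getD 1 0, h1.2.2.1, r.getD 2 0, h1.2.2.2, e, ?_⟩
    simp only [rz, if_pos h1]
    conv_lhs => rw [e]
    rfl
  · right
    by_cases h2 : r = [2]
    · left
      refine ⟨h2, ?_⟩
      simp only [rz, if_neg h1, if_pos h2]
    · right
      refine ⟨h2, ?_, ?_⟩
      · rintro i hi c hc rfl
        exact h1 ⟨rfl, rfl, hi, hc⟩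
      · simp only [rz, if_neg h1, if_neg h2, if_pos h']

end TREZ

open TREZ Pool.Agent.Y648.CS.TTUP Pool.Agent.W920.FC.TORD1 Pool.Agent.Y648.CS.TREL

theorem t_REZ : S_REZ := by
  rintro a b g g' G P q v hg hord hwr hmem ⟨V, hVb, hVe, hVm⟩ hg2 hg0 ⟨qord, V', q1, q2, q3, q4⟩
  have h2b : ([2] : Reg) ∈ baseReg := by
    change (2 : ℕ) < 4
    norm_num
  have h3b : ([3] : Reg) ∈ baseReg := by
    change (3 : ℕ) < 4
    norm_num
  set T : Set Reg := baseReg ∪ Pool.Agent.W920.FC.wr P with hT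
  have hTh : ∀ r ∈ T, r.headD 0 ≠ 81 := by
    rintro r (h | h)
    · have : r.headD 0 < 4 := h
      omega
    · have := hwr r h
      omega
  have hrlT : ∀ r ∈ baseReg, rz a b r ∈ T := by
    intro r hr
    rcases rz_base (a := a) (b := b) hr with ⟨i, hi, c, hc, -, h⟩ | ⟨-, h⟩ | ⟨-, -, h⟩
    · rw [h]
      exact Or.inr (hmem i hi c hc)
    · rw [h]
      exact Or.inl h2b
    · rw [h]
      exact Or.inl h3b
  have hval : ∀ r, val V V' (rz a b r) = V' r := by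
    intro r
    by_cases hr : r ∈ baseReg
    · rw [val_ne (hTh _ (hrlT r hr)), q1 r hr]
      rcases rz_base (a := a) (b := b) hr with ⟨i, hi, c, hc, h0, h⟩ | ⟨h0, h⟩ | ⟨h0, h1, h⟩
      · rw [h, hVm i hi c hc, h0]
      · rw [h, hVb _ h2b, hg.1, h0, hg2]
      · rw [h, hVb _ h3b, hg.2, hg0 r hr h0 h1]
    · rw [rz_not hr]
      rfl
  refine ⟨?_, val V V', ?_, ?_, ?_, (hval q.2).trans q4⟩
  · change Ord baseReg (P ++ q.1.map (rzI a b))
    rw [ord_append]
    refine ⟨hord, ?_⟩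
    refine ord_ren (rz a b) q.1 baseReg T hrlT ?_ ?_ qord
    · intro r hr h
      rw [rz_not hr] at h
      exact hTh _ h rfl
    · intro r hr r' hr' h
      rw [rz_not hr, rz_not hr'] at h
      simpa using h
  · intro r hr
    rw [val_ne (hTh r (Or.inl hr)), hVb r hr]
  · intro I hI
    change I ∈ P ++ q.1.map (rzI a b) at hI
    rcases List.mem_append.1 hI with hI | hI
    · obtain ⟨f1, f2⟩ := ord_opr _ _ hord I hI
      obtain ⟨⟨e1, e2⟩, e3⟩ := hVe I hI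
      rw [val_ne (hTh _ f1), val_ne (hTh _ f2), val_ne (hTh I.dst (Or.inr ⟨I, hI, rfl⟩))]
      exact ⟨e1, e2, e3⟩
    · obtain ⟨J, hJ, rfl⟩ := List.mem_map.1 hI
      obtain ⟨e1, e2, e3⟩ := q2 J hJ
      change val V V' (rz a b J.dst) = J.op.eval (val V V' (rz a b J.fst))
        (val V V' (rz a b J.snd)) ∧ (J.op = Op.div → val V V' (rz a b J.snd) ≠ 0) ∧
        G (val V V' (rz a b J.dst))
      rw [hval, hval, hval]
      exact ⟨e1, e2, e3⟩
  · rcases q3 with h | ⟨J, hJ, h⟩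
    · rcases hrlT _ h with h | ⟨I, hI, h⟩
      · exact Or.inl h
      · exact Or.inr ⟨I, List.mem_append_left _ hI, h⟩
    · right
      refine ⟨rzI a b J, List.mem_append_right _ (List.mem_map.2 ⟨J, hJ, rfl⟩), ?_⟩
      change rz a b J.dst = rz a b q.2
      rw [h]

end Pool.Agent.Y648.TP
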