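import Pool.Agent.Y648.TP.StmC

set_option autoImplicit false

/-!
# The signs of the rows (job Y648-C4)
-/

namespace Pool.Agent.Y648.TP

open Pool.Agent.NPC Pool.Agent.H558R2 Pool.Agent.H622R3.SM Pool.Agent.W920.FC Pool.Agent.Y648.CS

namespace Sgn

open Finset Function

/-! ### Vandermonde products as a sign of the order -/

/-- The Vandermonde product. -/
noncomputable def vdm {r : ℕ} (g : Fin r → ℕ) : ℝ := (Matrix.vandermonde fun k => (g k : ℝ)).det

theorem vdm_eq {r : ℕ} (g : Fin r → ℕ) :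
    vdm g = ∏ i : Fin r, ∏ j ∈ Ioi i, ((g j : ℝ) - g i) := Matrix.det_vandermonde _

theorem vdm_pos {r : ℕ} (f : Fin r → ℕ) (hf : StrictMono f) : 0 < vdm f := by
  rw [vdm_eq]
  refine prod_pos fun i _ => prod_pos fun j hj => ?_
  have h : (f i : ℝ) < f j := by exact_mod_cast hf (mem_Ioi.mp hj)
  linarith

theorem vdm_perm {r : ℕ} (g : Fin r → ℕ) (π : Equiv.Perm (Fin r)) :
    vdm (g ∘ π) = ((Equiv.Perm.sign π : ℤ) : ℝ) * vdm g := by
  have h : (Matrix.vandermonde fun k => ((g ∘ π) k : ℝ)) =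
      (Matrix.vandermonde fun k => (g k : ℝ)).submatrix π id := by
    ext i j; simp [Matrix.vandermonde]
  rw [vdm, h, Matrix.det_permute]
  rfl

/-- The minor with the rows `g`. -/
noncomputable def mm (a : ℕ → ℕ → ℝ) (J : List ℕ) (g : Fin J.length → ℕ) : ℝ :=
  (Matrix.of fun i k : Fin J.length => a (g k) (J.getD i 0)).det

theorem mm_perm (a : ℕ → ℕ → ℝ) (J : List ℕ) (g : Fin J.length → ℕ)
    (π : Equiv.Perm (Fin J.length)) :
    mm a J (g ∘ π) = ((Equiv.Perm.sign π : ℤ) : ℝ) * mm a J g := by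
  have h : (Matrix.of fun i k : Fin J.length => a ((g ∘ π) k) (J.getD i 0)) =
      (Matrix.of fun i k : Fin J.length => a (g k) (J.getD i 0)).submatrix id π := by
    ext i j; rfl
  rw [mm, h, Matrix.det_permute']
  rfl

theorem tn_inj {m : ℕ} {a : ℕ → ℕ → ℝ} {J : List ℕ} {ρ : ℕ → ℝ} {ε : ℝ}
    (h : ∀ f : Fin J.length → ℕ, StrictMono f → (∀ k, f k < m) →
      0 ≤ ε * ((∏ k, ρ (f k)) * mm a J f))
    (g : Fin J.length → ℕ) (hg : Injective g) (hm : ∀ k, g k < m) :
    0 ≤ ε * ((∏ k, ρ (g k)) * mm a J g) * vdm g := by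
  set π := Tuple.sort g with hπ
  have hf : StrictMono (g ∘ π) :=
    (Tuple.monotone_sort g).strictMono_of_injective (hg.comp π.injective)
  have h1 := h (g ∘ π) hf fun k => hm _
  have h2 := (vdm_pos (g ∘ π) hf).le
  have h3 := mul_nonneg h1 h2
  rw [mm_perm, vdm_perm] at h3
  have h4 : (∏ k, ρ ((g ∘ π) k)) = ∏ k, ρ (g k) := Equiv.prod_comp π fun k => ρ (g k)
  rw [h4] at h3
  have h5 : (((Equiv.Perm.sign π : ℤ) : ℝ)) * ((Equiv.Perm.sign π : ℤ) : ℝ) = 1 := by
    rcases Int.units_eq_one_or (Equiv.Perm.sign π) with h | h <;> simp [h]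
  calc (0 : ℝ) ≤ _ := h3
    _ = (((Equiv.Perm.sign π : ℤ) : ℝ) * ((Equiv.Perm.sign π : ℤ) : ℝ)) *
        (ε * ((∏ k, ρ (g k)) * mm a J g) * vdm g) := by ring
    _ = _ := by rw [h5, one_mul]

/-! ### One replacement -/

/-- `-1` if `x` is strictly between `u` and `v`. -/
noncomputable def eta (u v x : ℕ) : ℝ := if min u v < x ∧ x < max u v then -1 else 1

theorem eta_pos (u v x : ℕ) (h1 : x ≠ u) (h2 : x ≠ v) :
    0 < ((x : ℝ) - u) * ((x : ℝ) - v) * eta u v x := by
  unfold eta
  rcases lt_or_gt_of_ne h1 with h1 | h1 <;> rcases lt_or_gt_of_ne h2 with h2 | h2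
  · rw [if_neg (by omega)]
    have e1 : (x : ℝ) < u := by exact_mod_cast h1
    have e2 : (x : ℝ) < v := by exact_mod_cast h2
    nlinarith [mul_pos (sub_pos.mpr e1) (sub_pos.mpr e2)]
  · rw [if_pos (by omega)]
    have e1 : (x : ℝ) < u := by exact_mod_cast h1
    have e2 : (v : ℝ) < x := by exact_mod_cast h2
    nlinarith [mul_pos (sub_pos.mpr e1) (sub_pos.mpr e2)]
  · rw [if_pos (by omega)]
    have e1 : (u : ℝ) < x := by exact_mod_cast h1
    have e2 : (x : ℝ) < v := by exact_mod_cast h2
    nlinarith [mul_pos (sub_pos.mpr e1) (sub_pos.mpr e2)]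
  · rw [if_neg (by omega)]
    have e1 : (u : ℝ) < x := by exact_mod_cast h1
    have e2 : (v : ℝ) < x := by exact_mod_cast h2
    nlinarith [mul_pos (sub_pos.mpr e1) (sub_pos.mpr e2)]

theorem eta_self (u v : ℕ) : eta u v u = 1 := by
  unfold eta
  rw [if_neg (by omega)]

theorem prod_pairs {r : ℕ} (p : Fin r) (η : Fin r → ℝ) (h : η p = 1) :
    ∏ i : Fin r, ∏ j ∈ Ioi i, (if i = p then η j else if j = p then η i else 1) = ∏ q, η q := by
  have e1 : ∏ j ∈ Ioi p, (if p = p then η j else if j = p then η p else 1) =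
      ∏ q ∈ univ.erase p, (if p < q then η q else 1) := by
    rw [← prod_filter]
    have : (univ.erase p).filter (fun q => p < q) = Ioi p := by
      ext q
      simp only [mem_filter, mem_erase, mem_univ, and_true, mem_Ioi]
      constructor
      · exact fun h => h.2
      · exact fun h => ⟨h.ne', h⟩
    rw [this]
    exact prod_congr rfl fun j _ => by simp
  have e2 : ∏ i ∈ univ.erase p, ∏ j ∈ Ioi i, (if i = p then η j else if j = p then η i else 1) =
      ∏ q ∈ univ.erase p, (if q < p then η q else 1) := by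
    refine prod_congr rfl fun i hi => ?_
    have hip : i ≠ p := (mem_erase.mp hi).1
    simp only [if_neg hip]
    rw [prod_ite_eq']
    simp only [mem_Ioi]
  rw [← mul_prod_erase univ _ (mem_univ p), ← mul_prod_erase univ η (mem_univ p), e1, e2, h,
    one_mul, ← prod_mul_distrib]
  refine prod_congr rfl fun q hq => ?_
  have hqp : q ≠ p := (mem_erase.mp hq).1
  rcases lt_or_gt_of_ne hqp with h | h
  · rw [if_neg (not_lt.mpr h.le), if_pos h, one_mul]
  · rw [if_pos h, if_neg (not_lt.mpr h.le), mul_one]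

theorem vdm_upd {r : ℕ} (g : Fin r → ℕ) (p : Fin r) (c : ℕ) (hg : Injective g)
    (hc : ∀ q, g q ≠ c) :
    0 < vdm (update g p c) * vdm g * ∏ q, eta (g p) c (g q) := by
  rw [vdm_eq, vdm_eq, ← prod_pairs p (fun q => eta (g p) c (g q)) (eta_self _ _),
    ← prod_mul_distrib, ← prod_mul_distrib]
  refine prod_pos fun i _ => ?_
  rw [← prod_mul_distrib, ← prod_mul_distrib]
  refine prod_pos fun j hj => ?_
  have hij : i < j := mem_Ioi.mp hj
  have hgij : g i ≠ g j := fun h => hij.ne (hg h)
  by_cases hi : i = p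
  · subst hi
    rw [update_self, update_of_ne hij.ne', if_pos rfl]
    have := eta_pos (g i) c (g j) (fun h => hgij h.symm) (hc j)
    linarith [this]
  · by_cases hj' : j = p
    · subst hj'
      rw [update_self, update_of_ne hi, if_neg hi, if_pos rfl]
      have := eta_pos (g j) c (g i) hgij (hc i)
      linarith [this]
    · rw [update_of_ne hi, update_of_ne hj', if_neg hi, if_neg hj', mul_one]
      have h1 : (g j : ℝ) - g i ≠ 0 := by
        intro h
        apply hgij
        have h2 : (g j : ℝ) = g i := by linarith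
        exact_mod_cast h2.symm
      exact mul_self_pos.mpr h1

/-! ### Lists -/

theorem getD_set' (I : List ℕ) (k k' c : ℕ) (h : k' < I.length) :
    (I.set k c).getD k' 0 = if k' = k then c else I.getD k' 0 := by
  rw [List.getD_eq_getElem _ _ (by rw [List.length_set]; exact h), List.getD_eq_getElem _ _ h,
    List.getElem_set]
  by_cases hk : k' = k
  · rw [if_pos hk, if_pos hk.symm]
  · rw [if_neg hk, if_neg (fun h => hk h.symm)]

theorem sum_getD (L : List ℕ) (G : ℕ → ℝ) :
    ∑ q : Fin L.length, G (L.getD q 0) = (L.map G).sum := by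
  rw [← Fin.sum_univ_fun_getElem]
  exact sum_congr rfl fun q _ => by rw [List.getD_eq_getElem _ _ q.2]

theorem prod_getD (L : List ℕ) (G : ℕ → ℝ) :
    ∏ q : Fin L.length, G (L.getD q 0) = (L.map G).prod := by
  rw [← Fin.prod_univ_fun_getElem]
  exact prod_congr rfl fun q _ => by rw [List.getD_eq_getElem _ _ q.2]

theorem sum_filter' (L : List ℕ) (p : ℕ → Bool) (G : ℕ → ℝ) :
    ((L.filter p).map G).sum = (L.map fun k => if p k then G k else 0).sum := by
  induction L with
  | nil => rfl
  | cons x L ih =>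
    rw [List.filter_cons]
    by_cases h : p x = true
    · rw [if_pos h]; simp [ih, h]
    · rw [if_neg h]; simp [ih, h]

theorem sum_range' (n : ℕ) (G : ℕ → ℝ) : ((List.range n).map G).sum = ∑ k ∈ range n, G k := by
  induction n with
  | zero => rfl
  | succ n ih => rw [List.range_succ, List.map_append, List.sum_append, ih, sum_range_succ]; simp

theorem list_eq (I : List ℕ) : I = (List.range I.length).map fun k => I.getD k 0 := by
  apply List.ext_getElem
  · simp
  · intro i h1 h2
    simp only [List.getElem_map, List.getElem_range]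
    rw [List.getD_eq_getElem _ _ h1]

/-! ### The tableau -/

section

variable {m n : ℕ} {a : ℕ → ℕ → ℝ} {I : List ℕ}

theorem cols_lt (q : Fin (cols m n I).length) :
    (cols m n I).getD q 0 < n ∧ I.getD ((cols m n I).getD q 0) 0 < m := by
  have h : (cols m n I).getD q 0 ∈ cols m n I := by
    rw [List.getD_eq_getElem _ _ q.2]
    exact List.getElem_mem q.2
  generalize (cols m n I).getD (q : ℕ) 0 = x at h
  unfold cols at h
  rw [List.mem_filter] at h
  exact ⟨List.mem_range.mp h.1, by simpa using h.2⟩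

theorem cols_inj (q q' : Fin (cols m n I).length)
    (h : (cols m n I).getD q 0 = (cols m n I).getD q' 0) : q = q' := by
  have hnd : (cols m n I).Nodup := by
    unfold cols
    exact (List.nodup_range).filter _
  rw [List.getD_eq_getElem _ _ q.2, List.getD_eq_getElem _ _ q'.2] at h
  exact Fin.ext ((hnd.getElem_inj_iff).mp h)

theorem dt_set (hI : I.length = n) (k : ℕ) (hk : k < n) (c : ℕ) :
    dt n (Mu m a) (I.set k c) =
      ((Matrix.of fun i k : Fin n => Mu m a (I.getD k 0) i).updateCol ⟨k, hk⟩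
        (fun i => Mu m a c i)).det := by
  unfold dt
  congr 1
  ext i k'
  rw [Matrix.of_apply, getD_set' I k k' c (by rw [hI]; exact k'.2), Matrix.updateCol_apply]
  by_cases h : (k' : ℕ) = k
  · rw [if_pos h, if_pos (Fin.ext h)]
  · rw [if_neg h, if_neg (fun h' => h (by rw [h']))]
    rfl

theorem dt_eq (hI : I.length = n) {k k' : ℕ} (hk : k < n) (hk' : k' < n) (h : k ≠ k') :
    dt n (Mu m a) (I.set k (I.getD k' 0)) = 0 := by
  rw [dt_set hI k hk]
  refine Matrix.det_zero_of_column_eq (i := ⟨k, hk⟩) (j := ⟨k', hk'⟩)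
    (fun h' => h (Fin.mk.inj_iff.mp h')) fun i => ?_
  rw [Matrix.updateCol_apply, if_pos rfl, Matrix.updateCol_apply,
    if_neg (fun h' => h (Fin.mk.inj_iff.mp h').symm)]
  rfl

theorem I_inj (hd : dt n (Mu m a) I ≠ 0) {k k' : ℕ} (hk : k < n) (hk' : k' < n)
    (h : I.getD k 0 = I.getD k' 0) : k = k' := by
  by_contra hne
  apply hd
  refine Matrix.det_zero_of_column_eq (i := ⟨k, hk⟩) (j := ⟨k', hk'⟩)
    (fun h' => hne (Fin.mk.inj_iff.mp h')) fun i => ?_
  simp only [Matrix.of_apply]
  rw [h]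

/-- The coefficient of the row `c` at the element number `J q` of the basis. -/
noncomputable def al (m n : ℕ) (a : ℕ → ℕ → ℝ) (I : List ℕ) (k c : ℕ) : ℝ :=
  dt n (Mu m a) (I.set k c) / dt n (Mu m a) I

theorem row_exp (hB : Bs m n a I) (c : ℕ) (hc : c < m) (i : ℕ) (hi : i < n) :
    a c i = ∑ q : Fin (cols m n I).length, al m n a I ((cols m n I).getD q 0) c *
      a (I.getD ((cols m n I).getD q 0) 0) i := by
  obtain ⟨hI, h1, h2, h3⟩ := hB
  rw [sum_getD (cols m n I) fun k => al m n a I k c * a (I.getD k 0) i, cols, sum_filter',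
    sum_range']
  have key := congrFun (Matrix.mulVec_cramer (Matrix.of fun i k : Fin n => Mu m a (I.getD k 0) i)
    (fun i => Mu m a c i)) ⟨i, hi⟩
  rw [Matrix.mulVec, dotProduct] at key
  simp only [Matrix.of_apply, Matrix.cramer_apply, Pi.smul_apply, smul_eq_mul] at key
  have e0 : Mu m a c i = a c i := by unfold Mu; rw [if_pos hc]
  rw [e0] at key
  have e1 : (Matrix.of fun i k : Fin n => Mu m a (I.getD k 0) i).det = dt n (Mu m a) I := rfl
  rw [e1] at key
  have e2 : ∀ k : Fin n, Mu m a (I.getD k 0) i *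
      ((Matrix.of fun i k : Fin n => Mu m a (I.getD k 0) i).updateCol k
        (fun i => Mu m a c i)).det =
      dt n (Mu m a) I * (if decide (I.getD (k : ℕ) 0 < m) = true then
        al m n a I k c * a (I.getD k 0) i else 0) := by
    intro k
    have e3 := dt_set (m := m) (a := a) hI k k.2 c
    rw [show (⟨(k : ℕ), k.2⟩ : Fin n) = k from rfl] at e3
    rw [← e3]
    by_cases hk : I.getD (k : ℕ) 0 < m
    · have eM : Mu m a (I.getD (k : ℕ) 0) i = a (I.getD (k : ℕ) 0) i := by
        unfold Mu; rw [if_pos hk]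
      rw [if_pos (by simpa using hk), eM, al]
      field_simp
    · rw [if_neg (by simpa using hk), h3 k k.2 (not_lt.mp hk) c hc]
      ring
  rw [sum_congr rfl fun k _ => e2 k, ← mul_sum] at key
  have e4 := mul_left_cancel₀ h2 key
  rw [← e4, sum_range]

theorem mm_upd (hB : Bs m n a I) (p : Fin (cols m n I).length) (c : ℕ) (hc : c < m) :
    mm a (cols m n I) (update (fun q : Fin (cols m n I).length =>
      I.getD ((cols m n I).getD q 0) 0) p c) = al m n a I ((cols m n I).getD p 0) c *
        mm a (cols m n I) fun q => I.getD ((cols m n I).getD q 0) 0 := by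
  set AB : Matrix (Fin (cols m n I).length) (Fin (cols m n I).length) ℝ :=
    Matrix.of fun i k => a (I.getD ((cols m n I).getD k 0) 0) ((cols m n I).getD i 0) with hAB
  have h := Matrix.det_updateCol_sum AB p fun q => al m n a I ((cols m n I).getD q 0) c
  rw [smul_eq_mul] at h
  rw [show mm a (cols m n I) (fun q => I.getD ((cols m n I).getD q 0) 0) = AB.det from rfl, ← h]
  unfold mm
  congr 1
  ext i k
  rw [Matrix.of_apply, Matrix.updateCol_apply]
  by_cases hk : k = p
  · rw [if_pos hk, hk, update_self, row_exp hB c hc _ (cols_lt i).1]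
    rfl
  · rw [if_neg hk, update_of_ne hk]
    rfl

theorem mm_fac (hB : Bs m n a I) (f : Fin (cols m n I).length → ℕ) (hf : ∀ k, f k < m) :
    mm a (cols m n I) f = (mm a (cols m n I) fun q => I.getD ((cols m n I).getD q 0) 0) *
      (Matrix.of fun q k : Fin (cols m n I).length =>
        al m n a I ((cols m n I).getD q 0) (f k)).det := by
  unfold mm
  rw [← Matrix.det_mul]
  congr 1
  ext i k
  rw [Matrix.mul_apply, Matrix.of_apply, row_exp hB (f k) (hf k) _ (cols_lt i).1]
  exact sum_congr rfl fun q _ => by rw [Matrix.of_apply, Matrix.of_apply, mul_comm]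

/-- The number of elements of the basis between two rows. -/
theorem prod_eta (hI : I.length = n) (u c : ℕ) (hu : u < m) (hc : c < m) :
    ∏ q : Fin (cols m n I).length, eta u c (I.getD ((cols m n I).getD q 0) 0) =
      (-1) ^ btw I u c := by
  rw [prod_getD (cols m n I) fun k => eta u c (I.getD k 0)]
  have h1 : ∀ L : List ℕ, (L.map (eta u c)).prod =
      (-1) ^ (L.filter fun x => decide (min u c < x) && decide (x < max u c)).length := by
    intro L
    induction L with
    | nil => simp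
    | cons x L ih =>
      rw [List.map_cons, List.prod_cons, ih, List.filter_cons]
      unfold eta
      by_cases hx : min u c < x ∧ x < max u c
      · rw [if_pos hx, if_pos (by simpa using hx), List.length_cons, pow_succ]; ring
      · rw [if_neg hx, if_neg (by simpa using hx), one_mul]
  have h2 : (cols m n I).map (fun k => I.getD k 0) = I.filter fun x => decide (x < m) := by
    conv_rhs => rw [list_eq I, List.filter_map, hI]
    unfold cols
    rfl
  rw [show (fun k => eta u c (I.getD k 0)) = (eta u c) ∘ (fun k => I.getD k 0) from rfl,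
    ← List.map_map, h2, h1, List.filter_filter, btw]
  congr 2
  apply List.filter_congr
  intro x _
  by_cases hx : min u c < x ∧ x < max u c
  · have : x < m := by omega
    simp [this]
  · have : (decide (min u c < x) && decide (x < max u c)) = false := by simpa using hx
    rw [this, Bool.false_and]

theorem sign_rel (hB : Bs m n a I) {ρ : ℕ → ℝ} {ε : ℝ} (hρ : ∀ i < m, ρ i ≠ 0) (hε : ε ≠ 0)
    (h : ∀ f : Fin (cols m n I).length → ℕ, StrictMono f → (∀ k, f k < m) →
      0 ≤ ε * ((∏ k, ρ (f k)) * mm a (cols m n I) f))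
    (hD : (mm a (cols m n I) fun q => I.getD ((cols m n I).getD q 0) 0) ≠ 0)
    (k : ℕ) (hk : k < n) (hkm : I.getD k 0 < m) (c : ℕ) (hc : c < m) (hcI : c ∉ I)
    (hne : dt n (Mu m a) (I.set k c) ≠ 0) :
    0 < ρ c * ρ (I.getD k 0) * (dt n (Mu m a) I * dt n (Mu m a) (I.set k c)) *
      (-1) ^ (btw I (I.getD k 0) c) := by
  have hkJ : k ∈ cols m n I := by
    unfold cols
    rw [List.mem_filter]
    exact ⟨List.mem_range.mpr hk, by simpa using hkm⟩
  obtain ⟨p', hp', hpk⟩ := List.mem_iff_getElem.mp hkJ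
  set p : Fin (cols m n I).length := ⟨p', hp'⟩ with hp
  have hpJ : (cols m n I).getD p 0 = k := by rw [List.getD_eq_getElem _ _ hp', hpk]
  set b : Fin (cols m n I).length → ℕ := fun q => I.getD ((cols m n I).getD q 0) 0 with hb
  have hbm : ∀ q, b q < m := fun q => (cols_lt q).2
  have hbI : ∀ q, b q ∈ I := fun q => by
    have h1 : (cols m n I).getD q 0 < I.length := by rw [hB.1]; exact (cols_lt q).1
    rw [hb]
    simp only
    rw [List.getD_eq_getElem _ _ h1]
    exact List.getElem_mem h1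
  have hbi : Injective b := fun q q' hq =>
    cols_inj q q' (I_inj hB.2.2.1 (cols_lt q).1 (cols_lt q').1 hq)
  have hbc : ∀ q, b q ≠ c := fun q hq => hcI (hq ▸ hbI q)
  have hbp : b p = I.getD k 0 := by rw [hb]; simp only; rw [hpJ]
  have hgi : Injective (update b p c) := by
    intro q q' hq
    by_cases h1 : q = p
    · by_cases h2 : q' = p
      · rw [h1, h2]
      · rw [h1, update_self, update_of_ne h2] at hq
        exact absurd hq.symm (hbc q')
    · by_cases h2 : q' = p
      · rw [h2, update_self, update_of_ne h1] at hq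
        exact absurd hq (hbc q)
      · rw [update_of_ne h1, update_of_ne h2] at hq
        exact hbi hq
  have hgm : ∀ q, update b p c q < m := by
    intro q
    by_cases h1 : q = p
    · rw [h1, update_self]; exact hc
    · rw [update_of_ne h1]; exact hbm q
  have X := tn_inj h b hbi hbm
  have X' := tn_inj h (update b p c) hgi hgm
  have V := vdm_upd b p c hbi hbc
  rw [hbp, prod_eta hB.1 _ _ hkm hc] at V
  have hmm := mm_upd hB p c hc
  rw [hpJ] at hmm
  rw [show (fun q : Fin (cols m n I).length => I.getD ((cols m n I).getD q 0) 0) = b from rfl]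
    at hmm
  rw [hmm] at X'
  have hP : (∏ q, ρ (b q)) = ρ (I.getD k 0) * ∏ q ∈ univ.erase p, ρ (b q) := by
    rw [← mul_prod_erase univ _ (mem_univ p), hbp]
  have hP' : (∏ q, ρ (update b p c q)) = ρ c * ∏ q ∈ univ.erase p, ρ (b q) := by
    rw [← mul_prod_erase univ _ (mem_univ p), update_self]
    congr 1
    exact prod_congr rfl fun q hq => by rw [update_of_ne (mem_erase.mp hq).1]
  set R : ℝ := ∏ q ∈ univ.erase p, ρ (b q) with hR
  have hR0 : R ≠ 0 := prod_ne_zero_iff.mpr fun q _ => hρ _ (hbm q)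
  rw [hP] at X
  rw [hP'] at X'
  set D := mm a (cols m n I) b with hDdef
  set s : ℝ := (-1) ^ (btw I (I.getD k 0) c) with hs
  have hs2 : s * s = 1 := by
    rw [hs, ← mul_pow]; norm_num
  set A := al m n a I k c with hA
  have hd := hB.2.2.1
  have hA0 : A ≠ 0 := div_ne_zero hne hd
  have hAd : dt n (Mu m a) I * dt n (Mu m a) (I.set k c) = A * (dt n (Mu m a) I) ^ 2 := by
    rw [hA, al]; field_simp
  have hY : 0 ≤ ρ c * ρ (I.getD k 0) * A * s := by
    have h1 := mul_nonneg X X'
    have h2 : ε * (ρ (I.getD k 0) * R * D) * vdm b * (ε * (ρ c * R * (A * D)) * vdm (update b p c)) =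
        (ρ c * ρ (I.getD k 0) * A * s) *
          ((ε * D * R) ^ 2 * (vdm (update b p c) * vdm b * s)) := by
      calc _ = (ρ c * ρ (I.getD k 0) * A) *
          ((ε * D * R) ^ 2 * (vdm (update b p c) * vdm b)) * 1 := by ring
        _ = _ := by rw [← hs2]; ring
    rw [h2] at h1
    have h3 : 0 < (ε * D * R) ^ 2 * (vdm (update b p c) * vdm b * s) := by
      have : ε * D * R ≠ 0 := mul_ne_zero (mul_ne_zero hε hD) hR0
      positivity
    exact nonneg_of_mul_nonneg_left h1 h3
  have hs0 : s ≠ 0 := fun h => by rw [h] at hs2; norm_num at hs2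
  have hY' : 0 < ρ c * ρ (I.getD k 0) * A * s := lt_of_le_of_ne hY
    (mul_ne_zero (mul_ne_zero (mul_ne_zero (hρ c hc) (hρ _ hkm)) hA0) hs0).symm
  rw [hAd]
  have h5 : 0 < (dt n (Mu m a) I) ^ 2 := by positivity
  have := mul_pos hY' h5
  linarith [this]

end

/-! ### The edges -/

theorem mem_edg {m n : ℕ} {I : List ℕ} {o : List Outcome} {u v : ℕ} {t : Bool} :
    t ∈ edg m n I o u v ↔ ∃ k < n, (I.getD k 0 = u ∧ v ∉ I ∧ t ∈ hlf m I o k v) ∨
      (I.getD k 0 = v ∧ u ∉ I ∧ t ∈ hlf m I o k u) := by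
  unfold edg
  rw [List.mem_flatMap]
  refine exists_congr fun k => ?_
  rw [List.mem_range, List.mem_append]
  refine and_congr_right fun _ => or_congr ?_ ?_
  · by_cases h : I.getD k 0 = u ∧ v ∉ I
    · rw [if_pos (by simpa using h)]
      exact ⟨fun ht => ⟨h.1, h.2, ht⟩, fun ht => ht.2.2⟩
    · rw [if_neg (by simpa using h)]
      exact ⟨fun ht => absurd ht List.not_mem_nil, fun ht => absurd ⟨ht.1, ht.2.1⟩ h⟩
  · by_cases h : I.getD k 0 = v ∧ u ∉ I
    · rw [if_pos (by simpa using h)]
      exact ⟨fun ht => ⟨h.1, h.2, ht⟩, fun ht => ht.2.2⟩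
    · rw [if_neg (by simpa using h)]
      exact ⟨fun ht => absurd ht List.not_mem_nil, fun ht => absurd ⟨ht.1, ht.2.1⟩ h⟩

theorem hlf_mem {m : ℕ} {I : List ℕ} {o : List Outcome} {k c : ℕ} {t : Bool} {x : ℝ}
    (ho : o.getD (k * m + c) none = signOut x) (ht : t ∈ hlf m I o k c) :
    x ≠ 0 ∧ t = (decide (0 < x) == decide (btw I (I.getD k 0) c % 2 = 0)) := by
  unfold hlf at ht
  rw [ho] at ht
  unfold signOut at ht
  by_cases h1 : 0 < x
  · rw [if_pos h1] at ht
    simp only [Option.elim] at ht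
    rw [List.mem_singleton] at ht
    refine ⟨h1.ne', ?_⟩
    rw [ht, decide_eq_true h1]
  · rw [if_neg h1] at ht
    by_cases h2 : x < 0
    · rw [if_pos h2] at ht
      simp only [Option.elim] at ht
      rw [List.mem_singleton] at ht
      refine ⟨h2.ne, ?_⟩
      rw [ht, decide_eq_false h1]
    · rw [if_neg h2] at ht
      simp only [Option.elim] at ht
      exact absurd ht List.not_mem_nil

theorem hlf_ex {m : ℕ} {I : List ℕ} {o : List Outcome} {k c : ℕ} {x : ℝ}
    (ho : o.getD (k * m + c) none = signOut x) (hx : x ≠ 0) : ∃ t, t ∈ hlf m I o k c := by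
  unfold hlf
  rw [ho]
  unfold signOut
  by_cases h1 : 0 < x
  · rw [if_pos h1]
    exact ⟨_, List.mem_singleton.mpr rfl⟩
  · rw [if_neg h1, if_pos (lt_of_le_of_ne (not_lt.mp h1) hx)]
    exact ⟨_, List.mem_singleton.mpr rfl⟩

theorem bool_aux (x y z : ℝ) (N : ℕ) (hx : x ≠ 0) (h : 0 < y * x * z * (-1) ^ N) :
    (decide (0 < x) == decide (0 < y)) = (decide (0 < z) == decide (N % 2 = 0)) := by
  have hy : y ≠ 0 := by
    rintro rfl; simp at h
  rcases Nat.even_or_odd N with hN | hN
  · rw [hN.neg_one_pow, mul_one] at h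
    rw [decide_eq_true (Nat.even_iff.mp hN)]
    rcases lt_or_gt_of_ne hx with h1 | h1 <;> rcases lt_or_gt_of_ne hy with h2 | h2
    · have h3 : 0 < z := by
        by_contra h4
        nlinarith [mul_pos_of_neg_of_neg h2 h1]
      simp [h3, not_lt.mpr h1.le, not_lt.mpr h2.le]
    · have h3 : ¬ 0 < z := by
        intro h4
        nlinarith [mul_neg_of_pos_of_neg h2 h1, mul_pos (mul_pos h2 (neg_pos.mpr h1)) h4]
      simp [h3, not_lt.mpr h1.le, h2]
    · have h3 : ¬ 0 < z := by
        intro h4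
        nlinarith [mul_neg_of_neg_of_pos h2 h1, mul_pos (mul_pos (neg_pos.mpr h2) h1) h4]
      simp [h3, h1, not_lt.mpr h2.le]
    · have h3 : 0 < z := by
        by_contra h4
        nlinarith [mul_pos h2 h1]
      simp [h3, h1, h2]
  · rw [hN.neg_one_pow] at h
    have hN' : ¬ N % 2 = 0 := by
      have := Nat.odd_iff.mp hN
      omega
    rw [decide_eq_false hN']
    rcases lt_or_gt_of_ne hx with h1 | h1 <;> rcases lt_or_gt_of_ne hy with h2 | h2
    · have h3 : ¬ 0 < z := by
        intro h4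
        nlinarith [mul_pos (mul_pos_of_neg_of_neg h2 h1) h4]
      simp [h3, not_lt.mpr h1.le, not_lt.mpr h2.le]
    · have h3 : 0 < z := by
        by_contra h4
        nlinarith [mul_neg_of_pos_of_neg h2 h1]
      simp [h3, not_lt.mpr h1.le, h2]
    · have h3 : 0 < z := by
        by_contra h4
        nlinarith [mul_neg_of_neg_of_pos h2 h1]
      simp [h3, h1, not_lt.mpr h2.le]
    · have h3 : ¬ 0 < z := by
        intro h4
        nlinarith [mul_pos (mul_pos h2 h1) h4]
      simp [h3, h1, h2]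

theorem sgn_getD {m n : ℕ} {I : List ℕ} {o : List Outcome} {σ : ℕ → Bool}
    (h : ∀ v < m, (lbl m (edg m n I o)).getD v none = some (σ v)) (v : ℕ) (hv : v < m) :
    (sgn m n I o).getD v true = σ v := by
  unfold sgn
  rw [List.getD_eq_getElem _ _ (by simpa using hv), List.getElem_map, List.getElem_range, h v hv]
  rfl

/-- The sign of a truth value. -/
noncomputable def sr (b : Bool) : ℝ := if b then 1 else -1

theorem sr_sq (b : Bool) : sr b * sr b = 1 := by cases b <;> norm_num [sr]

theorem sr_beq (b b' : Bool) : sr (b == b') = sr b * sr b' := by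
  cases b <;> cases b' <;> norm_num [sr]

end Sgn

open Finset Function Sgn in
/-- **Job Y648-C4.** The signs. -/
theorem t_SGN : S_COL → S_SRCH → S_SGN := by
  intro hCOL hSRCH m n a I o hn hB ho hT
  obtain ⟨ρ, ε, hρ, hε, hf⟩ := hT
  obtain ⟨-, hD, -, -, -⟩ := hCOL m n a I hB
  have hf' : ∀ f : Fin (cols m n I).length → ℕ, StrictMono f → (∀ k, f k < m) →
      0 ≤ ε * ((∏ k, ρ (f k)) * mm a (cols m n I) f) := hf
  have hD' : (mm a (cols m n I) fun q => I.getD ((cols m n I).getD q 0) 0) ≠ 0 := hD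
  -- the first solution
  have h0 : ∀ k < n, I.getD k 0 < m → ∀ c < m, c ∉ I → ∀ t ∈ hlf m I o k c,
      (decide (0 < ρ (I.getD k 0)) == decide (0 < ρ c)) = t := by
    intro k hk hkm c hc hcI t ht
    obtain ⟨h1, h2⟩ := hlf_mem (ho k hk c hc) ht
    rw [h2]
    exact bool_aux _ _ _ _ (hρ _ hkm) (sign_rel hB hρ hε hf' hD' k hk hkm c hc hcI
      (right_ne_zero_of_mul h1))
  obtain ⟨σ, hσ, hl⟩ := hSRCH m (edg m n I o)
    (fun u v t ht => by
      rw [mem_edg] at ht ⊢
      obtain ⟨k, hk, h | h⟩ := ht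
      · exact ⟨k, hk, Or.inr h⟩
      · exact ⟨k, hk, Or.inl h⟩)
    ⟨fun v => decide (0 < ρ v), fun u hu v hv t ht => by
      rw [mem_edg] at ht
      obtain ⟨k, hk, ⟨h1, h2, h3⟩ | ⟨h1, h2, h3⟩⟩ := ht
      · have := h0 k hk (by rw [h1]; exact hu) v hv h2 t h3
        rw [h1] at this
        exact this
      · have := h0 k hk (by rw [h1]; exact hv) u hu h2 t h3
        rw [h1] at this
        rw [← this]
        exact Bool.beq_comm⟩
  -- the labels relative to the first solution
  set τ : ℕ → Bool := fun v => (σ v == decide (0 < ρ v)) with hτ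
  have hτe : ∀ k < n, I.getD k 0 < m → ∀ c < m, dt n (Mu m a) (I.set k c) ≠ 0 →
      τ (I.getD k 0) = τ c := by
    intro k hk hkm c hc hne
    by_cases hcI : c ∈ I
    · obtain ⟨k', hk', rfl⟩ := List.mem_iff_getElem.mp hcI
      rw [← List.getD_eq_getElem (d := 0) I hk'] at hne ⊢
      have hk'' : k' < n := by rw [← hB.1]; exact hk'
      by_cases h : k = k'
      · rw [h]
      · exact absurd (dt_eq hB.1 hk hk'' h) hne
    · obtain ⟨t, ht⟩ := hlf_ex (ho k hk c hc) (mul_ne_zero hB.2.2.1 hne)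
      have h1 := h0 k hk hkm c hc hcI t ht
      have h2 := hσ _ hkm c hc t (mem_edg.mpr ⟨k, hk, Or.inl ⟨rfl, hcI, ht⟩⟩)
      rw [← h1] at h2
      simp only [hτ]
      revert h2
      cases σ (I.getD k 0) <;> cases σ c <;> cases decide (0 < ρ (I.getD k 0)) <;>
        cases decide (0 < ρ c) <;> simp
  set W : ℝ := ∏ q : Fin (cols m n I).length, sr (τ (I.getD ((cols m n I).getD q 0) 0)) with hW
  have hWW : W * W = 1 := by
    rw [hW, ← prod_mul_distrib]
    exact prod_eq_one fun q _ => sr_sq _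
  have hW0 : W ≠ 0 := fun h => by rw [h] at hWW; norm_num at hWW
  refine ⟨ε * W, mul_ne_zero hε hW0, fun f hfm hfb => ?_⟩
  have e1 : (Matrix.of fun i k : Fin (cols m n I).length =>
      sV (sgn m n I o) a (cols m n I) (f k) i).det =
      (∏ k, sr (σ (f k))) * mm a (cols m n I) f := by
    unfold mm
    rw [← Matrix.det_mul_row]
    congr 1
    ext i k
    rw [Matrix.of_apply, Matrix.of_apply, sV, sgn_getD hl _ (hfb k), Matrix.of_apply, sr]
    cases σ (f k) <;> simp
  rw [e1]
  by_cases hz : mm a (cols m n I) f = 0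
  · rw [hz]; simp
  have hprod : ∏ k, sr (τ (f k)) = W := by
    rw [mm_fac hB f hfb] at hz
    have hdet := right_ne_zero_of_mul hz
    rw [Matrix.det_apply] at hdet
    obtain ⟨π, -, hπ⟩ := exists_ne_zero_of_sum_ne_zero hdet
    have h2 : (∏ i, (Matrix.of fun q k : Fin (cols m n I).length =>
        al m n a I ((cols m n I).getD q 0) (f k)) (π i) i) ≠ 0 := by
      intro h3
      rw [h3, smul_zero] at hπ
      exact hπ rfl
    rw [prod_ne_zero_iff] at h2
    rw [hW, ← Equiv.prod_comp π fun q : Fin (cols m n I).length =>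
      sr (τ (I.getD ((cols m n I).getD q 0) 0))]
    refine prod_congr rfl fun k _ => ?_
    have h3 := h2 k (mem_univ k)
    rw [Matrix.of_apply, al] at h3
    have h4 : dt n (Mu m a) (I.set ((cols m n I).getD (π k) 0) (f k)) ≠ 0 := by
      intro h5
      rw [h5, zero_div] at h3
      exact h3 rfl
    rw [hτe _ (cols_lt (π k)).1 (cols_lt (π k)).2 (f k) (hfb k) h4]
  have hsr : ∏ k, sr (σ (f k)) = W * ∏ k, sr (decide (0 < ρ (f k))) := by
    rw [← hprod, ← prod_mul_distrib]
    refine prod_congr rfl fun k _ => ?_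
    simp only [hτ]
    rw [sr_beq, mul_assoc, sr_sq, mul_one]
  have habs : (∏ k, sr (decide (0 < ρ (f k)))) * ∏ k, |ρ (f k)| = ∏ k, ρ (f k) := by
    rw [← prod_mul_distrib]
    refine prod_congr rfl fun k _ => ?_
    rcases lt_or_gt_of_ne (hρ _ (hfb k)) with h | h
    · rw [decide_eq_false (not_lt.mpr h.le), abs_of_neg h]; simp [sr]
    · rw [decide_eq_true h, abs_of_pos h]; simp [sr]
  have hpos : 0 < ∏ k, |ρ (f k)| := prod_pos fun k _ => abs_pos.mpr (hρ _ (hfb k))
  have h6 := hf' f hfm hfb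
  rw [← habs] at h6
  have h7 : ε * W * ((∏ k, sr (σ (f k))) * mm a (cols m n I) f) =
      ε * ((∏ k, sr (decide (0 < ρ (f k)))) * mm a (cols m n I) f) := by
    rw [hsr]
    calc _ = ε * (W * W) * ((∏ k, sr (decide (0 < ρ (f k)))) * mm a (cols m n I) f) := by ring
      _ = _ := by rw [hWW, mul_one]
  rw [h7]
  refine nonneg_of_mul_nonneg_left (b := ∏ k, |ρ (f k)|) ?_ hpos
  calc (0 : ℝ) ≤ _ := h6
    _ = _ := by ring

end Pool.Agent.Y648.TP
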