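import Pool.Agent.Y648.TP.StmC

set_option autoImplicit false

/-!
# The search for signs
-/

namespace Pool.Agent.Y648.TP

/-- Labels agree with a solution. -/
def Cons (m : ℕ) (E : ℕ → ℕ → List Bool) (l : List (Option Bool)) : Prop :=
  ∃ σ : ℕ → Bool, (∀ u < m, ∀ v < m, ∀ t ∈ E u v, (σ u == σ v) = t) ∧
    ∀ v < m, ∀ b, l.getD v none = some b → b = σ v

/-- The number of labels. -/
def cntL (m : ℕ) (l : List (Option Bool)) : ℕ :=
  ((Finset.range m).filter fun v => ¬ l.getD v none = none).card

theorem spr_getD {m : ℕ} {E : ℕ → ℕ → List Bool} {l : List (Option Bool)} {v : ℕ} (hv : v < m) :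
    (spr m E l).getD v none = (l.getD v none).elim
      (((List.range m).flatMap fun u => (l.getD u none).elim [] fun a =>
        (E u v).map fun t => (a == t)).head?) some := by
  unfold spr
  rw [List.getD_eq_getElem _ _ (by simpa using hv)]
  simp

theorem spr_length {m : ℕ} {E : ℕ → ℕ → List Bool} {l : List (Option Bool)} :
    (spr m E l).length = m := by
  simp [spr]

theorem beq_fix {a b t : Bool} (h : (a == b) = t) : (a == t) = b := by
  cases a <;> cases b <;> cases t <;> simp_all

/-- A new label is forced. -/
theorem spr_cons {m : ℕ} {E : ℕ → ℕ → List Bool} {l : List (Option Bool)} {σ : ℕ → Bool}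
    (h1 : ∀ u < m, ∀ v < m, ∀ t ∈ E u v, (σ u == σ v) = t)
    (h2 : ∀ v < m, ∀ b, l.getD v none = some b → b = σ v) :
    ∀ v < m, ∀ b, (spr m E l).getD v none = some b → b = σ v := by
  intro v hv b hb
  rw [spr_getD hv] at hb
  cases hl : l.getD v none with
  | some a =>
    rw [hl] at hb
    simp only [Option.elim_some, Option.some.injEq] at hb
    rw [← hb]
    exact h2 v hv a hl
  | none =>
    rw [hl] at hb
    simp only [Option.elim_none] at hb
    have hm := List.mem_of_head? hb
    rw [List.mem_flatMap] at hm
    obtain ⟨u, hu, hm⟩ := hm
    rw [List.mem_range] at hu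
    cases hlu : l.getD u none with
    | none =>
      rw [hlu] at hm
      simp at hm
    | some a =>
      rw [hlu] at hm
      simp only [Option.elim_some, List.mem_map] at hm
      obtain ⟨t, ht, rfl⟩ := hm
      rw [h2 u hu a hlu]
      exact beq_fix (h1 u hu v hv t ht)

/-- If no label is added, then no edge joins a vertex with a label and one without a label. -/
theorem spr_edge {m : ℕ} {E : ℕ → ℕ → List Bool} {l : List (Option Bool)} {u v : ℕ} (hu : u < m)
    (hv : v < m) (h : (spr m E l).getD v none = none) (hlu : ¬ l.getD u none = none) {t : Bool}
    (ht : t ∈ E u v) : False := by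
  rw [spr_getD hv] at h
  cases hl : l.getD v none with
  | some a =>
    rw [hl] at h
    simp at h
  | none =>
    rw [hl] at h
    simp only [Option.elim_none] at h
    rw [List.head?_eq_none_iff] at h
    obtain ⟨a, ha⟩ := Option.ne_none_iff_exists'.1 hlu
    have hm : (a == t) ∈ (List.range m).flatMap fun u => (l.getD u none).elim [] fun a =>
        (E u v).map fun t => (a == t) := by
      rw [List.mem_flatMap]
      refine ⟨u, List.mem_range.2 hu, ?_⟩
      rw [ha]
      simp only [Option.elim_some, List.mem_map]
      exact ⟨t, ht, rfl⟩
    rw [h] at hm
    simp at hm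

theorem sst_step {m : ℕ} {E : ℕ → ℕ → List Bool} (hE : ∀ u v, ∀ t ∈ E u v, t ∈ E v u)
    {l : List (Option Bool)} (hl : l.length = m) (hc : Cons m E l) :
    (sst m E l).length = m ∧ Cons m E (sst m E l) ∧ min m (cntL m l + 1) ≤ cntL m (sst m E l) := by
  classical
  obtain ⟨σ, h1, h2⟩ := hc
  unfold sst
  by_cases hall : ((List.range m).all fun v =>
      decide ((spr m E l).getD v none = l.getD v none)) = true
  · rw [if_pos hall]
    rw [List.all_eq_true] at hall
    cases hh : (((List.range m).filter fun v => decide (l.getD v none = none)).head?) with
    | none =>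
      simp only [Option.elim_none]
      refine ⟨hl, ⟨σ, h1, h2⟩, ?_⟩
      rw [List.head?_eq_none_iff, List.filter_eq_nil_iff] at hh
      have h3 : cntL m l = m := by
        unfold cntL
        rw [Finset.filter_true_of_mem, Finset.card_range]
        intro v hv
        have := hh v (List.mem_range.2 (Finset.mem_range.1 hv))
        simpa using this
      omega
    | some v0 =>
      simp only [Option.elim_some]
      have hv0 := List.mem_of_head? hh
      rw [List.mem_filter, List.mem_range, decide_eq_true_eq] at hv0
      obtain ⟨hv0, hn0⟩ := hv0
      have hset : ∀ v, v < m → (l.set v0 (some true)).getD v none =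
          if v = v0 then some true else l.getD v none := by
        intro v hv
        rw [List.getD_eq_getElem _ _ (by rw [List.length_set, hl]; exact hv), List.getElem_set]
        by_cases h : v = v0
        · rw [if_pos h.symm, if_pos h]
        · rw [if_neg (fun h' => h h'.symm), if_neg h, List.getD_eq_getElem _ _ (by rw [hl]; exact hv)]
      have hnoedge : ∀ u < m, ∀ v < m, ¬ l.getD u none = none → l.getD v none = none →
          ∀ t, t ∉ E u v := by
        intro u hu v hv h3 h4 t ht
        have h5 := hall v (List.mem_range.2 hv)
        rw [decide_eq_true_eq, h4] at h5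
        exact spr_edge hu hv h5 h3 ht
      refine ⟨by rw [List.length_set, hl], ?_, ?_⟩
      · by_cases hσ : σ v0 = true
        · refine ⟨σ, h1, fun v hv b hb => ?_⟩
          rw [hset v hv] at hb
          by_cases h : v = v0
          · rw [if_pos h, Option.some.injEq] at hb
            rw [← hb, h, hσ]
          · rw [if_neg h] at hb
            exact h2 v hv b hb
        · refine ⟨fun v => if l.getD v none = none then !(σ v) else σ v, ?_, ?_⟩
          · intro u hu v hv t ht
            have h3 := h1 u hu v hv t ht
            by_cases hlu : l.getD u none = none
            · by_cases hlv : l.getD v none = none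
              · simp only [if_pos hlu, if_pos hlv]
                rw [← h3]
                cases σ u <;> cases σ v <;> rfl
              · exact absurd (hE u v t ht) (hnoedge v hv u hu hlv hlu t)
            · by_cases hlv : l.getD v none = none
              · exact absurd ht (hnoedge u hu v hv hlu hlv t)
              · simp only [if_neg hlu, if_neg hlv]
                exact h3
          · intro v hv b hb
            rw [hset v hv] at hb
            by_cases h : v = v0
            · rw [if_pos h, Option.some.injEq] at hb
              rw [h]
              simp only [if_pos hn0]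
              rw [← hb]
              cases hs : σ v0 with
              | false => rfl
              | true => exact absurd hs hσ
            · rw [if_neg h] at hb
              have h3 : ¬ l.getD v none = none := by rw [hb]; simp
              simp only [if_neg h3]
              exact h2 v hv b hb
      · have h3 : cntL m l + 1 ≤ cntL m (l.set v0 (some true)) := by
          unfold cntL
          have h4 : insert v0 ((Finset.range m).filter fun v => ¬ l.getD v none = none) ⊆
              (Finset.range m).filter fun v => ¬ (l.set v0 (some true)).getD v none = none := by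
            intro v hv
            rw [Finset.mem_insert, Finset.mem_filter, Finset.mem_range] at hv
            rw [Finset.mem_filter, Finset.mem_range]
            rcases hv with rfl | ⟨hv, hv'⟩
            · refine ⟨hv0, ?_⟩
              rw [hset v hv0, if_pos rfl]
              simp
            · refine ⟨hv, ?_⟩
              rw [hset v hv]
              by_cases h : v = v0
              · rw [if_pos h]
                simp
              · rw [if_neg h]
                exact hv'
          have h5 := Finset.card_le_card h4
          rw [Finset.card_insert_of_notMem] at h5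
          · exact h5
          · rw [Finset.mem_filter]
            rintro ⟨_, h⟩
            exact h hn0
        omega
  · rw [if_neg hall]
    refine ⟨spr_length, ⟨σ, h1, spr_cons h1 h2⟩, ?_⟩
    have h3 : ∃ v < m, ¬ (spr m E l).getD v none = l.getD v none := by
      by_contra hcon
      push Not at hcon
      apply hall
      rw [List.all_eq_true]
      intro v hv
      rw [decide_eq_true_eq]
      exact hcon v (List.mem_range.1 hv)
    obtain ⟨v0, hv0, hne⟩ := h3
    have h4 : ∀ v < m, ¬ l.getD v none = none → (spr m E l).getD v none = l.getD v none := by
      intro v hv h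
      rw [spr_getD hv]
      obtain ⟨a, ha⟩ := Option.ne_none_iff_exists'.1 h
      rw [ha]
      rfl
    have hn0 : l.getD v0 none = none := by
      by_contra h
      exact hne (h4 v0 hv0 h)
    have h5 : cntL m l + 1 ≤ cntL m (spr m E l) := by
      unfold cntL
      have h6 : insert v0 ((Finset.range m).filter fun v => ¬ l.getD v none = none) ⊆
          (Finset.range m).filter fun v => ¬ (spr m E l).getD v none = none := by
        intro v hv
        rw [Finset.mem_insert, Finset.mem_filter, Finset.mem_range] at hv
        rw [Finset.mem_filter, Finset.mem_range]
        rcases hv with rfl | ⟨hv, hv'⟩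
        · refine ⟨hv0, ?_⟩
          rw [hn0] at hne
          exact hne
        · refine ⟨hv, ?_⟩
          rw [h4 v hv hv']
          exact hv'
      have h7 := Finset.card_le_card h6
      rw [Finset.card_insert_of_notMem] at h7
      · exact h7
      · rw [Finset.mem_filter]
        rintro ⟨_, h⟩
        exact h hn0
    omega

theorem t_SRCH : S_SRCH := by
  intro m E hE hsol
  obtain ⟨σ0, hσ0⟩ := hsol
  have key : ∀ i : ℕ, ((sst m E)^[i] ((List.range m).map fun _ => none)).length = m ∧
      Cons m E ((sst m E)^[i] ((List.range m).map fun _ => none)) ∧
      min m i ≤ cntL m ((sst m E)^[i] ((List.range m).map fun _ => none)) := by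
    intro i
    induction i with
    | zero =>
      refine ⟨by simp, ⟨σ0, hσ0, ?_⟩, by simp⟩
      intro v hv b hb
      simp only [Function.iterate_zero, id_eq] at hb
      rw [List.getD_eq_getElem _ _ (by simpa using hv)] at hb
      simp at hb
    | succ i ih =>
      obtain ⟨k1, k2, k3⟩ := ih
      rw [Function.iterate_succ', Function.comp_apply]
      obtain ⟨g1, g2, g3⟩ := sst_step hE k1 k2
      exact ⟨g1, g2, by omega⟩
  obtain ⟨_, ⟨σ, h1, h2⟩, h3⟩ := key m
  refine ⟨σ, h1, fun v hv => ?_⟩
  rw [min_self] at h3
  have h4 : ((Finset.range m).filter fun v => ¬ (lbl m E).getD v none = none) =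
      Finset.range m := by
    apply Finset.eq_of_subset_of_card_le (Finset.filter_subset _ _)
    rw [Finset.card_range]
    exact h3
  have h5 : v ∈ (Finset.range m).filter fun v => ¬ (lbl m E).getD v none = none := by
    rw [h4]
    exact Finset.mem_range.2 hv
  rw [Finset.mem_filter] at h5
  obtain ⟨b, hb⟩ := Option.ne_none_iff_exists'.1 h5.2
  rw [hb, h2 v hv b hb]

end Pool.Agent.Y648.TP
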