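import Pool.Agent.Y648.TP.StmC

set_option autoImplicit false

/-!
# The oracle is correct for large arguments
-/

namespace Pool.Agent.Y648.TP

theorem dif_fwd (f : ℝ → ℝ) : ∀ (k j : ℕ),
    dif (fun z : ℕ => f z) k j = ((fwdDiff (1 : ℝ))^[k] f) (j : ℝ)
  | 0, j => rfl
  | k + 1, j => by
    rw [dif, dif_fwd f k (j + 1), dif_fwd f k j, Function.iterate_succ', Function.comp_apply]
    unfold fwdDiff
    push_cast
    rfl

theorem dif_lead (p : Polynomial ℝ) :
    dif (fun z : ℕ => p.eval (z : ℝ)) p.natDegree 0 = p.leadingCoeff * (p.natDegree.factorial : ℝ) := by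
  rw [dif_fwd (fun x => p.eval x) p.natDegree 0]
  have h := congrFun (Polynomial.fwdDiff_iter_degree_eq_factorial p) ((0 : ℕ) : ℝ)
  rw [Pi.smul_apply, smul_eq_mul] at h
  exact h

theorem dif_high (p : Polynomial ℝ) {k : ℕ} (hk : p.natDegree < k) :
    dif (fun z : ℕ => p.eval (z : ℝ)) k 0 = 0 := by
  rw [dif_fwd (fun x => p.eval x) k 0]
  exact congrFun (Polynomial.fwdDiff_iter_eq_zero_of_degree_lt hk) ((0 : ℕ) : ℝ)

theorem ev_pos {p : Polynomial ℝ} (h : 0 < p.leadingCoeff) :
    ∀ᶠ z : ℕ in Filter.atTop, 0 < p.eval (z : ℝ) := by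
  rcases Nat.eq_zero_or_pos p.natDegree with h0 | h0
  · have hp := Polynomial.eq_C_of_natDegree_eq_zero h0
    refine Filter.Eventually.of_forall fun z => ?_
    rw [hp, Polynomial.eval_C]
    rw [Polynomial.leadingCoeff, h0] at h
    exact h
  · have h1 := Polynomial.tendsto_atTop_of_leadingCoeff_nonneg p
      (Polynomial.natDegree_pos_iff_degree_pos.1 h0) h.le
    exact (h1.comp tendsto_natCast_atTop_atTop).eventually_gt_atTop 0

theorem t_NEWT : S_NEWT := by
  intro D p hp
  rcases lt_trichotomy p.leadingCoeff 0 with h | h | h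
  · have h1 : 0 < (-p).leadingCoeff := by
      rw [Polynomial.leadingCoeff_neg]
      linarith
    filter_upwards [ev_pos h1] with z hz
    rw [Polynomial.eval_neg] at hz
    constructor
    · intro hs
      exfalso
      have h2 : dif (fun z : ℕ => p.eval (z : ℝ)) p.natDegree 0 < 0 := by
        rw [dif_lead]
        exact mul_neg_of_neg_of_pos h (by exact_mod_cast Nat.factorial_pos _)
      obtain ⟨k', hk', _, hne⟩ := hs _ hp h2
      exact hne (dif_high p hk')
    · intro h2
      linarith
  · rw [Polynomial.leadingCoeff_eq_zero] at h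
    subst h
    refine Filter.Eventually.of_forall fun z => ?_
    constructor
    · intro _
      rw [Polynomial.eval_zero]
    · intro _ k _ hk2
      exfalso
      have h3 : dif (fun z : ℕ => (0 : Polynomial ℝ).eval (z : ℝ)) k 0 = 0 := by
        rcases Nat.eq_zero_or_pos k with h0 | h0
        · subst h0
          change (0 : Polynomial ℝ).eval (((0 : ℕ) : ℝ)) = 0
          rw [Polynomial.eval_zero]
        · exact dif_high 0 (by rw [Polynomial.natDegree_zero]; exact h0)
      linarith
  · filter_upwards [ev_pos h] with z hz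
    constructor
    · intro _
      exact hz.le
    · intro _ k hk1 hk2
      have h2 : 0 < dif (fun z : ℕ => p.eval (z : ℝ)) p.natDegree 0 := by
        rw [dif_lead]
        exact mul_pos h (by exact_mod_cast Nat.factorial_pos _)
      refine ⟨p.natDegree, ?_, hp, h2.ne'⟩
      rcases lt_trichotomy k p.natDegree with h3 | h3 | h3
      · exact h3
      · rw [h3] at hk2
        linarith
      · rw [dif_high p h3] at hk2
        exact absurd hk2 (lt_irrefl _)

/-! ### The values are polynomials -/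

/-- The rows after `j` steps, as polynomials. -/
theorem wp_poly (m : ℕ) (V : ℕ → ℕ → ℝ) (j : ℕ) : ∀ i k : ℕ, ∃ p : Polynomial ℝ,
    p.natDegree ≤ 3 * j ∧ ∀ z : ℝ, Wp m V z j i k = p.eval z := by
  induction j with
  | zero =>
    intro i k
    refine ⟨Polynomial.C (if i < m then V i k else 0), by simp, fun z => ?_⟩
    rw [Polynomial.eval_C]
    rfl
  | succ j ih =>
    intro i k
    by_cases hi : i < m
    · obtain ⟨p1, hp1, he1⟩ := ih i k
      obtain ⟨p2, hp2, he2⟩ := ih (i + 1) k
      obtain ⟨p3, hp3, he3⟩ := ih (i - 1) k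
      have hX : (Polynomial.X ^ 3 * p1 : Polynomial ℝ).natDegree ≤ 3 * (j + 1) := by
        refine (Polynomial.natDegree_mul_le).trans ?_
        rw [Polynomial.natDegree_X_pow]
        omega
      by_cases hj : j < m
      · refine ⟨Polynomial.X ^ 3 * p1 + p2, ?_, fun z => ?_⟩
        · refine (Polynomial.natDegree_add_le _ _).trans (max_le hX ?_)
          omega
        · rw [Wp, if_pos hi, if_pos hj, he1, he2]
          simp
      · by_cases h0 : i = 0
        · refine ⟨Polynomial.X ^ 3 * p1, hX, fun z => ?_⟩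
          rw [Wp, if_pos hi, if_neg hj, if_pos h0, he1]
          simp
        · refine ⟨Polynomial.X ^ 3 * p1 + p3, ?_, fun z => ?_⟩
          · refine (Polynomial.natDegree_add_le _ _).trans (max_le hX ?_)
            omega
          · rw [Wp, if_pos hi, if_neg hj, if_neg h0, he1, he3]
            simp
    · refine ⟨0, by simp, fun z => ?_⟩
      rw [Wp, if_neg hi, Polynomial.eval_zero]

theorem pm_poly (m n : ℕ) (V : ℕ → ℕ → ℝ) (s : List Bool) (b : ℕ → ℝ) (c i : ℕ) :
    ∃ p : Polynomial ℝ, p.natDegree ≤ 6 * m + 1 ∧ ∀ z : ℝ, Pm m n V s b z c i = p.eval z := by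
  obtain ⟨p, hp, he⟩ := wp_poly m V (2 * m) (c / 3) i
  unfold Pm
  by_cases h1 : i < n
  · by_cases h2 : c % 3 = 2 ∨ (c % 3 = 0 ∧ s.getD (c / 3) true = false)
    · refine ⟨-p, ?_, fun z => ?_⟩
      · rw [Polynomial.natDegree_neg]
        omega
      · rw [if_pos h1, if_pos h2, he, Polynomial.eval_neg]
    · refine ⟨p, by omega, fun z => ?_⟩
      rw [if_pos h1, if_neg h2, he]
  · by_cases h2 : c % 3 = 0
    · refine ⟨Polynomial.C (b (c / 3)) * Polynomial.X ^ (6 * m) - Polynomial.X ^ (6 * m - 1), ?_,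
        fun z => ?_⟩
      · refine (Polynomial.natDegree_sub_le _ _).trans (max_le ?_ ?_)
        · refine (Polynomial.natDegree_C_mul_X_pow_le _ _).trans ?_
          omega
        · rw [Polynomial.natDegree_X_pow]
          omega
      · rw [if_neg h1, if_pos h2]
        simp
    · refine ⟨- Polynomial.X ^ (6 * m + 1), ?_, fun z => ?_⟩
      · rw [Polynomial.natDegree_neg, Polynomial.natDegree_X_pow]
      · rw [if_neg h1, if_neg h2]
        simp

theorem natDegree_det {K d : ℕ} (M : Matrix (Fin K) (Fin K) (Polynomial ℝ))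
    (h : ∀ i k, (M i k).natDegree ≤ d) : M.det.natDegree ≤ K * d := by
  rw [Matrix.det_apply]
  refine Polynomial.natDegree_sum_le_of_forall_le _ _ fun σ _ => ?_
  have h1 : (∏ i, M (σ i) i).natDegree ≤ K * d := by
    refine (Polynomial.natDegree_prod_le _ _).trans ?_
    refine (Finset.sum_le_card_nsmul _ _ d fun i _ => h _ _).trans ?_
    simp
  rcases Int.units_eq_one_or (Equiv.Perm.sign σ) with hs | hs
  · rw [hs, one_smul]
    exact h1
  · rw [hs, Units.neg_smul, one_smul, Polynomial.natDegree_neg]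
    exact h1

theorem dt_poly (m n K : ℕ) (V : ℕ → ℕ → ℝ) (s : List Bool) (b : ℕ → ℝ) (R : List ℕ) :
    ∃ p : Polynomial ℝ, p.natDegree ≤ K * (6 * m + 1) ∧
      ∀ z : ℝ, dt K (Pm m n V s b z) R = p.eval z := by
  choose q hq he using pm_poly m n V s b
  refine ⟨(Matrix.of fun i k : Fin K => q (R.getD k 0) i).det,
    natDegree_det _ fun i k => ?_, fun z => ?_⟩
  · rw [Matrix.of_apply]
    exact hq _ _
  · have h1 := RingHom.map_det (Polynomial.evalRingHom z)
      (Matrix.of fun i k : Fin K => q (R.getD k 0) i)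
    rw [Polynomial.coe_evalRingHom] at h1
    rw [h1]
    unfold dt
    congr 1
    ext i k
    rw [Matrix.of_apply, he, RingHom.mapMatrix_apply, Matrix.map_apply, Matrix.of_apply,
      Polynomial.coe_evalRingHom]

theorem t_DEG : S_DEG := by
  intro m n V s b R c
  obtain ⟨p1, hp1, he1⟩ := dt_poly m n n V s b R
  obtain ⟨p2, hp2, he2⟩ := dt_poly m n (n + 1) V s b (R ++ [c])
  refine ⟨-(p1 * p2), ?_, fun z => ?_⟩
  · rw [Polynomial.natDegree_neg]
    refine (Polynomial.natDegree_mul_le).trans ?_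
    unfold DG
    calc p1.natDegree + p2.natDegree ≤ n * (6 * m + 1) + (n + 1) * (6 * m + 1) :=
          Nat.add_le_add hp1 hp2
      _ = (2 * n + 1) * (6 * m + 1) := by ring
  · unfold Nv
    rw [he1, he2, Polynomial.eval_neg, Polynomial.eval_mul]

theorem vd_finite (m n : ℕ) : {R : List ℕ | Vd m n R}.Finite := by
  refine (Set.finite_range fun f : Fin n → Fin (3 * m) =>
    List.ofFn fun i => ((f i : Fin (3 * m)) : ℕ)).subset ?_
  rintro R ⟨hR1, hR2⟩
  subst hR1
  refine ⟨fun i => ⟨R[i], hR2 _ (List.getElem_mem _)⟩, ?_⟩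
  simp only
  apply List.ext_getElem
  · simp
  · intro i h1 h2
    simp

theorem t_SYM : S_NEWT → S_DEG → S_SYM := by
  intro hN hD m n V s b
  have h1 : ∀ (R : List ℕ) (c : ℕ), ∀ᶠ z : ℕ in Filter.atTop,
      (Sy (DG m n) (fun z => Nv n (Pm m n V s b z) R c) ↔ 0 ≤ Nv n (Pm m n V s b z) R c) := by
    intro R c
    obtain ⟨p, hp, he⟩ := hD m n V s b R c
    have h2 : (fun z : ℕ => Nv n (Pm m n V s b z) R c) = fun z : ℕ => p.eval (z : ℝ) :=
      funext he
    filter_upwards [hN (DG m n) p hp] with z hz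
    rw [h2, he z]
    exact hz
  have h3 : ∀ᶠ z : ℕ in Filter.atTop, ∀ x ∈ ({R : List ℕ | Vd m n R} ×ˢ (Set.Iio (3 * m))),
      (Sy (DG m n) (fun z => Nv n (Pm m n V s b z) x.1 x.2) ↔
        0 ≤ Nv n (Pm m n V s b z) x.1 x.2) := by
    rw [Filter.eventually_all_finite ((vd_finite m n).prod (Set.finite_Iio _))]
    exact fun x _ => h1 x.1 x.2
  filter_upwards [h3] with z hz
  intro R c hR hc
  exact hz (R, c) ⟨hR, hc⟩

end Pool.Agent.Y648.TP
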