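import Pool.Agent.Y648.TP.StmC

set_option autoImplicit false

/-!
# Vertices and Cramer's rule
-/

namespace Pool.Agent.Y648.TP

/-- The value of a linear form in the list, in terms of the matrix. -/
theorem lv_mulVec (n : ℕ) (W : ℕ → ℕ → ℝ) (R : List ℕ) (x : Fin n → ℝ) (k : Fin n) :
    ((Matrix.of fun i k : Fin n => W (R.getD k 0) i).transpose.mulVec x) k =
      lv n W (R.getD k 0) x := by
  simp [Matrix.mulVec, dotProduct, lv]

/-- The determinant of order `n + 1`. -/
theorem dt_succ (n : ℕ) (W : ℕ → ℕ → ℝ) (R : List ℕ) (hR : R.length = n) (c : ℕ)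
    (x : Fin n → ℝ) (hx : Vx n W R x) :
    dt (n + 1) W (R ++ [c]) = dt n W R * (W c n - lv n W c x) := by
  classical
  unfold dt
  set M' : Matrix (Fin (n + 1)) (Fin (n + 1)) ℝ :=
    Matrix.of fun i k : Fin (n + 1) => W ((R ++ [c]).getD k 0) i with hM'
  have hlt : ∀ k : Fin n, (R ++ [c]).getD (k : ℕ) 0 = R.getD (k : ℕ) 0 := by
    intro k
    rw [List.getD_append _ _ _ _ (by rw [hR]; exact k.2)]
  have hlast : (R ++ [c]).getD n 0 = c := by
    rw [List.getD_append_right _ _ _ _ (by rw [hR])]
    simp [hR]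
  set co : Fin (n + 1) → ℝ := Fin.lastCases 1 (fun i => - x i) with hco
  have h1 := Matrix.det_updateRow_sum M' (Fin.last n) co
  have hc1 : co (Fin.last n) = 1 := by simp [hco]
  have hc2 : ∀ i : Fin n, co i.castSucc = - x i := by intro i; simp [hco]
  rw [hc1, one_smul] at h1
  rw [← h1, Matrix.det_succ_row _ (Fin.last n), Fin.sum_univ_castSucc]
  have hrow : ∀ k : Fin (n + 1), (∑ i, co i • M' i) k = ∑ i, co i * M' i k := by
    intro k
    rw [Finset.sum_apply]
    rfl
  have hz : ∀ k : Fin n, (∑ i, co i • M' i) k.castSucc = 0 := by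
    intro k
    rw [hrow, Fin.sum_univ_castSucc, hc1]
    have h2 := hx k k.2
    unfold lv at h2
    simp only [hc2, hM', Matrix.of_apply, Fin.val_castSucc, Fin.val_last, hlt]
    rw [← h2, one_mul]
    have h3 : ∑ i : Fin n, -x i * W (R.getD (↑k) 0) ↑i = - ∑ i : Fin n, W (R.getD (↑k) 0) ↑i * x i := by
      rw [← Finset.sum_neg_distrib]
      refine Finset.sum_congr rfl fun i _ => by ring
    rw [h3]
    ring
  have hl : (∑ i, co i • M' i) (Fin.last n) = W c n - lv n W c x := by
    rw [hrow, Fin.sum_univ_castSucc, hc1]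
    simp only [hc2, hM', Matrix.of_apply, Fin.val_castSucc, Fin.val_last, hlast]
    unfold lv
    have h3 : ∑ i : Fin n, -x i * W c ↑i = - ∑ i : Fin n, W c ↑i * x i := by
      rw [← Finset.sum_neg_distrib]
      refine Finset.sum_congr rfl fun i _ => by ring
    rw [h3]
    ring
  rw [Finset.sum_eq_zero, zero_add]
  · rw [Matrix.updateRow_self, hl, Fin.val_last]
    have hs : (M'.updateRow (Fin.last n) (∑ k, co k • M' k)).submatrix (Fin.last n).succAbove
        (Fin.last n).succAbove = Matrix.of fun i k : Fin n => W (R.getD k 0) i := by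
      ext i k
      rw [Matrix.submatrix_apply, Fin.succAbove_last, Matrix.updateRow_ne (Fin.castSucc_lt_last i).ne]
      simp only [hM', Matrix.of_apply, Fin.val_castSucc, hlt]
    rw [hs, ← two_mul, pow_mul]
    simp only [even_two, Even.neg_pow, one_pow, one_mul]
    ring
  · intro k _
    rw [Matrix.updateRow_self, hz]
    ring

theorem t_VTX : S_VTX := by
  intro n W R hR hd
  classical
  set M : Matrix (Fin n) (Fin n) ℝ := Matrix.of fun i k : Fin n => W (R.getD k 0) i with hM
  have hd' : M.det ≠ 0 := hd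
  have hdT : IsUnit M.transpose.det := by
    rw [Matrix.det_transpose]
    exact isUnit_iff_ne_zero.2 hd'
  have hsol : ∀ y : Fin n → ℝ, ∃ x : Fin n → ℝ, ∀ k : Fin n, lv n W (R.getD k 0) x = y k := by
    intro y
    refine ⟨(M.transpose)⁻¹.mulVec y, fun k => ?_⟩
    rw [← lv_mulVec]
    change (M.transpose.mulVec ((M.transpose)⁻¹.mulVec y)) k = y k
    rw [Matrix.mulVec_mulVec, Matrix.mul_nonsing_inv _ hdT, Matrix.one_mulVec]
  refine ⟨?_, ?_, ?_, ?_⟩
  · obtain ⟨x, hx⟩ := hsol fun k => W (R.getD k 0) n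
    exact ⟨x, fun k hk => hx ⟨k, hk⟩⟩
  · intro x x' hx hx'
    have h1 : M.transpose.mulVec x = M.transpose.mulVec x' := by
      funext k
      rw [hM, lv_mulVec, lv_mulVec, hx k k.2, hx' k k.2]
    have h2 := congrArg (fun v => (M.transpose)⁻¹.mulVec v) h1
    simpa [Matrix.mulVec_mulVec, Matrix.nonsing_inv_mul _ hdT] using h2
  · obtain ⟨u, hu⟩ := hsol fun k => if (k : ℕ) + 1 = n then 1 else 0
    refine ⟨u, fun k hk => ?_, fun hn => ?_⟩
    · have := hu ⟨k, by omega⟩
      rw [if_neg (by simp only; omega)] at this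
      exact this
    · have := hu ⟨n - 1, by omega⟩
      rw [if_pos (by simp only; omega)] at this
      exact this
  · intro x hx c
    unfold Nv
    rw [dt_succ n W R hR c x hx]
    have h1 : -(dt n W R * (dt n W R * (W c n - lv n W c x))) =
        dt n W R ^ 2 * (lv n W c x - W c n) := by ring
    rw [h1]
    have h2 : 0 < dt n W R ^ 2 := by positivity
    constructor
    · intro h
      have := nonneg_of_mul_nonneg_right h h2
      linarith
    · intro h
      exact mul_nonneg h2.le (by linarith)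

theorem t_CRM : S_CRM := by
  intro n W R c u hn hR hu0 hu1
  classical
  obtain ⟨n, rfl⟩ : ∃ n', n = n' + 1 := ⟨n - 1, by omega⟩
  rw [Nat.add_sub_cancel] at hu1
  unfold dt
  set M : Matrix (Fin (n + 1)) (Fin (n + 1)) ℝ :=
    Matrix.of fun i k : Fin (n + 1) => W (R.getD k 0) i with hM
  have hlen : R.dropLast.length = n := by
    rw [List.length_dropLast, hR]
    rfl
  have h1 : (Matrix.of fun i k : Fin (n + 1) => W ((R.dropLast ++ [c]).getD k 0) i) =
      M.updateCol (Fin.last n) (fun i => W c i) := by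
    ext i k
    rw [Matrix.of_apply]
    rcases Fin.eq_castSucc_or_eq_last k with ⟨k', rfl⟩ | rfl
    · rw [Matrix.updateCol_ne (Fin.castSucc_lt_last k').ne, hM, Matrix.of_apply,
        Fin.val_castSucc, List.getD_append _ _ _ _ (by rw [hlen]; exact k'.2)]
      congr 1
      rw [List.getD_eq_getElem _ _ (by rw [hlen]; exact k'.2),
        List.getD_eq_getElem _ _ (by rw [hR]; have := k'.2; omega), List.getElem_dropLast]
    · rw [Matrix.updateCol_self, Fin.val_last,
        List.getD_append_right _ _ _ _ (by rw [hlen]), hlen, Nat.sub_self]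
      rfl
  have h2 : Matrix.vecMul u M = Pi.single (Fin.last n) 1 := by
    funext k
    have h3 : Matrix.vecMul u M k = lv (n + 1) W (R.getD k 0) u := by
      simp [Matrix.vecMul, dotProduct, lv, hM, mul_comm]
    rw [h3]
    rcases Fin.eq_castSucc_or_eq_last k with ⟨k', rfl⟩ | rfl
    · rw [Fin.val_castSucc, hu0 k' (by have := k'.2; omega),
        Pi.single_eq_of_ne (Fin.castSucc_lt_last k').ne]
    · rw [Fin.val_last, hu1, Pi.single_eq_same]
  have h3 : ∀ i, M.adjugate (Fin.last n) i = M.det * u i := by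
    intro i
    have h4 : Matrix.vecMul (Matrix.vecMul u M) M.adjugate = M.det • u := by
      rw [Matrix.vecMul_vecMul, Matrix.mul_adjugate, Matrix.vecMul_smul, Matrix.vecMul_one]
    have h5 := congrFun h4 i
    rw [h2] at h5
    rw [Matrix.single_one_vecMul] at h5
    simpa using h5
  rw [h1, ← Matrix.cramer_apply, Matrix.cramer_eq_adjugate_mulVec]
  unfold lv
  rw [Matrix.mulVec, dotProduct, Finset.sum_mul]
  refine Finset.sum_congr rfl fun i _ => ?_
  rw [h3]
  ring

end Pool.Agent.Y648.TP
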