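import Pool.Agent.W920.FC.T_RUN
import Pool.Agent.W920.FC.T_BITS
import Pool.Agent.Y648.CS.T_TUP
import Pool.Agent.Y648.TP.T_MAIN
import Pool.Agent.Y648.TP.T_BAS
import Pool.Agent.Y648.TP.T_BST
import Pool.Agent.Y648.TP.T_CLS
import Pool.Agent.Y648.TP.T_CNG
import Pool.Agent.Y648.TP.T_COL
import Pool.Agent.Y648.TP.T_DIFQ
import Pool.Agent.Y648.TP.T_DTE
import Pool.Agent.Y648.TP.T_INI
import Pool.Agent.Y648.TP.T_INN
import Pool.Agent.Y648.TP.T_INT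
import Pool.Agent.Y648.TP.T_LIM
import Pool.Agent.Y648.TP.T_LST
import Pool.Agent.Y648.TP.T_OPT
import Pool.Agent.Y648.TP.T_ORD
import Pool.Agent.Y648.TP.T_OUT
import Pool.Agent.Y648.TP.T_PERT
import Pool.Agent.Y648.TP.T_PIV
import Pool.Agent.Y648.TP.T_PRQ
import Pool.Agent.Y648.TP.T_PTC
import Pool.Agent.Y648.TP.T_PZP
import Pool.Agent.Y648.TP.T_REZ
import Pool.Agent.Y648.TP.T_SGN
import Pool.Agent.Y648.TP.T_SRCH
import Pool.Agent.Y648.TP.T_STZ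
import Pool.Agent.Y648.TP.T_SYM
import Pool.Agent.Y648.TP.T_VTX

set_option autoImplicit false

/-! # Totally nonnegative column spaces: all parts together -/

namespace Pool.Agent.Y648.TP

open Pool.Agent.W920.FC

/-- The main theorem. -/
theorem main : S_MAIN := by
  have hCMB := Pool.Agent.Y648.CS.t_CMB Pool.Agent.Y648.CS.t_TUP
  have hINT := t_INT t_PZR
  have hSTZ := t_STZ t_DTE hCMB t_PZP t_PZR t_REZ
  have hDFZ := t_DFZ hSTZ hINT (t_DIFQ Pool.Agent.Y648.CS.t_TUP)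
  have hLST := t_LST (t_PRQ hDFZ)
  have hOPT := t_OPT t_VTX t_ORD t_NZR
  have hGAP := t_GAP t_CRM t_ORD t_NZR
  have hINN := t_INN (t_PIV t_VTX t_CRM t_NZR hOPT hGAP)
  have hOUT2 := t_OUT2 t_VTX t_NZR hOPT hINN
  have hCORE := t_CORE t_VTX t_NZR (t_INI t_VTX t_NZR) hOUT2
  exact t_MAIN t_RUN t_OUT.2 t_BITS t_PTC (t_BST t_DTE) (t_TBQ t_DTE hCMB) hLST t_BAS t_COL
    (t_CLS t_COL) (t_SGN t_COL t_SRCH) t_PERT t_LIM (t_SYM t_NEWT t_DEG) hCORE t_CNG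

end Pool.Agent.Y648.TP
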