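import Pool.Agent.Y648.CS.Defs

set_option autoImplicit false

/-!
# Linear feasibility for totally nonnegative column spaces: the algorithm

Up to nonzero factors of the rows (of unknown signs), the column space of `A` is spanned by the
columns of a matrix `V` whose maximal minors are all nonnegative. The algorithm:

1. finds a basis of the row space (`bsT`), the columns `J` used (`cols`), and signs of the rows such
   that all maximal minors have the same sign (`sgn`);
2. replaces the rows by those of `(z ^ 3 + L) ^ m (z ^ 3 + U) ^ m` times the matrix, where `U`, `L`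
   are the shifts and `z` is infinitely large: then all maximal minors have the same strict sign; the
   right-hand sides are decreased by the infinitely small number `1 / z`, and all rows are bounded by
   `z` and `- z` (program `pzP`). The sign of a polynomial in `z`, for `z` infinitely large, is the
   sign of its last nonzero difference at `0` (`difQ`);
3. adds the constraints one after the other. The constraints are numbered `0, ..., 3 m - 1`: `3 g` is
   the row `g`, `3 g + 1` and `3 g + 2` are the lower and the upper bound for the row `g`. Two bases are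
   maintained, such that their vertices maximise and minimise all linear forms given by the rows which
   have not yet been added. If both vertices violate the new constraint, then the system is
   infeasible. If one of them violates it, then the last element of its basis is replaced by the new
   constraint, and the other ones move to the right until the vertex is feasible.
-/

namespace Pool.Agent.Y648.TP

open Pool.Agent.NPC Pool.Agent.H558R2 Pool.Agent.H622R3.SM Pool.Agent.W920.FC Pool.Agent.Y648.CS

/-! ### Determinants -/

/-- The determinant of order `K` with the entries `e i k`, up to the sign `(-1) ^ (K - 1)`. -/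
def dtE (K : ℕ) (e : ℕ → ℕ → Reg) : Qry :=
  (((List.range K).flatMap fun i => (List.range K).map fun k =>
    (⟨Op.add, [4, i, k], e i k, [3]⟩ : Instr)) ++ flProg K, [10, K - 1])

/-! ### A basis of the row space -/

/-- Column `k` of the matrix is the row `l_k`, if `l_k < m`, and the unit vector number `l_k - m`
otherwise. -/
def uE (m : ℕ) (l : List ℕ) (i k : ℕ) : Reg :=
  if l.getD k 0 < m then [0, l.getD k 0, i] else if l.getD k 0 = m + i then [2] else [3]

/-- The queries for the choice of the row number `k` of the basis. -/
def bsQs (m n : ℕ) (s : ℕ × List ℕ) : List Qry :=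
  (List.range m).map fun c => dtE n (uE m (s.2.set s.1 c))

/-- The choice of the row number `s.1` of the basis. -/
def bsU (m : ℕ) (s : ℕ × List ℕ) (o : List Outcome) : ℕ × List ℕ :=
  (s.1 + 1, (((List.range m).filter fun c => decide (o.getD c none ≠ none)).head?).elim s.2
    fun c => s.2.set s.1 c)

/-- The basis. -/
def bsT (m n : ℕ) : TT (ℕ × List ℕ) :=
  iter (fun s => bnd (batch (bsQs m n s)) fun o => ret (bsU m s o)) n
    (0, (List.range n).map fun k => m + k)

/-- The columns used. -/
def cols (m n : ℕ) (I : List ℕ) : List ℕ := (List.range n).filter fun k => decide (I.getD k 0 < m)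

/-! ### Signs of the rows -/

/-- The queries for the signs of the tableau entries: the number `k * m + c` belongs to the
coefficient of the row `c` at the element number `k` of the basis. -/
def tbQs (m n : ℕ) (I : List ℕ) : List Qry :=
  (List.range n).flatMap fun k => (List.range m).map fun c =>
    cmb Op.mul (dtE n (uE m I)) (dtE n (uE m (I.set k c)))

/-- The number of elements of `I` between `a` and `b`. -/
def btw (I : List ℕ) (a b : ℕ) : ℕ :=
  (I.filter fun x => decide (min a b < x) && decide (x < max a b)).length

/-- The tableau entry `k, c`, as an edge: `true` if the signs are the same. -/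
def hlf (m : ℕ) (I : List ℕ) (o : List Outcome) (k c : ℕ) : List Bool :=
  (o.getD (k * m + c) none).elim [] fun t => [t == decide (btw I (I.getD k 0) c % 2 = 0)]

/-- The edges between `u` and `v`. -/
def edg (m n : ℕ) (I : List ℕ) (o : List Outcome) (u v : ℕ) : List Bool :=
  (List.range n).flatMap fun k =>
    (if decide (I.getD k 0 = u) && !(decide (v ∈ I)) then hlf m I o k v else []) ++
      (if decide (I.getD k 0 = v) && !(decide (u ∈ I)) then hlf m I o k u else [])

/-- One step of the search: the vertices which have neighbours with a label get a label. -/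
def spr (m : ℕ) (E : ℕ → ℕ → List Bool) (l : List (Option Bool)) : List (Option Bool) :=
  (List.range m).map fun v => (l.getD v none).elim
    (((List.range m).flatMap fun u => (l.getD u none).elim [] fun a =>
      (E u v).map fun t => (a == t)).head?) some

/-- One step of the search; if there is nothing to do, then the first vertex without a label gets
the label `true`. -/
def sst (m : ℕ) (E : ℕ → ℕ → List Bool) (l : List (Option Bool)) : List (Option Bool) :=
  if (List.range m).all fun v => decide ((spr m E l).getD v none = l.getD v none) then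
    (((List.range m).filter fun v => decide (l.getD v none = none)).head?).elim l
      fun v => l.set v (some true)
  else spr m E l

/-- The labels. -/
def lbl (m : ℕ) (E : ℕ → ℕ → List Bool) : List (Option Bool) :=
  (sst m E)^[m] ((List.range m).map fun _ => none)

/-- The signs of the rows. -/
def sgn (m n : ℕ) (I : List ℕ) (o : List Outcome) : List Bool :=
  (List.range m).map fun v => ((lbl m (edg m n I o)).getD v none).getD true

/-! ### The perturbed system -/

/-- The numbers `0, ..., z`, and the powers of `z`. -/
def pwP (m z : ℕ) : List Instr :=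
  ((⟨Op.add, [70, 0], [3], [3]⟩ : Instr) ::
    (List.range z).map fun k => (⟨Op.add, [70, k + 1], [70, k], [2]⟩ : Instr)) ++
  ((⟨Op.add, [71, 0], [2], [3]⟩ : Instr) ::
    (List.range (6 * m + 1)).map fun e => (⟨Op.mul, [71, e + 1], [71, e], [70, z]⟩ : Instr))

/-- The rows `[72, j, i]` after `j` steps. -/
def stP (m n : ℕ) (J : List ℕ) (s : List Bool) : List Instr :=
  ((List.range m).flatMap fun i => (List.range n).map fun k =>
    if s.getD i true then (⟨Op.add, [72, 0, i, k], [0, i, J.getD k 0], [3]⟩ : Instr)
    else ⟨Op.sub, [72, 0, i, k], [3], [0, i, J.getD k 0]⟩) ++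
  (List.range (2 * m)).flatMap fun j => (List.range m).flatMap fun i =>
    (List.range n).flatMap fun k =>
      [(⟨Op.mul, [73, j, i, k], [71, 3], [72, j, i, k]⟩ : Instr),
        ⟨Op.add, [72, j + 1, i, k], [73, j, i, k],
          if j < m then (if i + 1 < m then [72, j, i + 1, k] else [3])
          else if i = 0 then [3] else [72, j, i - 1, k]⟩]

/-- The constraint `c`: the coordinates `0, ..., n - 1` and the right-hand side `n`, in
`[80, c, i]`. -/
def coP (m n : ℕ) (s : List Bool) (c : ℕ) : List Instr :=
  ((List.range n).map fun i =>
    if c % 3 = 2 ∨ (c % 3 = 0 ∧ s.getD (c / 3) true = false) then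
      (⟨Op.sub, [80, c, i], [3], [72, 2 * m, c / 3, i]⟩ : Instr)
    else ⟨Op.add, [80, c, i], [72, 2 * m, c / 3, i], [3]⟩) ++
  (if c % 3 = 0 then
    [(⟨Op.mul, [74, c], [1, c / 3], [71, 6 * m]⟩ : Instr),
      ⟨Op.sub, [80, c, n], [74, c], [71, 6 * m - 1]⟩]
  else [⟨Op.sub, [80, c, n], [3], [71, 6 * m + 1]⟩])

/-- The perturbed system, for the natural number `z`, in `[80, c, i]`, for `c < 3 m` and `i ≤ n`. -/
def pzP (m n : ℕ) (J : List ℕ) (s : List Bool) (z : ℕ) : List Instr :=
  pwP m z ++ (stP m n J s ++ (List.range (3 * m)).flatMap fun c => coP m n s c)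

/-- Renaming of registers: the matrix in `[80, c, i]`, for `c < a` and `i < b`, replaces `A`. -/
def rz (a b : ℕ) (r : Reg) : Reg :=
  if r.length = 3 ∧ r.headD 0 = 0 ∧ r.getD 1 0 < a ∧ r.getD 2 0 < b then 80 :: r.tail
  else if r = [2] then [2]
  else if r.headD 0 < 4 then [3]
  else 81 :: r

/-- Renaming in an instruction. -/
def rzI (a b : ℕ) (I : Instr) : Instr := ⟨I.op, rz a b I.dst, rz a b I.fst, rz a b I.snd⟩

/-- A query for the matrix computed by the program `P`. -/
def rzQ (a b : ℕ) (P : List Instr) (q : Qry) : Qry := (P ++ q.1.map (rzI a b), rz a b q.2)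

/-- The entries. -/
def rE (l : List ℕ) (i k : ℕ) : Reg := [0, l.getD k 0, i]

/-- The query for the vertex of `R` and the constraint `c`, for the natural number `z`. -/
def stZ (m n : ℕ) (J : List ℕ) (s : List Bool) (z : ℕ) (R : List ℕ) (c : ℕ) : Qry :=
  rzQ (3 * m) (n + 1) (pzP m n J s z)
    (cmb Op.mul (dtE n (rE R)) (dtE (n + 1) (rE (R ++ [c]))))

/-- The difference of order `k`, at `0`. -/
def difQ (qs : List Qry) (k : ℕ) : Qry :=
  (tupP qs ++ (((List.range (k + 1)).map fun j => (⟨Op.add, [90, 0, j], tupR qs j, [3]⟩ : Instr)) ++
    (List.range k).flatMap fun a => (List.range (k - a)).map fun j =>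
      (⟨Op.sub, [90, a + 1, j], [90, a, j + 1], [90, a, j]⟩ : Instr)), [90, k, 0])

/-- The degree. -/
def DG (m n : ℕ) : ℕ := (2 * n + 1) * (6 * m + 1)

/-- The query for the vertex of `R` and the constraint `c`: the difference of order `k`. -/
def dfZ (m n : ℕ) (J : List ℕ) (s : List Bool) (R : List ℕ) (c k : ℕ) : Qry :=
  difQ ((List.range (k + 1)).map fun z => stZ m n J s z R c) k

/-- The queries for a list of bases and constraints. -/
def prQs (m n : ℕ) (J : List ℕ) (s : List Bool) (ps : List (List ℕ × ℕ)) : List Qry :=
  ps.flatMap fun x => (List.range (DG m n + 1)).map fun k => dfZ m n J s x.1 x.2 k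

/-- The answer number `i`: the last of the outcomes which is not zero is not negative. -/
def satO (D : ℕ) (o : List Outcome) (i : ℕ) : Bool :=
  (List.range (D + 1)).all fun k => !(decide (o.getD (i * (D + 1) + k) none = some false)) ||
    (List.range (D + 1)).any fun k' => decide (k < k') &&
      !(decide (o.getD (i * (D + 1) + k') none = none))

/-! ### Pivots -/

/-- The constraint `c` has already been added, before the constraint `r`. -/
def con (n r c : ℕ) : Bool := decide (c < r) || (decide (c / 3 < n) && !(decide (c % 3 = 0)))

/-- A pivot: if all constraints `c` added satisfy `f₁ c`, then the basis remains; otherwise the first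
`c` with `f₁ c` false and `f₂ c c'` for all constraints `c'` added replaces the last element of the
basis which lies to the left of `c`. -/
def pupd (m n r : ℕ) (B : List ℕ) (f₁ : ℕ → Bool) (f₂ : ℕ → ℕ → Bool) : List ℕ :=
  if (List.range (3 * m)).all fun c => !(con n r c) || f₁ c then B
  else (((List.range (3 * m)).filter fun c => con n r c && (!(f₁ c) &&
      (List.range (3 * m)).all fun c' => !(con n r c') || f₂ c c')).head?).elim B fun c =>
    B.set ((B.dropLast.filter fun a => decide (a / 3 < c / 3)).length - 1) c

/-- The bases and constraints for a pivot. -/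
def prs (m : ℕ) (B : List ℕ) : List (List ℕ × ℕ) :=
  ((List.range (3 * m)).map fun c => (B, c)) ++
    (List.range (3 * m)).flatMap fun c => (List.range (3 * m)).map fun c' =>
      (B.dropLast ++ [c], c')

/-- A pivot. -/
def pst (m n : ℕ) (J : List ℕ) (s : List Bool) (r : ℕ) (B : List ℕ) : TT (List ℕ) :=
  bnd (batch (prQs m n J s (prs m B))) fun o =>
    ret (pupd m n r B (fun c => satO (DG m n) o c)
      fun c c' => satO (DG m n) o (3 * m + (c * (3 * m) + c')))

/-- The new basis, after adding the constraint `r`. -/
def fixB (m n : ℕ) (J : List ℕ) (s : List Bool) (r : ℕ) (B : List ℕ) : TT (List ℕ) :=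
  if r / 3 < n then ret (B.set (r / 3) r)
  else iter (pst m n J s r) (n * m) (B.dropLast ++ [r])

/-- The states: the next constraint; feasible so far; the two bases. -/
abbrev CS : Type := ℕ × (Bool × (List ℕ × List ℕ))

/-- The constraint `t.1` is added. -/
def rst (m n : ℕ) (J : List ℕ) (s : List Bool) (t : CS) : TT CS :=
  if t.2.1 = false then ret (t.1 + 1, t.2)
  else
    bnd (batch (prQs m n J s [(t.2.2.1, t.1), (t.2.2.2, t.1)])) fun o =>
      if satO (DG m n) o 0 = false ∧ satO (DG m n) o 1 = false then
        ret (t.1 + 1, (false, t.2.2))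
      else if satO (DG m n) o 0 = false then
        bnd (fixB m n J s t.1 t.2.2.1) fun B => ret (t.1 + 1, (true, (B, t.2.2.2)))
      else if satO (DG m n) o 1 = false then
        bnd (fixB m n J s t.1 t.2.2.2) fun B => ret (t.1 + 1, (true, (t.2.2.1, B)))
      else ret (t.1 + 1, t.2)

/-- The bases at the beginning. -/
def ini (n : ℕ) (b : Bool) : List ℕ :=
  (List.range n).map fun k => 3 * k + if xor b (decide (k % 2 = 0)) then 1 else 2

/-- The last part of the computation. -/
def lastT (m : ℕ) (J : List ℕ) (s : List Bool) : TT Bool :=
  if J.length = 0 then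
    bnd (batch ((List.range m).map fun c => (([], [1, c]) : Qry))) fun o =>
      ret ((List.range m).all fun c => decide (o.getD c none ≠ some true))
  else
    bnd (iter (rst m J.length J s) (3 * m) (0, (true, (ini J.length false, ini J.length true))))
      fun t => ret t.2.1

/-- The computation. -/
def TC (m n : ℕ) : TT Bool :=
  bnd (bsT m n) fun t => bnd (batch (tbQs m n t.2)) fun o =>
    lastT m (cols m n t.2) (sgn m n t.2 o)

/-- The algorithm. -/
def algC : Alg := algOf TC

/-! ### The same computation, with an oracle for the vertices -/

/-- A pivot. -/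
def pivS (m n : ℕ) (S : List ℕ → ℕ → Bool) (r : ℕ) (B : List ℕ) : List ℕ :=
  pupd m n r B (fun c => S B c) fun c c' => S (B.dropLast ++ [c]) c'

/-- The new basis, after adding the constraint `r`. -/
def fixS (m n : ℕ) (S : List ℕ → ℕ → Bool) (r : ℕ) (B : List ℕ) : List ℕ :=
  if r / 3 < n then B.set (r / 3) r
  else (pivS m n S r)^[n * m] (B.dropLast ++ [r])

/-- The constraint `t.1` is added. -/
def rowS (m n : ℕ) (S : List ℕ → ℕ → Bool) (t : CS) : CS :=
  if t.2.1 = false then (t.1 + 1, t.2)
  else if S t.2.2.1 t.1 = false ∧ S t.2.2.2 t.1 = false then (t.1 + 1, (false, t.2.2))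
  else if S t.2.2.1 t.1 = false then (t.1 + 1, (true, (fixS m n S t.1 t.2.2.1, t.2.2.2)))
  else if S t.2.2.2 t.1 = false then (t.1 + 1, (true, (t.2.2.1, fixS m n S t.1 t.2.2.2)))
  else (t.1 + 1, t.2)

/-- The result. -/
def runS (m n : ℕ) (S : List ℕ → ℕ → Bool) : Bool :=
  ((rowS m n S)^[3 * m] (0, (true, (ini n false, ini n true)))).2.1

end Pool.Agent.Y648.TP
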