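import Pool.Agent.Y648.TP.All

set_option autoImplicit false

/-!
# Linear feasibility for totally nonnegative column spaces in strongly polynomial time

Let the column space of `A` be, up to nonzero factors of the rows (of arbitrary signs), a point of the
totally nonnegative Grassmannian: it is spanned by the columns of a matrix `V` with as many columns as
its rank, all of whose maximal minors (for the given order of the rows) are nonnegative. There is an
algorithm which decides for all these real matrices `A` and all real vectors `b` whether `A x ≥ b` is
solvable, in a number of elementary steps polynomial in `m + n`; on rational instances all numbers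
computed have polynomial encoding length. Neither `V` nor the factors are given to the algorithm.
The entries may have arbitrary magnitudes. Examples: two-sided bounds for the values of a
polynomial of degree less than `n` at arbitrary ordered nodes, or of an element of a Chebyshev system
or of a space of splines; totally nonnegative matrices. The machine model (`Alg`, `run`, `start`,
`PolyControl`, `OracleFree`) is the one of the starting result `UniformAlgorithm`:
`Pool/Agent/H622R3/SM/Model.lean`.
-/

namespace Pool.Agent.Y648.TP.Res

open Pool.Agent.H558R2 Pool.Agent.H622R3.SM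

/-- Up to nonzero factors `ρ i` of the rows, the column space of `A` is spanned by the columns of a
matrix `V`, whose number of columns is the rank of `A`, and all of whose maximal minors are
nonnegative (for the given order of the rows). -/
def NonnegativeMinors {m n : ℕ} (A : Matrix (Fin m) (Fin n) ℝ) : Prop :=
  ∃ (ρ : Fin m → ℝ) (V : Matrix (Fin m) (Fin A.rank) ℝ) (G : Matrix (Fin A.rank) (Fin n) ℝ),
    (∀ i, ρ i ≠ 0) ∧ (∀ i j, A i j = ρ i * (V * G) i j) ∧
    ∀ f : Fin A.rank → Fin m, StrictMono f → 0 ≤ (V.submatrix f id).det

/-- **Linear feasibility for totally nonnegative column spaces in strongly polynomial time.** -/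
theorem result :
    ∃ α : Alg, PolyControl α ∧ OracleFree α ∧ ∃ p : Polynomial ℕ, ∀ m n : ℕ, 1 ≤ m → 1 ≤ n →
      ∀ (A : Matrix (Fin m) (Fin n) ℝ) (b : Fin m → ℝ), NonnegativeMinors A →
      ∃ ans nums steps,
        run ∅ (α m n) (p.eval (m + n)) [] (start A b) = some (ans, nums, steps) ∧
        (ans = true ↔ ∃ x : Fin n → ℝ, b ≤ A.mulVec x) ∧ steps ≤ p.eval (m + n) ∧
        ∀ (A' : Matrix (Fin m) (Fin n) ℚ) (b' : Fin m → ℚ),
          (∀ i j, ((A' i j : ℚ) : ℝ) = A i j) → (∀ i, ((b' i : ℚ) : ℝ) = b i) →
          ∀ v ∈ nums, ∃ q : ℚ, (q : ℝ) = v ∧ bitLength q ≤ p.eval (inputLength A' b') :=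
  ⟨Pool.Agent.Y648.TP.algC, Pool.Agent.Y648.TP.main.1, Pool.Agent.Y648.TP.main.2.1,
    Pool.Agent.Y648.TP.main.2.2⟩

end Pool.Agent.Y648.TP.Res
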