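import Pool.Agent.Y648.TP.StmM

set_option autoImplicit false

/-!
# Totally nonnegative column spaces: mathematical statements
-/

namespace Pool.Agent.Y648.TP

open Pool.Agent.NPC Pool.Agent.H558R2 Pool.Agent.H622R3.SM Pool.Agent.W920.FC Pool.Agent.Y648.CS

/-! ### The class -/

/-- Up to nonzero factors of the rows, the column space of `A` is spanned by the columns of a matrix
`V` with independent columns, all of whose maximal minors are nonnegative. -/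
def TN {m n : ℕ} (A : Matrix (Fin m) (Fin n) ℝ) : Prop :=
  ∃ (ρ : Fin m → ℝ) (V : Matrix (Fin m) (Fin A.rank) ℝ) (G : Matrix (Fin A.rank) (Fin n) ℝ),
    (∀ i, ρ i ≠ 0) ∧ (∀ i j, A i j = ρ i * (V * G) i j) ∧
    ∀ f : Fin A.rank → Fin m, StrictMono f → 0 ≤ (V.submatrix f id).det

/-- The matrix `a` with the columns `J`: up to nonzero factors of the rows, all maximal minors have
the same sign. -/
def TNJ (m : ℕ) (a : ℕ → ℕ → ℝ) (J : List ℕ) : Prop :=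
  ∃ (ρ : ℕ → ℝ) (ε : ℝ), (∀ i < m, ρ i ≠ 0) ∧ ε ≠ 0 ∧
    ∀ f : Fin J.length → ℕ, StrictMono f → (∀ k, f k < m) →
      0 ≤ ε * ((∏ k, ρ (f k)) *
        (Matrix.of fun i k : Fin J.length => a (f k) (J.getD i 0)).det)

/-! ### The basis and the signs -/

/-- `I` is a basis, consisting of a basis of the row space and unit vectors. -/
def Bs (m n : ℕ) (a : ℕ → ℕ → ℝ) (I : List ℕ) : Prop :=
  I.length = n ∧ (∀ k < n, I.getD k 0 < m ∨ I.getD k 0 = m + k) ∧ dt n (Mu m a) I ≠ 0 ∧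
    ∀ k < n, m ≤ I.getD k 0 → ∀ c < m, dt n (Mu m a) (I.set k c) = 0

/-- The basis found by the algorithm. -/
def S_BAS : Prop := ∀ (m n : ℕ) (a : ℕ → ℕ → ℝ), 1 ≤ n → Bs m n a (bsP m n a).2

/-- The row space: the rows of the basis span all rows; the columns `J`. -/
def S_COL : Prop := ∀ (m n : ℕ) (a : ℕ → ℕ → ℝ) (I : List ℕ), Bs m n a I →
  (∀ i < m, ∃ y : Fin (cols m n I).length → ℝ, ∀ j < n,
    a i j = ∑ k, y k * a (I.getD ((cols m n I).getD k 0) 0) j) ∧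
  (Matrix.of fun i k : Fin (cols m n I).length =>
    a (I.getD ((cols m n I).getD k 0) 0) ((cols m n I).getD i 0)).det ≠ 0 ∧
  (∃ f : Fin (cols m n I).length → ℕ, StrictMono f ∧ (∀ k, f k < m) ∧
    (Matrix.of fun i k : Fin (cols m n I).length => a (f k) ((cols m n I).getD i 0)).det ≠ 0) ∧
  (Matrix.of fun (i : Fin m) (j : Fin n) => a i j).rank = (cols m n I).length ∧
  ∀ b : ℕ → ℝ, (∃ x : Fin n → ℝ, ∀ i < m, b i ≤ ∑ j : Fin n, a i j * x j) ↔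
    ∃ x : Fin (cols m n I).length → ℝ, ∀ i < m,
      b i ≤ ∑ k : Fin (cols m n I).length, a i ((cols m n I).getD k 0) * x k

/-- From the class to the columns `J`. -/
def S_CLS : Prop := ∀ (m n : ℕ) (A : Matrix (Fin m) (Fin n) ℝ) (a : ℕ → ℕ → ℝ) (I : List ℕ),
  (∀ (i : Fin m) (j : Fin n), a i j = A i j) → Bs m n a I → TN A → TNJ m a (cols m n I)

/-- The search. -/
def S_SRCH : Prop := ∀ (m : ℕ) (E : ℕ → ℕ → List Bool), (∀ u v, ∀ t ∈ E u v, t ∈ E v u) →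
  (∃ σ : ℕ → Bool, ∀ u < m, ∀ v < m, ∀ t ∈ E u v, (σ u == σ v) = t) →
  ∃ σ : ℕ → Bool, (∀ u < m, ∀ v < m, ∀ t ∈ E u v, (σ u == σ v) = t) ∧
    ∀ v < m, (lbl m E).getD v none = some (σ v)

/-- The signs. -/
def S_SGN : Prop := ∀ (m n : ℕ) (a : ℕ → ℕ → ℝ) (I : List ℕ) (o : List Outcome), 1 ≤ n →
  Bs m n a I → (∀ k < n, ∀ c < m, o.getD (k * m + c) none =
    signOut (dt n (Mu m a) I * dt n (Mu m a) (I.set k c))) → TNJ m a (cols m n I) →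
  ∃ ε : ℝ, ε ≠ 0 ∧ ∀ f : Fin (cols m n I).length → ℕ, StrictMono f → (∀ k, f k < m) →
    0 ≤ ε * (Matrix.of fun i k : Fin (cols m n I).length =>
      sV (sgn m n I o) a (cols m n I) (f k) i).det

/-! ### The perturbation -/

/-- All maximal minors of the perturbed matrix have the same strict sign. -/
def S_PERT : Prop := ∀ (m n : ℕ) (V : ℕ → ℕ → ℝ) (ε z : ℝ), 1 ≤ n → n ≤ m → 0 < z →
  (∀ f : Fin n → ℕ, StrictMono f → (∀ k, f k < m) →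
    0 ≤ ε * (Matrix.of fun i k : Fin n => V (f k) i).det) →
  (∃ f : Fin n → ℕ, StrictMono f ∧ (∀ k, f k < m) ∧
    0 < ε * (Matrix.of fun i k : Fin n => V (f k) i).det) →
  ∀ f : Fin n → ℕ, StrictMono f → (∀ k, f k < m) →
    0 < ε * (Matrix.of fun i k : Fin n => Wp m V z (2 * m) (f k) i).det

/-- The perturbed system is feasible, for large `z`, if and only if the system is feasible. -/
def S_LIM : Prop := ∀ (m n : ℕ) (V : ℕ → ℕ → ℝ) (s : List Bool) (b : ℕ → ℝ), 1 ≤ m →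
  ∀ᶠ z : ℕ in Filter.atTop,
    ((∃ x : Fin n → ℝ, ∀ c < 3 * m,
        Pm m n V s b z c n ≤ ∑ i : Fin n, Pm m n V s b z c i * x i) ↔
      ∃ x : Fin n → ℝ, ∀ i < m,
        b i ≤ ∑ k : Fin n, (if s.getD i true then V i k else - V i k) * x k)

/-- The sign of a polynomial for large arguments. -/
def S_NEWT : Prop := ∀ (D : ℕ) (p : Polynomial ℝ), p.natDegree ≤ D →
  ∀ᶠ z : ℕ in Filter.atTop, (Sy D (fun z => p.eval (z : ℝ)) ↔ 0 ≤ p.eval (z : ℝ))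

/-- The values are polynomials. -/
def S_DEG : Prop := ∀ (m n : ℕ) (V : ℕ → ℕ → ℝ) (s : List Bool) (b : ℕ → ℝ) (R : List ℕ) (c : ℕ),
  ∃ p : Polynomial ℝ, p.natDegree ≤ DG m n ∧
    ∀ z : ℕ, Nv n (Pm m n V s b z) R c = p.eval (z : ℝ)

/-- The oracle is correct for large `z`. -/
def S_SYM : Prop := ∀ (m n : ℕ) (V : ℕ → ℕ → ℝ) (s : List Bool) (b : ℕ → ℝ),
  ∀ᶠ z : ℕ in Filter.atTop, ∀ (R : List ℕ) (c : ℕ), Vd m n R → c < 3 * m →
    (Sy (DG m n) (fun z => Nv n (Pm m n V s b z) R c) ↔ 0 ≤ Nv n (Pm m n V s b z) R c)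

/-! ### The vertices -/

/-- The value of the linear form `c` at `x`. -/
noncomputable def lv (n : ℕ) (W : ℕ → ℕ → ℝ) (c : ℕ) (x : Fin n → ℝ) : ℝ :=
  ∑ i : Fin n, W c i * x i

/-- `x` is the vertex of `R`: the constraints in `R` are satisfied with equality. -/
def Vx (n : ℕ) (W : ℕ → ℕ → ℝ) (R : List ℕ) (x : Fin n → ℝ) : Prop :=
  ∀ k < n, lv n W (R.getD k 0) x = W (R.getD k 0) n

/-- Vertices. -/
def S_VTX : Prop := ∀ (n : ℕ) (W : ℕ → ℕ → ℝ) (R : List ℕ), R.length = n → dt n W R ≠ 0 →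
  (∃ x, Vx n W R x) ∧ (∀ x x', Vx n W R x → Vx n W R x' → x = x') ∧
  (∃ u, (∀ k, k + 1 < n → lv n W (R.getD k 0) u = 0) ∧ (1 ≤ n → lv n W (R.getD (n - 1) 0) u = 1)) ∧
  ∀ x, Vx n W R x → ∀ c, (0 ≤ Nv n W R c ↔ W c n ≤ lv n W c x)

/-- Cramer's rule: replacing the last row. -/
def S_CRM : Prop := ∀ (n : ℕ) (W : ℕ → ℕ → ℝ) (R : List ℕ) (c : ℕ) (u : Fin n → ℝ), 1 ≤ n →
  R.length = n → (∀ k, k + 1 < n → lv n W (R.getD k 0) u = 0) →
  lv n W (R.getD (n - 1) 0) u = 1 → dt n W (R.dropLast ++ [c]) = lv n W c u * dt n W R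

/-- The data: `m` vectors `v` in dimension `n` all of whose maximal minors have the same strict
sign, and three constraints for each of them. -/
structure Sys (m n : ℕ) (W : ℕ → ℕ → ℝ) (v : ℕ → ℕ → ℝ) (κ : ℕ → ℝ) (ε Ω : ℝ) : Prop where
  hn : 1 ≤ n
  hm : n ≤ m
  ch : ∀ f : Fin n → ℕ, StrictMono f → (∀ k, f k < m) →
    0 < ε * (Matrix.of fun i k : Fin n => v (f k) i).det
  nz : ∀ c < 3 * m, κ c ≠ 0
  eq : ∀ c < 3 * m, ∀ i < n, W c i = κ c * v (c / 3) i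
  b1 : ∀ g < m, κ (3 * g + 1) = 1 ∧ W (3 * g + 1) n = -Ω
  b2 : ∀ g < m, κ (3 * g + 2) = -1 ∧ W (3 * g + 2) n = -Ω
  hΩ : 0 < Ω

/-- An increasing basis with alternating signs. -/
def Alt (m n : ℕ) (κ : ℕ → ℝ) (B : List ℕ) : Prop :=
  Vd m n B ∧ ∀ k, k + 1 < n → B.getD k 0 / 3 < B.getD (k + 1) 0 / 3 ∧
    κ (B.getD k 0) * κ (B.getD (k + 1) 0) < 0

/-- The sign of a determinant. -/
def S_ORD : Prop := ∀ (m n : ℕ) (W v : ℕ → ℕ → ℝ) (κ : ℕ → ℝ) (ε Ω : ℝ), Sys m n W v κ ε Ω →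
  ∀ (L : List ℕ) (c k : ℕ), L.length + 1 = n → (∀ a ∈ L, a < 3 * m) → c < 3 * m →
    (∀ j, j + 1 < L.length → L.getD j 0 / 3 < L.getD (j + 1) 0 / 3) → k ≤ L.length →
    (∀ j < k, L.getD j 0 / 3 < c / 3) → (∀ j, k ≤ j → j < L.length → c / 3 < L.getD j 0 / 3) →
    0 < ε * (-1) ^ (L.length - k) * ((L.map κ).prod * κ c) * dt n W (L ++ [c])

/-- The determinant of an increasing basis does not vanish. -/
def S_NZR : Prop := ∀ (m n : ℕ) (W v : ℕ → ℕ → ℝ) (κ : ℕ → ℝ) (ε Ω : ℝ), Sys m n W v κ ε Ω →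
  ∀ B : List ℕ, Alt m n κ B → dt n W B ≠ 0

/-- The vertex of an increasing alternating basis is optimal for all linear forms given by rows to the
right. -/
def S_OPT : Prop := ∀ (m n : ℕ) (W v : ℕ → ℕ → ℝ) (κ : ℕ → ℝ) (ε Ω : ℝ), Sys m n W v κ ε Ω →
  ∀ (B : List ℕ) (x z : Fin n → ℝ) (c : ℕ), Alt m n κ B → Vx n W B x →
    (∀ k < n, W (B.getD k 0) n ≤ lv n W (B.getD k 0) z) → c < 3 * m →
    B.getD (n - 1) 0 / 3 ≤ c / 3 →
    (0 < κ (B.getD (n - 1) 0) * κ c → lv n W c x ≤ lv n W c z) ∧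
    (κ (B.getD (n - 1) 0) * κ c < 0 → lv n W c z ≤ lv n W c x)

/-- The signs of the linear forms on the line given by all elements of a basis but the last one. -/
def S_GAP : Prop := ∀ (m n : ℕ) (W v : ℕ → ℕ → ℝ) (κ : ℕ → ℝ) (ε Ω : ℝ), Sys m n W v κ ε Ω →
  ∀ (B : List ℕ) (u : Fin n → ℝ) (c k : ℕ), Alt m n κ B →
    (∀ j, j + 1 < n → lv n W (B.getD j 0) u = 0) → lv n W (B.getD (n - 1) 0) u = 1 →
    c < 3 * m → k + 1 ≤ n → (∀ j < k, B.getD j 0 / 3 < c / 3) →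
    (∀ j, k ≤ j → j + 1 < n → c / 3 < B.getD j 0 / 3) →
    0 < (-1) ^ (n - 1 - k) * (κ c * κ (B.getD (n - 1) 0)) * lv n W c u

/-! ### The pivots -/

/-- `x` satisfies all constraints added before the constraint `r`. -/
def Fea (m n : ℕ) (W : ℕ → ℕ → ℝ) (r : ℕ) (x : Fin n → ℝ) : Prop :=
  ∀ c < 3 * m, con n r c = true → W c n ≤ lv n W c x

/-- The invariant of the pivots. -/
def Inn (m n : ℕ) (W : ℕ → ℕ → ℝ) (κ : ℕ → ℝ) (r : ℕ) (B : List ℕ) : Prop :=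
  Alt m n κ B ∧ B.getD (n - 1) 0 = r ∧ (∀ k, k + 1 < n → con n r (B.getD k 0) = true) ∧
    ∃ x₀, Fea m n W r x₀ ∧ (∀ k, k + 1 < n → lv n W (B.getD k 0) x₀ = W (B.getD k 0) n) ∧
      lv n W r x₀ ≤ W r n

/-- The oracle of the system `W`. -/
noncomputable def orc (n : ℕ) (W : ℕ → ℕ → ℝ) (R : List ℕ) (c : ℕ) : Bool := bl (0 ≤ Nv n W R c)

/-- The sum of the positions. -/
def psm (B : List ℕ) : ℕ := (B.map fun a => a / 3).sum

/-- One pivot. -/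
def S_PIV : Prop := ∀ (m n : ℕ) (W v : ℕ → ℕ → ℝ) (κ : ℕ → ℝ) (ε Ω : ℝ), Sys m n W v κ ε Ω →
  ∀ (r : ℕ) (B : List ℕ), 3 * n ≤ r → r < 3 * m →
    (∃ z, Fea m n W r z ∧ W r n ≤ lv n W r z) → Inn m n W κ r B →
    Inn m n W κ r (pivS m n (orc n W) r B) ∧
    ((pivS m n (orc n W) r B = B ∧ ∀ x, Vx n W B x → Fea m n W r x) ∨
      psm B < psm (pivS m n (orc n W) r B))

/-- All pivots. -/
def S_INN : Prop := ∀ (m n : ℕ) (W v : ℕ → ℕ → ℝ) (κ : ℕ → ℝ) (ε Ω : ℝ), Sys m n W v κ ε Ω →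
  ∀ (r : ℕ) (B : List ℕ), 3 * n ≤ r → r < 3 * m →
    (∃ z, Fea m n W r z ∧ W r n ≤ lv n W r z) → Inn m n W κ r B →
    Inn m n W κ r ((pivS m n (orc n W) r)^[n * m] B) ∧
    ∀ x, Vx n W ((pivS m n (orc n W) r)^[n * m] B) x → Fea m n W r x

/-! ### The constraints -/

/-- The invariant, after the first `3 n` constraints. -/
def Out (m n : ℕ) (W : ℕ → ℕ → ℝ) (κ : ℕ → ℝ) (r : ℕ) (B B' : List ℕ) : Prop :=
  Alt m n κ B ∧ Alt m n κ B' ∧ κ (B.getD (n - 1) 0) * κ (B'.getD (n - 1) 0) < 0 ∧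
    (∀ a ∈ B ++ B', con n r a = true) ∧
    (∀ x, Vx n W B x → Fea m n W r x) ∧ ∀ x, Vx n W B' x → Fea m n W r x

/-- The invariant, before. -/
def Ini (m n : ℕ) (W : ℕ → ℕ → ℝ) (κ : ℕ → ℝ) (r : ℕ) (B B' : List ℕ) : Prop :=
  Alt m n κ B ∧ Alt m n κ B' ∧
    (∀ k < n, B.getD k 0 / 3 = k ∧ B'.getD k 0 / 3 = k ∧ κ (B.getD k 0) * κ (B'.getD k 0) < 0) ∧
    (∀ a ∈ B ++ B', con n r a = true) ∧
    (∀ x, Vx n W B x → Fea m n W r x) ∧ ∀ x, Vx n W B' x → Fea m n W r x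

/-- Adding a constraint, for an invariant `P`. -/
def Stp (m n : ℕ) (W : ℕ → ℕ → ℝ) (P : ℕ → List ℕ → List ℕ → Prop) (r : ℕ) : Prop :=
  ∀ B B' : List ℕ, P r B B' →
    (orc n W B r = false → orc n W B' r = false → ¬ ∃ x, Fea m n W (r + 1) x) ∧
    (orc n W B r = false → orc n W B' r = true → P (r + 1) (fixS m n (orc n W) r B) B') ∧
    (orc n W B r = true → orc n W B' r = false → P (r + 1) B (fixS m n (orc n W) r B')) ∧
    (orc n W B r = true → orc n W B' r = true → P (r + 1) B B')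

/-- Adding one of the constraints after the first `3 n`. -/
def S_OUT2 : Prop := ∀ (m n : ℕ) (W v : ℕ → ℕ → ℝ) (κ : ℕ → ℝ) (ε Ω : ℝ), Sys m n W v κ ε Ω →
  ∀ r : ℕ, 3 * n ≤ r → r < 3 * m → Stp m n W (Out m n W κ) r

/-- Adding one of the first `3 n` constraints. -/
def S_INI : Prop := ∀ (m n : ℕ) (W v : ℕ → ℕ → ℝ) (κ : ℕ → ℝ) (ε Ω : ℝ), Sys m n W v κ ε Ω →
  Ini m n W κ 0 (ini n false) (ini n true) ∧
  (∀ B B', Ini m n W κ (3 * n) B B' → Out m n W κ (3 * n) B B') ∧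
  ∀ r < 3 * n, Stp m n W (Ini m n W κ) r

/-- The algorithm is correct. -/
def S_CORE : Prop := ∀ (m n : ℕ) (W v : ℕ → ℕ → ℝ) (κ : ℕ → ℝ) (ε Ω : ℝ), Sys m n W v κ ε Ω →
  (runS m n (orc n W) = true ↔ ∃ x : Fin n → ℝ, ∀ c < 3 * m, W c n ≤ lv n W c x)

/-- The algorithm depends only on the answers of the oracle. -/
def S_CNG : Prop := ∀ (m n : ℕ) (S S' : List ℕ → ℕ → Bool), 1 ≤ n → n ≤ m →
  (∀ R c, Vd m n R → c < 3 * m → S R c = S' R c) → runS m n S = runS m n S'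

/-! ### The main theorem -/

/-- The main theorem. -/
def S_MAIN : Prop := PolyControl algC ∧ OracleFree algC ∧ ∃ p : Polynomial ℕ, ∀ m n : ℕ, 1 ≤ m →
  1 ≤ n → ∀ (A : Matrix (Fin m) (Fin n) ℝ) (b : Fin m → ℝ), TN A →
  ∃ ans nums steps,
    run ∅ (algC m n) (p.eval (m + n)) [] (start A b) = some (ans, nums, steps) ∧
    (ans = true ↔ ∃ x : Fin n → ℝ, b ≤ A.mulVec x) ∧ steps ≤ p.eval (m + n) ∧
    ∀ (A' : Matrix (Fin m) (Fin n) ℚ) (b' : Fin m → ℚ), (∀ i j, ((A' i j : ℚ) : ℝ) = A i j) →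
      (∀ i, ((b' i : ℚ) : ℝ) = b i) →
      ∀ v ∈ nums, ∃ q : ℚ, (q : ℝ) = v ∧ bitLength q ≤ p.eval (inputLength A' b')

end Pool.Agent.Y648.TP
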