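import Pool.Agent.Y648.TP.Defs
import Pool.Agent.Y648.CS.StmM

set_option autoImplicit false

/-!
# Totally nonnegative column spaces: statements about programs and queries
-/

namespace Pool.Agent.Y648.TP

open Pool.Agent.NPC Pool.Agent.H558R2 Pool.Agent.H622R3.SM Pool.Agent.W920.FC Pool.Agent.Y648.CS

/-! ### Values -/

/-- The determinant of order `K` of the first coordinates of the rows in the list `l` of the
matrix `M`. -/
noncomputable def dt (K : ℕ) (M : ℕ → ℕ → ℝ) (l : List ℕ) : ℝ :=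
  (Matrix.of fun i k : Fin K => M (l.getD k 0) i).det

/-- The rows, and the unit vectors. -/
noncomputable def Mu (m : ℕ) (a : ℕ → ℕ → ℝ) (c i : ℕ) : ℝ :=
  if c < m then a c i else if c = m + i then 1 else 0

/-- The matrix in the registers. -/
def aR (g : Reg → ℝ) (c i : ℕ) : ℝ := g [0, c, i]

/-- The rows after `j` steps. -/
noncomputable def Wp (m : ℕ) (V : ℕ → ℕ → ℝ) (z : ℝ) : ℕ → ℕ → ℕ → ℝ
  | 0, i, k => if i < m then V i k else 0
  | j + 1, i, k => if i < m then z ^ 3 * Wp m V z j i k + (if j < m then Wp m V z j (i + 1) k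
      else if i = 0 then 0 else Wp m V z j (i - 1) k) else 0

/-- The rows with signs, and the columns `J`. -/
noncomputable def sV (s : List Bool) (a : ℕ → ℕ → ℝ) (J : List ℕ) (i k : ℕ) : ℝ :=
  if s.getD i true then a i (J.getD k 0) else - a i (J.getD k 0)

/-- The perturbed system. -/
noncomputable def Pm (m n : ℕ) (V : ℕ → ℕ → ℝ) (s : List Bool) (b : ℕ → ℝ) (z : ℝ) (c i : ℕ) : ℝ :=
  if i < n then
    (if c % 3 = 2 ∨ (c % 3 = 0 ∧ s.getD (c / 3) true = false) then - Wp m V z (2 * m) (c / 3) i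
      else Wp m V z (2 * m) (c / 3) i)
  else if c % 3 = 0 then b (c / 3) * z ^ (6 * m) - z ^ (6 * m - 1) else - z ^ (6 * m + 1)

/-- The perturbed system, from the registers. -/
noncomputable def PmR (m n : ℕ) (J : List ℕ) (s : List Bool) (g : Reg → ℝ) (z : ℝ) (c i : ℕ) : ℝ :=
  Pm m n (sV s (aR g) J) s (fun i => g [1, i]) z c i

/-- The value of the query for the vertex of `R` and the constraint `c`. -/
noncomputable def Nv (n : ℕ) (P : ℕ → ℕ → ℝ) (R : List ℕ) (c : ℕ) : ℝ :=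
  -(dt n P R * dt (n + 1) P (R ++ [c]))

/-- The differences. -/
noncomputable def dif (P : ℕ → ℝ) : ℕ → ℕ → ℝ
  | 0, j => P j
  | a + 1, j => dif P a (j + 1) - dif P a j

/-- The last nonzero difference at `0`, of order at most `D`, is not negative. -/
def Sy (D : ℕ) (P : ℕ → ℝ) : Prop :=
  ∀ k ≤ D, dif P k 0 < 0 → ∃ k', k < k' ∧ k' ≤ D ∧ dif P k' 0 ≠ 0

/-- A list of `n` constraints. -/
def Vd (m n : ℕ) (R : List ℕ) : Prop := R.length = n ∧ ∀ a ∈ R, a < 3 * m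

/-- The truth value. -/
noncomputable def bl (p : Prop) : Bool := @decide p (Classical.propDecidable p)

/-- The oracle. -/
noncomputable def Sym (m n : ℕ) (P : ℝ → ℕ → ℕ → ℝ) (R : List ℕ) (c : ℕ) : Bool :=
  bl (Sy (DG m n) fun z => Nv n (P z) R c)

/-! ### Determinants -/

/-- Determinants. -/
def S_DTE : Prop := ∃ q : Polynomial ℕ, ∀ (S K : ℕ) (e : ℕ → ℕ → Reg) (g : Reg → ℝ), Base g →
  1 ≤ K → K ≤ S + 1 → (∀ i < K, ∀ k < K, e i k ∈ baseReg) →
  HasVal g (Gd q S g) (dtE K e)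
    ((-1) ^ (K - 1) * (Matrix.of fun i k : Fin K => g (e i k)).det) ∧
  (dtE K e).1.length ≤ q.eval S

/-! ### The basis, and the tableau -/

/-- The basis. -/
noncomputable def bsP (m n : ℕ) (a : ℕ → ℕ → ℝ) : ℕ × List ℕ :=
  (fun s : ℕ × List ℕ => bsU m s ((List.range m).map fun c =>
    signOut ((-1) ^ (n - 1) * dt n (Mu m a) (s.2.set s.1 c))))^[n]
    (0, (List.range n).map fun k => m + k)

/-- The computation of the basis. -/
def S_BST : Prop := ∃ q : Polynomial ℕ, ∀ (S m n : ℕ) (g : Reg → ℝ), Base g → 1 ≤ m → 1 ≤ n →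
  m + n ≤ S → Runs g (Gd q S g) (bsT m n) (bsP m n (aR g)) (q.eval S)

/-- The tableau. -/
def S_TBQ : Prop := ∃ q : Polynomial ℕ, ∀ (S m n : ℕ) (g : Reg → ℝ) (I : List ℕ), Base g →
  1 ≤ m → 1 ≤ n → m + n ≤ S → ∃ vs : List ℝ,
    List.Forall₂ (HasVal g (Gd q S g)) (tbQs m n I) vs ∧
    ((tbQs m n I).map fun q => q.1.length + 1).sum ≤ q.eval S ∧
    ∀ k < n, ∀ c < m, (vs.map signOut).getD (k * m + c) none =
      signOut (dt n (Mu m (aR g)) I * dt n (Mu m (aR g)) (I.set k c))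

/-! ### The perturbed system -/

/-- The program for the perturbed system. -/
def S_PZP : Prop := ∃ q : Polynomial ℕ, ∀ (S m n : ℕ) (J : List ℕ) (s : List Bool) (z : ℕ)
  (g : Reg → ℝ), Base g → 1 ≤ m → m + n ≤ S → z ≤ DG m n →
  Ord baseReg (pzP m n J s z) ∧
  (∀ r ∈ Pool.Agent.W920.FC.wr (pzP m n J s z), 70 ≤ r.headD 0 ∧ r.headD 0 ≤ 80) ∧
  (∀ c < 3 * m, ∀ i < n + 1, [80, c, i] ∈ Pool.Agent.W920.FC.wr (pzP m n J s z)) ∧
  (∃ V : Reg → ℝ, (∀ r ∈ baseReg, V r = g r) ∧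
    (∀ I ∈ pzP m n J s z, Eqn V I ∧ Gd q S g (V I.dst)) ∧
    ∀ c < 3 * m, ∀ i < n + 1, V [80, c, i] = PmR m n J s g z c i) ∧
  (pzP m n J s z).length ≤ q.eval S

/-- The perturbed system in place of `A`, and `0` in place of `b`. -/
noncomputable def gZ (m n : ℕ) (J : List ℕ) (s : List Bool) (z : ℕ) (g : Reg → ℝ) : Reg → ℝ :=
  fun r => if r.length = 3 ∧ r.headD 0 = 0 ∧ r.getD 1 0 < 3 * m ∧ r.getD 2 0 < n + 1 then
      PmR m n J s g z (r.getD 1 0) (r.getD 2 0)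
    else if r = [2] then 1 else 0

/-- The entries of the perturbed system are small, with a common denominator which does not depend
on `z`. -/
def S_PZR : Prop := ∃ q : Polynomial ℕ, ∀ (S m n : ℕ) (J : List ℕ) (s : List Bool) (g : Reg → ℝ)
  (lam : ℕ), 1 ≤ m → m + n ≤ S → RB lam g →
  ∃ D : ℕ, 1 ≤ D ∧ D ≤ 2 ^ lam ∧ ∀ z ≤ DG m n, ∀ c i : ℕ,
    ∃ y : ℤ, y.natAbs ≤ 2 ^ q.eval (S + lam) ∧ PmR m n J s g z c i * D = y

/-- The values have a small common denominator, which does not depend on `z`. -/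
def S_INT : Prop := ∃ q : Polynomial ℕ, ∀ (S m n : ℕ) (J : List ℕ) (s : List Bool) (g : Reg → ℝ)
  (lam : ℕ), 1 ≤ m → m + n ≤ S → RB lam g →
  ∃ E : ℕ, 1 ≤ E ∧ E ≤ 2 ^ q.eval (S + lam) ∧ ∀ z ≤ DG m n, ∀ (R : List ℕ) (c : ℕ),
    ∃ y : ℤ, y.natAbs ≤ 2 ^ q.eval (S + lam) ∧ Nv n (PmR m n J s g z) R c * E = y

/-- Renaming of registers. -/
def S_REZ : Prop := ∀ (a b : ℕ) (g g' : Reg → ℝ) (G : ℝ → Prop) (P : List Instr) (q : Qry)
  (v : ℝ), Base g → Ord baseReg P →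
  (∀ r ∈ Pool.Agent.W920.FC.wr P, 60 ≤ r.headD 0 ∧ r.headD 0 ≤ 80) →
  (∀ c < a, ∀ i < b, [80, c, i] ∈ Pool.Agent.W920.FC.wr P) →
  (∃ V : Reg → ℝ, (∀ r ∈ baseReg, V r = g r) ∧ (∀ I ∈ P, Eqn V I ∧ G (V I.dst)) ∧
    ∀ c < a, ∀ i < b, V [80, c, i] = g' [0, c, i]) →
  g' [2] = 1 →
  (∀ r ∈ baseReg, r ≠ [2] → (∀ c < a, ∀ i < b, r ≠ [0, c, i]) → g' r = 0) →
  HasVal g' G q v → HasVal g G (rzQ a b P q) v

/-- The query for the vertex of `R` and the constraint `c`, for the number `z`. -/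
def S_STZ : Prop := ∃ q : Polynomial ℕ, ∀ (S m n : ℕ) (J : List ℕ) (s : List Bool) (z : ℕ)
  (g : Reg → ℝ) (R : List ℕ) (c : ℕ), Base g → 1 ≤ m → 1 ≤ n → m + n ≤ S → z ≤ DG m n →
  Vd m n R → c < 3 * m →
  HasVal g (Gd q S g) (stZ m n J s z R c) (Nv n (PmR m n J s g z) R c) ∧
  (stZ m n J s z R c).1.length ≤ q.eval S

/-- Differences. -/
def S_DIFQ : Prop := ∀ (g : Reg → ℝ) (G : ℝ → Prop) (qs : List Qry) (vs : List ℝ) (k : ℕ),
  Base g → qs.length = k + 1 → List.Forall₂ (HasVal g G) qs vs →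
  (∀ a j, a + j ≤ k → G (dif (fun t => vs.getD t 0) a j)) →
  HasVal g G (difQ qs k) (dif (fun t => vs.getD t 0) k 0) ∧
  (difQ qs k).1.length ≤ (qs.map fun q => q.1.length).sum + (k + 1) * (k + 2)

/-- The differences of the values. -/
def S_DFZ : Prop := ∃ q : Polynomial ℕ, ∀ (S m n : ℕ) (J : List ℕ) (s : List Bool)
  (g : Reg → ℝ) (R : List ℕ) (c k : ℕ), Base g → 1 ≤ m → 1 ≤ n → m + n ≤ S → Vd m n R →
  c < 3 * m → k ≤ DG m n →
  HasVal g (Gd q S g) (dfZ m n J s R c k) (dif (fun z => Nv n (PmR m n J s g z) R c) k 0) ∧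
  (dfZ m n J s R c k).1.length ≤ q.eval S

/-- A list of bases and constraints. -/
def S_PRQ : Prop := ∃ q : Polynomial ℕ, ∀ (S m n : ℕ) (J : List ℕ) (s : List Bool)
  (g : Reg → ℝ) (ps : List (List ℕ × ℕ)), Base g → 1 ≤ m → 1 ≤ n → m + n ≤ S →
  (∀ x ∈ ps, Vd m n x.1 ∧ x.2 < 3 * m) → ∃ vs : List ℝ,
    List.Forall₂ (HasVal g (Gd q S g)) (prQs m n J s ps) vs ∧
    ((prQs m n J s ps).map fun q => q.1.length + 1).sum ≤ ps.length * q.eval S ∧
    ∀ i < ps.length, satO (DG m n) (vs.map signOut) i =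
      Sym m n (PmR m n J s g) (ps.getD i ([], 0)).1 (ps.getD i ([], 0)).2

/-! ### The computation -/

/-- The last part of the computation. -/
def S_LST : Prop := ∃ q : Polynomial ℕ, ∀ (S m : ℕ) (J : List ℕ) (s : List Bool) (g : Reg → ℝ),
  Base g → 1 ≤ m → J.length ≤ m → m + J.length ≤ S →
  Runs g (Gd q S g) (lastT m J s)
    (if J.length = 0 then (List.range m).all fun c => bl (g [1, c] ≤ 0)
      else runS m J.length (Sym m J.length (PmR m J.length J s g))) (q.eval S)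

/-- The computation is controlled in polynomial time. -/
def S_PTC : Prop := PT (fun a : List Unit × List Unit => TC a.1.length a.2.length)

end Pool.Agent.Y648.TP
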