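import Pool.Agent.Y648.TP.T_CORE

set_option autoImplicit false

/-!
# Totally nonnegative column spaces: the algorithm with infinitely large numbers
-/

namespace Pool.Agent.Y648.TP

open Pool.Agent.NPC Pool.Agent.H558R2 Pool.Agent.H622R3.SM Pool.Agent.W920.FC Pool.Agent.Y648.CS

/-- The perturbed system. -/
theorem sys_of {m n : ℕ} {V : ℕ → ℕ → ℝ} {s : List Bool} {b : ℕ → ℝ} {ε z : ℝ} (hn : 1 ≤ n)
    (hm : n ≤ m) (hz : 0 < z)
    (h : ∀ f : Fin n → ℕ, StrictMono f → (∀ k, f k < m) →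
      0 < ε * (Matrix.of fun i k : Fin n => Wp m V z (2 * m) (f k) i).det) :
    Sys m n (Pm m n V s b z) (Wp m V z (2 * m))
      (fun c => if c % 3 = 2 ∨ (c % 3 = 0 ∧ s.getD (c / 3) true = false) then -1 else 1) ε
      (z ^ (6 * m + 1)) := by
  refine ⟨hn, hm, h, ?_, ?_, ?_, ?_, by positivity⟩
  · intro c _
    show (if c % 3 = 2 ∨ (c % 3 = 0 ∧ s.getD (c / 3) true = false) then (-1 : ℝ) else 1) ≠ 0
    split_ifs <;> norm_num
  · intro c _ i hi
    unfold Pm
    rw [if_pos hi]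
    show _ = (if c % 3 = 2 ∨ (c % 3 = 0 ∧ s.getD (c / 3) true = false) then (-1 : ℝ) else 1) * _
    split_ifs <;> ring
  · intro g _
    constructor
    · show (if (3 * g + 1) % 3 = 2 ∨ _ then (-1 : ℝ) else 1) = 1
      rw [if_neg]
      rintro (h1 | ⟨h1, -⟩) <;> omega
    · unfold Pm
      rw [if_neg (lt_irrefl n), if_neg (by omega)]
  · intro g _
    constructor
    · show (if (3 * g + 2) % 3 = 2 ∨ _ then (-1 : ℝ) else 1) = -1
      rw [if_pos (Or.inl (by omega))]
    · unfold Pm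
      rw [if_neg (lt_irrefl n), if_neg (by omega)]

/-- Signs of the rows of a determinant. -/
theorem det_sV {r : ℕ} (s : List Bool) (a : ℕ → ℕ → ℝ) (J : List ℕ) (f : Fin r → ℕ)
    (h : (Matrix.of fun i k : Fin r => a (f k) (J.getD i 0)).det ≠ 0) :
    (Matrix.of fun i k : Fin r => sV s a J (f k) i).det ≠ 0 := by
  have e : (Matrix.of fun i k : Fin r => sV s a J (f k) i) =
      Matrix.of fun i k : Fin r => (if s.getD (f k) true then (1 : ℝ) else -1) *
        (Matrix.of fun i k : Fin r => a (f k) (J.getD i 0)) i k := by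
    ext i k
    simp only [Matrix.of_apply, sV]
    split_ifs <;> ring
  rw [e, Matrix.det_mul_row]
  refine mul_ne_zero ?_ h
  rw [Finset.prod_ne_zero_iff]
  intro k _
  split_ifs <;> norm_num

/-- The algorithm with infinitely large numbers is correct. -/
theorem t_ALG : S_PERT → S_LIM → S_SYM → S_CORE → S_CNG →
    ∀ (m n : ℕ) (J : List ℕ) (s : List Bool) (a : ℕ → ℕ → ℝ) (b : ℕ → ℝ), J.length = n →
      1 ≤ n → n ≤ m →
      (∃ ε : ℝ, ε ≠ 0 ∧ ∀ f : Fin n → ℕ, StrictMono f → (∀ k, f k < m) →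
        0 ≤ ε * (Matrix.of fun i k : Fin n => sV s a J (f k) i).det) →
      (∃ f : Fin n → ℕ, StrictMono f ∧ (∀ k, f k < m) ∧
        (Matrix.of fun i k : Fin n => a (f k) (J.getD i 0)).det ≠ 0) →
      (runS m n (Sym m n (fun z => Pm m n (sV s a J) s b z)) = true ↔
        ∃ x : Fin n → ℝ, ∀ i < m, b i ≤ ∑ k : Fin n, a i (J.getD k 0) * x k) := by
  intro hP hL hSy hC hG m n J s a b hJ hn hm hε hf
  obtain ⟨ε, hε0, hε⟩ := hε
  obtain ⟨f, hf1, hf2, hf3⟩ := hf
  have hm1 : 1 ≤ m := hn.trans hm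
  have hf4 : 0 < ε * (Matrix.of fun i k : Fin n => sV s a J (f k) i).det :=
    lt_of_le_of_ne (hε f hf1 hf2) (mul_ne_zero hε0 (det_sV s a J f hf3)).symm
  have e1 := hL m n (sV s a J) s b hm1
  have e2 := hSy m n (sV s a J) s b
  obtain ⟨z, ⟨h1, h2⟩, h3⟩ := ((e1.and e2).and (Filter.eventually_ge_atTop 1)).exists
  have hz : (0 : ℝ) < (z : ℝ) := by
    have : 0 < z := h3
    exact_mod_cast this
  have hs := sys_of (s := s) (b := b) hn hm hz
    (hP m n (sV s a J) ε z hn hm hz hε ⟨f, hf1, hf2, hf4⟩)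
  have h4 := hC m n _ _ _ _ _ hs
  have h5 : runS m n (Sym m n (fun z => Pm m n (sV s a J) s b z)) =
      runS m n (orc n (Pm m n (sV s a J) s b z)) := by
    refine hG m n _ _ hn hm fun R c hR hc => ?_
    exact bl_congr0 (h2 R c hR hc)
  rw [h5, h4]
  have h6 : ∀ i k : ℕ, (if s.getD i true then sV s a J i k else - sV s a J i k) =
      a i (J.getD k 0) := by
    intro i k
    unfold sV
    split_ifs <;> ring
  have h7 : (∃ x : Fin n → ℝ, ∀ c < 3 * m, Pm m n (sV s a J) s b z c n ≤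
      lv n (Pm m n (sV s a J) s b z) c x) ↔ ∃ x : Fin n → ℝ, ∀ i < m,
        b i ≤ ∑ k : Fin n, (if s.getD i true then sV s a J i k else - sV s a J i k) * x k := h1
  rw [h7]
  simp only [h6]

end Pool.Agent.Y648.TP
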