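import Pool.Agent.Y648.TP.StmC

set_option autoImplicit false

/-!
# Totally nonnegative column spaces: correctness of the combinatorial algorithm
-/

namespace Pool.Agent.Y648.TP

open Pool.Agent.NPC Pool.Agent.H558R2 Pool.Agent.H622R3.SM Pool.Agent.W920.FC Pool.Agent.Y648.CS

theorem bl_iff (p : Prop) : bl p = true ↔ p := by
  unfold bl
  exact @decide_eq_true_iff p (Classical.propDecidable p)

theorem bl_false (p : Prop) : bl p = false ↔ ¬ p := by
  unfold bl
  exact @decide_eq_false_iff_not p (Classical.propDecidable p)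

theorem bl_congr0 {p q : Prop} (h : p ↔ q) : bl p = bl q := by
  rw [Bool.eq_iff_iff, bl_iff, bl_iff, h]

theorem con_iff0 (n r c : ℕ) : con n r c = true ↔ c < r ∨ (c / 3 < n ∧ c % 3 ≠ 0) := by
  unfold con
  simp

theorem con_succ0 (n r c : ℕ) (h : con n r c = true) : con n (r + 1) c = true := by
  rw [con_iff0] at h ⊢
  omega

theorem Fea.mono {m n : ℕ} {W : ℕ → ℕ → ℝ} {r : ℕ} {x : Fin n → ℝ} (h : Fea m n W (r + 1) x) :
    Fea m n W r x := fun c hc hr => h c hc (con_succ0 n r c hr)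

theorem Fea.mono' {m n : ℕ} {W : ℕ → ℕ → ℝ} {r : ℕ} {x : Fin n → ℝ} (k : ℕ)
    (h : Fea m n W (r + k) x) : Fea m n W r x := by
  induction k with
  | zero => exact h
  | succ k ih => exact ih (Fea.mono h)

theorem Fea.all {m n : ℕ} {W : ℕ → ℕ → ℝ} {x : Fin n → ℝ} :
    Fea m n W (3 * m) x ↔ ∀ c < 3 * m, W c n ≤ lv n W c x := by
  refine ⟨fun h c hc => h c hc ?_, fun h c hc _ => h c hc⟩
  rw [con_iff0]
  exact Or.inl hc

/-- The invariant. -/
def Ivr (m n : ℕ) (W : ℕ → ℕ → ℝ) (κ : ℕ → ℝ) (r : ℕ) (t : CS) : Prop :=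
  t.1 = r ∧ (t.2.1 = false → ¬ ∃ x, Fea m n W (3 * m) x) ∧
    (t.2.1 = true → (r ≤ 3 * n → Ini m n W κ r t.2.2.1 t.2.2.2) ∧
      (3 * n ≤ r → Out m n W κ r t.2.2.1 t.2.2.2))

theorem ivr_step {m n : ℕ} {W : ℕ → ℕ → ℝ} {κ : ℕ → ℝ} {r : ℕ} {t : CS} (hr : r < 3 * m)
    (hI : ∀ B B', Ini m n W κ (3 * n) B B' → Out m n W κ (3 * n) B B')
    (h1 : r < 3 * n → Stp m n W (Ini m n W κ) r)
    (h2 : 3 * n ≤ r → Stp m n W (Out m n W κ) r) (ht : Ivr m n W κ r t) :
    Ivr m n W κ (r + 1) (rowS m n (orc n W) t) := by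
  obtain ⟨e1, e2, e3⟩ := ht
  obtain ⟨t1, ⟨b, B, B'⟩⟩ := t
  simp only at e1 e2 e3
  subst e1
  -- a general step
  have key : b = true → ∀ P : ℕ → List ℕ → List ℕ → Prop, Stp m n W P t1 → P t1 B B' →
      (rowS m n (orc n W) (t1, (b, (B, B')))).1 = t1 + 1 ∧
      ((rowS m n (orc n W) (t1, (b, (B, B')))).2.1 = false → ¬ ∃ x, Fea m n W (3 * m) x) ∧
      ((rowS m n (orc n W) (t1, (b, (B, B')))).2.1 = true →
        P (t1 + 1) (rowS m n (orc n W) (t1, (b, (B, B')))).2.2.1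
          (rowS m n (orc n W) (t1, (b, (B, B')))).2.2.2) := by
    intro hb P hP hB
    subst hb
    obtain ⟨s1, s2, s3, s4⟩ := hP B B' hB
    unfold rowS
    simp only
    rw [if_neg (by simp)]
    cases ho1 : orc n W B t1 <;> cases ho2 : orc n W B' t1
    · rw [if_pos (by simp)]
      refine ⟨rfl, fun _ => ?_, fun h => absurd h (by simp)⟩
      rintro ⟨x, hx⟩
      refine s1 ho1 ho2 ⟨x, ?_⟩
      have e : 3 * m = (t1 + 1) + (3 * m - (t1 + 1)) := by omega
      rw [e] at hx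
      exact Fea.mono' _ hx
    · rw [if_neg (by simp), if_pos (by simp)]
      exact ⟨rfl, fun h => absurd h (by simp), fun _ => s2 ho1 ho2⟩
    · rw [if_neg (by simp), if_neg (by simp), if_pos (by simp)]
      exact ⟨rfl, fun h => absurd h (by simp), fun _ => s3 ho1 ho2⟩
    · rw [if_neg (by simp), if_neg (by simp), if_neg (by simp)]
      exact ⟨rfl, fun h => absurd h (by simp), fun _ => s4 ho1 ho2⟩
  cases b with
  | false =>
    refine ⟨?_, ?_, ?_⟩
    · unfold rowS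
      simp
    · intro _
      exact e2 rfl
    · intro h
      unfold rowS at h
      simp at h
  | true =>
    obtain ⟨e4, e5⟩ := e3 rfl
    rcases Nat.lt_or_ge t1 (3 * n) with h | h
    · obtain ⟨k1, k2, k3⟩ := key rfl _ (h1 h) (e4 h.le)
      refine ⟨k1, k2, fun h3 => ⟨fun _ => k3 h3, fun h4 => ?_⟩⟩
      have e : t1 + 1 = 3 * n := by omega
      have h5 := k3 h3
      rw [e] at h5 ⊢
      exact hI _ _ h5
    · obtain ⟨k1, k2, k3⟩ := key rfl _ (h2 h) (e5 h)
      exact ⟨k1, k2, fun h3 => ⟨fun h4 => absurd h4 (by omega), fun _ => k3 h3⟩⟩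

/-- The algorithm is correct. -/
theorem t_CORE : S_VTX → S_NZR → S_INI → S_OUT2 → S_CORE := by
  intro hV hN hI hO m n W v κ ε Ω hS
  obtain ⟨i1, i2, i3⟩ := hI m n W v κ ε Ω hS
  have hO' := hO m n W v κ ε Ω hS
  have hm := hS.hm
  have inv : ∀ r ≤ 3 * m, Ivr m n W κ r
      ((rowS m n (orc n W))^[r] (0, (true, (ini n false, ini n true)))) := by
    intro r hr
    induction r with
    | zero =>
      refine ⟨rfl, fun h => absurd h (by simp), fun _ => ⟨fun _ => i1, fun h => ?_⟩⟩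
      have := hS.hn
      omega
    | succ r ih =>
      rw [Function.iterate_succ_apply']
      exact ivr_step (by omega) i2 (fun h => i3 r h) (fun h => hO' r h (by omega))
        (ih (by omega))
  obtain ⟨e1, e2, e3⟩ := inv (3 * m) le_rfl
  unfold runS
  constructor
  · intro h
    obtain ⟨-, h3⟩ := e3 h
    obtain ⟨a1, a2, a3, a4, a5, a6⟩ := h3 (by omega)
    obtain ⟨⟨x, hx⟩, -⟩ := hV n W _ a1.1.1 (hN m n W v κ ε Ω hS _ a1)
    exact ⟨x, Fea.all.1 (a5 x hx)⟩
  · rintro ⟨x, hx⟩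
    cases h : ((rowS m n (orc n W))^[3 * m] (0, (true, (ini n false, ini n true)))).2.1 with
    | true => rfl
    | false => exact absurd ⟨x, Fea.all.2 hx⟩ (e2 h)

end Pool.Agent.Y648.TP
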