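import Mathlib
import Pool.Agent.Y648.TP.StmM

set_option autoImplicit false

/-!
# Totally nonnegative column spaces: small common denominators (S_PZR, S_INT)

Job 1539 of helper648, by helper141.
-/

namespace Pool.Agent.Y648.TP

open Pool.Agent.NPC Pool.Agent.H558R2 Pool.Agent.H622R3.SM Pool.Agent.W920.FC Pool.Agent.Y648.CS

/-- `v * D` is an integer of absolute value at most `B`. -/
def ZB (D B : ℕ) (v : ℝ) : Prop := ∃ y : ℤ, y.natAbs ≤ B ∧ v * D = y

theorem ZB.mono {D B B' : ℕ} {v : ℝ} (h : ZB D B v) (hB : B ≤ B') : ZB D B' v := by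
  obtain ⟨y, h1, h2⟩ := h
  exact ⟨y, h1.trans hB, h2⟩

theorem ZB.neg {D B : ℕ} {v : ℝ} (h : ZB D B v) : ZB D B (-v) := by
  obtain ⟨y, h1, h2⟩ := h
  refine ⟨-y, by rwa [Int.natAbs_neg], ?_⟩
  push_cast
  rw [neg_mul, h2]

theorem ZB.add {D B B' : ℕ} {v w : ℝ} (h : ZB D B v) (h' : ZB D B' w) :
    ZB D (B + B') (v + w) := by
  obtain ⟨y, h1, h2⟩ := h
  obtain ⟨y', h1', h2'⟩ := h'
  refine ⟨y + y', (Int.natAbs_add_le _ _).trans (add_le_add h1 h1'), ?_⟩
  push_cast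
  rw [add_mul, h2, h2']

theorem ZB.zero (D B : ℕ) : ZB D B 0 := ⟨0, by simp, by simp⟩

theorem ZB.natmul {D B : ℕ} {v : ℝ} (h : ZB D B v) (a : ℕ) : ZB D (a * B) ((a : ℝ) * v) := by
  obtain ⟨y, h1, h2⟩ := h
  refine ⟨a * y, ?_, ?_⟩
  · rw [Int.natAbs_mul, Int.natAbs_natCast]
    exact Nat.mul_le_mul_left _ h1
  · push_cast
    rw [mul_assoc, h2]

theorem ZB.nat (D a : ℕ) : ZB D (a * D) (a : ℝ) := by
  refine ⟨((a * D : ℕ) : ℤ), by rw [Int.natAbs_natCast], ?_⟩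
  push_cast
  ring

theorem ZB.mul {D D' B B' : ℕ} {v w : ℝ} (h : ZB D B v) (h' : ZB D' B' w) :
    ZB (D * D') (B * B') (v * w) := by
  obtain ⟨y, h1, h2⟩ := h
  obtain ⟨y', h1', h2'⟩ := h'
  refine ⟨y * y', ?_, ?_⟩
  · rw [Int.natAbs_mul]
    exact Nat.mul_le_mul h1 h1'
  · push_cast
    rw [← h2, ← h2']
    ring

theorem Wp_bd {m D B : ℕ} {V : ℕ → ℕ → ℝ} (hV : ∀ i k, ZB D B (V i k)) (z : ℕ) :
    ∀ j i k, ZB D ((z ^ 3 + 1) ^ j * B) (Wp m V z j i k) := by
  intro j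
  induction j with
  | zero =>
    intro i k
    rw [pow_zero, one_mul, Wp]
    split_ifs
    · exact hV i k
    · exact ZB.zero _ _
  | succ j ih =>
    intro i k
    have e : (z ^ 3 + 1) ^ (j + 1) * B =
        z ^ 3 * ((z ^ 3 + 1) ^ j * B) + (z ^ 3 + 1) ^ j * B := by ring
    have h0 : ZB D (z ^ 3 * ((z ^ 3 + 1) ^ j * B)) ((z : ℝ) ^ 3 * Wp m V z j i k) := by
      have := (ih i k).natmul (z ^ 3)
      push_cast at this
      exact this
    rw [e, Wp]
    split_ifs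
    · exact h0.add (ih (i + 1) k)
    · exact h0.add (ZB.zero _ _)
    · exact h0.add (ih (i - 1) k)
    · exact ZB.zero _ _

/-- The polynomial bound. -/
noncomputable def qP : Polynomial ℕ :=
  (2 * Polynomial.X + 1) * (6 * Polynomial.X + 1) ^ 2 + Polynomial.X + 1

theorem qP_eval (T : ℕ) : qP.eval T = (2 * T + 1) * (6 * T + 1) ^ 2 + T + 1 := by
  simp [qP]

theorem t_PZR : S_PZR := by
  refine ⟨qP, ?_⟩
  intro S m n J s g lam hm hS hRB
  obtain ⟨D, hD1, hD2, hg⟩ := hRB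
  refine ⟨D, hD1, hD2, ?_⟩
  intro z hz c i
  have hV : ∀ i k, ZB D (2 ^ lam) (sV s (aR g) J i k) := by
    intro i k
    have h1 : ZB D (2 ^ lam) (aR g i (J.getD k 0)) :=
      hg [0, i, J.getD k 0] (by show (0 : ℕ) < 4; norm_num)
    unfold sV
    split_ifs
    · exact h1
    · exact h1.neg
  have hW : ZB D (2 ^ (lam + 1) * (z + 1) ^ (6 * m + 1))
      (Wp m (sV s (aR g) J) z (2 * m) (c / 3) i) := by
    refine (Wp_bd hV z (2 * m) (c / 3) i).mono ?_
    have h1 : z ^ 3 + 1 ≤ (z + 1) ^ 3 := by nlinarith [sq_nonneg z]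
    calc (z ^ 3 + 1) ^ (2 * m) * 2 ^ lam ≤ ((z + 1) ^ 3) ^ (2 * m) * 2 ^ lam :=
          Nat.mul_le_mul_right _ (Nat.pow_le_pow_left h1 _)
      _ = 2 ^ lam * (z + 1) ^ (6 * m) := by rw [← pow_mul, mul_comm]; congr 2; ring
      _ ≤ 2 ^ (lam + 1) * (z + 1) ^ (6 * m + 1) :=
          Nat.mul_le_mul (Nat.pow_le_pow_right (by norm_num) (by omega))
            (Nat.pow_le_pow_right (by omega) (by omega))
  have hpow : ∀ e, e ≤ 6 * m + 1 → z ^ e * 2 ^ lam ≤ 2 ^ lam * (z + 1) ^ (6 * m + 1) := by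
    intro e he
    rw [mul_comm]
    exact Nat.mul_le_mul_left _ ((Nat.pow_le_pow_left (by omega) _).trans
      (Nat.pow_le_pow_right (by omega) he))
  have key : ZB D (2 ^ (lam + 1) * (z + 1) ^ (6 * m + 1)) (PmR m n J s g z c i) := by
    unfold PmR Pm
    split_ifs
    · exact hW.neg
    · exact hW
    · have hb : ZB D (2 ^ lam) (g [1, c / 3]) := hg [1, c / 3] (by show (1 : ℕ) < 4; norm_num)
      have h1 := hb.natmul (z ^ (6 * m))
      have h2 := (ZB.nat D (z ^ (6 * m - 1))).neg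
      have h3 := h1.add h2
      push_cast at h3
      have e0 : (fun i => g [1, i]) (c / 3) * (z : ℝ) ^ (6 * m) - (z : ℝ) ^ (6 * m - 1) =
          (z : ℝ) ^ (6 * m) * g [1, c / 3] + -(z : ℝ) ^ (6 * m - 1) := by
        show g [1, c / 3] * (z : ℝ) ^ (6 * m) - (z : ℝ) ^ (6 * m - 1) = _
        ring
      rw [e0]
      refine h3.mono ?_
      have e : 2 ^ (lam + 1) * (z + 1) ^ (6 * m + 1) =
        2 ^ lam * (z + 1) ^ (6 * m + 1) + 2 ^ lam * (z + 1) ^ (6 * m + 1) := by ring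
      rw [e]
      exact add_le_add (hpow _ (by omega))
        ((Nat.mul_le_mul_left _ hD2).trans (hpow _ (by omega)))
    · have h2 := (ZB.nat D (z ^ (6 * m + 1))).neg
      push_cast at h2
      refine h2.mono ?_
      refine (Nat.mul_le_mul_left _ hD2).trans ((hpow _ le_rfl).trans ?_)
      exact Nat.mul_le_mul_right _ (Nat.pow_le_pow_right (by norm_num) (by omega))
  refine key.mono ?_
  have h1 : z + 1 ≤ 2 ^ DG m n := (Nat.lt_two_pow_self (n := z)).trans_le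
    (Nat.pow_le_pow_right (by norm_num) hz)
  calc 2 ^ (lam + 1) * (z + 1) ^ (6 * m + 1) ≤ 2 ^ (lam + 1) * (2 ^ DG m n) ^ (6 * m + 1) :=
        Nat.mul_le_mul_left _ (Nat.pow_le_pow_left h1 _)
    _ = 2 ^ (lam + 1 + DG m n * (6 * m + 1)) := by rw [← pow_mul, ← pow_add]
    _ ≤ 2 ^ qP.eval (S + lam) := by
      refine Nat.pow_le_pow_right (by norm_num) ?_
      rw [qP_eval, DG]
      have h2 : 2 * n + 1 ≤ 2 * (S + lam) + 1 := by omega
      have h3 : 6 * m + 1 ≤ 6 * (S + lam) + 1 := by omega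
      have h4 : (2 * n + 1) * (6 * m + 1) * (6 * m + 1) ≤
          (2 * (S + lam) + 1) * (6 * (S + lam) + 1) * (6 * (S + lam) + 1) :=
        Nat.mul_le_mul (Nat.mul_le_mul h2 h3) h3
      have h5 : (2 * (S + lam) + 1) * (6 * (S + lam) + 1) ^ 2 =
          (2 * (S + lam) + 1) * (6 * (S + lam) + 1) * (6 * (S + lam) + 1) := by ring
      rw [h5]
      omega

theorem det_bd {D B K : ℕ} {M : Matrix (Fin K) (Fin K) ℝ} (h : ∀ i k, ZB D B (M i k)) :
    ZB (D ^ K) (K.factorial * B ^ K) M.det := by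
  choose Y h1 h2 using h
  refine ⟨(Matrix.of Y).det, ?_, ?_⟩
  · have h3 := Matrix.det_le (A := Matrix.of Y) (abv := AbsoluteValue.abs) (x := (B : ℤ))
      (fun i j => by
        show |Y i j| ≤ (B : ℤ)
        rw [Int.abs_eq_natAbs]
        exact_mod_cast h1 i j)
    rw [Fintype.card_fin] at h3
    have h4 : |(Matrix.of Y).det| ≤ K.factorial • (B : ℤ) ^ K := h3
    rw [Int.abs_eq_natAbs, nsmul_eq_mul] at h4
    exact_mod_cast h4
  · have h3 : (((Matrix.of Y).det : ℤ) : ℝ) = ((D : ℝ) • M).det := by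
      have h4 := RingHom.map_det (Int.castRingHom ℝ) (Matrix.of Y)
      rw [show (((Matrix.of Y).det : ℤ) : ℝ) = (Int.castRingHom ℝ) (Matrix.of Y).det from rfl, h4]
      congr 1
      ext i k
      show ((Y i k : ℤ) : ℝ) = (D : ℝ) * M i k
      rw [← h2 i k, mul_comm]
    rw [h3, Matrix.det_smul, Fintype.card_fin, mul_comm]
    push_cast
    rfl

theorem dt_bd {D B : ℕ} {P : ℕ → ℕ → ℝ} (h : ∀ c i, ZB D B (P c i)) (K : ℕ) (l : List ℕ) :
    ZB (D ^ K) (K.factorial * B ^ K) (dt K P l) := by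
  unfold dt
  exact det_bd fun i k => h _ _

theorem fact_le (K : ℕ) : K.factorial ≤ 2 ^ (K * K) := by
  refine (Nat.factorial_le_pow K).trans ?_
  rw [pow_mul]
  exact Nat.pow_le_pow_left (Nat.lt_two_pow_self (n := K)).le _

theorem t_INT : S_PZR → S_INT := by
  rintro ⟨q, hq⟩
  refine ⟨(2 * Polynomial.X + 1) * (q + Polynomial.X) + 2 * (Polynomial.X + 1) ^ 2, ?_⟩
  intro S m n J s g lam hm hS hRB
  obtain ⟨D, hD1, hD2, hP⟩ := hq S m n J s g lam hm hS hRB
  set T := S + lam with hT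
  have hev : ((2 * Polynomial.X + 1) * (q + Polynomial.X) + 2 * (Polynomial.X + 1) ^ 2 :
      Polynomial ℕ).eval T = (2 * T + 1) * (q.eval T + T) + 2 * (T + 1) ^ 2 := by
    simp
  rw [hev]
  have hn : n ≤ T := by omega
  have hn2 : 2 * n + 1 ≤ 2 * T + 1 := by omega
  refine ⟨D ^ n * D ^ (n + 1), Nat.mul_pos (Nat.pow_pos hD1) (Nat.pow_pos hD1), ?_, ?_⟩
  · calc D ^ n * D ^ (n + 1) = D ^ (2 * n + 1) := by rw [← pow_add]; congr 1; ring
      _ ≤ (2 ^ lam) ^ (2 * n + 1) := Nat.pow_le_pow_left hD2 _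
      _ = 2 ^ (lam * (2 * n + 1)) := by rw [← pow_mul]
      _ ≤ 2 ^ ((2 * T + 1) * (q.eval T + T) + 2 * (T + 1) ^ 2) := by
        refine Nat.pow_le_pow_right (by norm_num) ?_
        calc lam * (2 * n + 1) ≤ (q.eval T + T) * (2 * T + 1) :=
              Nat.mul_le_mul (by omega) hn2
          _ = (2 * T + 1) * (q.eval T + T) := mul_comm _ _
          _ ≤ _ := Nat.le_add_right _ _
  · intro z hz R c
    have h0 : ∀ c i, ZB D (2 ^ q.eval T) (PmR m n J s g z c i) := fun c i => hP z hz c i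
    have h1 := (dt_bd h0 n R).mul (dt_bd h0 (n + 1) (R ++ [c]))
    have h2 := h1.neg
    refine h2.mono ?_
    calc n.factorial * (2 ^ q.eval T) ^ n * ((n + 1).factorial * (2 ^ q.eval T) ^ (n + 1))
        ≤ 2 ^ (n * n) * (2 ^ q.eval T) ^ n * (2 ^ ((n + 1) * (n + 1)) * (2 ^ q.eval T) ^ (n + 1)) :=
          Nat.mul_le_mul (Nat.mul_le_mul_right _ (fact_le n))
            (Nat.mul_le_mul_right _ (fact_le (n + 1)))
      _ = 2 ^ (n * n + (n + 1) * (n + 1) + (2 * n + 1) * q.eval T) := by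
          rw [← pow_mul, ← pow_mul, ← pow_add, ← pow_add, ← pow_add]
          congr 1
          ring
      _ ≤ 2 ^ ((2 * T + 1) * (q.eval T + T) + 2 * (T + 1) ^ 2) := by
        refine Nat.pow_le_pow_right (by norm_num) ?_
        have a1 : (2 * n + 1) * q.eval T ≤ (2 * T + 1) * (q.eval T + T) :=
          Nat.mul_le_mul hn2 (Nat.le_add_right _ _)
        have a2 : n * n ≤ (T + 1) * (T + 1) := Nat.mul_le_mul (by omega) (by omega)
        have a3 : (n + 1) * (n + 1) ≤ (T + 1) * (T + 1) := Nat.mul_le_mul (by omega) (by omega)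
        have a4 : 2 * (T + 1) ^ 2 = (T + 1) * (T + 1) + (T + 1) * (T + 1) := by ring
        rw [a4]
        omega

end Pool.Agent.Y648.TP
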