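import Pool.Agent.Y648.TP.T_PTQ

set_option autoImplicit false

/-!
# Totally nonnegative column spaces: the functions in polynomial time
-/

namespace Pool.Agent.Y648.TP

open Pool.Agent.NPC Pool.Agent.H558R2 Pool.Agent.H622R3.SM Pool.Agent.W920.FC Pool.Agent.Y648.CS

namespace TPTF

open TQQ TQD TPTA TPTQ

variable {α β : Type} [TEnc α] [TEnc β]

attribute [local fun_prop] NPC.Poly.range_length

theorem pne {β : Type} [TEnc β] {f g : α → β} [inst : ∀ a, Decidable (f a ≠ g a)]
    (hf : Poly f) (hg : Poly g) : Poly (fun a => @decide (f a ≠ g a) (inst a)) := by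
  classical
  exact (NPC.Poly.decide_not (NPC.Poly.decide_eq hf hg)).congr fun a => by congr

theorem pbeq {b c : α → Bool} (hb : Poly b) (hc : Poly c) : Poly (fun a => b a == c a) :=
  (NPC.Poly.not (NPC.Poly.xor hb hc)).congr fun a => by cases b a <;> cases c a <;> rfl

theorem psetG {l : α → List β} {k : α → ℕ} {c : α → β} (hl : Poly l) (hk : Poly k)
    (hc : Poly c) : Poly (fun x => (l x).set (k x) (c x)) := by
  refine (NPC.Poly.map (F := fun x (z : β × ℕ) => if z.2 = k x then c x else z.1)
    (NPC.Poly.zipIdx hl) ?_).congr fun x => ?_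
  · exact NPC.Poly.ite (NPC.Poly.dec_eq (NPC.Poly.snd (NPC.Poly.snd NPC.Poly.id))
      (hk.comp (NPC.Poly.fst NPC.Poly.id))) (hc.comp (NPC.Poly.fst NPC.Poly.id))
      (NPC.Poly.fst (NPC.Poly.snd NPC.Poly.id))
  · refine List.ext_getElem (by simp) fun i h1 h2 => ?_
    rw [List.getElem_set]
    simp only [List.getElem_map, List.getElem_zipIdx, zero_add]
    by_cases h : i = k x
    · rw [if_pos h, if_pos h.symm]
    · rw [if_neg h, if_neg fun h' => h h'.symm]

theorem pdropLast {l : α → List β} (hl : Poly l) : Poly (fun a => (l a).dropLast) :=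
  (NPC.Poly.reverse (NPC.Poly.tail (NPC.Poly.reverse hl))).congr fun a => by
    rw [List.tail_reverse, List.reverse_reverse]

attribute [local fun_prop] pne pbeq psetG pdropLast

/-! ### The basis -/

theorem pbsU {m : α → ℕ} {s : α → ℕ × List ℕ} {o : α → List Outcome} (hm : UPoly m)
    (hs : Poly s) (ho : Poly o) : Poly (fun a => bsU (m a) (s a) (o a)) := by
  obtain ⟨U, hU, rfl⟩ := toList hm
  unfold bsU
  fun_prop

theorem pcols {m n : α → ℕ} {I : α → List ℕ} (hm : Poly m) (hn : UPoly n) (hI : Poly I) :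
    Poly (fun a => cols (m a) (n a) (I a)) := by
  obtain ⟨V, hV, rfl⟩ := toList hn
  unfold cols
  fun_prop

/-! ### Signs -/

theorem pbtw {b c : α → ℕ} {I : α → List ℕ} (hI : Poly I) (hb : Poly b) (hc : Poly c) :
    Poly (fun a => btw (I a) (b a) (c a)) := by
  unfold btw
  fun_prop

attribute [local fun_prop] pbtw

theorem phlf {m k c : α → ℕ} {I : α → List ℕ} {o : α → List Outcome} (hm : Poly m)
    (hI : Poly I) (ho : Poly o) (hk : Poly k) (hc : Poly c) :
    Poly (fun a => hlf (m a) (I a) (o a) (k a) (c a)) := by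
  unfold hlf
  fun_prop

attribute [local fun_prop] phlf

theorem pedg {m u v : α → ℕ} {V : α → List Unit} {I : α → List ℕ} {o : α → List Outcome}
    (hm : Poly m) (hV : Poly V) (hI : Poly I) (ho : Poly o) (hu : Poly u) (hv : Poly v) :
    Poly (fun a => edg (m a) (V a).length (I a) (o a) (u a) (v a)) := by
  unfold edg
  fun_prop

attribute [local fun_prop] pedg

theorem pspr {U V : α → List Unit} {I : α → List ℕ} {o : α → List Outcome}
    {l : α → List (Option Bool)} (hU : Poly U) (hV : Poly V) (hI : Poly I) (ho : Poly o)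
    (hl : Poly l) :
    Poly (fun a => spr (U a).length (edg (U a).length (V a).length (I a) (o a)) (l a)) := by
  unfold spr
  fun_prop

attribute [local fun_prop] pspr

theorem psst {U V : α → List Unit} {I : α → List ℕ} {o : α → List Outcome}
    {l : α → List (Option Bool)} (hU : Poly U) (hV : Poly V) (hI : Poly I) (ho : Poly o)
    (hl : Poly l) :
    Poly (fun a => sst (U a).length (edg (U a).length (V a).length (I a) (o a)) (l a)) := by
  unfold sst
  fun_prop

theorem len_sst {m : ℕ} {E : ℕ → ℕ → List Bool} {l : List (Option Bool)} (h : l.length = m) :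
    (sst m E l).length = m := by
  unfold sst
  split_ifs
  · cases (((List.range m).filter fun v => decide (l.getD v none = none)).head?) with
    | none => exact h
    | some v => simpa using h
  · simp [spr]

theorem len_lbl {m : ℕ} {E : ℕ → ℕ → List Bool} (i : ℕ) :
    ((sst m E)^[i] ((List.range m).map fun _ => none)).length = m := by
  induction i with
  | zero => simp
  | succ i ih => rw [Function.iterate_succ_apply']; exact len_sst ih

theorem plbl {U V : α → List Unit} {I : α → List ℕ} {o : α → List Outcome} (hU : Poly U)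
    (hV : Poly V) (hI : Poly I) (ho : Poly o) :
    Poly (fun a => lbl (U a).length (edg (U a).length (V a).length (I a) (o a))) := by
  obtain ⟨r, hr⟩ := hU.sz_le
  unfold lbl
  have hF : Poly (fun q : α × List (Option Bool) => sst (U q.1).length
      (edg (U q.1).length (V q.1).length (I q.1) (o q.1)) q.2) := by
    have b : Poly (fun q : α × List (Option Bool) => q.1) := NPC.Poly.fst NPC.Poly.id
    exact psst (hU.comp b) (hV.comp b) (hI.comp b) (ho.comp b) (NPC.Poly.snd NPC.Poly.id)
  have hs : Poly (fun a => (List.range (U a).length).map fun _ => (none : Option Bool)) := by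
    fun_prop
  refine NPC.Poly.iterLen (F := fun a l => sst (U a).length
    (edg (U a).length (V a).length (I a) (o a)) l) hU hs hF (r * 10 + 1) ?_
  intro a k _
  have h1 : ∀ x ∈ (sst (U a).length (edg (U a).length (V a).length (I a) (o a)))^[k]
      ((List.range (U a).length).map fun _ => none), sz x ≤ 9 := by
    intro x _
    cases x with
    | none => simp
    | some x =>
      have e2 := sz_bool_le x
      simp only [sz_some]
      omega
  have h2 := sz_le_length_mul _ _ h1
  rw [len_lbl] at h2
  refine h2.trans ?_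
  simp only [Polynomial.eval_add, Polynomial.eval_mul, Polynomial.eval_one,
    Polynomial.eval_ofNat]
  have h3 := length_lt_sz (U a)
  have h4 := hr a
  omega

theorem psgn {m n : α → ℕ} {I : α → List ℕ} {o : α → List Outcome} (hm : UPoly m)
    (hn : UPoly n) (hI : Poly I) (ho : Poly o) :
    Poly (fun a => sgn (m a) (n a) (I a) (o a)) := by
  obtain ⟨U, hU, rfl⟩ := toList hm
  obtain ⟨V, hV, rfl⟩ := toList hn
  have h := plbl hU hV hI ho
  unfold sgn
  refine NPC.Poly.map (F := fun a v => ((lbl (U a).length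
    (edg (U a).length (V a).length (I a) (o a))).getD v none).getD true)
    (NPC.Poly.range_length hU) ?_
  exact NPC.Poly.optGetD (NPC.Poly.getD (h.comp (NPC.Poly.fst NPC.Poly.id))
    (NPC.Poly.snd NPC.Poly.id) (NPC.Poly.const none)) (NPC.Poly.const true)

/-! ### Pivots -/

theorem psatO {D i : α → ℕ} {o : α → List Outcome} (hD : UPoly D) (ho : Poly o) (hi : Poly i) :
    Poly (fun a => satO (D a) (o a) (i a)) := by
  have hD' := hD.toPoly
  obtain ⟨W, hW, eW⟩ := toList (UPoly.add hD (UPoly.const 1))
  have e : ∀ a, D a + 1 = (W a).length := fun a => congrFun eW a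
  unfold satO
  simp only [e]
  fun_prop

theorem pcon {n r c : α → ℕ} (hn : Poly n) (hr : Poly r) (hc : Poly c) :
    Poly (fun a => con (n a) (r a) (c a)) := by
  unfold con
  fun_prop

attribute [local fun_prop] pcon

theorem ppupd {m n r : α → ℕ} {B : α → List ℕ} {f₁ : α → ℕ → Bool} {f₂ : α → ℕ → ℕ → Bool}
    (hm : UPoly m) (hn : Poly n) (hr : Poly r) (hB : Poly B)
    (h1 : Poly (fun q : α × ℕ => f₁ q.1 q.2))
    (h2 : Poly (fun q : (α × ℕ) × ℕ => f₂ q.1.1 q.1.2 q.2)) :
    Poly (fun a => pupd (m a) (n a) (r a) (B a) (f₁ a) (f₂ a)) := by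
  have h3 : UPoly (fun a => 3 * m a) := UPoly.mul (UPoly.const 3) hm
  have b : Poly (fun q : α × ℕ => q.1) := NPC.Poly.fst NPC.Poly.id
  have c : Poly (fun q : (α × ℕ) × ℕ => q.1.1) := NPC.Poly.fst (NPC.Poly.fst NPC.Poly.id)
  have c3 : Poly (fun q : (α × ℕ) × ℕ => q.2) := NPC.Poly.snd NPC.Poly.id
  unfold pupd
  refine NPC.Poly.ite (NPC.Poly.decide_bool ?_) hB ?_
  · refine NPC.Poly.all (p := fun a c => !(con (n a) (r a) c) || f₁ a c) h3.range ?_
    exact NPC.Poly.or (NPC.Poly.not (pcon (hn.comp b) (hr.comp b) (NPC.Poly.snd NPC.Poly.id))) h1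
  · refine NPC.Poly.optElim (o := fun a => ((List.range (3 * m a)).filter fun c =>
      con (n a) (r a) c && (!(f₁ a c) && (List.range (3 * m a)).all fun c' =>
        !(con (n a) (r a) c') || f₂ a c c')).head?) (g := B)
      (h := fun a c => (B a).set (((B a).dropLast.filter
        fun x => decide (x / 3 < c / 3)).length - 1) c) (NPC.Poly.head? ?_) hB (by fun_prop)
    refine NPC.Poly.filter (p := fun a c =>
      con (n a) (r a) c && (!(f₁ a c) && (List.range (3 * m a)).all fun c' =>
        !(con (n a) (r a) c') || f₂ a c c')) h3.range ?_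
    refine NPC.Poly.and (pcon (hn.comp b) (hr.comp b) (NPC.Poly.snd NPC.Poly.id))
      (NPC.Poly.and (NPC.Poly.not h1) ?_)
    refine NPC.Poly.all (l := fun q : α × ℕ => List.range (3 * m q.1))
      (p := fun q c' => !(con (n q.1) (r q.1) c') || f₂ q.1 q.2 c') (h3.range.comp b) ?_
    exact NPC.Poly.or (NPC.Poly.not (pcon (hn.comp c) (hr.comp c) c3)) h2

theorem pprs {m : α → ℕ} {B : α → List ℕ} (hm : UPoly m) (hB : Poly B) :
    Poly (fun a => prs (m a) (B a)) := by
  obtain ⟨W, hW, eW⟩ := toList (UPoly.mul (UPoly.const 3) hm)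
  have e : ∀ a, 3 * m a = (W a).length := fun a => congrFun eW a
  unfold prs
  simp only [e]
  fun_prop

theorem pini {n : α → ℕ} (b : Bool) (hn : UPoly n) : Poly (fun a => ini (n a) b) := by
  obtain ⟨V, hV, rfl⟩ := toList hn
  unfold ini
  fun_prop

end TPTF

end Pool.Agent.Y648.TP
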