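import Pool.Agent.Y648.CS.T_PTA
import Pool.Agent.Y648.TP.StmM

set_option autoImplicit false

/-!
# Totally nonnegative column spaces: the queries in polynomial time
-/

namespace Pool.Agent.Y648.TP

open Pool.Agent.NPC Pool.Agent.H558R2 Pool.Agent.H622R3.SM Pool.Agent.W920.FC Pool.Agent.Y648.CS

namespace TPTQ

open TQQ TQD TPTA

variable {α β : Type} [TEnc α] [TEnc β]

attribute [local fun_prop] TPM.pInstr NPC.Poly.range_length

/-! ### Numbers in unary -/

theorem rng_unary {N : α → ℕ} (hN : UPoly N) :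
    Poly (fun q : α × ℕ => (q.1, List.replicate (min q.2 (N q.1)) ())) :=
  NPC.Poly.pair (NPC.Poly.fst NPC.Poly.id) (UPoly.of_le (NPC.Poly.min (NPC.Poly.snd NPC.Poly.id)
    (hN.toPoly.comp (NPC.Poly.fst NPC.Poly.id))) (UPoly.comp (n := N) hN
      (NPC.Poly.fst NPC.Poly.id)) fun _ => min_le_right _ _)

/-- Lists indexed by numbers in unary. -/
theorem mapU {N : α → ℕ} {F : α → ℕ → β} (hN : UPoly N)
    (hF : Poly (fun p : α × List Unit => F p.1 p.2.length)) :
    Poly (fun a => (List.range (N a)).map (F a)) := by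
  refine (NPC.Poly.map (F := fun a z => F a (min z (N a))) hN.range ?_).congr fun a => ?_
  · exact (hF.comp (rng_unary hN)).congr fun q => by simp
  · refine List.map_congr_left fun z hz => ?_
    rw [min_eq_left (List.mem_range.1 hz).le]

/-- A number in unary as the length of a list. -/
theorem toList {n : α → ℕ} (hn : UPoly n) : ∃ U : α → List Unit, Poly U ∧
    n = fun a => (U a).length :=
  ⟨fun a => List.replicate (n a) (), hn, funext fun a => by simp⟩

/-! ### Determinants -/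

theorem pdtE {K : α → ℕ} {e : α → ℕ → ℕ → Reg} (hK : UPoly K)
    (he : Poly (fun q : (α × ℕ) × ℕ => e q.1.1 q.1.2 q.2)) :
    Poly (fun a => dtE (K a) (e a)) := by
  have hK' := hK.toPoly
  unfold dtE
  refine NPC.Poly.pair (NPC.Poly.append ?_ (pfl hK)) (by fun_prop)
  refine NPC.Poly.flatMap (F := fun a i => (List.range (K a)).map fun k =>
    (⟨Op.add, [4, i, k], e a i k, [3]⟩ : Instr)) hK.range ?_
  refine NPC.Poly.map (l := fun p : α × ℕ => List.range (K p.1))
    (F := fun p k => (⟨Op.add, [4, p.2, k], e p.1 p.2 k, [3]⟩ : Instr))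
    (hK.range.comp (NPC.Poly.fst NPC.Poly.id)) ?_
  exact TPM.pInstr _ (by fun_prop) he (NPC.Poly.const [3])

theorem puE {m i k : α → ℕ} {l : α → List ℕ} (hm : Poly m) (hl : Poly l) (hi : Poly i)
    (hk : Poly k) : Poly (fun a => uE (m a) (l a) (i a) (k a)) := by
  unfold uE
  fun_prop

theorem prE {i k : α → ℕ} {l : α → List ℕ} (hl : Poly l) (hi : Poly i)
    (hk : Poly k) : Poly (fun a => rE (l a) (i a) (k a)) := by
  unfold rE
  fun_prop

/-! ### The perturbed system -/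

theorem ppwP {m z : α → ℕ} (hm : UPoly m) (hz : UPoly z) : Poly (fun a => pwP (m a) (z a)) := by
  have hm' := hm.toPoly
  have hz' := hz.toPoly
  unfold pwP
  refine NPC.Poly.append (NPC.Poly.cons (NPC.Poly.const _) (NPC.Poly.map
    (F := fun _ k => (⟨Op.add, [70, k + 1], [70, k], [2]⟩ : Instr)) hz.range (by fun_prop)))
    (NPC.Poly.cons (NPC.Poly.const _) (NPC.Poly.map
      (F := fun a e => (⟨Op.mul, [71, e + 1], [71, e], [70, z a]⟩ : Instr))
      (UPoly.add (UPoly.mul (UPoly.const 6) hm) (UPoly.const 1)).range (by fun_prop)))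

theorem pstP {m n : α → ℕ} {J : α → List ℕ} {s : α → List Bool} (hm : UPoly m) (hn : UPoly n)
    (hJ : Poly J) (hs : Poly s) : Poly (fun a => stP (m a) (n a) (J a) (s a)) := by
  obtain ⟨U2, hU2, e2⟩ := toList (UPoly.mul (UPoly.const 2) hm)
  obtain ⟨U, hU, rfl⟩ := toList hm
  obtain ⟨V, hV, rfl⟩ := toList hn
  have e2' : ∀ a, 2 * (U a).length = (U2 a).length := fun a => congrFun e2 a
  unfold stP
  simp only [e2']
  fun_prop

theorem pcoP {m n c : α → ℕ} {s : α → List Bool} (hm : UPoly m) (hn : UPoly n)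
    (hs : Poly s) (hc : Poly c) : Poly (fun a => coP (m a) (n a) (s a) (c a)) := by
  have hm' := hm.toPoly
  have hn' := hn.toPoly
  obtain ⟨V, hV, rfl⟩ := toList hn
  unfold coP
  fun_prop

theorem ppzP {m n z : α → ℕ} {J : α → List ℕ} {s : α → List Bool} (hm : UPoly m)
    (hn : UPoly n) (hJ : Poly J) (hs : Poly s) (hz : UPoly z) :
    Poly (fun a => pzP (m a) (n a) (J a) (s a) (z a)) := by
  unfold pzP
  refine NPC.Poly.append (ppwP hm hz) (NPC.Poly.append (pstP hm hn hJ hs) ?_)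
  refine NPC.Poly.flatMap (F := fun a c => coP (m a) (n a) (s a) c)
    (UPoly.mul (UPoly.const 3) hm).range ?_
  exact pcoP (UPoly.comp (n := m) hm (NPC.Poly.fst NPC.Poly.id))
    (UPoly.comp (n := n) hn (NPC.Poly.fst NPC.Poly.id)) (hs.comp (NPC.Poly.fst NPC.Poly.id))
    (NPC.Poly.snd NPC.Poly.id)

theorem prz {b c : α → ℕ} {r : α → Reg} (hb : Poly b) (hc : Poly c) (hr : Poly r) :
    Poly (fun a => rz (b a) (c a) (r a)) := by
  have hh := pheadD hr
  unfold rz
  refine NPC.Poly.ite (NPC.Poly.decide_and (by fun_prop) (NPC.Poly.decide_and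
    (NPC.Poly.dec_eq hh (NPC.Poly.const 0)) (by fun_prop))) (by fun_prop) ?_
  exact NPC.Poly.ite (by fun_prop) (by fun_prop) (NPC.Poly.ite
    (NPC.Poly.decide_lt hh (NPC.Poly.const 4)) (by fun_prop) (by fun_prop))

theorem przI {b c : α → ℕ} {I : α → Instr} (hb : Poly b) (hc : Poly c) (hI : Poly I) :
    Poly (fun a => rzI (b a) (c a) (I a)) :=
  pmk hI (prz hb hc (pdst hI)) (prz hb hc (pfst hI)) (prz hb hc (psnd hI))

theorem przQ {b c : α → ℕ} {P : α → List Instr} {q : α → Qry} (hb : Poly b) (hc : Poly c)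
    (hP : Poly P) (hq : Poly q) : Poly (fun a => rzQ (b a) (c a) (P a) (q a)) := by
  unfold rzQ
  refine NPC.Poly.pair (NPC.Poly.append hP ?_) (prz hb hc (NPC.Poly.snd hq))
  refine NPC.Poly.map (l := fun a => (q a).1) (F := fun a I => rzI (b a) (c a) I)
    (NPC.Poly.fst hq) ?_
  exact przI (hb.comp (NPC.Poly.fst NPC.Poly.id)) (hc.comp (NPC.Poly.fst NPC.Poly.id))
    (NPC.Poly.snd NPC.Poly.id)

theorem pdtR {K : α → ℕ} {R : α → List ℕ} (hK : UPoly K) (hR : Poly R) :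
    Poly (fun a => dtE (K a) (rE (R a))) :=
  pdtE hK (prE (hR.comp (NPC.Poly.fst (NPC.Poly.fst NPC.Poly.id)))
    (NPC.Poly.snd (NPC.Poly.fst NPC.Poly.id)) (NPC.Poly.snd NPC.Poly.id))

theorem pdtU {K m : α → ℕ} {R : α → List ℕ} (hK : UPoly K) (hm : Poly m) (hR : Poly R) :
    Poly (fun a => dtE (K a) (uE (m a) (R a))) :=
  pdtE hK (puE (hm.comp (NPC.Poly.fst (NPC.Poly.fst NPC.Poly.id)))
    (hR.comp (NPC.Poly.fst (NPC.Poly.fst NPC.Poly.id)))
    (NPC.Poly.snd (NPC.Poly.fst NPC.Poly.id)) (NPC.Poly.snd NPC.Poly.id))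

theorem pstZ {m n z c : α → ℕ} {J R : α → List ℕ} {s : α → List Bool} (hm : UPoly m)
    (hn : UPoly n) (hJ : Poly J) (hs : Poly s) (hz : UPoly z) (hR : Poly R) (hc : Poly c) :
    Poly (fun a => stZ (m a) (n a) (J a) (s a) (z a) (R a) (c a)) := by
  have hm' := hm.toPoly
  have hn' := hn.toPoly
  unfold stZ
  exact przQ (by fun_prop) (by fun_prop) (ppzP hm hn hJ hs hz) (pcmb _ (pdtR hn hR)
    (pdtR (UPoly.add hn (UPoly.const 1)) (by fun_prop)))

/-! ### Differences -/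

theorem pdifQ {qs : α → List Qry} {k : α → ℕ} (hq : Poly qs) (hk : UPoly k) :
    Poly (fun a => difQ (qs a) (k a)) := by
  have hk' := hk.toPoly
  unfold difQ
  refine NPC.Poly.pair (NPC.Poly.append (ptupP hq) (NPC.Poly.append ?_ ?_)) (by fun_prop)
  · refine NPC.Poly.map (F := fun a j => (⟨Op.add, [90, 0, j], tupR (qs a) j, [3]⟩ : Instr))
      (UPoly.add hk (UPoly.const 1)).range ?_
    exact TPM.pInstr _ (by fun_prop) (ptupR (hq.comp (NPC.Poly.fst NPC.Poly.id))
      (NPC.Poly.snd NPC.Poly.id)) (NPC.Poly.const [3])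
  · refine NPC.Poly.flatMap (F := fun a b => (List.range (k a - b)).map fun j =>
      (⟨Op.sub, [90, b + 1, j], [90, b, j + 1], [90, b, j]⟩ : Instr)) hk.range ?_
    have h1 : UPoly (fun q : α × ℕ => k q.1 - q.2) :=
      UPoly.of_le (by fun_prop) (UPoly.comp (n := k) hk (NPC.Poly.fst NPC.Poly.id))
        fun q => Nat.sub_le _ _
    refine NPC.Poly.map (l := fun q : α × ℕ => List.range (k q.1 - q.2))
      (F := fun q j => (⟨Op.sub, [90, q.2 + 1, j], [90, q.2, j + 1], [90, q.2, j]⟩ : Instr))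
      h1.range (by fun_prop)

theorem uDG {m n : α → ℕ} (hm : UPoly m) (hn : UPoly n) : UPoly (fun a => DG (m a) (n a)) :=
  UPoly.mul (UPoly.add (UPoly.mul (UPoly.const 2) hn) (UPoly.const 1))
    (UPoly.add (UPoly.mul (UPoly.const 6) hm) (UPoly.const 1))

theorem pdfZ {m n c k : α → ℕ} {J R : α → List ℕ} {s : α → List Bool} (hm : UPoly m)
    (hn : UPoly n) (hJ : Poly J) (hs : Poly s) (hR : Poly R) (hc : Poly c) (hk : UPoly k) :
    Poly (fun a => dfZ (m a) (n a) (J a) (s a) (R a) (c a) (k a)) := by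
  unfold dfZ
  refine pdifQ ?_ hk
  refine mapU (F := fun a z => stZ (m a) (n a) (J a) (s a) z (R a) (c a))
    (UPoly.add hk (UPoly.const 1)) ?_
  have b : Poly (fun q : α × List Unit => q.1) := NPC.Poly.fst NPC.Poly.id
  exact pstZ (UPoly.comp (n := m) hm b) (UPoly.comp (n := n) hn b) (hJ.comp b) (hs.comp b)
    (UPoly.length (NPC.Poly.snd NPC.Poly.id)) (hR.comp b) (hc.comp b)

theorem pprQs1 {m n : α → ℕ} {J : α → List ℕ} {s : α → List Bool}
    (hm : UPoly m) (hn : UPoly n) (hJ : Poly J) (hs : Poly s) :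
    Poly (fun q : (α × (List ℕ × ℕ)) × List Unit =>
      dfZ (m q.1.1) (n q.1.1) (J q.1.1) (s q.1.1) q.1.2.1 q.1.2.2 q.2.length) := by
  have c : Poly (fun q : (α × (List ℕ × ℕ)) × List Unit => q.1.1) :=
    NPC.Poly.fst (NPC.Poly.fst NPC.Poly.id)
  have c2 : Poly (fun q : (α × (List ℕ × ℕ)) × List Unit => q.1.2) :=
    NPC.Poly.snd (NPC.Poly.fst NPC.Poly.id)
  exact pdfZ (UPoly.comp (n := m) hm c) (UPoly.comp (n := n) hn c) (hJ.comp c) (hs.comp c)
      (NPC.Poly.fst c2) (NPC.Poly.snd c2) (UPoly.length (NPC.Poly.snd NPC.Poly.id))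

theorem pprQs2 {m n : α → ℕ} {J : α → List ℕ} {s : α → List Bool}
    (hm : UPoly m) (hn : UPoly n) (hJ : Poly J) (hs : Poly s) :
    Poly (fun q : α × (List ℕ × ℕ) => (List.range (DG (m q.1) (n q.1) + 1)).map
      fun k => dfZ (m q.1) (n q.1) (J q.1) (s q.1) q.2.1 q.2.2 k) := by
  have b : Poly (fun q : α × (List ℕ × ℕ) => q.1) := NPC.Poly.fst NPC.Poly.id
  have hD : UPoly (fun a => DG (m a) (n a) + 1) := UPoly.add (uDG hm hn) (UPoly.const 1)
  have hD' : UPoly (fun q : α × (List ℕ × ℕ) => DG (m q.1) (n q.1) + 1) :=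
    UPoly.comp (n := fun a => DG (m a) (n a) + 1) hD b
  exact mapU (F := fun (q : α × (List ℕ × ℕ)) k =>
    dfZ (m q.1) (n q.1) (J q.1) (s q.1) q.2.1 q.2.2 k) hD' (pprQs1 hm hn hJ hs)

theorem pprQs {m n : α → ℕ} {J : α → List ℕ} {s : α → List Bool} {ps : α → List (List ℕ × ℕ)}
    (hm : UPoly m) (hn : UPoly n) (hJ : Poly J) (hs : Poly s) (hp : Poly ps) :
    Poly (fun a => prQs (m a) (n a) (J a) (s a) (ps a)) := by
  unfold prQs
  refine NPC.Poly.flatMap (F := fun (a : α) (x : List ℕ × ℕ) =>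
    (List.range (DG (m a) (n a) + 1)).map fun k => dfZ (m a) (n a) (J a) (s a) x.1 x.2 k) hp ?_
  exact pprQs2 (m := m) (n := n) (J := J) (s := s) hm hn hJ hs

/-! ### The basis and the tableau -/

theorem pbsQs {m n : α → ℕ} {s : α → ℕ × List ℕ} (hm : UPoly m) (hn : UPoly n) (hs : Poly s) :
    Poly (fun a => bsQs (m a) (n a) (s a)) := by
  unfold bsQs
  refine NPC.Poly.map (F := fun a c => dtE (n a) (uE (m a) ((s a).2.set (s a).1 c))) hm.range ?_
  have b : Poly (fun q : α × ℕ => q.1) := NPC.Poly.fst NPC.Poly.id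
  exact pdtU (UPoly.comp (n := n) hn b) (hm.toPoly.comp b) (pset (NPC.Poly.snd (hs.comp b))
    (NPC.Poly.fst (hs.comp b)) (NPC.Poly.snd NPC.Poly.id))

theorem ptbQs {m n : α → ℕ} {I : α → List ℕ} (hm : UPoly m) (hn : UPoly n) (hI : Poly I) :
    Poly (fun a => tbQs (m a) (n a) (I a)) := by
  unfold tbQs
  refine NPC.Poly.flatMap (F := fun a k => (List.range (m a)).map fun c =>
    cmb Op.mul (dtE (n a) (uE (m a) (I a))) (dtE (n a) (uE (m a) ((I a).set k c)))) hn.range ?_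
  refine NPC.Poly.map (l := fun q : α × ℕ => List.range (m q.1)) (F := fun q c =>
    cmb Op.mul (dtE (n q.1) (uE (m q.1) (I q.1))) (dtE (n q.1) (uE (m q.1) ((I q.1).set q.2 c))))
    (hm.range.comp (NPC.Poly.fst NPC.Poly.id)) ?_
  have c : Poly (fun q : (α × ℕ) × ℕ => q.1.1) := NPC.Poly.fst (NPC.Poly.fst NPC.Poly.id)
  exact pcmb _ (pdtU (UPoly.comp (n := n) hn c) (hm.toPoly.comp c) (hI.comp c))
    (pdtU (UPoly.comp (n := n) hn c) (hm.toPoly.comp c) (pset (hI.comp c)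
      (NPC.Poly.snd (NPC.Poly.fst NPC.Poly.id)) (NPC.Poly.snd NPC.Poly.id)))

end TPTQ

end Pool.Agent.Y648.TP
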