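import Pool.Agent.Y648.TP.StmM
import Pool.Agent.Y648.CS.T_PEQ

set_option autoImplicit false

/-!
# The query for one vertex (helper319, adapting Y648/CS/T_PEQ)
-/

namespace Pool.Agent.Y648.TP

open Pool.Agent.NPC Pool.Agent.H558R2 Pool.Agent.H622R3.SM Pool.Agent.W920.FC Pool.Agent.Y648.CS

namespace TSTZ

theorem dt_of {m n K : ℕ} {J : List ℕ} {s : List Bool} {z : ℕ} {g : Reg → ℝ} {l : List ℕ}
    (hl : l.length = K) (hl3 : ∀ a ∈ l, a < 3 * m) (hK : K ≤ n + 1) :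
    (Matrix.of fun i k : Fin K => gZ m n J s z g (rE l i k)).det =
      dt K (PmR m n J s g z) l := by
  unfold dt
  congr 1
  ext i k
  simp only [Matrix.of_apply]
  have h1 : l.getD k 0 < 3 * m := by
    have hk : (k : ℕ) < l.length := by rw [hl]; exact k.2
    rw [List.getD_eq_getElem _ _ hk]
    exact hl3 _ (List.getElem_mem hk)
  have h2 : (i : ℕ) < n + 1 := i.2.trans_le hK
  unfold gZ rE
  rw [if_pos ⟨by simp, by simp, by simpa using h1, by simpa using h2⟩]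
  simp

theorem RB_gZ {m n lam : ℕ} {J : List ℕ} {s : List Bool} {z : ℕ} {g : Reg → ℝ} {β D : ℕ}
    (hD1 : 1 ≤ D) (hD2 : D ≤ 2 ^ lam)
    (h : ∀ c i : ℕ, ∃ y : ℤ, y.natAbs ≤ 2 ^ β ∧ PmR m n J s g z c i * D = y) :
    RB (β + lam) (gZ m n J s z g) := by
  have hp1 : 2 ^ lam ≤ 2 ^ (β + lam) := Nat.pow_le_pow_right (by norm_num) (by omega)
  have hp2 : 2 ^ β ≤ 2 ^ (β + lam) := Nat.pow_le_pow_right (by norm_num) (by omega)
  refine ⟨D, hD1, hD2.trans hp1, fun r _ => ?_⟩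
  unfold gZ
  split_ifs
  · obtain ⟨y, h1, h2⟩ := h (r.getD 1 0) (r.getD 2 0)
    exact ⟨y, h1.trans hp2, h2⟩
  · refine ⟨D, ?_, by simp⟩
    rw [Int.natAbs_natCast]
    exact hD2.trans hp1
  · exact ⟨0, by simp, by simp⟩

end TSTZ

open TSTZ Pool.Agent.Y648.CS.TPEQ Pool.Agent.Y648.CS.TTUP Pool.Agent.Y648.CS.TPRE
  Pool.Agent.Y648.CS.TREL

theorem t_STZ : S_DTE → Pool.Agent.Y648.CS.S_CMB → S_PZP → S_PZR → S_REZ → S_STZ := by
  intro hD hC hP hR hZ
  obtain ⟨qd, hqd⟩ := hD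
  obtain ⟨qp, hqp⟩ := hP
  obtain ⟨qr, hqr⟩ := hR
  set q1 : Polynomial ℕ := 2 * qd + 2 * Polynomial.X + 2 with hq1
  have e1 : ∀ x, q1.eval x = 2 * qd.eval x + 2 * x + 2 := fun x => by
    rw [hq1]
    simp only [Polynomial.eval_add, Polynomial.eval_mul, Polynomial.eval_X, Polynomial.eval_ofNat]
  set q : Polynomial ℕ := qp + q1.comp (Polynomial.X + qr) + (2 * qd + 1) with hq
  have e2 : ∀ x, q.eval x = qp.eval x + q1.eval (x + qr.eval x) + (2 * qd.eval x + 1) := fun x => by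
    rw [hq]
    simp only [Polynomial.eval_add, Polynomial.eval_mul, Polynomial.eval_comp, Polynomial.eval_X,
      Polynomial.eval_ofNat, Polynomial.eval_one]
  refine ⟨q, fun S m n J s z g R c hg hm hn hmn hz hV hc => ?_⟩
  obtain ⟨c1, c2, c3, ⟨V, c4, c5, c6⟩, c7⟩ := hqp S m n J s z g hg hm hmn hz
  set g' := gZ m n J s z g with hg'
  have hgb : Base g' := by
    constructor <;> simp [hg', gZ]
  obtain ⟨d1, d2⟩ := hqd S n (rE R) g' hgb hn (by omega) (fun i _ k _ => by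
    change (0 : ℕ) < 4
    norm_num)
  obtain ⟨d3, d4⟩ := hqd S (n + 1) (rE (R ++ [c])) g' hgb (by omega) (by omega) (fun i _ k _ => by
    change (0 : ℕ) < 4
    norm_num)
  rw [dt_of hV.1 hV.2 (by omega)] at d1
  rw [dt_of (by rw [List.length_append, hV.1]; rfl) (by
    intro a ha
    rcases List.mem_append.1 ha with ha | ha
    · exact hV.2 a ha
    · rw [List.mem_singleton.1 ha]
      exact hc) le_rfl] at d3
  set P := PmR m n J s g z with hPdef
  have hprod := fun lam (hlam : RB lam g') => QB_mul (hv_gd d1 lam hlam) (hv_gd d3 lam hlam)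
  have hg1 : ∀ v, Gd qd S g' v → Gd q1 S g' v := fun v hv lam hlam =>
    QB_mono (by rw [e1]; omega) (hv lam hlam)
  obtain ⟨f1, f2⟩ := hC g' (Gd q1 S g') Op.mul _ _ _ _ (hv_mono hg1 d1) (hv_mono hg1 d3)
    (by simp) (fun lam hlam => QB_mono (by rw [e1]; omega) (hprod lam hlam))
  have hval : Op.mul.eval ((-1) ^ (n - 1) * dt n P R) ((-1) ^ (n + 1 - 1) * dt (n + 1) P (R ++ [c])) =
      Nv n P R c := by
    obtain ⟨n, rfl⟩ : ∃ n', n = n' + 1 := ⟨n - 1, by omega⟩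
    simp only [Op.eval, Nv]
    rw [Nat.add_sub_cancel, Nat.add_sub_cancel]
    have h1 : ((-1 : ℝ) ^ n) * ((-1 : ℝ) ^ (n + 1)) = -1 := by
      rw [← pow_add, show n + (n + 1) = 2 * n + 1 by ring, pow_succ, pow_mul]
      norm_num
    calc (-1 : ℝ) ^ n * dt (n + 1) P R * ((-1) ^ (n + 1) * dt (n + 1 + 1) P (R ++ [c])) =
        ((-1 : ℝ) ^ n * (-1) ^ (n + 1)) * (dt (n + 1) P R * dt (n + 1 + 1) P (R ++ [c])) := by ring
      _ = _ := by rw [h1]; ring
  rw [hval] at f1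
  have hgd : ∀ v, Gd q1 S g' v → Gd q S g v := by
    intro v hv lam hlam
    obtain ⟨D, hD1, hD2, hD3⟩ := hqr S m n J s g lam hm hmn hlam
    have hRB := RB_gZ (n := n) (J := J) (s := s) (g := g) hD1 hD2 (hD3 z hz)
    refine QB_mono ?_ (hv _ hRB)
    rw [e2]
    have := eval_mono q1 (show S + (qr.eval (S + lam) + lam) ≤ S + lam + qr.eval (S + lam) by omega)
    omega
  have hgp : ∀ v, Gd qp S g v → Gd q S g v := fun v hv lam hlam =>
    QB_mono (by rw [e2]; omega) (hv lam hlam)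
  have hg0 : ∀ r ∈ baseReg, r ≠ [2] → (∀ c < 3 * m, ∀ i < n + 1, r ≠ [0, c, i]) → g' r = 0 := by
    intro r _ h1 h2
    rw [hg', gZ, if_neg, if_neg h1]
    rintro ⟨h3, h4, h5, h6⟩
    exact h2 _ h5 _ h6 (reg3 h3 h4)
  have hgi : ∀ c < 3 * m, ∀ i < n + 1, V [80, c, i] = g' [0, c, i] := by
    intro c hc i hi
    rw [c6 c hc i hi, hg']
    simp only [gZ]
    rw [if_pos ⟨by simp, by simp, by simpa using hc, by simpa using hi⟩]
    rfl
  refine ⟨?_, ?_⟩
  · exact hZ (3 * m) (n + 1) g g' (Gd q S g) _ _ _ hg c1 (fun r hr => by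
      have := c2 r hr
      omega) c3 ⟨V, c4, fun I hI => ⟨(c5 I hI).1, hgp _ (c5 I hI).2⟩, hgi⟩ hgb.1 hg0 (hv_mono hgd f1)
  · change (pzP m n J s z ++ ((cmb Op.mul (dtE n (rE R)) (dtE (n + 1) (rE (R ++ [c])))).1.map
      (rzI (3 * m) (n + 1)))).length ≤ _
    rw [List.length_append, List.length_map, f2, e2]
    omega

end Pool.Agent.Y648.TP
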